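import Pool.Agent.H7.CT.HP

/-! # CT module BL1: the segment from `v` to `y` is crossed only by edges meeting the block

`InB b := T.Adj v b ∧ 0 < o v p b ∧ (b = l ∨ 0 < o v b l)`.
Proof. Suppose an edge without end in the block crosses `vy`; take one, `bc`, with `C.tau v y b c` minimal; name so that
`o v y b < 0 < o v y c` (`b` right, `c` left), then `0 < o b c v`, `o b c y < 0`, `0 < o v b c`. `Face b c a₀` (`face_exists`; `v` is left of
`b → c`). `near_face`: `a₀ = v`, or `v y` crosses `b a₀` or `c a₀` nearer, so (minimality) that edge meets the block: `a₀` is in the block.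
Note `0 < o v y l` (`Zn v l y`, type N: `o v l y < 0`).
* `a₀ = v`: `T.Adj v b`, `T.Adj v c`, `Face v b c`. `c` is in the block: `l` is not strictly in the sector `(b,c)`: `0 < o v b l` (if `0 < o v l c`: `b, y, l, c` in order) ... so
  `c = l` or `0 < o v c l`; `0 < o v p c` by `half_cone` (`c` in the cone `(y,l)`; or `c = l`).
* (i) `vy` crosses `b a₀`, `m := a₀` left of `v → y` (`0 < o v y m`; `b` is right): `o m b v < 0`, `0 < o m b y`.
  (i-a) `¬ T.Adj v c` (`c ≠ v`): `Zn v m c`, type N: `o v m c < 0`; if `m ≠ l`: `c` is in the cone `(y,m)` at `v`, `0 < o v p y`, `0 < o v p m`, so `0 < o v p c`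
   contradicting `hfirst m`. If `m = l`: again `0 < o v p c` (cone `(y,l)`), `c ≠ y`, so `0 < o l y c` by `hyf`. `sector` for `Face l b c` and the edge `l y`:
   `¬ (0 < o l b y ∧ 0 < o l y c)`; but `0 < o l b y`. Contradiction.
  (i-b) `T.Adj v c`, not in the block: `c ≠ l`; if `0 < o v c l` then `c` is in the cone `(y,l)`, so in the block: contradiction; so `0 < o v l c`.
   `m ≠ l`: `0 < o v m l`, `0 < o v l c`, and `0 < o v m c` (all in the half-plane left of `v → y`, `trans_half`); `m c` is an edge, `vl` does not cross it: `Ins v m c l`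
   (`cone_dich`); `l y` is an edge: by `tri_closed` `y ∈ {v,m,c}` or inside `vmc`, but `o v m y < 0` and `y ∉ N[v]`: contradiction.
   `m = l`: `sector` for `Face l b c`, edge `ly`, `0 < o l b y`: `o l y c < 0` (`y ≠ c`), so `0 < o l c y`. Then `gp_contra` at `l` for `v b c y`:
   `[v,b] > 0`, `[c,y] > 0`, `[v,c] < 0` (`0 < o v l c`), `[b,y] > 0`, `[v,y] > 0`, `[b,c] > 0`.
* (ii) `vy` crosses `c a₀`, `m := a₀` right of `v → y`, `m ≠ l` (`l` is left); `0 < o v m c` (crossing on the ray side). `c`: if `¬ T.Adj v c` then `Zn v m c`, type N contradiction. So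
  `T.Adj v c`, not in the block, `0 < o v l c` as in (i-b); `0 < o v m l`; `Ins v m c l`; the edge `ly`: `y` would be inside or a vertex of `vmc`, but `mc` crosses `vy` so `o m c y < 0`: contradiction. -/

open Classical

namespace CT

variable {V : Type}

theorem BL1_key [Finite V] {C : Cfg V} {T D : SimpleGraph V} (hs : Setup C T D) {v p l y : V}
    (hv : Iso C T D v) (hN : TypeN C T D v) (hl : T.Adj v l)
    (hpl : 0 < C.o v p l) (hy : Zn T D v l y) (hpy : 0 < C.o v p y)
    (hyf : ∀ z, Zn T D v l z → 0 < C.o v p z → z = y ∨ 0 < C.o l y z)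
    (hfirst : ∀ q, T.Adj v q → 0 < C.o v p q → 0 < C.o v q l →
      ∀ z, Zn T D v q z → ¬ 0 < C.o v p z)
    {b c : V} (hbc : D.Adj b c) (hcr : C.Cross v y b c) (hb : C.o v y b < 0)
    (hc : 0 < C.o v y c)
    (hnb : ¬ (T.Adj v b ∧ 0 < C.o v p b ∧ (b = l ∨ 0 < C.o v b l)))
    (hnc : ¬ (T.Adj v c ∧ 0 < C.o v p c ∧ (c = l ∨ 0 < C.o v c l)))
    (hmin : ∀ b' c', D.Adj b' c' → C.Cross v y b' c' → C.tau v y b' c' < C.tau v y b c →
      (T.Adj v b' ∧ 0 < C.o v p b' ∧ (b' = l ∨ 0 < C.o v b' l)) ∨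
      (T.Adj v c' ∧ 0 < C.o v p c' ∧ (c' = l ∨ 0 < C.o v c' l))) : False := by
  have hpl' : Plane C D := hs.mp.1
  have hyl : 0 < C.o v y l := by
    have := hN l y hl hy
    rw [C.o_swap' v l y] at this; linarith
  have hDl : D.Adj v l := hs.le hl
  -- signs of the crossing
  obtain ⟨hbcv, hbcy⟩ : 0 < C.o b c v ∧ C.o b c y < 0 := by
    rcases C.cross_pattern hcr with h | h
    · exact absurd h.1 (not_lt.mpr hb.le)
    · exact ⟨h.2.2.1, h.2.2.2⟩
  have hvbc : 0 < C.o v b c := by rw [C.o_cyc v b c]; exact hbcv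
  have hvby : 0 < C.o v b y := by rw [C.o_swap' v b y]; linarith
  have hcv : c ≠ v := (C.ne_of_o_pos hbcv).2.2
  have hvc : v ≠ c := hcv.symm
  have hvl : v ≠ l := hl.ne
  -- `c` not in the block, `c` a `T`-neighbour of `v`: `c` is beyond `l`
  have hbeyond : T.Adj v c → 0 < C.o v l c := by
    intro hTc
    by_cases hcl : c = l
    · subst hcl
      exact absurd ⟨hTc, hpl, Or.inl rfl⟩ hnc
    · rcases C.o_pos_or_neg hvl hvc (Ne.symm hcl) with h | h
      · exact h
      · exfalso
        have h2 : 0 < C.o v c l := by rw [C.o_swap' v c l]; linarith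
        have h3 : 0 < C.o v p c := C.half_cone hpy hpl hc h2 hyl
        exact hnc ⟨hTc, h3, Or.inr h2⟩
  obtain ⟨m, hm⟩ := face_exists C D hs.mp hbc hbcv
  have hcm : D.Adj c m := hm.2.1
  have hmb : D.Adj m b := hm.2.2.1
  rcases near_face C D hm hbcv hcr with h | h | h
  · -- the apex is `v`
    subst h
    have hf : Face C D v b c := hm.rot.rot
    have hTb : T.Adj v b := hv.2 b hf.1
    have hTc : T.Adj v c := hv.2 c hf.2.2.1.symm
    have h1 := hbeyond hTc
    have h2 : 0 < C.o v b l := C.half_cone hvby hvbc hyl h1 hc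
    exact sector C D hpl' hf hDl ⟨h2, h1⟩
  · -- the near side is `b m`
    obtain ⟨hcr2, htau⟩ := h
    have hInm : T.Adj v m ∧ 0 < C.o v p m ∧ (m = l ∨ 0 < C.o v m l) := by
      rcases hmin b m hmb.symm hcr2 htau with h | h
      · exact absurd h hnb
      · exact h
    obtain ⟨hTm, hpm, hml⟩ := hInm
    obtain ⟨hym, hbmv, hbmy⟩ : 0 < C.o v y m ∧ 0 < C.o b m v ∧ C.o b m y < 0 := by
      rcases C.cross_pattern hcr2 with h | h
      · exact absurd h.1 (not_lt.mpr hb.le)
      · exact ⟨h.2.1, h.2.2.1, h.2.2.2⟩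
    have hmby : 0 < C.o m b y := by rw [C.o_swap m b y]; linarith
    have hfm : Face C D m b c := hm.rot.rot
    by_cases hTc : T.Adj v c
    · have h1 := hbeyond hTc
      rcases hml with hml | hml
      · subst hml
        have h2 : ¬ 0 < C.o m y c := fun h => sector C D hpl' hfm hy.1 ⟨hmby, h⟩
        have hyc : y ≠ c := by
          rintro rfl
          exact hy.2.2 hTc
        have hmy : m ≠ y := hy.1.ne
        have h3 : C.o m y c < 0 := by
          rcases C.o_pos_or_neg hmy hcm.ne.symm hyc with h | h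
          · exact absurd h h2
          · exact h
        refine C.gp_contra (q := m) (a := v) (b := b) (c := c) (d := y) ?_ ?_ ?_ hmby ?_ hfm.2.2.2.1
        · rw [← C.o_cyc b m v]; exact hbmv
        · rw [C.o_swap' m c y]; linarith
        · rw [C.o_swap m v c]; linarith
        · have := hN m y hl hy
          rw [C.o_swap m v y]; linarith
      · have hmc : 0 < C.o v m c := C.trans_half hym hyl hc hml h1
        have hins : C.Ins v m c l := by
          rcases C.cone_dich hml h1 hmc with h | h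
          · exact h
          · exact absurd h (hpl' v l m c hDl hcm.symm)
        rcases tri_closed C D hpl' (hs.le hTm) hcm.symm (hs.le hTc).symm hins hy.1 with h | h | h | h
        · exact hy.2.1 h
        · subst h; exact hy.2.2 hTm
        · subst h; exact hy.2.2 hTc
        · have h4 := h.1
          rw [C.o_swap' v m y] at h4
          linarith
    · have hZ : Zn T D v m c := ⟨hcm.symm, hcv, hTc⟩
      have h1 : C.o v m c < 0 := hN m c hTm hZ
      have h2 : 0 < C.o v c m := by rw [C.o_swap' v c m]; linarith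
      have h3 : 0 < C.o v p c := C.half_cone hpy hpm hc h2 hym
      rcases hml with hml | hml
      · subst hml
        rcases hyf c hZ h3 with h | h
        · subst h; simp at hc
        · exact sector C D hpl' hfm hy.1 ⟨hmby, h⟩
      · exact hfirst m hTm hpm hml c hZ h3
  · -- the near side is `c m`
    obtain ⟨hcr2, htau⟩ := h
    have hInm : T.Adj v m ∧ 0 < C.o v p m ∧ (m = l ∨ 0 < C.o v m l) := by
      rcases hmin c m hcm hcr2 htau with h | h
      · exact absurd h hnc
      · exact h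
    obtain ⟨hTm, hpm, hml⟩ := hInm
    obtain ⟨hym, hcmv, hcmy⟩ : C.o v y m < 0 ∧ C.o c m v < 0 ∧ 0 < C.o c m y := by
      rcases C.cross_pattern hcr2 with h | h
      · exact ⟨h.2.1, h.2.2.1, h.2.2.2⟩
      · exact absurd h.1 (not_lt.mpr hc.le)
    have hml' : 0 < C.o v m l := by
      rcases hml with hml | hml
      · subst hml; linarith
      · exact hml
    have hmc : 0 < C.o v m c := by
      have e : C.o v m c = - C.o c m v := by rw [C.o_swap13 v m c]
      rw [e]; linarith
    have hTc : T.Adj v c := by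
      by_contra hTc
      have := hN m c hTm ⟨hcm.symm, hcv, hTc⟩
      linarith
    have h1 := hbeyond hTc
    have hins : C.Ins v m c l := by
      rcases C.cone_dich hml' h1 hmc with h | h
      · exact h
      · exact absurd h (hpl' v l m c hDl hcm.symm)
    rcases tri_closed C D hpl' (hs.le hTm) hcm.symm (hs.le hTc).symm hins hy.1 with h | h | h | h
    · exact hy.2.1 h
    · subst h; exact hy.2.2 hTm
    · subst h; exact hy.2.2 hTc
    · have h4 := h.2.1
      rw [C.o_swap m c y] at h4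
      linarith

theorem bl1 [Finite V] {C : Cfg V} {T D : SimpleGraph V} (hs : Setup C T D) {v p l y : V}
    (hv : Iso C T D v) (hN : TypeN C T D v) (hp : T.Adj v p) (hl : T.Adj v l)
    (hpl : 0 < C.o v p l) (hy : Zn T D v l y) (hpy : 0 < C.o v p y)
    (hyf : ∀ z, Zn T D v l z → 0 < C.o v p z → z = y ∨ 0 < C.o l y z)
    (hfirst : ∀ q, T.Adj v q → 0 < C.o v p q → 0 < C.o v q l →
      ∀ z, Zn T D v q z → ¬ 0 < C.o v p z) :
    ∀ b c, D.Adj b c → C.Cross v y b c →
      (T.Adj v b ∧ 0 < C.o v p b ∧ (b = l ∨ 0 < C.o v b l)) ∨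
      (T.Adj v c ∧ 0 < C.o v p c ∧ (c = l ∨ 0 < C.o v c l)) := by
  by_contra hcon
  let bad : Set (V × V) := {e | D.Adj e.1 e.2 ∧ C.Cross v y e.1 e.2 ∧
    ¬ ((T.Adj v e.1 ∧ 0 < C.o v p e.1 ∧ (e.1 = l ∨ 0 < C.o v e.1 l)) ∨
      (T.Adj v e.2 ∧ 0 < C.o v p e.2 ∧ (e.2 = l ∨ 0 < C.o v e.2 l)))}
  have hne : bad.Nonempty := by
    push Not at hcon
    obtain ⟨b, c, h1, h2, h3, h4⟩ := hcon
    refine ⟨(b, c), h1, h2, ?_⟩
    rintro (h | h)
    · rcases h.2.2 with h5 | h5
      · exact (h3 h.1 h.2.1).1 h5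
      · exact absurd h5 (not_lt.mpr (h3 h.1 h.2.1).2)
    · rcases h.2.2 with h5 | h5
      · exact (h4 h.1 h.2.1).1 h5
      · exact absurd h5 (not_lt.mpr (h4 h.1 h.2.1).2)
  obtain ⟨e, he, hmin⟩ := Set.exists_min_image bad (fun e => C.tau v y e.1 e.2)
    (Set.toFinite _) hne
  obtain ⟨b, c⟩ := e
  obtain ⟨h1, h2, h3⟩ := he
  simp only at h1 h2 h3
  rw [not_or] at h3
  have hmin' : ∀ b' c', D.Adj b' c' → C.Cross v y b' c' → C.tau v y b' c' < C.tau v y b c →
      (T.Adj v b' ∧ 0 < C.o v p b' ∧ (b' = l ∨ 0 < C.o v b' l)) ∨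
      (T.Adj v c' ∧ 0 < C.o v p c' ∧ (c' = l ∨ 0 < C.o v c' l)) := by
    intro b' c' g1 g2 g3
    by_contra g4
    have := hmin (b', c') ⟨g1, g2, g4⟩
    simp only at this
    linarith
  have hcrp := h2.1
  rcases C.cross_pattern h2 with h | h
  · -- `b` left, `c` right
    refine BL1_key hs hv hN hl hpl hy hpy hyf hfirst (b := c) (c := b) h1.symm
      (C.cross_symm34 h2) h.2.1 h.1 h3.2 h3.1 ?_
    intro b' c' g1 g2 g3
    apply hmin' b' c' g1 g2
    rw [tau_symm C v y b c]; exact g3
  · exact BL1_key hs hv hN hl hpl hy hpy hyf hfirst h1 h2 h.1 h.2.1 h3.1 h3.2 hmin'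

end CT
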