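import Pool.Agent.H7.CT.RepWalk

/-! # CT module BL2: replacement by `vy` when only edges meeting a set `B` of leaves at `v` are crossed

Proof. `T`-edges do not cross `vy`: one end is in `B`, so it is the edge `vb`. `D'` from `exists_rep`. `¬ Iso D' v`.
Case 1: some `u` with `Iso D' u`, `¬ Iso D u`. Then `Inner u`, `3 ≤ dg T u` (`iso_deg` in `D'`), some `D`-edge `uw ∉ T`; every such edge is not in `D'`, so it
crosses `vy`, so `B u` or `B w`; `B u` is impossible (`dg T u ≤ 1`). First alternative.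
Case 2: `hot_two` gives two different `e₁, e₂` hot in `D'`, not in `D`. For each: the `D`-steps of its walk are `D'`-steps (`step_persist`): if the base
crosses `vy` one of its ends is in `B`, a leaf at `v`, so the kept vertex of the step is `v`, contradicting `iso_avoid`. `hot_gain`: dead dart `δ`, apex `c`, and a
`D'`-step from `δ`. So `Face D δ.1 δ.2 c` is not a face of `D'` (`no_step_of_dead` in `D'`), so (`rep_face`) one of `δ.2 c`, `c δ.1` crosses `vy`, has an end in `B`;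
`B δ.1` or `B δ.2` would make `δ` incident to `v` (`iso_avoid`). So `B c`. -/

open Classical

namespace CT

variable {V : Type}

/-- the auxiliary statement on one dart -/
theorem BL2_one [Finite V] {C : Cfg V} {T D D' : SimpleGraph V} (hs : Setup C T D) {v y : V}
    (hv : Iso C T D v) (B : V → Prop) (hB : ∀ b, B b → LeafAt T v b)
    (hC : ∀ b c, D.Adj b c → C.Cross v y b c → B b ∨ B c)
    (hT : ∀ a b, T.Adj a b → ¬ C.Cross v y a b) (hr : Rep C T D D' v y) {e : V × V}
    (h1 : Hot C T D' e) (h2 : ¬ Hot C T D e) : ∃ d c, DeadAt C T D e d c ∧ B c := by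
  have hhd : IsHD C T e := h1.1
  have hper : ∀ d1 d2, Relation.ReflTransGen (Step C T D) e d1 → Step C T D d1 d2 →
      Step C T D' d1 d2 := by
    intro d1 d2 hre hst
    have ha1 := iso_avoid hs hv hhd hre
    have hT1 : T.Adj d1.1 d1.2 := hst.1
    apply step_persist hs hr hT hst
    · intro hcr
      rcases step_cases hs hst with ⟨e1, _, e3, e4, _, _⟩ | ⟨e1, _, _, _, _, _⟩
      · rcases hC _ _ e4 hcr with hb | hb
        · exact ha1.1 ((hB _ hb).2 _ hT1.symm)
        · exact ha1.1 ((hB _ hb).2 _ e3.symm)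
      · exact (C.cross_ne hcr).2.2.2.2.2 e1.symm
    · intro hcr
      rcases step_cases hs hst with ⟨e1, _, _, _, _, _⟩ | ⟨e1, _, e3, e4, _, _⟩
      · exact (C.cross_ne hcr).2.2.2.2.2 e1.symm
      · rcases hC _ _ e4 hcr with hb | hb
        · exact ha1.2 ((hB _ hb).2 _ hT1)
        · exact ha1.2 ((hB _ hb).2 _ e3)
  obtain ⟨δ, c, δ1, δ2, hd, hst, _, _, _⟩ := hot_gain hs hr.1 h1 h2 hper
  refine ⟨δ, c, hd, ?_⟩
  obtain ⟨_, hre, hf, hn1, hn2⟩ := hd
  have ha := iso_avoid hs hv hhd hre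
  have hTd : T.Adj δ.1 δ.2 := hst.1
  have hnf : ¬ Face C D' δ.1 δ.2 c := fun hf' => no_step_of_dead hr.1 hf' hn1 hn2 hst
  by_contra hBc
  apply hnf
  apply rep_face C T D D' hs hr hf (hT _ _ hTd)
  · intro hcr
    rcases hC _ _ hf.2.1 hcr with hb | hb
    · exact ha.1 ((hB _ hb).2 _ hTd.symm)
    · exact hBc hb
  · intro hcr
    rcases hC _ _ hf.2.2.1 hcr with hb | hb
    · exact hBc hb
    · exact ha.2 ((hB _ hb).2 _ hTd)

theorem bl2 [Finite V] {C : Cfg V} {T D : SimpleGraph V} (hm : Min C T D) {v y : V}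
    (hv : Iso C T D v) (B : V → Prop) (hB : ∀ b, B b → LeafAt T v b) (hy : y ≠ v)
    (hvy : ¬ T.Adj v y) (hC : ∀ b c, D.Adj b c → C.Cross v y b c → B b ∨ B c) :
    (∃ u, Inner C u ∧ ¬ Iso C T D u ∧ 3 ≤ dg T u ∧ (∃ w, D.Adj u w ∧ ¬ T.Adj u w) ∧
      ∀ w, D.Adj u w → ¬ T.Adj u w → B w) ∨
    (∃ e1 e2 d1 d2 c1 c2, e1 ≠ e2 ∧ DeadAt C T D e1 d1 c1 ∧ DeadAt C T D e2 d2 c2 ∧
      B c1 ∧ B c2) := by
  have hs : Setup C T D := hm.1
  have hT : ∀ a b, T.Adj a b → ¬ C.Cross v y a b := by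
    intro a b hab hcr
    rcases hC a b (hs.le hab) hcr with hb | hb
    · exact (C.cross_ne hcr).2.2.1 ((hB _ hb).2 _ hab).symm
    · exact (C.cross_ne hcr).2.1 ((hB _ hb).2 _ hab.symm).symm
  obtain ⟨D', hr⟩ := exists_rep C T D hs hy.symm hT
  have hnv : ¬ Iso C T D' v := fun h => hvy (h.2 _ hr.2.1)
  by_cases hcase : ∃ u, Iso C T D' u ∧ ¬ Iso C T D u
  · left
    obtain ⟨u, hu, hnu⟩ := hcase
    have hdeg : 3 ≤ dg T u := iso_deg hr.1 hu
    refine ⟨u, hu.1, hnu, hdeg, ?_, ?_⟩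
    · by_contra hcon
      push Not at hcon
      exact hnu ⟨hu.1, hcon⟩
    · intro w hw hTw
      have hcr : C.Cross v y u w := by
        by_contra hn
        exact hTw (hu.2 w (hr.2.2 _ _ hw hn))
      rcases hC _ _ hw hcr with hb | hb
      · exfalso
        have hsub : {w | T.Adj u w} ⊆ {v} := fun z hz => (hB _ hb).2 z hz
        have hle : dg T u ≤ 1 := by
          unfold dg
          calc {w | T.Adj u w}.ncard ≤ ({v} : Set V).ncard :=
                Set.ncard_le_ncard hsub (Set.finite_singleton v)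
            _ = 1 := Set.ncard_singleton v
        omega
      · exact hb
  · right
    push Not at hcase
    obtain ⟨e1, e2, hne, h1, h1', h2, h2'⟩ := hot_two hcase ⟨v, hv, hnv⟩ (hm.2 D' hr.1)
    obtain ⟨d1, c1, hd1, hc1⟩ := BL2_one hs hv B hB hC hT hr h1 h1'
    obtain ⟨d2, c2, hd2, hc2⟩ := BL2_one hs hv B hB hC hT hr h2 h2'
    exact ⟨e1, e2, d1, d2, c1, c2, hne, hd1, hd2, hc1, hc2⟩

end CT
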