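import Pool.Agent.H7.CT.Defs

/-! # Project CT: basic identities and mirror lemmas (proved) -/

open Classical

namespace CT

variable {V : Type}

namespace Cfg

variable (C : Cfg V)

theorem o_cyc (a b c : V) : C.o a b c = C.o b c a := by unfold o; ring
theorem o_cyc' (a b c : V) : C.o a b c = C.o c a b := by unfold o; ring
theorem o_swap (a b c : V) : C.o a b c = - C.o b a c := by unfold o; ring
theorem o_swap' (a b c : V) : C.o a b c = - C.o a c b := by unfold o; ring
theorem o_swap13 (a b c : V) : C.o a b c = - C.o c b a := by unfold o; ring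
@[simp] theorem o_aab (a b : V) : C.o a a b = 0 := by unfold o; ring
@[simp] theorem o_aba (a b : V) : C.o a b a = 0 := by unfold o; ring
@[simp] theorem o_baa (a b : V) : C.o b a a = 0 := by unfold o; ring

theorem o_ne {a b c : V} (h1 : a ≠ b) (h2 : a ≠ c) (h3 : b ≠ c) : C.o a b c ≠ 0 :=
  C.gp a b c h1 h2 h3

theorem o_pos_or_neg {a b c : V} (h1 : a ≠ b) (h2 : a ≠ c) (h3 : b ≠ c) :
    0 < C.o a b c ∨ C.o a b c < 0 := by
  rcases lt_trichotomy (C.o a b c) 0 with h | h | h
  · exact Or.inr h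
  · exact absurd h (C.o_ne h1 h2 h3)
  · exact Or.inl h

theorem ne_of_o_ne {a b c : V} (h : C.o a b c ≠ 0) : a ≠ b ∧ a ≠ c ∧ b ≠ c := by
  refine ⟨?_, ?_, ?_⟩ <;> rintro rfl <;> simp at h

theorem ne_of_o_pos {a b c : V} (h : 0 < C.o a b c) : a ≠ b ∧ a ≠ c ∧ b ≠ c :=
  C.ne_of_o_ne h.ne'

theorem ne_of_o_neg {a b c : V} (h : C.o a b c < 0) : a ≠ b ∧ a ≠ c ∧ b ≠ c :=
  C.ne_of_o_ne h.ne

/-- Grassmann–Plücker at `q` -/
theorem gpi (q a b c d : V) :
    C.o q a b * C.o q c d - C.o q a c * C.o q b d + C.o q a d * C.o q b c = 0 := by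
  unfold o; ring

/-- area additivity -/
theorem o_sum (a b c d : V) : C.o a b c = C.o d a b + C.o d b c + C.o d c a := by
  unfold o; ring

theorem cross_symm12 {a b c d : V} (h : C.Cross a b c d) : C.Cross b a c d := by
  obtain ⟨h1, h2⟩ := h
  refine ⟨?_, ?_⟩
  · rw [C.o_swap b a c, C.o_swap b a d]; linarith
  · linarith

theorem cross_symm34 {a b c d : V} (h : C.Cross a b c d) : C.Cross a b d c := by
  obtain ⟨h1, h2⟩ := h
  refine ⟨?_, ?_⟩
  · linarith
  · rw [C.o_swap d c a, C.o_swap d c b]; linarith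

theorem cross_symm {a b c d : V} (h : C.Cross a b c d) : C.Cross c d a b := ⟨h.2, h.1⟩

theorem cross_ne {a b c d : V} (h : C.Cross a b c d) :
    a ≠ b ∧ a ≠ c ∧ a ≠ d ∧ b ≠ c ∧ b ≠ d ∧ c ≠ d := by
  obtain ⟨h1, h2⟩ := h
  have e1 : C.o a b c ≠ 0 := by intro h; rw [h] at h1; linarith
  have e2 : C.o a b d ≠ 0 := by intro h; rw [h] at h1; linarith
  have e3 : C.o c d a ≠ 0 := by intro h; rw [h] at h2; linarith
  exact ⟨(C.ne_of_o_ne e1).1, (C.ne_of_o_ne e1).2.1, (C.ne_of_o_ne e2).2.1,
    (C.ne_of_o_ne e1).2.2, (C.ne_of_o_ne e2).2.2, (C.ne_of_o_ne e3).1⟩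

/-- `cross` from four strict signs -/
theorem cross_of {a b c d : V} (h1 : 0 < C.o a b c) (h2 : C.o a b d < 0) (h3 : 0 < C.o c d b)
    (h4 : C.o c d a < 0) : C.Cross a b c d :=
  ⟨mul_neg_of_pos_of_neg h1 h2, mul_neg_of_neg_of_pos h4 h3⟩

/-- orientation pattern of a crossing -/
theorem cross_pattern {a b c d : V} (h : C.Cross a b c d) :
    (0 < C.o a b c ∧ C.o a b d < 0 ∧ C.o c d a < 0 ∧ 0 < C.o c d b) ∨
    (C.o a b c < 0 ∧ 0 < C.o a b d ∧ 0 < C.o c d a ∧ C.o c d b < 0) := by
  obtain ⟨h1, h2⟩ := h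
  have hs := C.o_sum a b c d
  have hs2 := C.o_sum c d a b
  rcases lt_trichotomy (C.o a b c) 0 with h3 | h3 | h3
  · right
    have h4 : 0 < C.o a b d := by
      by_contra h; push Not at h
      nlinarith
    refine ⟨h3, h4, ?_⟩
    -- o c d a - o c d b = o a b d - o a b c ... > 0
    have h5 : C.o c d a - C.o c d b = C.o a b d - C.o a b c := by unfold o; ring
    rcases lt_trichotomy (C.o c d a) 0 with h6 | h6 | h6
    · exfalso
      have : 0 < C.o c d b := by
        by_contra h; push Not at h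
        nlinarith
      linarith
    · rw [h6] at h2; linarith
    · refine ⟨h6, ?_⟩
      by_contra h; push Not at h
      nlinarith
  · rw [h3] at h1; linarith
  · left
    have h4 : C.o a b d < 0 := by
      by_contra h; push Not at h
      nlinarith
    refine ⟨h3, h4, ?_⟩
    have h5 : C.o c d a - C.o c d b = C.o a b d - C.o a b c := by unfold o; ring
    rcases lt_trichotomy (C.o c d a) 0 with h6 | h6 | h6
    · refine ⟨h6, ?_⟩
      by_contra h; push Not at h
      nlinarith
    · rw [h6] at h2; linarith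
    · exfalso
      have : C.o c d b < 0 := by
        by_contra h; push Not at h
        nlinarith
      linarith

/-! ### Mirror image -/

@[simp] theorem mir_o (a b c : V) : C.mir.o a b c = - C.o a b c := by
  unfold o mir; ring

@[simp] theorem mir_mir : C.mir.mir = C := by
  cases C; simp [mir]

theorem mir_cross (a b c d : V) : C.mir.Cross a b c d ↔ C.Cross a b c d := by
  unfold Cross; simp only [mir_o]; constructor <;> rintro ⟨h1, h2⟩ <;> constructor <;> linarith

theorem mir_ins (a b c z : V) : C.mir.Ins a b c z ↔ C.Ins a c b z := by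
  unfold Ins; simp only [mir_o]
  rw [C.o_swap a b z, C.o_swap b c z, C.o_swap c a z]
  simp only [neg_neg]
  tauto

end Cfg

theorem Face.rot {C : Cfg V} {D : SimpleGraph V} {a b c : V} (h : Face C D a b c) :
    Face C D b c a := by
  obtain ⟨h1, h2, h3, h4, h5⟩ := h
  refine ⟨h2, h3, h1, by rw [← C.o_cyc]; exact h4, ?_⟩
  rintro z ⟨z1, z2, z3⟩
  exact h5 z ⟨z3, z1, z2⟩

theorem Face.ne {C : Cfg V} {D : SimpleGraph V} {a b c : V} (h : Face C D a b c) :
    a ≠ b ∧ a ≠ c ∧ b ≠ c := C.ne_of_o_pos h.2.2.2.1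

theorem face_mir {C : Cfg V} {D : SimpleGraph V} {a b c : V} :
    Face C.mir D a b c ↔ Face C D a c b := by
  unfold Face
  simp only [Cfg.mir_o, Cfg.mir_ins]
  rw [C.o_swap' a b c]
  simp only [neg_neg]
  constructor
  · rintro ⟨h1, h2, h3, h4, h5⟩
    exact ⟨h3.symm, h2.symm, h1.symm, h4, h5⟩
  · rintro ⟨h1, h2, h3, h4, h5⟩
    exact ⟨h3.symm, h2.symm, h1.symm, h4, h5⟩

theorem plane_mir {C : Cfg V} {D : SimpleGraph V} : Plane C.mir D ↔ Plane C D := by
  unfold Plane; simp only [Cfg.mir_cross]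

theorem maxPlane_mir {C : Cfg V} {D : SimpleGraph V} : MaxPlane C.mir D ↔ MaxPlane C D := by
  unfold MaxPlane; simp only [Cfg.mir_cross, plane_mir]

theorem he_mir {C : Cfg V} {a b : V} : HE C.mir a b ↔ HE C b a := by
  unfold HE
  simp only [Cfg.mir_o]
  constructor
  · intro h z hz
    apply h z
    rw [C.o_swap a b z, neg_neg]; exact hz
  · intro h z hz
    apply h z
    rw [C.o_swap b a z]; exact hz

theorem inner_mir {C : Cfg V} {v : V} : Inner C.mir v ↔ Inner C v := by
  unfold Inner
  simp only [Cfg.mir_o, Left.neg_pos_iff, Left.neg_neg_iff]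
  constructor <;> intro h b hb <;> exact ⟨(h b hb).2, (h b hb).1⟩

theorem iso_mir {C : Cfg V} {T D : SimpleGraph V} {v : V} : Iso C.mir T D v ↔ Iso C T D v := by
  unfold Iso; rw [inner_mir]

theorem setup_mir {C : Cfg V} {T D : SimpleGraph V} : Setup C.mir T D ↔ Setup C T D := by
  constructor
  · intro h; exact ⟨h.tree, maxPlane_mir.mp h.mp, h.le, h.three⟩
  · intro h; exact ⟨h.tree, maxPlane_mir.mpr h.mp, h.le, h.three⟩

theorem uProp_mir {C : Cfg V} {T D : SimpleGraph V} {v : V} :
    UProp C.mir T D v ↔ UProp C T D v := by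
  unfold UProp; simp only [Cfg.mir_cross]

theorem typeN_mir {C : Cfg V} {T D : SimpleGraph V} {v : V} :
    TypeN C.mir T D v ↔ TypeP C T D v := by
  unfold TypeN TypeP; simp only [Cfg.mir_o, Left.neg_neg_iff]

theorem typeP_mir {C : Cfg V} {T D : SimpleGraph V} {v : V} :
    TypeP C.mir T D v ↔ TypeN C T D v := by
  unfold TypeN TypeP; simp only [Cfg.mir_o, Left.neg_pos_iff]

theorem isHD_mir {C : Cfg V} {T : SimpleGraph V} {d : V × V} :
    IsHD C.mir T d.swap ↔ IsHD C T d := by
  unfold IsHD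
  simp only [he_mir, Prod.fst_swap, Prod.snd_swap]
  rw [T.adj_comm]

theorem step_mir {C : Cfg V} {T D : SimpleGraph V} {d d' : V × V} :
    Step C.mir T D d.swap d'.swap ↔ Step C T D d d' := by
  unfold Step
  simp only [face_mir, Prod.fst_swap, Prod.snd_swap]
  constructor
  · rintro ⟨h, c, hf, h2⟩
    refine ⟨h.symm, c, ?_, ?_⟩
    · exact hf.rot.rot
    · rcases h2 with ⟨h3, h4⟩ | ⟨h3, h4⟩
      · right; refine ⟨h3.symm, ?_⟩
        have := congrArg Prod.swap h4; simpa using this
      · left; refine ⟨h3.symm, ?_⟩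
        have := congrArg Prod.swap h4; simpa using this
  · rintro ⟨h, c, hf, h2⟩
    refine ⟨h.symm, c, ?_, ?_⟩
    · exact hf.rot
    · rcases h2 with ⟨h3, h4⟩ | ⟨h3, h4⟩
      · right; refine ⟨h3.symm, ?_⟩
        subst h4; rfl
      · left; refine ⟨h3.symm, ?_⟩
        subst h4; rfl

theorem reach_mir_aux {C C' : Cfg V} {T D : SimpleGraph V}
    (hs : ∀ d d', Step C T D d d' → Step C' T D d.swap d'.swap) {d d' : V × V}
    (h : Relation.ReflTransGen (Step C T D) d d') :
    Relation.ReflTransGen (Step C' T D) d.swap d'.swap := by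
  induction h with
  | refl => exact Relation.ReflTransGen.refl
  | tail _ h2 ih => exact ih.tail (hs _ _ h2)

theorem reach_mir {C : Cfg V} {T D : SimpleGraph V} {d d' : V × V} :
    Relation.ReflTransGen (Step C.mir T D) d.swap d'.swap ↔
      Relation.ReflTransGen (Step C T D) d d' := by
  constructor
  · intro h
    have := reach_mir_aux (C := C.mir) (C' := C) (T := T) (D := D)
      (fun a b hab => (step_mir (C := C) (T := T) (D := D) (d := a.swap) (d' := b.swap)).mp
          (by simpa using hab)) h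
    simpa using this
  · intro h
    exact reach_mir_aux (fun a b hab => step_mir.mpr hab) h

theorem hot_mir {C : Cfg V} {T D : SimpleGraph V} {d : V × V} :
    Hot C.mir T D d.swap ↔ Hot C T D d := by
  unfold Hot
  rw [isHD_mir]
  constructor
  · rintro ⟨h, d', h1, h2⟩
    refine ⟨h, d'.swap, ?_, ?_⟩
    · have := (reach_mir (C := C) (T := T) (D := D) (d := d) (d' := d'.swap)).mp (by simpa using h1)
      exact this
    · rw [he_mir] at h2; simpa using h2
  · rintro ⟨h, d', h1, h2⟩
    refine ⟨h, d'.swap, reach_mir.mpr h1, ?_⟩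
    rw [he_mir]; simpa using h2

theorem deadAt_mir {C : Cfg V} {T D : SimpleGraph V} {e d : V × V} {c : V} :
    DeadAt C.mir T D e.swap d.swap c ↔ DeadAt C T D e d c := by
  unfold DeadAt
  rw [isHD_mir, reach_mir, face_mir]
  simp only [Prod.fst_swap, Prod.snd_swap]
  constructor
  · rintro ⟨h1, h2, h3, h4, h5⟩
    exact ⟨h1, h2, h3.rot.rot, fun h => h5 h.symm, fun h => h4 h.symm⟩
  · rintro ⟨h1, h2, h3, h4, h5⟩
    exact ⟨h1, h2, h3.rot, fun h => h5 h.symm, fun h => h4 h.symm⟩

theorem n2_mir {C : Cfg V} {T D : SimpleGraph V} : N2 C.mir T D = N2 C T D := by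
  unfold N2
  congr 1
  · simp only [iso_mir]
  · have : {d : V × V | Hot C.mir T D d} = Prod.swap '' {d : V × V | Hot C T D d} := by
      ext d
      constructor
      · intro h
        refine ⟨d.swap, ?_, by simp⟩
        have := (hot_mir (C := C) (T := T) (D := D) (d := d.swap)).mp (by simpa using h)
        exact this
      · rintro ⟨e, he, rfl⟩
        exact hot_mir.mpr he
    rw [this, Set.ncard_image_of_injective _ Prod.swap_injective]

theorem min_mir {C : Cfg V} {T D : SimpleGraph V} : Min C.mir T D ↔ Min C T D := by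
  unfold Min
  simp only [setup_mir, n2_mir]

theorem crit_mir {C : Cfg V} {T D : SimpleGraph V} {v u : V} :
    Crit C.mir T D v u ↔ Crit C T D v u := by
  unfold Crit
  simp only [inner_mir, iso_mir]

theorem dd_mir {C : Cfg V} {T D : SimpleGraph V} {v : V} {e : V × V} :
    DD C.mir T D v e.swap ↔ DD C T D v e := by
  unfold DD
  constructor
  · rintro ⟨d, c, h1, h2⟩
    exact ⟨d.swap, c, deadAt_mir.mp (by simpa using h1), h2⟩
  · rintro ⟨d, c, h1, h2⟩
    exact ⟨d.swap, c, deadAt_mir.mpr h1, h2⟩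

theorem dd_mir_ncard {C : Cfg V} {T D : SimpleGraph V} {v : V} :
    {e | DD C.mir T D v e}.ncard = {e | DD C T D v e}.ncard := by
  have : {e | DD C.mir T D v e} = Prod.swap '' {e | DD C T D v e} := by
    ext e
    constructor
    · intro h
      refine ⟨e.swap, ?_, by simp⟩
      exact dd_mir.mp (by simpa using h)
    · rintro ⟨e', he, rfl⟩
      exact dd_mir.mpr he
  rw [this, Set.ncard_image_of_injective _ Prod.swap_injective]


/-! ### cone lemmas at a vertex `q`; write `[x,y] = o q x y` -/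

namespace Cfg

variable (C : Cfg V)

/-- `x` in the cone from `y` to `m`, both `y` and `m` left of `q → p`: `x` is left of `q → p` -/
theorem half_cone {q p y m x : V} (h1 : 0 < C.o q p y) (h2 : 0 < C.o q p m)
    (h3 : 0 < C.o q y x) (h4 : 0 < C.o q x m) (h5 : 0 < C.o q y m) : 0 < C.o q p x := by
  have h := C.gpi q p y x m
  have h6 : 0 < C.o q p x * C.o q y m := by nlinarith [mul_pos h1 h4, mul_pos h2 h3]
  exact (pos_iff_pos_of_mul_pos h6).mpr h5

/-- same for the right side -/
theorem half_cone' {q p y m x : V} (h1 : C.o q p y < 0) (h2 : C.o q p m < 0)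
    (h3 : 0 < C.o q y x) (h4 : 0 < C.o q x m) (h5 : 0 < C.o q y m) : C.o q p x < 0 := by
  have h := C.gpi q p y x m
  have h6 : C.o q p x * C.o q y m < 0 := by
    nlinarith [mul_neg_of_neg_of_pos h1 h4, mul_neg_of_neg_of_pos h2 h3]
  by_contra h7; push Not at h7
  nlinarith [mul_nonneg h7 h5.le]

/-- transitivity of the angular order in an open half-plane -/
theorem trans_half {q p a b c : V} (h1 : 0 < C.o q p a) (h2 : 0 < C.o q p b)
    (h3 : 0 < C.o q p c) (h4 : 0 < C.o q a b) (h5 : 0 < C.o q b c) : 0 < C.o q a c := by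
  have h := C.gpi q p a b c
  have h6 : 0 < C.o q p b * C.o q a c := by nlinarith [mul_pos h1 h5, mul_pos h3 h4]
  exact (pos_iff_pos_of_mul_pos h6).mp h2

/-- transitivity of the angular order in an open half-plane (right side) -/
theorem trans_half' {q p a b c : V} (h1 : C.o q p a < 0) (h2 : C.o q p b < 0)
    (h3 : C.o q p c < 0) (h4 : 0 < C.o q a b) (h5 : 0 < C.o q b c) : 0 < C.o q a c := by
  have h := C.gpi q p a b c
  have h6 : C.o q p b * C.o q a c < 0 := by
    nlinarith [mul_neg_of_neg_of_pos h1 h5, mul_neg_of_neg_of_pos h3 h4]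
  by_contra h7; push Not at h7
  nlinarith [mul_nonneg_of_nonpos_of_nonpos h2.le h7]

/-- contradiction pattern: signs `+ +`, `- +`, `+ +` in the Grassmann–Plücker relation -/
theorem gp_contra {q a b c d : V} (h1 : 0 < C.o q a b) (h2 : 0 < C.o q c d)
    (h3 : C.o q a c < 0) (h4 : 0 < C.o q b d) (h5 : 0 < C.o q a d) (h6 : 0 < C.o q b c) :
    False := by
  have h := C.gpi q a b c d
  nlinarith [mul_pos h1 h2, mul_neg_of_neg_of_pos h3 h4, mul_pos h5 h6]

/-- barycentric identity -/
theorem o_bary (a b c p q x : V) :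
    C.o a b c * C.o p q x =
      C.o b c x * C.o p q a + C.o c a x * C.o p q b + C.o a b x * C.o p q c := by
  unfold o; ring

/-- a point inside `abc` is strictly left of `p → q` if `a,b,c` are weakly left, one strictly -/
theorem ins_left {a b c p q x : V} (h : C.Ins a b c x) (ha : 0 ≤ C.o p q a)
    (hb : 0 ≤ C.o p q b) (hc : 0 ≤ C.o p q c)
    (hs : 0 < C.o p q a ∨ 0 < C.o p q b ∨ 0 < C.o p q c) : 0 < C.o p q x := by
  obtain ⟨h1, h2, h3⟩ := h
  have h4 : 0 < C.o a b c := by
    have := C.o_sum a b c x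
    have e1 : C.o x a b = C.o a b x := C.o_cyc x a b
    have e2 : C.o x b c = C.o b c x := C.o_cyc x b c
    have e3 : C.o x c a = C.o c a x := C.o_cyc x c a
    linarith
  have h5 := C.o_bary a b c p q x
  have h6 : 0 < C.o a b c * C.o p q x := by
    rw [h5]
    rcases hs with hs | hs | hs
    · have := mul_pos h2 hs
      have := mul_nonneg h3.le hb
      have := mul_nonneg h1.le hc
      linarith
    · have := mul_nonneg h2.le ha
      have := mul_pos h3 hs
      have := mul_nonneg h1.le hc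
      linarith
    · have := mul_nonneg h2.le ha
      have := mul_nonneg h3.le hb
      have := mul_pos h1 hs
      linarith
  exact (pos_iff_pos_of_mul_pos h6).mp h4

/-- a point in the cone `a,b` at `v` is inside the triangle or beyond `ab` -/
theorem cone_dich {v a b x : V} (h1 : 0 < C.o v a x) (h2 : 0 < C.o v x b)
    (h3 : 0 < C.o v a b) : C.Ins v a b x ∨ C.Cross v x a b := by
  have hn1 := C.ne_of_o_pos h1
  have hn2 := C.ne_of_o_pos h2
  have hn3 := C.ne_of_o_pos h3
  rcases C.o_pos_or_neg hn3.2.2 hn1.2.2 hn2.2.2.symm with h | h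
  · left
    refine ⟨h1, h, ?_⟩
    rw [C.o_cyc b v x]; exact h2
  · right
    constructor
    · have e : C.o v x a = - C.o v a x := by rw [C.o_swap']
      rw [e]; nlinarith
    · have e : C.o a b v = C.o v a b := by rw [C.o_cyc' a b v]
      rw [e]; nlinarith

end Cfg

end CT
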