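import Pool.Agent.H7.CT.Strip1

/-! # CT module Blk: blockers of strips, charging

`On e v`: `v` is an end of a dart on the walk of `e`. `BlkBy e e'`: the dead hull dart `e'` (dead dart `δ`, apex `c`) blocks the hot dart `e`: `c` and one end of `δ` are on the strip of `e`.
* `on_strip`: for a strip `On (d 0) v` iff `v` is some `x_j` or `y_j` (`HWalk.of_reach`).
* `blk_mir`, `blk_rev`: mirror and time reversal.
* `charge`: at most 4 hot darts are blocked by a given `e'`. Let `δ = (α,β)`, `c` its data (`deadAt_unique`). `α ≠ c`; `tree_sep` gives a `T`-edge `g` and cut function `f` with `f α ≠ f c`. If `c, α` are on the strip of `e` then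
  `g` is an edge of the strip (`strip_conn`). If `g` (as a dart in one of its two orientations) is on the walks of `e₁` and `e₂`: same orientation: `e₁ = e₂` (`hd_eq_of_meet`); opposite orientation: `e₂` is the partner of `e₁` (its walk reversed). So at most 2 hot darts `e` with
  `α, c` on the strip, and at most 2 with `β, c` on it.
* `blk_disj`: the apex `c` of a blocker is not a leaf at an isolated vertex: the `T`-dart of the strip at `c` would be incident to `v` (`iso_avoid`). -/

open Classical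

namespace CT

variable {V : Type}

def On (C : Cfg V) (T D : SimpleGraph V) (e : V × V) (v : V) : Prop :=
  ∃ d', Relation.ReflTransGen (Step C T D) e d' ∧ (d'.1 = v ∨ d'.2 = v)

def BlkBy (C : Cfg V) (T D : SimpleGraph V) (e e' : V × V) : Prop :=
  ∃ δ c, DeadAt C T D e' δ c ∧ On C T D e c ∧ (On C T D e δ.1 ∨ On C T D e δ.2)

theorem on_strip {C : Cfg V} {T D : SimpleGraph V} (hs : Setup C T D) {d : ℕ → V × V} {r : ℕ}
    (h : Strip C T D d r) (v : V) :
    On C T D (d 0) v ↔ ∃ j, j ≤ r ∧ ((d j).1 = v ∨ (d j).2 = v) := by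
  constructor
  · rintro ⟨d', hr, hv⟩
    obtain ⟨j, hj, rfl⟩ := h.hwalk.of_reach hs hr
    exact ⟨j, hj, hv⟩
  · rintro ⟨j, hj, hv⟩
    exact ⟨d j, h.hwalk.reach (Nat.zero_le j) hj, hv⟩

theorem Blk_on_mir {C : Cfg V} {T D : SimpleGraph V} {e : V × V} {v : V} :
    On C.mir T D e.swap v ↔ On C T D e v := by
  constructor
  · rintro ⟨d', hr, hv⟩
    refine ⟨d'.swap, ?_, ?_⟩
    · have := (reach_mir (C := C) (T := T) (D := D) (d := e) (d' := d'.swap)).mp (by simpa using hr)
      exact this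
    · rcases hv with hv | hv
      · right; exact hv
      · left; exact hv
  · rintro ⟨d', hr, hv⟩
    refine ⟨d'.swap, reach_mir.mpr hr, ?_⟩
    rcases hv with hv | hv
    · right; exact hv
    · left; exact hv

theorem Blk_dead_mir {C : Cfg V} {T D : SimpleGraph V} {e d : V × V} {c : V}
    (h : DeadAt C.mir T D e d c) : DeadAt C T D e.swap d.swap c :=
  deadAt_mir.mp (by simpa using h)

theorem blk_mir {C : Cfg V} {T D : SimpleGraph V} {e e' : V × V} :
    BlkBy C.mir T D e.swap e'.swap ↔ BlkBy C T D e e' := by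
  constructor
  · rintro ⟨δ, c, h1, h2, h3⟩
    refine ⟨δ.swap, c, ?_, Blk_on_mir.mp h2, ?_⟩
    · have := Blk_dead_mir h1
      simpa using this
    · rcases h3 with h3 | h3
      · right; exact Blk_on_mir.mp h3
      · left; exact Blk_on_mir.mp h3
  · rintro ⟨δ, c, h1, h2, h3⟩
    refine ⟨δ.swap, c, deadAt_mir.mpr h1, Blk_on_mir.mpr h2, ?_⟩
    rcases h3 with h3 | h3
    · right; exact Blk_on_mir.mpr h3
    · left; exact Blk_on_mir.mpr h3

theorem blk_rev {C : Cfg V} {T D : SimpleGraph V} (hs : Setup C T D) {d : ℕ → V × V} {r : ℕ}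
    (h : Strip C T D d r) {e' : V × V} (hb : BlkBy C.mir T D (d r) e') :
    BlkBy C T D (d 0) e'.swap := by
  have hs' : Setup C.mir T D := setup_mir.mpr hs
  have hrev := strip_rev h
  have hon : ∀ v, On C.mir T D (d r) v → On C T D (d 0) v := by
    intro v hv
    have h1 : On C.mir T D ((fun j => d (r - j)) 0) v := by
      simpa using hv
    obtain ⟨j, hj, hv'⟩ := (on_strip hs' hrev v).mp h1
    exact (on_strip hs h v).mpr ⟨r - j, Nat.sub_le _ _, hv'⟩
  obtain ⟨δ, c, h1, h2, h3⟩ := hb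
  refine ⟨δ.swap, c, Blk_dead_mir h1, hon c h2, ?_⟩
  rcases h3 with h3 | h3
  · right; exact hon _ h3
  · left; exact hon _ h3

/-- a hot dart whose strip contains two given different vertices meets a given edge -/
theorem Blk_meet [Finite V] {C : Cfg V} {T D : SimpleGraph V} (hs : Setup C T D) {u c : V}
    (huc : u ≠ c) : ∃ a b : V, ∀ e, Hot C T D e → On C T D e u → On C T D e c →
      Relation.ReflTransGen (Step C T D) e (a, b) ∨
        Relation.ReflTransGen (Step C T D) e (b, a) := by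
  obtain ⟨a, b, hab, f, hfa, hfb, hf, hsep⟩ := tree_sep T hs.tree huc
  refine ⟨a, b, fun e he hu hc => ?_⟩
  obtain ⟨d, r, hd, rfl⟩ := exists_strip hs he
  obtain ⟨i, hi, hiu⟩ := (on_strip hs hd u).mp hu
  obtain ⟨j, hj, hjc⟩ := (on_strip hs hd c).mp hc
  by_contra hcon
  push Not at hcon
  have hall : ∀ k, k ≤ r → (f (d k).1 ↔ f (d k).2) := by
    intro k hk
    have hr := hd.hwalk.reach (Nat.zero_le k) hk
    refine hf _ _ (hd.hwalk.adj hk) ?_ ?_
    · rintro ⟨h1, h2⟩
      apply hcon.1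
      have : d k = (a, b) := Prod.ext h1 h2
      rw [← this]; exact hr
    · rintro ⟨h1, h2⟩
      apply hcon.2
      have : d k = (b, a) := Prod.ext h1 h2
      rw [← this]; exact hr
  have hc1 := strip_conn hd f hall hi hj
  have hc2 := strip_conn hd f hall hj hi
  apply hsep
  rcases hiu with hiu | hiu <;> rcases hjc with hjc | hjc
  · rw [← hiu, ← hjc]; exact hc1.1
  · rw [← hiu, ← hjc]; exact hc1.2.2
  · rw [← hiu, ← hjc]; exact hc2.2.2.symm
  · rw [← hiu, ← hjc]; exact hc1.2.1

theorem Blk_two [Finite V] {C : Cfg V} {T D : SimpleGraph V} (hs : Setup C T D) {u c : V}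
    (huc : u ≠ c) : {e | Hot C T D e ∧ On C T D e u ∧ On C T D e c}.ncard ≤ 2 := by
  obtain ⟨a, b, hab⟩ := Blk_meet hs huc
  have hsing : ∀ x : V × V,
      {e | Hot C T D e ∧ Relation.ReflTransGen (Step C T D) e x}.ncard ≤ 1 := by
    intro x
    rw [Set.ncard_le_one (Set.toFinite _)]
    intro e1 h1 e2 h2
    exact hd_eq_of_meet hs h1.1.1 h2.1.1 h1.2 h2.2
  have hsub : {e | Hot C T D e ∧ On C T D e u ∧ On C T D e c} ⊆
      {e | Hot C T D e ∧ Relation.ReflTransGen (Step C T D) e (a, b)} ∪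
      {e | Hot C T D e ∧ Relation.ReflTransGen (Step C T D) e (b, a)} := by
    rintro e ⟨h1, h2, h3⟩
    rcases hab e h1 h2 h3 with h | h
    · left; exact ⟨h1, h⟩
    · right; exact ⟨h1, h⟩
  have h1 := Set.ncard_le_ncard hsub (Set.toFinite _)
  have h2 := Set.ncard_union_le
    {e | Hot C T D e ∧ Relation.ReflTransGen (Step C T D) e (a, b)}
    {e | Hot C T D e ∧ Relation.ReflTransGen (Step C T D) e (b, a)}
  have h3 := hsing (a, b)
  have h4 := hsing (b, a)
  omega

theorem charge [Finite V] {C : Cfg V} {T D : SimpleGraph V} (hs : Setup C T D) (e' : V × V) :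
    {e | Hot C T D e ∧ BlkBy C T D e e'}.ncard ≤ 4 := by
  by_cases hdead : ∃ δ c, DeadAt C T D e' δ c
  · obtain ⟨δ, c, hδ⟩ := hdead
    have hne := hδ.2.2.1.ne
    have hsub : {e | Hot C T D e ∧ BlkBy C T D e e'} ⊆
        {e | Hot C T D e ∧ On C T D e δ.1 ∧ On C T D e c} ∪
        {e | Hot C T D e ∧ On C T D e δ.2 ∧ On C T D e c} := by
      rintro e ⟨h1, δ', c', h2, h3, h4⟩
      obtain ⟨rfl, rfl⟩ := deadAt_unique hs hδ h2
      rcases h4 with h4 | h4
      · left; exact ⟨h1, h4, h3⟩
      · right; exact ⟨h1, h4, h3⟩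
    have h1 := Set.ncard_le_ncard hsub (Set.toFinite _)
    have h2 := Set.ncard_union_le
      {e | Hot C T D e ∧ On C T D e δ.1 ∧ On C T D e c}
      {e | Hot C T D e ∧ On C T D e δ.2 ∧ On C T D e c}
    have h3 := Blk_two hs hne.2.1
    have h4 := Blk_two hs hne.2.2
    omega
  · have : {e | Hot C T D e ∧ BlkBy C T D e e'} = ∅ := by
      rw [Set.eq_empty_iff_forall_notMem]
      rintro e ⟨_, δ, c, h, _⟩
      exact hdead ⟨δ, c, h⟩
    rw [this]
    simp

theorem Blk_adj {C : Cfg V} {T D : SimpleGraph V} {e d : V × V} (he : IsHD C T e)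
    (h : Relation.ReflTransGen (Step C T D) e d) : T.Adj d.1 d.2 := by
  induction h with
  | refl => exact he.1
  | tail _ h2 _ => exact step_adj h2

theorem blk_disj {C : Cfg V} {T D : SimpleGraph V} (hs : Setup C T D) {v : V}
    (hv : Iso C T D v) {e e' : V × V} (he : Hot C T D e) (hb : BlkBy C T D e e') :
    ¬ DD C T D v e' := by
  rintro ⟨d, c, hd, hl⟩
  obtain ⟨δ, c', h1, h2, _⟩ := hb
  obtain ⟨_, rfl⟩ := deadAt_unique hs hd h1
  obtain ⟨d', hr, hc⟩ := h2
  have hadj := Blk_adj he.1 hr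
  have hav := iso_avoid hs hv he.1 hr
  rcases hc with hc | hc
  · rw [hc] at hadj
    exact hav.2 (hl.2 _ hadj)
  · rw [hc] at hadj
    exact hav.1 (hl.2 _ hadj.symm)

end CT
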