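import Pool.Agent.H7.CT.Turn
import Pool.Agent.H7.CT.BL1
import Pool.Agent.H7.CT.BL2

/-! # CT module Block: the block lemma

`BlockConc C T D v p`: a non-leaf neighbour left of `v → p`, or a critical vertex all of whose `D \ T`-neighbours are left of `v → p`, or two
dead hull darts with apexes leaves at `v` left of `v → p`.
Proof. `S = {q | T.Adj v q ∧ 0 < o v p q ∧ ∃ z, Zn v q z ∧ 0 < o v p z}` is nonempty (`turn`), `l` its first element (`exists_first`).
`InB b := T.Adj v b ∧ 0 < o v p b ∧ (b = l ∨ 0 < o v b l)`. If some block element is not a leaf: first alternative. Otherwise let `y` be the first in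
counterclockwise rotation at `l` from `v` of `{z | Zn v l z ∧ 0 < o v p z}`: `0 < o l y z` for the others (`exists_first` at `l`, reference `v`: type N
gives `o v l z < 0`, i.e. `0 < o l v z`). `bl1`, `bl2` with `B := InB`. Second alternative of `bl2`: done. First alternative: `u`; it remains to show that no `v'` with `Iso v'` is
adjacent to `u`. `iso_faces` for `v'`, `u`: `Face v' u c₁`, `Face v' c₂ u`, `u c₁, u c₂ ∈ D \ T`, so `c₁, c₂ ∈ B`, leaves at `v`, adjacent to `v'`: `v' = v`. `u ∉ B`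
(`3 ≤ dg T u`). `c₂ ∈ B`: if `c₂ ≠ l`, `0 < o v c₂ l`, `l` is not in the sector `(c₂,u)`, `l ≠ u`, so `0 < o v u l`, `u` in the cone `(c₂,l)`, `0 < o v p u` (`half_cone`): `u ∈ B`,
contradiction. So `c₂ = l`. `c₁ ∈ B`, `p` is not in the sector `(u,c₁)`: `u = p` or `0 < o v p u`; in the second case `0 < o v u l` (`trans_half` or `c₁ = l`), `u ∈ B`, contradiction.
So `u = p`, `Face v l p`, `0 < o v l p` contradicts `0 < o v p l`. -/

open Classical

namespace CT

variable {V : Type}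

def BlockConc (C : Cfg V) (T D : SimpleGraph V) (v p : V) : Prop :=
  (∃ q, NL T v q ∧ 0 < C.o v p q) ∨
  (∃ u, Crit C T D v u ∧ ∀ w, D.Adj u w → ¬ T.Adj u w → 0 < C.o v p w) ∨
  (∃ e1 e2 d1 d2 c1 c2, e1 ≠ e2 ∧ DeadAt C T D e1 d1 c1 ∧ DeadAt C T D e2 d2 c2 ∧
    LeafAt T v c1 ∧ LeafAt T v c2 ∧ 0 < C.o v p c1 ∧ 0 < C.o v p c2)

theorem block [Finite V] {C : Cfg V} {T D : SimpleGraph V} (hm : Min C T D) {v p : V}
    (hv : Iso C T D v) (hN : TypeN C T D v) (hI : ∀ q, T.Adj v q → Inner C q)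
    (hp : T.Adj v p) : BlockConc C T D v p := by
  have hs : Setup C T D := hm.1
  obtain ⟨q0, z0, hq0, hq0p, hz0, hz0p⟩ := turn hs hv hN hI hp
  obtain ⟨l, ⟨hlT, hpl, z1, hz1, hz1p⟩, hlmin⟩ := exists_first C v p
    {q | T.Adj v q ∧ 0 < C.o v p q ∧ ∃ z, Zn T D v q z ∧ 0 < C.o v p z}
    ⟨q0, hq0, hq0p, z0, hz0, hz0p⟩ (fun x hx => hx.2.1)
  obtain ⟨y, ⟨hy, hpy⟩, hymin⟩ := exists_first C l v {z | Zn T D v l z ∧ 0 < C.o v p z}
    ⟨z1, hz1, hz1p⟩ (fun x hx => by
      have h1 := hN l x hlT hx.1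
      rw [C.o_swap]
      linarith)
  have hfirst : ∀ q, T.Adj v q → 0 < C.o v p q → 0 < C.o v q l →
      ∀ z, Zn T D v q z → ¬ 0 < C.o v p z := by
    intro q hq hpq hql z hz hpz
    have h1 := hlmin q ⟨hq, hpq, z, hz, hpz⟩ (C.ne_of_o_pos hql).2.2
    rw [C.o_swap'] at h1
    linarith
  have hyf : ∀ z, Zn T D v l z → 0 < C.o v p z → z = y ∨ 0 < C.o l y z := by
    intro z hz hpz
    by_cases he : z = y
    · exact Or.inl he
    · exact Or.inr (hymin z ⟨hz, hpz⟩ he)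
  have hC := bl1 hs hv hN hp hlT hpl hy hpy hyf hfirst
  by_cases hB : ∀ b, (T.Adj v b ∧ 0 < C.o v p b ∧ (b = l ∨ 0 < C.o v b l)) → LeafAt T v b
  swap
  · push Not at hB
    obtain ⟨b, hb, hnb⟩ := hB
    exact Or.inl ⟨b, ⟨hb.1, hnb⟩, hb.2.1⟩
  right
  rcases bl2 hm hv (fun b => T.Adj v b ∧ 0 < C.o v p b ∧ (b = l ∨ 0 < C.o v b l)) hB
    hy.2.1 hy.2.2 hC with h | h
  · left
    obtain ⟨u, hu1, hu2, hu3, hu4, hu5⟩ := h
    refine ⟨u, ⟨hu1, hu2, hu3, ?_, hu4, fun w h1 h2 => hB w (hu5 w h1 h2)⟩,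
      fun w h1 h2 => (hu5 w h1 h2).2.1⟩
    intro v' hv' hadj
    obtain ⟨⟨c1, hf1, hc1T, hc1D, hc1n⟩, ⟨c2, hf2, hc2T, hc2D, hc2n⟩⟩ := iso_faces hs hv' hadj
    have hb1 := hu5 c1 hc1D hc1n
    have hb2 := hu5 c2 hc2D.symm fun h => hc2n h.symm
    have hvv : v' = v := (hB c1 hb1).2 v' hc1T.symm
    rw [hvv] at hadj hf1 hf2
    have huB : ¬ (T.Adj v u ∧ 0 < C.o v p u ∧ (u = l ∨ 0 < C.o v u l)) := by
      intro hu
      have h1 := hB u hu
      have h2 : {w | T.Adj u w} ⊆ {v} := fun w hw => h1.2 w hw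
      have h3 : dg T u ≤ 1 := by
        unfold dg
        calc {w | T.Adj u w}.ncard ≤ ({v} : Set V).ncard :=
              Set.ncard_le_ncard h2 (Set.finite_singleton v)
          _ = 1 := Set.ncard_singleton v
      omega
    have hul : u ≠ l := by
      rintro rfl
      exact huB ⟨hlT, hpl, Or.inl rfl⟩
    have o1 : 0 < C.o v u c1 := hf1.2.2.2.1
    have o2 : 0 < C.o v c2 u := hf2.2.2.2.1
    -- `c₂ = l`
    have hc2l : c2 = l := by
      rcases hb2.2.2 with h | h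
      · exact h
      · exfalso
        have hs1 := sector C D hs.mp.1 hf2 (hs.le hlT)
        rcases C.o_pos_or_neg hadj.ne hlT.ne hul with h1 | h1
        · exact huB ⟨hadj, C.half_cone hb2.2.1 hpl o2 h1 h, Or.inr h1⟩
        · apply hs1
          refine ⟨h, ?_⟩
          rw [C.o_swap']
          linarith
    have o3 : 0 < C.o v l u := by rw [← hc2l]; exact o2
    have hs2 := sector C D hs.mp.1 hf1 (hs.le hp)
    by_cases hup : u = p
    · rw [hup, C.o_swap'] at o3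
      linarith
    · rcases C.o_pos_or_neg hadj.ne hp.ne hup with h1 | h1
      · exact hs2 ⟨h1, hb1.2.1⟩
      · have h2 : 0 < C.o v p u := by
          rw [C.o_swap']
          linarith
        have h3 : 0 < C.o v u l := by
          rcases hb1.2.2 with h | h
          · rw [← h]
            exact o1
          · exact C.trans_half h2 hb1.2.1 hpl o1 h
        rw [C.o_swap'] at h3
        linarith
  · right
    obtain ⟨e1, e2, d1, d2, c1, c2, hne, h1, h2, h3, h4⟩ := h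
    exact ⟨e1, e2, d1, d2, c1, c2, hne, h1, h2, hB c1 h3, hB c2 h4, h3.2.1, h4.2.1⟩

end CT
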