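import Pool.Agent.H7.CT.Block

/-! # CT module Bonus: few non-leaf neighbours force blockers

`bonusN` from `BlockConc` for all `p ∈ N(v)`.
`NL ncard ≤ 2`: if `NL` has exactly one or two elements start at them: a non-leaf left of `v → a` and one left of `v → a'` would need (for `NL = {a}`: the element itself,
`o v a a = 0`; for `NL = {a,a'}`: `0 < o v a a'` and `0 < o v a' a`) a contradiction, so some start gives a critical vertex or two dead hull darts. `NL = ∅`: start anywhere (`N(v) ≠ ∅`).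
Critical vertex: `2 * ncard ≥ 2`; two dead darts: `ncard DD ≥ 2`.
`NL = ∅`: first blocker from `p`. If it is a critical vertex `u`, let `p'` be a `D \ T`-neighbour of `u` (leaf at `v`); the blocker from `p'` is a critical vertex `u'` all of whose
`D \ T`-neighbours are left of `v → p'`, so `u' ≠ u` (`o v p' p' = 0`): `2*2 ≥ 3`; or two dead darts: `2 + 2 ≥ 3`. If the first blocker is `e₁, e₂` with apexes `c₁, c₂`, start at `p' = c₁`: a
critical vertex: `2 + 2`; or two dead darts with apexes left of `v → c₁`, so both `≠ e₁` (`deadAt_unique`): `ncard DD ≥ 3`.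
(`Set.ncard` with `Set.toFinite`.) -/

open Classical

namespace CT

variable {V : Type}

theorem Bonus_two_le {α : Type} [Finite α] {S : Set α} {a b : α} (ha : a ∈ S) (hb : b ∈ S)
    (hab : a ≠ b) : 2 ≤ S.ncard := by
  have h : ({a, b} : Set α) ⊆ S := by
    intro x hx
    rcases hx with rfl | rfl
    · exact ha
    · exact hb
  have := Set.ncard_le_ncard h (Set.toFinite _)
  rwa [Set.ncard_pair hab] at this

theorem Bonus_three_le {α : Type} [Finite α] {S : Set α} {a b c : α} (ha : a ∈ S) (hb : b ∈ S)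
    (hc : c ∈ S) (hab : a ≠ b) (hac : a ≠ c) (hbc : b ≠ c) : 3 ≤ S.ncard := by
  have h : ({a, b, c} : Set α) ⊆ S := by
    intro x hx
    rcases hx with rfl | rfl | rfl
    · exact ha
    · exact hb
    · exact hc
  have := Set.ncard_le_ncard h (Set.toFinite _)
  have h3 : ({a, b, c} : Set α).ncard = 3 := by
    rw [Set.ncard_insert_of_notMem (by simp [hab, hac]) (Set.toFinite _), Set.ncard_pair hbc]
  omega

theorem Bonus_one_le {α : Type} [Finite α] {S : Set α} {a : α} (ha : a ∈ S) : 1 ≤ S.ncard := by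
  have : 0 < S.ncard := (Set.ncard_pos (Set.toFinite _)).2 ⟨a, ha⟩
  omega

/-- some neighbour `p` such that no non-leaf neighbour is left of `v → p` -/
theorem Bonus_start [Finite V] {C : Cfg V} {T : SimpleGraph V} {v : V} (hN : ∃ p, T.Adj v p)
    (h2 : {q | NL T v q}.ncard ≤ 2) : ∃ p, T.Adj v p ∧ ∀ q, NL T v q → ¬ 0 < C.o v p q := by
  by_contra hcon
  push Not at hcon
  obtain ⟨p, hp⟩ := hN
  obtain ⟨a, ha, -⟩ := hcon p hp
  obtain ⟨b, hb, hab⟩ := hcon a ha.1
  obtain ⟨c, hc, hbc⟩ := hcon b hb.1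
  have hne1 : a ≠ b := by
    rintro rfl
    simp at hab
  have hne2 : b ≠ c := by
    rintro rfl
    simp at hbc
  have hne3 : a ≠ c := by
    rintro rfl
    have h1 : C.o v a b = - C.o v b a := C.o_swap' v a b
    linarith
  have := Bonus_three_le (S := {q | NL T v q}) ha hb hc hne1 hne3 hne2
  omega

theorem Bonus_nbr [Finite V] {C : Cfg V} {T D : SimpleGraph V} (hs : Setup C T D) (v : V) :
    ∃ p, T.Adj v p := by
  obtain ⟨a, b, c, hab, hac, hbc⟩ := hs.three
  have : ∃ w, v ≠ w := by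
    by_cases h : v = a
    · exact ⟨b, by rw [h]; exact hab⟩
    · exact ⟨a, h⟩
  obtain ⟨w, hw⟩ := this
  have h1 := tree_deg_pos T hs.tree hw
  unfold dg at h1
  have h2 : {w | T.Adj v w}.Nonempty := by
    rw [← Set.ncard_pos (Set.toFinite _)]
    omega
  exact h2

theorem bonusN [Finite V] {C : Cfg V} {T D : SimpleGraph V} (hs : Setup C T D) {v : V}
    (hv : Iso C T D v) (hb : ∀ p, T.Adj v p → BlockConc C T D v p) :
    ({q | NL T v q}.ncard ≤ 2 → 2 ≤ 2 * {u | Crit C T D v u}.ncard + {e | DD C T D v e}.ncard) ∧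
    ({q | NL T v q}.ncard = 0 → 3 ≤ 2 * {u | Crit C T D v u}.ncard + {e | DD C T D v e}.ncard) := by
  constructor
  · intro h2
    obtain ⟨p, hp, hpq⟩ := Bonus_start (C := C) (Bonus_nbr hs v) h2
    rcases hb p hp with ⟨q, hq, hq2⟩ | ⟨u, hu, -⟩ |
      ⟨e1, e2, d1, d2, c1, c2, hne, hd1, hd2, hl1, hl2, -, -⟩
    · exact absurd hq2 (hpq q hq)
    · have := Bonus_one_le (S := {u | Crit C T D v u}) hu
      omega
    · have := Bonus_two_le (S := {e | DD C T D v e}) ⟨d1, c1, hd1, hl1⟩ ⟨d2, c2, hd2, hl2⟩ hne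
      omega
  · intro h0
    have hno : ∀ q, ¬ NL T v q := by
      intro q hq
      have := Bonus_one_le (S := {q | NL T v q}) hq
      omega
    obtain ⟨p, hp⟩ := Bonus_nbr hs v
    rcases hb p hp with ⟨q, hq, -⟩ | ⟨u, hu, -⟩ |
      ⟨e1, e2, d1, d2, c1, c2, hne, hd1, hd2, hl1, hl2, -, -⟩
    · exact absurd hq (hno q)
    · obtain ⟨p', hp1, hp2⟩ := hu.2.2.2.2.1
      have hleaf := hu.2.2.2.2.2 p' hp1 hp2
      rcases hb p' hleaf.1 with ⟨q, hq, -⟩ | ⟨u', hu', hu2⟩ |
        ⟨e1, e2, d1, d2, c1, c2, hne, hd1, hd2, hl1, hl2, -, -⟩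
      · exact absurd hq (hno q)
      · have hne : u ≠ u' := by
          rintro rfl
          have := hu2 p' hp1 hp2
          simp at this
        have := Bonus_two_le (S := {u | Crit C T D v u}) hu hu' hne
        omega
      · have h1 := Bonus_one_le (S := {u | Crit C T D v u}) hu
        have := Bonus_two_le (S := {e | DD C T D v e}) ⟨d1, c1, hd1, hl1⟩ ⟨d2, c2, hd2, hl2⟩ hne
        omega
    · rcases hb c1 hl1.1 with ⟨q, hq, -⟩ | ⟨u', hu', -⟩ |
        ⟨f1, f2, g1, g2, a1, a2, hne', hg1, hg2, hm1, hm2, ho1, ho2⟩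
      · exact absurd hq (hno q)
      · have h1 := Bonus_one_le (S := {u | Crit C T D v u}) hu'
        have := Bonus_two_le (S := {e | DD C T D v e}) ⟨d1, c1, hd1, hl1⟩ ⟨d2, c2, hd2, hl2⟩ hne
        omega
      · have hn1 : e1 ≠ f1 := by
          rintro rfl
          have := (deadAt_unique hs hd1 hg1).2
          rw [← this] at ho1
          simp at ho1
        have hn2 : e1 ≠ f2 := by
          rintro rfl
          have := (deadAt_unique hs hd1 hg2).2
          rw [← this] at ho2
          simp at ho2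
        have := Bonus_three_le (S := {e | DD C T D v e}) ⟨d1, c1, hd1, hl1⟩ ⟨g1, a1, hg1, hm1⟩
          ⟨g2, a2, hg2, hm2⟩ hn1 hn2 hne'
        omega

/-- for both types (mirror: `crit_mir`, `dd_mir_ncard`, `block` in `C.mir`) -/
theorem bonus [Finite V] {C : Cfg V} {T D : SimpleGraph V} (hm : Min C T D) {v : V}
    (hv : Iso C T D v) (hNP : TypeN C T D v ∨ TypeP C T D v)
    (hI : ∀ q, T.Adj v q → Inner C q) :
    ({q | NL T v q}.ncard ≤ 2 → 2 ≤ 2 * {u | Crit C T D v u}.ncard + {e | DD C T D v e}.ncard) ∧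
    ({q | NL T v q}.ncard = 0 → 3 ≤ 2 * {u | Crit C T D v u}.ncard + {e | DD C T D v e}.ncard) := by
  rcases hNP with hN | hP
  · exact bonusN hm.1 hv (fun p hp => block hm hv hN hI hp)
  · have hm' := min_mir.mpr hm
    have hv' := iso_mir.mpr hv
    have h := bonusN hm'.1 hv' (fun p hp => block hm' hv' (typeN_mir.mpr hP)
      (fun q hq => inner_mir.mpr (hI q hq)) hp)
    simp only [crit_mir, dd_mir_ncard] at h
    exact h

end CT
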