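import Pool.Agent.H7.CT.Basic

/-! # CT module Bridge: points of the Euclidean plane

`toCfg P h`: coordinates `P v 0`, `P v 1`; `gp` from `¬ Collinear ℝ {P a, P b, P c}` (if the determinant vanishes and the points are different, the three points are collinear: `collinear_iff_of_mem` or `collinear_iff_exists_forall_eq_smul_vadd` with direction `P b - P a`).
`ofCfg C`: the points `!₂[C.x v, C.y v]`; general position: if collinear, the determinant is zero.
`isPlane_iff`: (→) if `Cross a b c d`, the point `x = P a + t (P b - P a)` with `t = o c d a / (o c d a - o c d b)` lies on both segments (it equals `P c + s (P d - P c)`, `s = o a b c / (o a b c - o a b d)`), and the edges have no common end (`cross_ne`).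
(←) let `x` be on both segments of different edges `ab`, `cd` of `G`. If they have a common end, say `a = c`, `b ≠ d`: `x = P a`, because otherwise `P a, P b, P d` would be collinear (`o a b d = 0`). If not: `x = (1-t) P a + t P b`, `o` is affine, so `(1-t) o c d a + t o c d b = 0` with nonzero `o c d a`, `o c d b`: they have opposite signs; in the same way
`o a b c`, `o a b d` have opposite signs: `Cross a b c d`, contradiction. -/

open Classical

namespace CT

variable {V : Type}

/-- general position: different points, no three on a line -/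
def GenPos (P : V → EuclideanSpace ℝ (Fin 2)) : Prop :=
  Function.Injective P ∧
    ∀ a b c, a ≠ b → a ≠ c → b ≠ c → ¬ Collinear ℝ {P a, P b, P c}

/-- the straight-line graph `G` on the points `P` is plane: two different edges meet at most in a
common end -/
def IsPlane (P : V → EuclideanSpace ℝ (Fin 2)) (G : SimpleGraph V) : Prop :=
  ∀ a b c d, G.Adj a b → G.Adj c d → s(a, b) ≠ s(c, d) →
    ∀ x, x ∈ segment ℝ (P a) (P b) → x ∈ segment ℝ (P c) (P d) →
      ∃ v, v ∈ s(a, b) ∧ v ∈ s(c, d) ∧ x = P v

theorem Bridge_collinear_of {p q r : EuclideanSpace ℝ (Fin 2)} (hpq : p ≠ q)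
    (h : (q 0 - p 0) * (r 1 - p 1) - (q 1 - p 1) * (r 0 - p 0) = 0) :
    Collinear ℝ {p, q, r} := by
  rw [collinear_iff_of_mem (p₀ := p) (by simp)]
  refine ⟨q - p, ?_⟩
  intro z hz
  simp only [Set.mem_insert_iff, Set.mem_singleton_iff] at hz
  rcases hz with rfl | rfl | rfl
  · exact ⟨0, by simp⟩
  · exact ⟨1, by simp⟩
  · by_cases h0 : q 0 - p 0 = 0
    · have h1 : q 1 - p 1 ≠ 0 := by
        intro h1
        apply hpq
        ext i
        fin_cases i
        · show p 0 = q 0
          linarith
        · show p 1 = q 1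
          linarith
      refine ⟨(z 1 - p 1) / (q 1 - p 1), ?_⟩
      ext i
      fin_cases i
      · show z 0 = (z 1 - p 1) / (q 1 - p 1) * (q 0 - p 0) + p 0
        rw [h0] at h ⊢
        have h2 : (q 1 - p 1) * (z 0 - p 0) = 0 := by linarith
        rcases mul_eq_zero.mp h2 with h3 | h3
        · exact absurd h3 h1
        · linarith
      · show z 1 = (z 1 - p 1) / (q 1 - p 1) * (q 1 - p 1) + p 1
        field_simp
        ring
    · refine ⟨(z 0 - p 0) / (q 0 - p 0), ?_⟩
      ext i
      fin_cases i
      · show z 0 = (z 0 - p 0) / (q 0 - p 0) * (q 0 - p 0) + p 0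
        field_simp
        ring
      · show z 1 = (z 0 - p 0) / (q 0 - p 0) * (q 1 - p 1) + p 1
        field_simp
        linarith

theorem Bridge_of_collinear {p q r : EuclideanSpace ℝ (Fin 2)}
    (h : Collinear ℝ {p, q, r}) :
    (q 0 - p 0) * (r 1 - p 1) - (q 1 - p 1) * (r 0 - p 0) = 0 := by
  rw [collinear_iff_of_mem (p₀ := p) (by simp)] at h
  obtain ⟨v, hv⟩ := h
  obtain ⟨a, ha⟩ := hv q (by simp)
  obtain ⟨b, hb⟩ := hv r (by simp)
  have a0 : q 0 = a * v 0 + p 0 := by rw [ha]; rfl
  have a1 : q 1 = a * v 1 + p 1 := by rw [ha]; rfl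
  have b0 : r 0 = b * v 0 + p 0 := by rw [hb]; rfl
  have b1 : r 1 = b * v 1 + p 1 := by rw [hb]; rfl
  rw [a0, a1, b0, b1]
  ring

theorem Bridge_seg {p q x : EuclideanSpace ℝ (Fin 2)} (h : x ∈ segment ℝ p q) :
    ∃ t : ℝ, 0 ≤ t ∧ t ≤ 1 ∧ x 0 = (1 - t) * p 0 + t * q 0 ∧ x 1 = (1 - t) * p 1 + t * q 1 := by
  rw [segment_eq_image] at h
  obtain ⟨t, ⟨h0, h1⟩, rfl⟩ := h
  exact ⟨t, h0, h1, rfl, rfl⟩

theorem Bridge_seg' {p q x : EuclideanSpace ℝ (Fin 2)} {t : ℝ} (h0 : 0 ≤ t) (h1 : t ≤ 1)
    (e0 : x 0 = (1 - t) * p 0 + t * q 0) (e1 : x 1 = (1 - t) * p 1 + t * q 1) :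
    x ∈ segment ℝ p q := by
  rw [segment_eq_image]
  refine ⟨t, ⟨h0, h1⟩, ?_⟩
  ext i
  fin_cases i
  · exact e0.symm
  · exact e1.symm

theorem Bridge_common (C : Cfg V) (P : V → EuclideanSpace ℝ (Fin 2))
    (hx : ∀ v, C.x v = P v 0) (hy : ∀ v, C.y v = P v 1) {a b d : V} (hab : a ≠ b) (had : a ≠ d)
    (hbd : b ≠ d) {x : EuclideanSpace ℝ (Fin 2)} (h1 : x ∈ segment ℝ (P a) (P b))
    (h2 : x ∈ segment ℝ (P a) (P d)) : x = P a := by
  obtain ⟨t, -, -, t0, t1⟩ := Bridge_seg h1
  obtain ⟨s, -, -, s0, s1⟩ := Bridge_seg h2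
  have ho := C.gp a b d hab had hbd
  rw [hx, hx, hx, hy, hy, hy] at ho
  have e0 : t * (P b 0 - P a 0) = s * (P d 0 - P a 0) := by linarith
  have e1 : t * (P b 1 - P a 1) = s * (P d 1 - P a 1) := by linarith
  have h3 : t * ((P b 0 - P a 0) * (P d 1 - P a 1) - (P b 1 - P a 1) * (P d 0 - P a 0)) = 0 := by
    calc t * ((P b 0 - P a 0) * (P d 1 - P a 1) - (P b 1 - P a 1) * (P d 0 - P a 0))
        = (t * (P b 0 - P a 0)) * (P d 1 - P a 1) - (t * (P b 1 - P a 1)) * (P d 0 - P a 0) := by
          ring
      _ = 0 := by rw [e0, e1]; ring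
  have ht : t = 0 := by
    rcases mul_eq_zero.mp h3 with h | h
    · exact h
    · exact absurd h ho
  subst ht
  ext i
  fin_cases i
  · show x 0 = P a 0
    linarith
  · show x 1 = P a 1
    linarith

theorem Bridge_opp {t A B : ℝ} (h0 : 0 ≤ t) (h1 : t ≤ 1) (hA : A ≠ 0) (hB : B ≠ 0)
    (h : (1 - t) * A + t * B = 0) : A * B < 0 := by
  have hB2 : 0 < B ^ 2 := by positivity
  have hA2 : 0 < A ^ 2 := by positivity
  have h2 : (1 - t) * (A * B) = - (t * B ^ 2) := by
    have e : (1 - t) * (A * B) + t * B ^ 2 = ((1 - t) * A + t * B) * B := by ring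
    rw [h] at e
    linarith
  rcases eq_or_lt_of_le h0 with ht | ht
  · exfalso
    rw [← ht] at h
    apply hA
    linarith
  · have h3 : (1 - t) * (A * B) < 0 := by
      rw [h2]
      have := mul_pos ht hB2
      linarith
    by_contra h4
    push Not at h4
    have := mul_nonneg (by linarith : 0 ≤ 1 - t) h4
    linarith

theorem exists_toCfg (P : V → EuclideanSpace ℝ (Fin 2)) (hP : GenPos P) :
    ∃ C : Cfg V, (∀ v, C.x v = P v 0) ∧ (∀ v, C.y v = P v 1) := by
  refine ⟨⟨fun v => P v 0, fun v => P v 1, ?_⟩, fun v => rfl, fun v => rfl⟩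
  intro a b c hab hac hbc h
  exact hP.2 a b c hab hac hbc (Bridge_collinear_of (fun e => hab (hP.1 e)) h)

/-- the points of a configuration -/
noncomputable def pts (C : Cfg V) : V → EuclideanSpace ℝ (Fin 2) := fun v => !₂[C.x v, C.y v]

theorem pts_genPos (C : Cfg V) (hinj : ∀ a b, C.x a = C.x b → C.y a = C.y b → a = b) :
    GenPos (pts C) := by
  refine ⟨?_, ?_⟩
  · intro a b hab
    apply hinj a b
    · have : pts C a 0 = pts C b 0 := by rw [hab]
      simpa [pts] using this
    · have : pts C a 1 = pts C b 1 := by rw [hab]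
      simpa [pts] using this
  · intro a b c hab hac hbc h
    have h2 := Bridge_of_collinear h
    apply C.gp a b c hab hac hbc
    simpa [pts] using h2

/-- if there are at least three indices, `gp` implies injectivity -/
theorem cfg_inj (C : Cfg V) (h3 : ∀ a b : V, ∃ c, c ≠ a ∧ c ≠ b) :
    ∀ a b, C.x a = C.x b → C.y a = C.y b → a = b := by
  intro a b hx hy
  by_contra hab
  obtain ⟨c, hca, hcb⟩ := h3 a b
  apply C.gp a b c hab (Ne.symm hca) (Ne.symm hcb)
  rw [hx, hy]
  ring

theorem isPlane_iff (C : Cfg V) (P : V → EuclideanSpace ℝ (Fin 2)) (hP : GenPos P)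
    (hx : ∀ v, C.x v = P v 0) (hy : ∀ v, C.y v = P v 1) (G : SimpleGraph V) :
    IsPlane P G ↔ Plane C G := by
  constructor
  · intro h a b c d hab hcd hcr
    obtain ⟨n1, n2, n3, n4, n5, n6⟩ := C.cross_ne hcr
    obtain ⟨hc1, hc2⟩ := hcr
    have hs : s(a, b) ≠ s(c, d) := by
      intro e
      rw [Sym2.eq_iff] at e
      rcases e with ⟨e1, -⟩ | ⟨e1, -⟩
      · exact n2 e1
      · exact n3 e1
    have key : C.o c d a - C.o c d b = C.o a b d - C.o a b c := by unfold Cfg.o; ring
    have hAB : C.o c d a - C.o c d b ≠ 0 := by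
      intro e
      have : C.o c d a = C.o c d b := by linarith
      rw [this] at hc2
      nlinarith [mul_self_nonneg (C.o c d b)]
    have hCD : C.o a b c - C.o a b d ≠ 0 := by
      intro e
      apply hAB
      linarith
    -- a general fact on the parameters
    have par : ∀ A B : ℝ, A * B < 0 → A - B ≠ 0 → 0 ≤ A / (A - B) ∧ A / (A - B) ≤ 1 := by
      intro A B h1 h2
      rcases lt_or_gt_of_ne h2 with h3 | h3
      · have hA : A ≤ 0 := by
          by_contra h4
          push Not at h4
          have : 0 < B := by linarith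
          have := mul_pos h4 this
          linarith
        have hB : 0 ≤ B := by
          by_contra h4
          push Not at h4
          have := mul_nonneg_of_nonpos_of_nonpos hA h4.le
          linarith
        refine ⟨div_nonneg_of_nonpos hA h3.le, ?_⟩
        rw [div_le_iff_of_neg h3]
        linarith
      · have hA : 0 ≤ A := by
          by_contra h4
          push Not at h4
          have : B < 0 := by linarith
          have := mul_pos_of_neg_of_neg h4 this
          linarith
        have hB : B ≤ 0 := by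
          by_contra h4
          push Not at h4
          have := mul_nonneg hA h4.le
          linarith
        refine ⟨div_nonneg hA h3.le, ?_⟩
        rw [div_le_iff₀ h3]
        linarith
    obtain ⟨t0, t1⟩ := par _ _ hc2 hAB
    obtain ⟨s0, s1⟩ := par _ _ hc1 hCD
    set A := C.o c d a with hA
    set B := C.o c d b with hB
    set E := C.o a b c with hE
    set F := C.o a b d with hF
    have hlin : ∀ u : V → ℝ, (A - B = F - E) → - B * u a + A * u b = F * u c - E * u d →
        (1 - A / (A - B)) * u a + A / (A - B) * u b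
          = (1 - E / (E - F)) * u c + E / (E - F) * u d := by
      intro u h1 h2
      have e1 : (1 - A / (A - B)) * u a + A / (A - B) * u b = (- B * u a + A * u b) / (A - B) := by
        field_simp
        ring
      have e2 : (1 - E / (E - F)) * u c + E / (E - F) * u d = (F * u c - E * u d) / (F - E) := by
        have e3 : F - E ≠ 0 := by rw [← h1]; exact hAB
        have e4 : E - F = -(F - E) := by ring
        rw [e4, div_neg]
        field_simp
        ring
      rw [e1, e2, h1, h2]
    have l0 : - B * C.x a + A * C.x b = F * C.x c - E * C.x d := by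
      rw [hA, hB, hE, hF]
      unfold Cfg.o
      ring
    have l1 : - B * C.y a + A * C.y b = F * C.y c - E * C.y d := by
      rw [hA, hB, hE, hF]
      unfold Cfg.o
      ring
    have m0 := hlin C.x key l0
    have m1 := hlin C.y key l1
    rw [hx, hx, hx, hx] at m0
    rw [hy, hy, hy, hy] at m1
    obtain ⟨v, hv1, hv2, -⟩ := h a b c d hab hcd hs
      (!₂[(1 - A / (A - B)) * P a 0 + A / (A - B) * P b 0,
        (1 - A / (A - B)) * P a 1 + A / (A - B) * P b 1])
      (Bridge_seg' t0 t1 (by simp) (by simp))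
      (Bridge_seg' s0 s1 (by simpa using m0) (by simpa using m1))
    rw [Sym2.mem_iff] at hv1 hv2
    rcases hv1 with rfl | rfl <;> rcases hv2 with e | e
    · exact n2 e
    · exact n3 e
    · exact n4 e
    · exact n5 e
  · intro h a b c d hab hcd hs x hx1 hx2
    have nab : a ≠ b := hab.ne
    have ncd : c ≠ d := hcd.ne
    by_cases hac : a = c
    · subst hac
      have hbd : b ≠ d := by
        rintro rfl
        exact hs rfl
      exact ⟨a, by simp, by simp, Bridge_common C P hx hy nab ncd hbd hx1 hx2⟩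
    by_cases had : a = d
    · subst had
      have hbc : b ≠ c := by
        rintro rfl
        exact hs Sym2.eq_swap
      rw [segment_symm] at hx2
      exact ⟨a, by simp, by simp, Bridge_common C P hx hy nab (Ne.symm ncd) hbc hx1 hx2⟩
    by_cases hbc : b = c
    · subst hbc
      rw [segment_symm] at hx1
      exact ⟨b, by simp, by simp, Bridge_common C P hx hy (Ne.symm nab) ncd had hx1 hx2⟩
    by_cases hbd : b = d
    · subst hbd
      rw [segment_symm] at hx1 hx2
      exact ⟨b, by simp, by simp, Bridge_common C P hx hy (Ne.symm nab) (Ne.symm ncd) hac hx1 hx2⟩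
    exfalso
    apply h a b c d hab hcd
    obtain ⟨t, t0, t1, e0, e1⟩ := Bridge_seg hx1
    obtain ⟨s, s0, s1, f0, f1⟩ := Bridge_seg hx2
    rw [← hx a, ← hx b] at e0
    rw [← hx c, ← hx d] at f0
    rw [← hy a, ← hy b] at e1
    rw [← hy c, ← hy d] at f1
    constructor
    · apply Bridge_opp s0 s1 (C.o_ne nab hac hbc) (C.o_ne nab had hbd)
      have : (1 - s) * C.o a b c + s * C.o a b d =
          (C.x b - C.x a) * (((1 - s) * C.y c + s * C.y d) - C.y a) -
            (C.y b - C.y a) * (((1 - s) * C.x c + s * C.x d) - C.x a) := by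
        unfold Cfg.o; ring
      rw [this, ← f0, ← f1, e0, e1]
      ring
    · apply Bridge_opp t0 t1 (C.o_ne ncd (Ne.symm hac) (Ne.symm had))
        (C.o_ne ncd (Ne.symm hbc) (Ne.symm hbd))
      have : (1 - t) * C.o c d a + t * C.o c d b =
          (C.x d - C.x c) * (((1 - t) * C.y a + t * C.y b) - C.y c) -
            (C.y d - C.y c) * (((1 - t) * C.x a + t * C.x b) - C.x c) := by
        unfold Cfg.o; ring
      rw [this, ← e0, ← e1, f0, f1]
      ring

end CT
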