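import Pool.Agent.H7.CT.Near

/-! # CT module Chain: if a family of crossed edges is closed under passing to the far face, it contains all crossed edges

Proof. Suppose some `bc` (with `a` on its left) crosses `aw` and `¬ W0 b c`; take one with `C.tau a w b c` minimal. `Face b c z` (`face_exists`). `near_face` (`x := a`, `y := w`):
* `a = z`: `Face a b c` and `Face a b1 c1` have `w` strictly in their sectors (crossing patterns): `face_eq_of_sector`: `(b,c) = (b1,c1)`: contradiction.
* `aw` crosses `b z`, nearer: `a` is left of `b → z`; so `W0 b z` (minimality). Its far face is `Face z b c` (rotation). `hfar b z`: `b = b0 ∧ z = c0`: then `Face z b w`, so `c = w` (`face_unique`), but `Cross a w b c` needs `c ≠ w`. Or `Face z b z'`, so `z' = c` and `W0 b c` (contradiction) or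
  `W0 c z`, so `aw` crosses `c z`: contradiction with `far_unique`.
* `aw` crosses `c z`: `a` is left of `z → c`, `W0 z c`, far face `Face c z b`: similarly. -/

open Classical

namespace CT

variable {V : Type}

theorem chain [Finite V] {C : Cfg V} {D : SimpleGraph V} (hD : MaxPlane C D)
    {a w b0 c0 b1 c1 : V} (W0 : V → V → Prop) (h0 : Face C D c0 b0 w) (h1 : Face C D b1 c1 a)
    (hb1 : W0 b1 c1)
    (hW : ∀ b c, W0 b c → D.Adj b c ∧ C.Cross a w b c ∧ 0 < C.o b c a)
    (hfar : ∀ b c, W0 b c → (b = b0 ∧ c = c0) ∨ ∃ z, Face C D c b z ∧ (W0 b z ∨ W0 z c)) :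
    ∀ b c, D.Adj b c → C.Cross a w b c → 0 < C.o b c a → W0 b c := by
  by_contra hcon
  push Not at hcon
  obtain ⟨b', c', hb'⟩ := hcon
  have hne : ({p : V × V | D.Adj p.1 p.2 ∧ C.Cross a w p.1 p.2 ∧ 0 < C.o p.1 p.2 a ∧
      ¬ W0 p.1 p.2}).Nonempty := ⟨(b', c'), hb'⟩
  obtain ⟨⟨b, c⟩, ⟨hbc, hcr, hpos, hnW⟩, hmin⟩ :=
    Set.exists_min_image _ (fun p : V × V => C.tau a w p.1 p.2) (Set.toFinite _) hne
  dsimp only at hbc hcr hpos hnW hmin
  have hmin' : ∀ p q, D.Adj p q → C.Cross a w p q → 0 < C.o p q a →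
      C.tau a w p q < C.tau a w b c → W0 p q := by
    intro p q h1 h2 h3 h4
    by_contra h5
    exact absurd (hmin (p, q) ⟨h1, h2, h3, h5⟩) (not_le.mpr h4)
  -- the crossing pattern
  have hpat : C.o a w b < 0 ∧ 0 < C.o a w c := by
    rcases C.cross_pattern hcr with h | h
    · exact absurd hpos (not_lt.mpr h.2.2.1.le)
    · exact ⟨h.1, h.2.1⟩
  have hcrne := C.cross_ne hcr
  obtain ⟨z, hf⟩ := face_exists C D hD hbc hpos
  rcases near_face C D hf hpos hcr with h | ⟨h, ht⟩ | ⟨h, ht⟩
  · -- the apex is `a`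
    subst h
    obtain ⟨-, k2, k3⟩ := hW b1 c1 hb1
    have hpat1 : C.o a w b1 < 0 ∧ 0 < C.o a w c1 := by
      rcases C.cross_pattern k2 with h | h
      · exact absurd k3 (not_lt.mpr h.2.2.1.le)
      · exact ⟨h.1, h.2.1⟩
    have e1 : 0 < C.o a b w := by rw [C.o_swap' a b w]; linarith [hpat.1]
    have e2 : 0 < C.o a b1 w := by rw [C.o_swap' a b1 w]; linarith [hpat1.1]
    obtain ⟨rfl, rfl⟩ := face_eq_of_sector C D hD.1 hf.rot.rot h1.rot.rot e1 hpat.2 e2 hpat1.2
    exact hnW hb1
  · -- `aw` crosses `bz`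
    have hz : 0 < C.o b z a := by
      rcases C.cross_pattern h with h' | h'
      · exact absurd h'.1 (not_lt.mpr hpat.1.le)
      · exact h'.2.2.1
    have hWz : W0 b z := hmin' b z hf.2.2.1.symm h hz ht
    rcases hfar b z hWz with ⟨rfl, rfl⟩ | ⟨z', hf', h3⟩
    · have := face_unique C D hD.1 h0 hf.rot.rot
      exact hcrne.2.2.2.2.1 this
    · have e := face_unique C D hD.1 hf' hf.rot.rot
      subst e
      rcases h3 with h3 | h3
      · exact hnW h3
      · exact far_unique C hcr h (hW _ _ h3).2.1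
  · -- `aw` crosses `cz`
    have h' := C.cross_symm34 h
    have hz : 0 < C.o z c a := by
      rcases C.cross_pattern h' with h' | h'
      · exact absurd h'.2.1 (not_lt.mpr hpat.2.le)
      · exact h'.2.2.1
    have hWz : W0 z c := hmin' z c hf.2.1.symm h' hz (by rw [tau_symm C a w z c]; exact ht)
    rcases hfar z c hWz with ⟨rfl, rfl⟩ | ⟨z', hf', h3⟩
    · have := face_unique C D hD.1 h0 hf.rot
      exact hcrne.2.2.2.1 this
    · have e := face_unique C D hD.1 hf' hf.rot
      subst e
      rcases h3 with h3 | h3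
      · exact far_unique C hcr (C.cross_symm34 (hW _ _ h3).2.1) h
      · exact hnW h3

end CT
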