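import Pool.Agent.H7.CT.HWalk

/-! # CT module Hot: hot and dead hull darts, partners, representatives

Use `exists_hwalk`, `HWalk.of_reach`, `HWalk.inj`, `step_none`, `reach_swap`, `no_step_of_he`, `no_step_of_dead`,
`no_step_into_hd`, `reach_color`. A dart on the walk of `e` determines `e` (go back with `step_inj` until a
dart without predecessor). `exists_reps`: the partner map is an involution without fixed points on the hot darts; pick
one of each pair (e.g. w.r.t. a linear order on `V × V` or an injection into `ℕ`); `Q` and its partner image are disjoint. -/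

open Classical

namespace CT

variable {V : Type}

theorem Hot_term {α : Type} {R : α → α → Prop} {a b : α}
    (h : Relation.ReflTransGen R a b) (ht : ∀ c, ¬ R a c) : a = b := by
  induction h using Relation.ReflTransGen.head_induction_on with
  | refl => rfl
  | head h1 _ _ => exact absurd h1 (ht _)

theorem Hot_term_unique {C : Cfg V} {T D : SimpleGraph V} (hs : Setup C T D) {e d d' : V × V}
    (h : Relation.ReflTransGen (Step C T D) e d) (h' : Relation.ReflTransGen (Step C T D) e d')
    (ht : ∀ x, ¬ Step C T D d x) (ht' : ∀ x, ¬ Step C T D d' x) : d = d' := by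
  have hU : Relator.RightUnique (Step C T D) := fun a b c hab hac => step_func hs hab hac
  rcases Relation.ReflTransGen.total_of_right_unique hU h h' with h1 | h1
  · exact Hot_term h1 ht
  · exact (Hot_term h1 ht').symm

theorem Hot_reach_adj {C : Cfg V} {T D : SimpleGraph V} {e d : V × V}
    (he : T.Adj e.1 e.2) (h : Relation.ReflTransGen (Step C T D) e d) : T.Adj d.1 d.2 := by
  induction h with
  | refl => exact he
  | tail _ h2 _ => exact step_adj h2

/-- a hull dart is hot or dead -/
theorem hot_or_dead [Finite V] {C : Cfg V} {T D : SimpleGraph V} (hs : Setup C T D)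
    {e : V × V} (he : IsHD C T e) : Hot C T D e ∨ ∃ d c, DeadAt C T D e d c := by
  obtain ⟨d, r, hw, h0⟩ := exists_hwalk hs he
  have hr : Relation.ReflTransGen (Step C T D) e (d r) := by
    rw [← h0]; exact hw.reach (Nat.zero_le r) le_rfl
  rcases step_none hs (hw.adj le_rfl) hw.term with h | ⟨c, h1, h2, h3⟩
  · exact Or.inl ⟨he, d r, hr, h⟩
  · exact Or.inr ⟨d r, c, he, hr, h1, h2, h3⟩

theorem not_hot_of_dead {C : Cfg V} {T D : SimpleGraph V} (hs : Setup C T D)
    {e d : V × V} {c : V} (h : DeadAt C T D e d c) : ¬ Hot C T D e := by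
  rintro ⟨_, d', hr', hd'⟩
  obtain ⟨_, hr, hf, h1, h2⟩ := h
  have := Hot_term_unique hs hr hr' (fun x => no_step_of_dead hs hf h1 h2)
    (fun x => no_step_of_he hd')
  subst this
  exact hd' c hf.2.2.2.1

theorem deadAt_unique {C : Cfg V} {T D : SimpleGraph V} (hs : Setup C T D)
    {e d d' : V × V} {c c' : V} (h : DeadAt C T D e d c) (h' : DeadAt C T D e d' c') :
    d = d' ∧ c = c' := by
  obtain ⟨_, hr, hf, h1, h2⟩ := h
  obtain ⟨_, hr', hf', h1', h2'⟩ := h'
  have := Hot_term_unique hs hr hr' (fun x => no_step_of_dead hs hf h1 h2)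
    (fun x => no_step_of_dead hs hf' h1' h2')
  subst this
  exact ⟨rfl, face_unique C D hs.mp.1 hf hf'⟩

/-- two hull darts whose walks share a dart are equal -/
theorem Hot_meet {C : Cfg V} {T D : SimpleGraph V} (hs : Setup C T D) {e e' d : V × V}
    (he : IsHD C T e) (he' : IsHD C T e') (h : Relation.ReflTransGen (Step C T D) e d)
    (h' : Relation.ReflTransGen (Step C T D) e' d) : e = e' := by
  have hU : Relator.RightUnique (Function.swap (Step C T D)) :=
    fun a b c hab hac => step_inj hs hab hac
  have hT : ∀ {x : V × V}, IsHD C T x → ∀ c, ¬ Function.swap (Step C T D) x c :=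
    fun hx c hc => no_step_into_hd hx hc
  rcases Relation.ReflTransGen.total_of_right_unique hU
      (Relation.reflTransGen_swap.mpr h) (Relation.reflTransGen_swap.mpr h') with h1 | h1
  · exact Hot_term h1 (hT he)
  · exact (Hot_term h1 (hT he')).symm

theorem deadAt_inj {C : Cfg V} {T D : SimpleGraph V} (hs : Setup C T D)
    {e e' d : V × V} {c c' : V} (h : DeadAt C T D e d c) (h' : DeadAt C T D e' d c') :
    e = e' := Hot_meet hs h.1 h'.1 h.2.1 h'.2.1

/-- the walk of a hot dart as a sequence -/
theorem hot_hwalk [Finite V] {C : Cfg V} {T D : SimpleGraph V} (hs : Setup C T D)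
    {e : V × V} (he : Hot C T D e) :
    ∃ d r, HWalk C T D d r ∧ d 0 = e ∧ HE C (d r).1 (d r).2 ∧ 0 < r := by
  obtain ⟨he1, d', hr, hd'⟩ := he
  obtain ⟨d, r, hw, h0⟩ := exists_hwalk hs he1
  have hr0 : Relation.ReflTransGen (Step C T D) (d 0) d' := by rw [h0]; exact hr
  obtain ⟨j, hj, hj2⟩ := hw.of_reach hs hr0
  have hjr : j = r := by
    by_contra hne
    have h1 := hw.step j (by omega)
    rw [hj2] at h1
    exact no_step_of_he hd' h1
  subst hjr
  refine ⟨d, j, hw, h0, by rw [hj2]; exact hd', ?_⟩
  by_contra h0'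
  have hj0 : j = 0 := by omega
  subst hj0
  rw [h0] at hj2
  subst hj2
  obtain ⟨a, b, c, hab, hac, hbc⟩ := hs.three
  have key : ∀ z, z = e.1 ∨ z = e.2 := by
    intro z
    by_contra hz
    push Not at hz
    exact hd' z (hd_left he1 hz.1 hz.2)
  rcases key a with h1 | h1 <;> rcases key b with h2 | h2 <;> rcases key c with h3 | h3
  · exact hab (h1.trans h2.symm)
  · exact hab (h1.trans h2.symm)
  · exact hac (h1.trans h3.symm)
  · exact hbc (h2.trans h3.symm)
  · exact hbc (h2.trans h3.symm)
  · exact hac (h1.trans h3.symm)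
  · exact hab (h1.trans h2.symm)
  · exact hab (h1.trans h2.symm)

/-- the other end of the walk of a hot dart, reversed, is a hot dart, different from `e`
(colours) -/
theorem hot_partner {C : Cfg V} {T D : SimpleGraph V} (hs : Setup C T D) {e d : V × V}
    (he : IsHD C T e) (hr : Relation.ReflTransGen (Step C T D) e d) (hd : HE C d.1 d.2) :
    Hot C T D d.swap ∧ Hot C T D e ∧ d.swap ≠ e := by
  have hadj : T.Adj d.1 d.2 := Hot_reach_adj he.1 hr
  refine ⟨⟨hd_of_he hadj hd, e.swap, reach_swap hr, ?_⟩, ⟨he, d, hr, hd⟩, ?_⟩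
  · exact he.2
  · intro h
    obtain ⟨χ, hχ⟩ := tree_color T hs.tree
    have h1 := (reach_color hχ hr).1
    have h2 : d.2 = e.1 := by rw [← h]; rfl
    rw [← h2] at h1
    exact hχ _ _ hadj h1

/-- the terminal dart of a hot walk is unique -/
theorem hot_end_unique {C : Cfg V} {T D : SimpleGraph V} (hs : Setup C T D) {e d d' : V × V}
    (hr : Relation.ReflTransGen (Step C T D) e d) (hd : HE C d.1 d.2)
    (hr' : Relation.ReflTransGen (Step C T D) e d') (hd' : HE C d'.1 d'.2) : d = d' :=
  Hot_term_unique hs hr hr' (fun _ => no_step_of_he hd) (fun _ => no_step_of_he hd')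

/-- two hull darts whose walks share a dart are equal -/
theorem hd_eq_of_meet {C : Cfg V} {T D : SimpleGraph V} (hs : Setup C T D) {e e' d : V × V}
    (he : IsHD C T e) (he' : IsHD C T e') (h : Relation.ReflTransGen (Step C T D) e d)
    (h' : Relation.ReflTransGen (Step C T D) e' d) : e = e' :=
  Hot_meet hs he he' h h'

/-- representatives: choose one of every hot pair -/
theorem exists_reps [Finite V] {C : Cfg V} {T D : SimpleGraph V} (hs : Setup C T D) :
    ∃ Q : Set (V × V), (∀ e ∈ Q, Hot C T D e) ∧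
      2 * Q.ncard ≤ {d : V × V | Hot C T D d}.ncard ∧
      ∀ e d, Hot C T D e → Relation.ReflTransGen (Step C T D) e d → HE C d.1 d.2 →
        e ∈ Q ∨ d.swap ∈ Q := by
  obtain ⟨f, hf⟩ : ∃ f : V × V → ℕ, Function.Injective f := by
    obtain ⟨n, ⟨g⟩⟩ := Finite.exists_equiv_fin (V × V)
    exact ⟨fun x => (g x : ℕ), fun x y h => g.injective (Fin.ext h)⟩
  let Q : Set (V × V) := {e | Hot C T D e ∧
    ∀ d, Relation.ReflTransGen (Step C T D) e d → HE C d.1 d.2 → f e < f d.swap}
  have hQm : ∀ e, e ∈ Q ↔ (Hot C T D e ∧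
    ∀ d, Relation.ReflTransGen (Step C T D) e d → HE C d.1 d.2 → f e < f d.swap) :=
    fun e => Iff.rfl
  -- the partner
  let σ : V × V → V × V := fun e =>
    if h : Hot C T D e then (Classical.choose h.2).swap else e
  have hσ : ∀ e, Hot C T D e → ∃ d, Relation.ReflTransGen (Step C T D) e d ∧ HE C d.1 d.2 ∧
      σ e = d.swap := by
    intro e he
    have hc := Classical.choose_spec he.2
    refine ⟨Classical.choose he.2, hc.1, hc.2, ?_⟩
    simp only [σ, dif_pos he]
  have hσhot : ∀ e, Hot C T D e → Hot C T D (σ e) := by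
    intro e he
    obtain ⟨d, hr, hd, hdd⟩ := hσ e he
    rw [hdd]; exact (hot_partner hs he.1 hr hd).1
  have hinj : Set.InjOn σ Q := by
    intro e he e' he' heq
    obtain ⟨d, hr, hd, hdd⟩ := hσ e he.1
    obtain ⟨d', hr', hd', hdd'⟩ := hσ e' he'.1
    have : d = d' := by
      have h1 : d.swap = d'.swap := by rw [← hdd, ← hdd', heq]
      exact Prod.swap_injective h1
    subst this
    exact Hot_meet hs he.1.1 he'.1.1 hr hr'
  have hdisj : Disjoint Q (σ '' Q) := by
    rw [Set.disjoint_left]
    rintro x hx ⟨e, he, rfl⟩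
    obtain ⟨d, hr, hd, hdd⟩ := hσ e he.1
    have h1 := he.2 d hr hd
    rw [hdd] at hx
    have h2 := hx.2 e.swap (reach_swap hr) he.1.1.2
    simp only [Prod.swap_swap] at h2
    omega
  refine ⟨Q, fun e he => he.1, ?_, ?_⟩
  · have h1 : (Q ∪ σ '' Q).ncard = Q.ncard + (σ '' Q).ncard :=
      Set.ncard_union_eq hdisj (Set.toFinite _) (Set.toFinite _)
    have h2 : (σ '' Q).ncard = Q.ncard := hinj.ncard_image
    have h3 : (Q ∪ σ '' Q).ncard ≤ {d : V × V | Hot C T D d}.ncard := by
      apply Set.ncard_le_ncard _ (Set.toFinite _)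
      rintro x (hx | ⟨e, he, rfl⟩)
      · exact hx.1
      · exact hσhot e he.1
    omega
  · intro e d he hr hd
    obtain ⟨h1, -, h3⟩ := hot_partner hs he.1 hr hd
    have hne : f e ≠ f d.swap := fun h => h3 (hf h).symm
    rcases lt_or_gt_of_ne hne with h | h
    · left
      refine ⟨he, fun d' hr' hd' => ?_⟩
      have := hot_end_unique hs hr hd hr' hd'
      subst this
      exact h
    · right
      refine ⟨h1, fun d' hr' hd' => ?_⟩
      have h4 := hot_end_unique hs (reach_swap hr) he.1.2 hr' hd'
      rw [← h4]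
      simpa using h

end CT
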