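import Pool.Agent.H7.CT.Cyc
import Pool.Agent.H7.CT.Hot

/-! # CT module Conn: W3, a connected subgraph of `D` sharing at most `N2/2` edges with `T`

Let `R` = one edge `v p` of `T` for every `v` with `Iso v`, and one hull edge for every
`e ∈ Q` (`exists_reps`); `G := (D \ T) ⊔ R`. Then `2 |E(T) ∩ E(G)| = 2 |R| ≤ N2`.
`G` connected: it is enough that the ends of every `T`-edge are `G`-reachable (`T` connected).
For a step `d → d'` the ends of `d` are `G`-reachable iff those of `d'` are (`step_cases`: the base is in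
`D \ T`). For a `T`-dart `d` the forward walk is periodic (then, by `cyc_iso`, `d` is incident
to some `v` with `Iso v`; by `iso_link_conn` all neighbours of `v` are `(D \\ T)`-connected, and `v` is adjacent in `R` to one of them), or ends
dead (ends `G`-connected through the apex) or at the hull. In the last case take the backward walk
(`step_swap`): periodic impossible, dead fine, hull: the walk is a hull-hull walk, one of its two end darts is in `Q`.
General fact: for a functional and injective relation on a finite type every `d` reaches a dart without successor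
or `TransGen d d`. -/

open Classical

namespace CT

variable {V : Type}

/-- a functional injective relation on a finite type: stop or cycle -/
theorem stop_or_cycle {α : Type} [Finite α] (R : α → α → Prop)
    (hf : ∀ a b c, R a b → R a c → b = c) (hi : ∀ a b c, R a c → R b c → a = b) (a : α) :
    (∃ b, Relation.ReflTransGen R a b ∧ ∀ c, ¬ R b c) ∨ Relation.TransGen R a a := by
  by_cases h : ∃ b, Relation.ReflTransGen R a b ∧ ∀ c, ¬ R b c
  · exact Or.inl h
  · right
    push Not at h
    let S := {b : α // Relation.ReflTransGen R a b}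
    have h' : ∀ b : S, ∃ c : S, R b.1 c.1 := by
      rintro ⟨b, hb⟩
      obtain ⟨c, hc⟩ := h b hb
      exact ⟨⟨c, hb.tail hc⟩, hc⟩
    choose g hg using h'
    have hinj : Function.Injective g := by
      intro x y hxy
      apply Subtype.ext
      have h1 := hg x
      have h2 := hg y
      rw [← hxy] at h2
      exact hi _ _ _ h1 h2
    have hsurj : Function.Surjective g := Finite.surjective_of_injective hinj
    obtain ⟨b, hb⟩ := hsurj ⟨a, Relation.ReflTransGen.refl⟩
    have h1 := hg b
    rw [hb] at h1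
    exact Relation.TransGen.tail' b.2 h1

/-- all neighbours of an isolated vertex are connected by link edges. Proof: `rot_all` for
`K = {q | T.Adj v q ∧ (D \ T).Reachable p q}` (closed under the next face by `iso_faces`). -/
theorem iso_link_conn [Finite V] {C : Cfg V} {T D : SimpleGraph V} (hs : Setup C T D)
    {v p q : V} (hv : Iso C T D v) (hp : T.Adj v p) (hq : T.Adj v q) :
    (D \ T).Reachable p q := by
  have hr := rot_all C D hs.mp.1 (v := v) {y | T.Adj v y ∧ (D \ T).Reachable p y}
    ⟨p, hp, SimpleGraph.Reachable.refl p⟩ (by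
      rintro y ⟨hy1, hy2⟩
      obtain ⟨c, hc1, hc2, hc3, hc4⟩ := (iso_faces hs hv hy1).1
      refine ⟨c, ⟨hc2, hy2.trans ?_⟩, hc1⟩
      apply SimpleGraph.Adj.reachable
      rw [SimpleGraph.sdiff_adj]
      exact ⟨hc3, hc4⟩)
  exact (hr.1 q (hs.le hq)).2

theorem Conn_reach_mono {G : SimpleGraph V} {T : SimpleGraph V}
    (h : ∀ a b, T.Adj a b → G.Reachable a b) {x y : V} (hxy : T.Reachable x y) :
    G.Reachable x y := by
  obtain ⟨w⟩ := hxy
  induction w with
  | nil => exact SimpleGraph.Reachable.refl _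
  | cons h1 _ ih => exact (h _ _ h1).trans ih

theorem Conn_step {C : Cfg V} {T D G : SimpleGraph V} (hs : Setup C T D)
    (hG : ∀ a b, D.Adj a b → ¬ T.Adj a b → G.Adj a b) {d d' : V × V}
    (h : Step C T D d d') : G.Reachable d.1 d.2 ↔ G.Reachable d'.1 d'.2 := by
  rcases step_cases hs h with ⟨h1, -, -, h4, h5, -⟩ | ⟨h1, -, -, h4, h5, -⟩
  · have h6 := (hG _ _ h4 h5).reachable
    rw [h1]
    exact ⟨fun h => h.trans h6, fun h => h.trans h6.symm⟩
  · have h6 := (hG _ _ h4 h5).reachable
    rw [h1]
    exact ⟨fun h => h6.symm.trans h, fun h => h6.trans h⟩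

theorem Conn_reach {C : Cfg V} {T D G : SimpleGraph V} (hs : Setup C T D)
    (hG : ∀ a b, D.Adj a b → ¬ T.Adj a b → G.Adj a b) {d d' : V × V}
    (h : Relation.ReflTransGen (Step C T D) d d') :
    G.Reachable d.1 d.2 ↔ G.Reachable d'.1 d'.2 := by
  induction h with
  | refl => exact Iff.rfl
  | tail _ h2 ih => exact ih.trans (Conn_step hs hG h2)

/-- one direction of the argument: the walk ends dead or cyclic (then the ends are connected) or at the hull -/
theorem Conn_fwd [Finite V] {C : Cfg V} {T D G : SimpleGraph V} (hs : Setup C T D)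
    (hG : ∀ a b, D.Adj a b → ¬ T.Adj a b → G.Adj a b)
    (hI : ∀ v, Iso C T D v → ∃ p, T.Adj v p ∧ G.Adj v p) {d : V × V} (hd : T.Adj d.1 d.2) :
    G.Reachable d.1 d.2 ∨
      ∃ b, Relation.ReflTransGen (Step C T D) d b ∧ T.Adj b.1 b.2 ∧ HE C b.1 b.2 := by
  have hle : ∀ {x y : V}, (D \ T).Reachable x y → G.Reachable x y := by
    intro x y h
    refine Conn_reach_mono ?_ h
    intro a b hab
    rw [SimpleGraph.sdiff_adj] at hab
    exact (hG a b hab.1 hab.2).reachable
  rcases stop_or_cycle (Step C T D) (fun a b c => step_func hs) (fun a b c => step_inj hs) d with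
    ⟨b, hb, hbt⟩ | hcyc
  · have hadj : T.Adj b.1 b.2 := Hot_reach_adj hd hb
    rcases step_none hs hadj hbt with h | ⟨c, hc, h1, h2⟩
    · exact Or.inr ⟨b, hb, hadj, h⟩
    · left
      rw [Conn_reach hs hG hb]
      have e1 : G.Adj b.1 c := hG _ _ hc.2.2.1.symm h1
      have e2 : G.Adj c b.2 := hG _ _ hc.2.1.symm h2
      exact e1.reachable.trans e2.reachable
  · left
    obtain ⟨v, hv, h | h⟩ := cyc_iso hs hcyc
    · obtain ⟨p, hp1, hp2⟩ := hI v hv
      subst h
      exact hp2.reachable.trans (hle (iso_link_conn hs hv hp1 hd))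
    · obtain ⟨p, hp1, hp2⟩ := hI v hv
      subst h
      exact (hp2.reachable.trans (hle (iso_link_conn hs hv hp1 hd.symm))).symm

theorem conn_main [Finite V] {C : Cfg V} {T D : SimpleGraph V} (hs : Setup C T D) :
    ∃ G : SimpleGraph V, G.Connected ∧ G ≤ D ∧ 2 * (T ⊓ G).edgeSet.ncard ≤ N2 C T D := by
  obtain ⟨Q, hQ1, hQ2, hQ3⟩ := exists_reps hs
  have hp : ∀ v, ∃ p, Iso C T D v → T.Adj v p := by
    intro v
    by_cases hv : Iso C T D v
    · have h3 := iso_deg hs hv
      have hne : {w | T.Adj v w}.Nonempty := by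
        by_contra hem
        rw [Set.not_nonempty_iff_eq_empty] at hem
        unfold dg at h3
        rw [hem, Set.ncard_empty] at h3
        omega
      obtain ⟨p, hp⟩ := hne
      exact ⟨p, fun _ => hp⟩
    · exact ⟨v, fun h => absurd h hv⟩
  choose p hp using hp
  let S1 : Set (Sym2 V) := (fun v => s(v, p v)) '' {v | Iso C T D v}
  let S2 : Set (Sym2 V) := (fun e : V × V => s(e.1, e.2)) '' Q
  let G : SimpleGraph V := (D \ T) ⊔ SimpleGraph.fromEdgeSet (S1 ∪ S2)
  have hGadj : ∀ a b, G.Adj a b ↔ (D.Adj a b ∧ ¬ T.Adj a b) ∨ (s(a, b) ∈ S1 ∪ S2 ∧ a ≠ b) := by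
    intro a b
    simp only [G, SimpleGraph.sup_adj, SimpleGraph.sdiff_adj, SimpleGraph.fromEdgeSet_adj]
  have hST : ∀ a b, s(a, b) ∈ S1 ∪ S2 → T.Adj a b := by
    intro a b h
    rcases h with ⟨v, hv, hv2⟩ | ⟨e, he, he2⟩
    · have h1 := hp v hv
      have h2 : s(a, b) ∈ T.edgeSet := by rw [← hv2]; exact h1
      exact h2
    · have h1 := (hQ1 e he).1.1
      have h2 : s(a, b) ∈ T.edgeSet := by rw [← he2]; exact h1
      exact h2
  have hG : ∀ a b, D.Adj a b → ¬ T.Adj a b → G.Adj a b := by
    intro a b h1 h2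
    rw [hGadj]; exact Or.inl ⟨h1, h2⟩
  have hI : ∀ v, Iso C T D v → ∃ q, T.Adj v q ∧ G.Adj v q := by
    intro v hv
    refine ⟨p v, hp v hv, ?_⟩
    rw [hGadj]
    exact Or.inr ⟨Or.inl ⟨v, hv, rfl⟩, (hp v hv).ne⟩
  have hQG : ∀ e ∈ Q, G.Adj e.1 e.2 := by
    intro e he
    rw [hGadj]
    exact Or.inr ⟨Or.inr ⟨e, he, rfl⟩, (hQ1 e he).1.1.ne⟩
  refine ⟨G, ?_, ?_, ?_⟩
  · have key : ∀ a b, T.Adj a b → G.Reachable a b := by
      intro a b hab
      rcases Conn_fwd hs hG hI (d := (a, b)) hab with h | ⟨x, hx, hx1, hx2⟩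
      · exact h
      rcases Conn_fwd hs hG hI (d := (b, a)) hab.symm with h | ⟨y, hy, hy1, hy2⟩
      · exact h.symm
      -- hull to hull walk
      have hye : Relation.ReflTransGen (Step C T D) y.swap (a, b) := reach_swap hy
      have hyx := hye.trans hx
      have hhot := (hot_partner hs (hd_of_he hy1 hy2) hyx hx2).2.1
      rcases hQ3 y.swap x hhot hyx hx2 with h | h
      · have h1 := (hQG _ h).reachable
        exact (Conn_reach hs hG hye).mp h1
      · have h1 := (hQG _ h).reachable
        have h2 : G.Reachable x.1 x.2 := h1.symm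
        exact (Conn_reach hs hG hx).mpr h2
    have hT := hs.tree.1
    have := hT.nonempty
    exact ⟨fun x y => Conn_reach_mono key (hT.preconnected x y)⟩
  · intro a b h
    rw [hGadj] at h
    rcases h with h | h
    · exact h.1
    · exact hs.le (hST a b h.1)
  · have h1 : (T ⊓ G).edgeSet ⊆ S1 ∪ S2 := by
      intro x
      induction x using Sym2.ind with
      | h a b =>
        intro hx
        have h2 : T.Adj a b ∧ G.Adj a b := hx
        rcases (hGadj a b).mp h2.2 with h3 | h3
        · exact absurd h2.1 h3.2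
        · exact h3.1
    have h2 : (T ⊓ G).edgeSet.ncard ≤ (S1 ∪ S2).ncard :=
      Set.ncard_le_ncard h1 (Set.toFinite _)
    have h3 : (S1 ∪ S2).ncard ≤ S1.ncard + S2.ncard := Set.ncard_union_le _ _
    have h4 : S1.ncard ≤ {v | Iso C T D v}.ncard := Set.ncard_image_le (Set.toFinite _)
    have h5 : S2.ncard ≤ Q.ncard := Set.ncard_image_le (Set.toFinite _)
    unfold N2
    omega

end CT
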