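import Pool.Agent.H7.CT.RepWalk

/-! # CT module LemU (Lemma U)

`D` minimises `N2`, `Iso v`, `y ≠ v`, `¬ T.Adj v y`. Then some `D`-edge crossing `vy` has an end outside
`N(v)`.

Proof. Suppose all `D`-edges `bc` crossing `vy` have `T.Adj v b`, `T.Adj v c`. They are not in `T`
(`link_not_T`). Let `D'` be a replacement graph (`exists_rep`, `x := v`).
(1) `¬ Iso D' v` (`D'.Adj v y`).
(2) `Iso D' u → Iso D u`: otherwise some `D`-edge `uw ∉ T`; it is not in `D'`, so it crosses `vy`, so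
  `T.Adj v u`. The link edges `u c₁`, `c₂ u` (`iso_faces`, faces `v u c₁`, `v c₂ u`) are in `D \ T`, so not in `D'` (as `Iso D' u`), so
  both cross `vy`: `o v y u < 0` from the first (`cross_pattern`, `0 < o u c₁ v`), `0 < o v y u` from the second. Contradiction.
(3) `D'.Adj v z → z = y ∨ T.Adj v z` (`rep_new_edge` at `z`).
(4) a new step of `D'` (`new_step`): `T.Adj v a`; `b, c ∈ {v, y}` (`T.Adj v b` impossible by `no3`), so
  `{b,c} = {v,y}`, `T.Adj a y`.
(5) a `D`-step between darts not incident to `v` is a `D'`-step (`step_persist`: if the base `d.2 d'.2` crosses `vy` its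
  ends are in `N(v)`, and `d.1` is adjacent to both, so `d.1 = v` by `no4`).
(6) Let `e` be hot in `D'`, not in `D`. The `D`-walk of `e` avoids `v` (`iso_avoid`). `hot_gain`: dead dart `δ`, new step
  `δ → δ₁`, by (4) one of `δ, δ₁` is on the edge `av`, the other on `ay`; `δ` is not incident to `v`, so `δ₁` is incident to `v`:
  `δ = (y,a), δ₁ = (v,a)`, `Face D' y a v`, or `δ = (a,y), δ₁ = (a,v)`, `Face D' a y v`.
(7) Trap: all darts reachable in `D'` from `(v,a)` are `(v,p)` with `T.Adj v p`, so not at the hull (`v` inner). Induction: a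
  `D'`-step from `(v,p)` uses `Face D' v p c`, `c = y` or `T.Adj v c`. If `T.Adj v c` it goes to `(v,c)`. If `c = y`: it would need
  `T.Adj p y`, then `p = a` (`no4`, `v ≠ y`), but `Face D' v a y` contradicts `Face D' y a v` (orientation). Same for
  `(a,v)`. Contradiction, so `Hot D' ⊆ Hot D`, and `n2_drop` contradicts minimality. -/

open Classical

namespace CT

variable {V : Type}

/-- (2): a vertex isolated in `D'` is isolated in `D` -/
theorem LemU_iso [Finite V] {C : Cfg V} {T D D' : SimpleGraph V} (hs : Setup C T D) {v y : V}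
    (hv : Iso C T D v) (hc : ∀ b c, D.Adj b c → C.Cross v y b c → T.Adj v b ∧ T.Adj v c)
    (hr : Rep C T D D' v y) (u : V) (hu : Iso C T D' u) : Iso C T D u := by
  refine ⟨hu.1, ?_⟩
  intro w hw
  by_contra hTw
  have key : ∀ z, D.Adj u z → ¬ T.Adj u z → C.Cross v y u z := by
    intro z hz hTz
    by_contra hcr
    exact hTz (hu.2 z (hr.2.2 u z hz hcr))
  have hvu : T.Adj v u := (hc u w hw (key w hw hTw)).1
  obtain ⟨⟨c, hf, _, hc2, hc3⟩, ⟨c', hf', _, hc2', hc3'⟩⟩ := iso_faces hs hv hvu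
  have h1 := key c hc2 hc3
  have h2 := C.cross_symm34 (key c' hc2'.symm (fun h => hc3' h.symm))
  have e1 : 0 < C.o u c v := by
    rw [← C.o_cyc]
    exact hf.2.2.2.1
  have e2 : 0 < C.o c' u v := by
    rw [← C.o_cyc]
    exact hf'.2.2.2.1
  have n1 : C.o v y u < 0 := by
    rcases C.cross_pattern h1 with h | h
    · linarith [h.2.2.1]
    · exact h.1
  have n2 : 0 < C.o v y u := by
    rcases C.cross_pattern h2 with h | h
    · linarith [h.2.2.1]
    · exact h.2.1
  linarith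

/-- (3): the neighbours of `v` in `D'` -/
theorem LemU_nbr [Finite V] {C : Cfg V} {T D D' : SimpleGraph V} (hs : Setup C T D) {v y : V}
    (hv : Iso C T D v) (hc : ∀ b c, D.Adj b c → C.Cross v y b c → T.Adj v b ∧ T.Adj v c)
    (hr : Rep C T D D' v y) {z : V} (hz : D'.Adj v z) : z = y ∨ T.Adj v z := by
  by_cases h : D.Adj v z
  · exact Or.inr (hv.2 z h)
  · rcases rep_new_edge C T D D' hs hr hz.symm (fun h' => h h'.symm) with h1 | h1 | ⟨b, h1, h2⟩
    · exact absurd h1 hz.ne'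
    · exact Or.inl h1
    · exact Or.inr (hc z b h1 h2).1

/-- (4): the new steps of `D'` -/
theorem LemU_new [Finite V] {C : Cfg V} {T D D' : SimpleGraph V} (hs : Setup C T D) {v y : V}
    (hc : ∀ b c, D.Adj b c → C.Cross v y b c → T.Adj v b ∧ T.Adj v c)
    (hr : Rep C T D D' v y) {d d' : V × V} (h : Step C T D' d d') (hn : ¬ Step C T D d d')
    (h1 : d.1 ≠ v) (h2 : d.2 ≠ v) :
    ∃ a, T.Adj v a ∧ T.Adj a y ∧
      ((d' = (a, v) ∧ Face C D' a y v) ∨ (d' = (v, a) ∧ Face C D' y a v)) := by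
  obtain ⟨a, b, c, hab, hac, hbc, _, _, ⟨x', hx1, hx2⟩, hb, hc', hd⟩ := new_step hs hr h hn
  have hva : T.Adj v a := (hc a x' hx1 hx2).1
  have hb1 : b = v ∨ b = y := by
    rcases hb with hb | hb | ⟨w, hw1, hw2⟩
    · exact Or.inl hb
    · exact Or.inr hb
    · exact (no3 T hs.tree hva hab (hc b w hw1 hw2).1.symm).elim
  have hc1 : c = v ∨ c = y := by
    rcases hc' with hb | hb | ⟨w, hw1, hw2⟩
    · exact Or.inl hb
    · exact Or.inr hb
    · exact (no3 T hs.tree hva hac (hc c w hw1 hw2).1.symm).elim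
  rcases hb1 with hb1 | hb1
  · subst hb1
    exfalso
    rcases hd with ⟨hd, _⟩ | ⟨hd, _⟩
    · rw [hd] at h2
      exact h2 rfl
    · rw [hd] at h1
      exact h1 rfl
  · subst hb1
    have hcv : c = v := by
      rcases hc1 with h3 | h3
      · exact h3
      · exact absurd h3.symm hbc
    subst hcv
    refine ⟨a, hva, hab, ?_⟩
    rcases hd with ⟨_, hd, hf, _⟩ | ⟨_, hd, hf, _⟩
    · exact Or.inl ⟨hd, hf⟩
    · exact Or.inr ⟨hd, hf⟩

/-- (5): steps between darts not incident to `v` persist -/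
theorem LemU_persist [Finite V] {C : Cfg V} {T D D' : SimpleGraph V} (hs : Setup C T D)
    {v y : V} (hc : ∀ b c, D.Adj b c → C.Cross v y b c → T.Adj v b ∧ T.Adj v c)
    (hT : ∀ a b, T.Adj a b → ¬ C.Cross v y a b) (hr : Rep C T D D' v y) {d d' : V × V}
    (h : Step C T D d d') (h1 : d.1 ≠ v) (h2 : d.2 ≠ v) : Step C T D' d d' := by
  have hdd : T.Adj d.1 d.2 := h.1
  rcases step_cases hs h with ⟨e1, _, e3, e4, _, e6⟩ | ⟨e1, _, e3, e4, _, e6⟩
  · refine step_persist hs hr hT h ?_ ?_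
    · intro hcr
      obtain ⟨f1, f2⟩ := hc _ _ e4 hcr
      exact h1 (no4 T hs.tree e6.symm f1.symm f2.symm hdd.symm e3.symm).symm
    · rw [e1]
      intro hcr
      exact (C.cross_ne hcr).2.2.2.2.2 rfl
  · refine step_persist hs hr hT h ?_ ?_
    · rw [e1]
      intro hcr
      exact (C.cross_ne hcr).2.2.2.2.2 rfl
    · intro hcr
      obtain ⟨f1, f2⟩ := hc _ _ e4 hcr
      exact h2 (no4 T hs.tree e6.symm f1.symm f2.symm hdd e3).symm

/-- (7): the trap at `v`, darts starting in `v` -/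
theorem LemU_trap [Finite V] {C : Cfg V} {T D' : SimpleGraph V} (hT : T.IsTree) {v y a : V}
    (hyv : y ≠ v) (hn : ∀ z, D'.Adj v z → z = y ∨ T.Adj v z) (hva : T.Adj v a) (hay : T.Adj a y)
    (hf : Face C D' y a v) {d : V × V} (h : Relation.ReflTransGen (Step C T D') (v, a) d) :
    d.1 = v ∧ T.Adj v d.2 := by
  induction h with
  | refl => exact ⟨rfl, hva⟩
  | @tail d1 d2 _ hst ih =>
    obtain ⟨ih1, ih2⟩ := ih
    obtain ⟨_, c, hfc, hd⟩ := hst
    rw [ih1] at hfc hd
    rcases hd with ⟨hd1, hd2⟩ | ⟨hd1, hd2⟩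
    · rw [hd2]
      exact ⟨rfl, hd1⟩
    · exfalso
      rcases hn c hfc.2.2.1.symm with h3 | h3
      · subst h3
        have h4 : d1.2 = a := no4 T hT hyv.symm ih2 hd1 hva hay.symm
        rw [h4] at hfc
        have h5 := hfc.2.2.2.1
        have h6 := hf.2.2.2.1
        rw [C.o_swap13] at h6
        linarith
      · exact no3 T hT ih2 hd1.symm h3.symm

/-- (7): the trap at `v`, darts ending in `v` -/
theorem LemU_trap' [Finite V] {C : Cfg V} {T D' : SimpleGraph V} (hT : T.IsTree) {v y a : V}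
    (hyv : y ≠ v) (hn : ∀ z, D'.Adj v z → z = y ∨ T.Adj v z) (hva : T.Adj v a) (hay : T.Adj a y)
    (hf : Face C D' a y v) {d : V × V} (h : Relation.ReflTransGen (Step C T D') (a, v) d) :
    d.2 = v ∧ T.Adj v d.1 := by
  induction h with
  | refl => exact ⟨rfl, hva⟩
  | @tail d1 d2 _ hst ih =>
    obtain ⟨ih1, ih2⟩ := ih
    obtain ⟨_, c, hfc, hd⟩ := hst
    rw [ih1] at hfc hd
    rcases hd with ⟨hd1, hd2⟩ | ⟨hd1, hd2⟩
    · exfalso
      rcases hn c hfc.2.1 with h3 | h3
      · subst h3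
        have h4 : d1.1 = a := no4 T hT hyv.symm ih2 hd1.symm hva hay.symm
        rw [h4] at hfc
        have h5 := hfc.2.2.2.1
        have h6 := hf.2.2.2.1
        rw [C.o_swap'] at h6
        linarith
      · exact no3 T hT ih2 hd1 h3.symm
    · rw [hd2]
      exact ⟨rfl, hd1.symm⟩

theorem lemU [Finite V] {C : Cfg V} {T D : SimpleGraph V} (hm : Min C T D) {v : V}
    (hv : Iso C T D v) : UProp C T D v := by
  have hs : Setup C T D := hm.1
  intro y hyv hvy
  by_contra hcon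
  have hc : ∀ b c, D.Adj b c → C.Cross v y b c → T.Adj v b ∧ T.Adj v c := by
    intro b c h1 h2
    by_contra h3
    exact hcon ⟨b, c, h1, h2, h3⟩
  have hT : ∀ a b, T.Adj a b → ¬ C.Cross v y a b := by
    intro a b hab hcr
    obtain ⟨h1, h2⟩ := hc a b (hs.le hab) hcr
    exact no3 T hs.tree h1 hab h2.symm
  obtain ⟨D', hr⟩ := exists_rep C T D hs hyv.symm hT
  have hnb : ∀ z, D'.Adj v z → z = y ∨ T.Adj v z := fun z hz => LemU_nbr hs hv hc hr hz
  have hiso := LemU_iso hs hv hc hr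
  have hnv : ¬ Iso C T D' v := fun h => hvy (h.2 y hr.2.1)
  have hhot : ∀ e, Hot C T D' e → Hot C T D e := by
    intro e he
    by_contra hne
    have hHD : IsHD C T e := he.1
    obtain ⟨δ, c, δ1, δ2, hdead, hst, hnst, hreach, hend⟩ := hot_gain hs hr.1 he hne
      (fun d1 d2 h1 h2 => by
        obtain ⟨a1, a2⟩ := iso_avoid hs hv hHD h1
        exact LemU_persist hs hc hT hr h2 a1 a2)
    obtain ⟨b1, b2⟩ := iso_avoid hs hv hHD hdead.2.1
    obtain ⟨a, hva, hay, h3⟩ := LemU_new hs hc hr hst hnst b1 b2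
    rcases h3 with ⟨h3, hf⟩ | ⟨h3, hf⟩
    · rw [h3] at hreach
      obtain ⟨h4, h5⟩ := LemU_trap' hs.tree hyv hnb hva hay hf hreach
      rw [h4] at hend
      obtain ⟨_, z, hz⟩ := hv.1 δ2.1 h5.ne'
      refine hend z ?_
      rw [C.o_swap]
      linarith
    · rw [h3] at hreach
      obtain ⟨h4, h5⟩ := LemU_trap hs.tree hyv hnb hva hay hf hreach
      rw [h4] at hend
      obtain ⟨⟨z, hz⟩, _⟩ := hv.1 δ2.2 h5.ne'
      exact hend z hz
  have hdrop := n2_drop hiso hhot (Or.inl ⟨v, hv, hnv⟩)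
  have hmin := hm.2 D' hr.1
  omega

end CT
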