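import Pool.Agent.H7.CT.WinG

/-! # CT module StripEnd: an unblocked strip contains all points

`nbr_y_back`: for `j ≤ r`, `q` the first time of `y = y_j`, `z` a `D`-neighbour of `y` with `o x_q y z < 0`: `z` is some `y_i`. (`q = 0`: impossible by `hd_left`; otherwise `scan` with `winG`.)
`nbr_y`: every `D`-neighbour `z` of `y_j` is on the strip. `q` first, `p` last time of `y_j`. `o x_q y z < 0`: `nbr_y_back`. `0 < o x_p y z`: `nbr_y_back` for the reversed strip `strip_rev` in `C.mir` (`min_mir`, `blk_rev`; first time of `y` there is `r - p`). Otherwise `0 ≤ o x_q y z` and `o x_p y z ≤ 0`: then some `j'` in `[q,p)` (or `q = p`) with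
`0 ≤ o x_{j'} y z`, `o x_{j'+1} y z ≤ 0`: zero means `z = x_{j'}` or `x_{j'+1}` (or `z`... `z ≠ y`): on the strip; strict signs: `z` in the sector of `Face y x_{j'+1} x_{j'}`: contradiction.
`nbr_x`: `nbr_y` for `strip_mir` (`blk_mir`).
So the vertex set of the strip is closed under `D`-adjacency, `T ≤ D` connected: it is everything (`strip_all`).
`strip_n2`: then `N2 ≤ 2`: no `Iso v` (every vertex is on the walk of `d 0`: `iso_avoid`); every `T`-edge is a strip edge (`strip_edge` or its reverse, colours), so a hot dart `e'` is `d j` or `(d j).swap`; `d j` with `j ≥ 1` has a predecessor (`no_step_into_hd`), `(d j).swap` with `j < r` has the predecessor `(d (j+1)).swap`: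
 so `e' ∈ {d 0, (d r).swap}`. -/

open Classical

namespace CT

variable {V : Type}

theorem nbr_y_back [Finite V] {C : Cfg V} {T D : SimpleGraph V} (hm : Min C T D)
    {d : ℕ → V × V} {r q : ℕ} (h : Strip C T D d r) (hnb : ¬ ∃ e', BlkBy C T D (d 0) e')
    (hq : q ≤ r) (hfirst : ∀ i, i < q → (d i).2 ≠ (d q).2) {z : V}
    (hz : D.Adj (d q).2 z) (ho : C.o (d q).1 (d q).2 z < 0) : ∃ i, i ≤ r ∧ z = (d i).2 := by
  rcases Nat.eq_zero_or_pos q with rfl | hq0
  · exfalso
    have hne := C.ne_of_o_neg ho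
    have := hd_left h.hd (z := z) hne.2.1.symm hne.2.2.symm
    linarith
  · have hqr : q - 1 < r := by omega
    have hst := strip_step hm.1 h hqr
    have hq1 : q - 1 + 1 = q := by omega
    rw [hq1] at hst
    have hx : (d q).1 = (d (q - 1)).1 := by
      rcases hst with hst | hst
      · exact hst.1
      · exact absurd hst.1.symm (hfirst (q - 1) (by omega))
    obtain ⟨p, hp, hzp⟩ := scan hm.1 h hq hq0 hx (fun p w => winG hm h hnb q p w) hz ho
    have := hp.lt
    exact ⟨p, by omega, hzp⟩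

/-- zero orientation: `z` is the first vertex -/
private theorem StripEnd_zero {C : Cfg V} {x y z : V} (hxy : x ≠ y) (hyz : y ≠ z)
    (h : C.o x y z = 0) : x = z := by
  by_contra hne
  exact C.o_ne hxy hne hyz h

theorem nbr_y [Finite V] {C : Cfg V} {T D : SimpleGraph V} (hm : Min C T D)
    {d : ℕ → V × V} {r j : ℕ} (h : Strip C T D d r) (hnb : ¬ ∃ e', BlkBy C T D (d 0) e')
    (hj : j ≤ r) {z : V} (hz : D.Adj (d j).2 z) :
    ∃ i, i ≤ r ∧ ((d i).1 = z ∨ (d i).2 = z) := by
  -- first time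
  have hex1 : ∃ i, i ≤ r ∧ (d i).2 = (d j).2 := ⟨j, hj, rfl⟩
  obtain ⟨q, ⟨hqr, hqy⟩, hqmin⟩ : ∃ q, (q ≤ r ∧ (d q).2 = (d j).2) ∧
      ∀ i, i < q → ¬ (i ≤ r ∧ (d i).2 = (d j).2) :=
    ⟨Nat.find hex1, Nat.find_spec hex1, fun i hi => Nat.find_min hex1 hi⟩
  have hex2 : ∃ i, i ≤ r ∧ (d (r - i)).2 = (d j).2 := ⟨r - j, by omega, by
    have : r - (r - j) = j := by omega
    rw [this]⟩
  obtain ⟨p', ⟨hpr', hpy'⟩, hpmin'⟩ : ∃ q, (q ≤ r ∧ (d (r - q)).2 = (d j).2) ∧
      ∀ i, i < q → ¬ (i ≤ r ∧ (d (r - i)).2 = (d j).2) :=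
    ⟨Nat.find hex2, Nat.find_spec hex2, fun i hi => Nat.find_min hex2 hi⟩
  have hTadj : ∀ i, i ≤ r → T.Adj (d i).1 (d i).2 := fun i hi => h.hwalk.adj hi
  rcases lt_or_ge (C.o (d q).1 (d q).2 z) 0 with h1 | h1
  · obtain ⟨i, hi, hzi⟩ := nbr_y_back hm h hnb hqr (fun i hi he => hqmin i hi
      ⟨by omega, he.trans hqy⟩) (by rw [hqy]; exact hz) h1
    exact ⟨i, hi, Or.inr hzi.symm⟩
  rcases lt_or_ge 0 (C.o (d (r - p')).1 (d (r - p')).2 z) with h2 | h2
  · have hrev := strip_rev h
    have hnb' : ¬ ∃ e', BlkBy C.mir T D (d (r - 0)) e' := by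
      rintro ⟨e', he'⟩
      rw [Nat.sub_zero] at he'
      exact hnb ⟨e'.swap, blk_rev hm.1 h he'⟩
    obtain ⟨i, hi, hzi⟩ := nbr_y_back (C := C.mir) (d := fun i => d (r - i)) (q := p')
      (min_mir.mpr hm) hrev hnb' hpr'
      (fun i hi he => hpmin' i hi ⟨by omega, he.trans hpy'⟩)
      (by show D.Adj (d (r - p')).2 z; rw [hpy']; exact hz)
      (by show C.mir.o (d (r - p')).1 (d (r - p')).2 z < 0; rw [C.mir_o]; linarith)
    exact ⟨r - i, by omega, Or.inr hzi.symm⟩
  -- the fan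
  have hpr : r - p' ≤ r := by omega
  have hqp : q ≤ r - p' := by
    by_contra hlt
    push Not at hlt
    exact hqmin (r - p') hlt ⟨hpr, hpy'⟩
  have hint : ∀ i, q ≤ i → i ≤ r - p' → (d i).2 = (d j).2 := by
    intro i h3 h4
    rw [← hqy]
    exact strip_interval_y hm.1 h h3 h4 hpr (hqy.trans hpy'.symm)
  have hyz : (d j).2 ≠ z := hz.ne
  by_cases hall : ∀ i, q ≤ i → i ≤ r - p' → 0 ≤ C.o (d i).1 (d j).2 z
  · have h3 := hall (r - p') hqp le_rfl
    rw [hpy'] at h2
    have h4 : C.o (d (r - p')).1 (d j).2 z = 0 := le_antisymm h2 h3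
    have hne : (d (r - p')).1 ≠ (d j).2 := by
      have := (hTadj (r - p') hpr).ne
      rwa [hpy'] at this
    exact ⟨r - p', hpr, Or.inl (StripEnd_zero hne hyz h4)⟩
  · push Not at hall
    -- the first failure
    have hex3 : ∃ i, q ≤ i ∧ i ≤ r - p' ∧ C.o (d i).1 (d j).2 z < 0 := hall
    obtain ⟨m, ⟨hm1, hm2, hm3⟩, hmmin⟩ : ∃ m, (q ≤ m ∧ m ≤ r - p' ∧
        C.o (d m).1 (d j).2 z < 0) ∧ ∀ i, i < m → ¬ (q ≤ i ∧ i ≤ r - p' ∧
        C.o (d i).1 (d j).2 z < 0) :=
      ⟨Nat.find hex3, Nat.find_spec hex3, fun i hi => Nat.find_min hex3 hi⟩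
    have hmq : q < m := by
      rcases Nat.lt_or_ge q m with h5 | h5
      · exact h5
      · exfalso
        have h6 : m = q := by omega
        rw [h6, ← hqy] at hm3
        linarith
    obtain ⟨k, rfl⟩ : ∃ k, m = k + 1 := ⟨m - 1, by omega⟩
    have hk : 0 ≤ C.o (d k).1 (d j).2 z := by
      by_contra hneg
      push Not at hneg
      exact hmmin k (by omega) ⟨by omega, by omega, hneg⟩
    have hky : (d k).2 = (d j).2 := hint k (by omega) (by omega)
    have hky1 : (d (k + 1)).2 = (d j).2 := hint (k + 1) hm1 hm2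
    rcases hk.lt_or_eq with hk | hk
    · exfalso
      rcases strip_step hm.1 h (show k < r by omega) with hst | hst
      · exact hst.2.1 (hky1.trans hky.symm)
      · have hf := hst.2.2
        rw [hky] at hf
        have hf2 := hf.rot
        refine sector C D hm.1.mp.1 hf2 hz ⟨?_, ?_⟩
        · rw [C.o_swap (d j).2 (d (k + 1)).1 z]
          linarith
        · rw [C.o_cyc' (d j).2 z (d k).1]
          exact hk
    · have hne : (d k).1 ≠ (d j).2 := by
        have := (hTadj k (by omega)).ne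
        rwa [hky] at this
      exact ⟨k, by omega, Or.inl (StripEnd_zero hne hyz hk.symm)⟩

private theorem StripEnd_nbr_x [Finite V] {C : Cfg V} {T D : SimpleGraph V} (hm : Min C T D)
    {d : ℕ → V × V} {r j : ℕ} (h : Strip C T D d r) (hnb : ¬ ∃ e', BlkBy C T D (d 0) e')
    (hj : j ≤ r) {z : V} (hz : D.Adj (d j).1 z) :
    ∃ i, i ≤ r ∧ ((d i).1 = z ∨ (d i).2 = z) := by
  have hnb' : ¬ ∃ e', BlkBy C.mir T D (d 0).swap e' := by
    rintro ⟨e', he'⟩
    refine hnb ⟨e'.swap, ?_⟩
    apply (blk_mir (C := C) (T := T) (D := D)).mp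
    simpa using he'
  obtain ⟨i, hi, hzi⟩ := nbr_y (C := C.mir) (d := fun i => (d i).swap) (j := j) (z := z)
    (min_mir.mpr hm) (strip_mir h) hnb' hj hz
  refine ⟨i, hi, ?_⟩
  rcases hzi with hzi | hzi
  · exact Or.inr hzi
  · exact Or.inl hzi

theorem strip_all [Finite V] {C : Cfg V} {T D : SimpleGraph V} (hm : Min C T D)
    {d : ℕ → V × V} {r : ℕ} (h : Strip C T D d r) (hnb : ¬ ∃ e', BlkBy C T D (d 0) e')
    (z : V) : ∃ i, i ≤ r ∧ ((d i).1 = z ∨ (d i).2 = z) := by
  have hr : T.Reachable (d 0).1 z := hm.1.tree.connected.preconnected (d 0).1 z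
  obtain ⟨w⟩ := hr
  have key : ∀ (a b : V) (w : T.Walk a b), (∃ i, i ≤ r ∧ ((d i).1 = a ∨ (d i).2 = a)) →
      ∃ i, i ≤ r ∧ ((d i).1 = b ∨ (d i).2 = b) := by
    intro a b w
    induction w with
    | nil => exact fun h => h
    | cons hadj _ ih =>
      rintro ⟨i, hi, hi2⟩
      apply ih
      have hD := hm.1.le hadj
      rcases hi2 with hi2 | hi2
      · subst hi2
        exact StripEnd_nbr_x hm h hnb hi hD
      · subst hi2
        exact nbr_y hm h hnb hi hD
  exact key _ _ w ⟨0, Nat.zero_le _, Or.inl rfl⟩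

theorem strip_n2 [Finite V] {C : Cfg V} {T D : SimpleGraph V} (hs : Setup C T D)
    {d : ℕ → V × V} {r : ℕ} (h : Strip C T D d r)
    (hall : ∀ z, ∃ i, i ≤ r ∧ ((d i).1 = z ∨ (d i).2 = z)) : N2 C T D ≤ 2 := by
  have hiso : {v | Iso C T D v} = ∅ := by
    rw [Set.eq_empty_iff_forall_notMem]
    intro v hv
    obtain ⟨i, hi, hi2⟩ := hall v
    have := iso_avoid hs hv h.hd (h.hwalk.reach (Nat.zero_le i) hi)
    rcases hi2 with hi2 | hi2
    · exact this.1 hi2
    · exact this.2 hi2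
  have hsub : {e : V × V | Hot C T D e} ⊆ {d 0, (d r).swap} := by
    intro e he
    have hT : T.Adj e.1 e.2 := he.1.1
    obtain ⟨i, hi, hi2⟩ := hall e.1
    obtain ⟨j, hj, hj2⟩ := hall e.2
    rcases hi2 with hi2 | hi2
    · rcases hj2 with hj2 | hj2
      · exfalso
        apply strip_xx_not_T hs h hi hj
        rw [hi2, hj2]
        exact hT
      · obtain ⟨k, hk, hk2⟩ := strip_edge hs h hi hj (by rw [hi2, hj2]; exact hT)
        rw [hi2, hj2] at hk2
        have hk3 : d k = e := hk2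
        rcases Nat.eq_zero_or_pos k with h0 | h0
        · left
          rw [← hk3, h0]
        · exfalso
          have hst := h.step (k - 1) (by omega)
          have h1 : k - 1 + 1 = k := by omega
          rw [h1, hk3] at hst
          exact no_step_into_hd he.1 hst
    · rcases hj2 with hj2 | hj2
      · obtain ⟨k, hk, hk2⟩ := strip_edge hs h hj hi (by rw [hi2, hj2]; exact hT.symm)
        rw [hi2, hj2] at hk2
        have hk3 : (d k).swap = e := by rw [hk2]; rfl
        rcases Nat.lt_or_ge k r with h0 | h0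
        · exfalso
          have hst := step_swap (h.step k h0)
          rw [hk3] at hst
          exact no_step_into_hd he.1 hst
        · right
          have h1 : k = r := by omega
          rw [← hk3, h1]
          rfl
      · exfalso
        apply strip_yy_not_T hs h hi hj
        rw [hi2, hj2]
        exact hT
  have hpair : ({d 0, (d r).swap} : Set (V × V)).ncard ≤ 2 := by
    refine (Set.ncard_insert_le _ _).trans ?_
    rw [Set.ncard_singleton]
  have hcard : {e : V × V | Hot C T D e}.ncard ≤ 2 :=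
    (Set.ncard_le_ncard hsub (Set.toFinite _)).trans hpair
  unfold N2
  rw [hiso, Set.ncard_empty]
  omega

theorem strip_lemma [Finite V] {C : Cfg V} {T D : SimpleGraph V} (hm : Min C T D)
    {e : V × V} (he : Hot C T D e) : (∃ e', BlkBy C T D e e') ∨ N2 C T D ≤ 2 := by
  obtain ⟨d, r, h, rfl⟩ := exists_strip hm.1 he
  by_cases hnb : ∃ e', BlkBy C T D (d 0) e'
  · exact Or.inl hnb
  · exact Or.inr (strip_n2 hm.1 h (strip_all hm h hnb))

end CT
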