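import Pool.Agent.H7.CT.Units

/-! # CT module UnitSum: `5 #Iso ≤ Σ_{inner} (deg - 1) + #D1`

Assume no star (`∀ v, Iso v → ∃ q z, T.Adj v q ∧ Zn v q z`). Sum `units5` over all isolated `v`:
`Σ_v (dg v - 1) + Σ_v #Recv v + 2 Σ_v #Crit v + Σ_v #DD v ≥ 5 #Iso`.
The sets `{v | Iso v}`, `Recv v` (`v` isolated), `Crit v` (`v` isolated) are pairwise disjoint sets of inner vertices: `Recv v ∌` isolated vertices (`iso_nbr_not_iso`), `Recv v ∩ Recv v' = ∅` (`recv_disj`), `Crit`: not
isolated, not adjacent to an isolated vertex, and `Crit v ∩ Crit v' = ∅` for `v ≠ v'` (a `D \ T`-neighbour `w` is a leaf at `v` and at `v'`). Inner: `hp` (with `lemU`) for `Recv`. `dg - 1 ≥ 1` on `Recv` (a non-leaf neighbour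
of `v` has another neighbour), `≥ 2` on `Crit`. `DD v` are pairwise disjoint (`deadAt_unique`, leaf at `v` and `v'`), subsets of the right-hand set.
Suggested: a weight bookkeeping with `Finset.sum` over `Finset.univ.filter`, or: `Σ_{inner u} (dg u - 1) ≥ Σ_{u} (if Iso u then dg u - 1 else 0) + Σ_u #{v | Iso v, Recv v u} + 2 Σ_u #{v | Iso v, Crit v u}` pointwise, and
double counting. -/

open Classical

namespace CT

variable {V : Type}

theorem UnitSum_leaf {T : SimpleGraph V} {v v' w : V} (h : LeafAt T v w) (h' : LeafAt T v' w) :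
    v' = v := h.2 v' h'.1.symm

theorem UnitSum_point [Fintype V] {C : Cfg V} {T D : SimpleGraph V} (hm : Min C T D)
    (hn : ∀ v, Iso C T D v → ∃ q z, T.Adj v q ∧ Zn T D v q z) (u : V) :
    (if Iso C T D u then (dg T u - 1) else 0) +
      ((Finset.univ.filter (fun v => Iso C T D v)).filter (fun v => Recv C T D v u)).card +
      2 * ((Finset.univ.filter (fun v => Iso C T D v)).filter (fun v => Crit C T D v u)).card ≤
      (if Inner C u then (dg T u - 1) else 0) := by
  have hs := hm.1
  have hinner : ∀ v, Iso C T D v → T.Adj v u → Inner C u := by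
    intro v hv hvu
    rcases hp hs hv (lemU hm hv) with h | ⟨_, _, h⟩
    · obtain ⟨q, z, hq, hz⟩ := hn v hv
      rcases h z with h | h
      · exact absurd h hz.2.1
      · exact absurd h hz.2.2
    · exact h u hvu
  by_cases hu : Iso C T D u
  · have h1 : (Finset.univ.filter (fun v => Iso C T D v)).filter
        (fun v => Recv C T D v u) = ∅ := by
      apply Finset.filter_eq_empty_iff.mpr
      intro v hv hr
      rw [Finset.mem_filter] at hv
      exact iso_nbr_not_iso hs hv.2 hr.1.1 hu
    have h2 : (Finset.univ.filter (fun v => Iso C T D v)).filter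
        (fun v => Crit C T D v u) = ∅ := by
      apply Finset.filter_eq_empty_iff.mpr
      intro v hv hr
      exact hr.2.1 hu
    rw [h1, h2, if_pos hu, if_pos hu.1]
    simp
  · rw [if_neg hu]
    by_cases hR : ∃ v, Iso C T D v ∧ Recv C T D v u
    · obtain ⟨v, hv, hr⟩ := hR
      have h1 : ((Finset.univ.filter (fun v => Iso C T D v)).filter
          (fun v => Recv C T D v u)).card ≤ 1 := by
        apply Finset.card_le_one.mpr
        intro a ha b hb
        rw [Finset.mem_filter, Finset.mem_filter] at ha hb
        by_contra hab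
        exact recv_disj hm ha.1.2 hb.1.2 hab ha.2 hb.2
      have h2 : (Finset.univ.filter (fun v => Iso C T D v)).filter
          (fun v => Crit C T D v u) = ∅ := by
        apply Finset.filter_eq_empty_iff.mpr
        intro w hw hc
        exact hc.2.2.2.1 v hv hr.1.1
      have h3 : 2 ≤ dg T u := by
        have h4 : ∃ w, T.Adj u w ∧ w ≠ v := by
          by_contra hcon
          push Not at hcon
          exact hr.1.2 ⟨hr.1.1, hcon⟩
        obtain ⟨w, hw, hwv⟩ := h4
        have h5 : ({v, w} : Set V).ncard ≤ dg T u := by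
          apply Set.ncard_le_ncard _ (Set.toFinite _)
          intro z hz
          rcases hz with rfl | rfl
          · exact hr.1.1.symm
          · exact hw
        rwa [Set.ncard_pair hwv.symm] at h5
      rw [h2, if_pos (hinner v hv hr.1.1), Finset.card_empty]
      omega
    · have h1 : (Finset.univ.filter (fun v => Iso C T D v)).filter
          (fun v => Recv C T D v u) = ∅ := by
        apply Finset.filter_eq_empty_iff.mpr
        intro w hw hc
        rw [Finset.mem_filter] at hw
        exact hR ⟨w, hw.2, hc⟩
      by_cases hC : ∃ v, Iso C T D v ∧ Crit C T D v u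
      · obtain ⟨v, hv, hc⟩ := hC
        have h2 : ((Finset.univ.filter (fun v => Iso C T D v)).filter
            (fun v => Crit C T D v u)).card ≤ 1 := by
          apply Finset.card_le_one.mpr
          intro a ha b hb
          rw [Finset.mem_filter, Finset.mem_filter] at ha hb
          obtain ⟨w, hw1, hw2⟩ := ha.2.2.2.2.2.1
          have h3 := ha.2.2.2.2.2.2 w hw1 hw2
          have h4 := hb.2.2.2.2.2.2 w hw1 hw2
          exact UnitSum_leaf h4 h3
        have h3 : 3 ≤ dg T u := hc.2.2.1
        rw [h1, if_pos hc.1, Finset.card_empty]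
        omega
      · have h2 : (Finset.univ.filter (fun v => Iso C T D v)).filter
            (fun v => Crit C T D v u) = ∅ := by
          apply Finset.filter_eq_empty_iff.mpr
          intro w hw hc
          rw [Finset.mem_filter] at hw
          exact hC ⟨w, hw.2, hc⟩
        rw [h1, h2]
        simp

theorem UnitSum_dd [Fintype V] {C : Cfg V} {T D : SimpleGraph V} (hs : Setup C T D) :
    ∑ v ∈ Finset.univ.filter (fun v => Iso C T D v), {e | DD C T D v e}.ncard ≤
      {e | ∃ v, Iso C T D v ∧ DD C T D v e}.ncard := by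
  have h1 : ∀ v, {e | DD C T D v e}.ncard =
      (Finset.univ.filter (fun e => DD C T D v e)).card := by
    intro v
    rw [← Set.ncard_coe_finset]
    congr 1
    ext e
    simp
  have h2 : {e | ∃ v, Iso C T D v ∧ DD C T D v e}.ncard =
      (Finset.univ.filter (fun e => ∃ v, Iso C T D v ∧ DD C T D v e)).card := by
    rw [← Set.ncard_coe_finset]
    congr 1
    ext e
    simp
  rw [h2, Finset.sum_congr rfl (fun v _ => h1 v), ← Finset.card_biUnion]
  · apply Finset.card_le_card
    intro e he
    rw [Finset.mem_biUnion] at he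
    obtain ⟨v, hv, he⟩ := he
    rw [Finset.mem_filter] at hv he ⊢
    exact ⟨Finset.mem_univ _, v, hv.2, he.2⟩
  · intro v _ v' _ hne
    rw [Function.onFun, Finset.disjoint_left]
    intro e he he'
    rw [Finset.mem_filter] at he he'
    obtain ⟨d, c, hd, hc⟩ := he.2
    obtain ⟨d', c', hd', hc'⟩ := he'.2
    have h := deadAt_unique hs hd hd'
    rw [← h.2] at hc'
    exact hne (UnitSum_leaf hc' hc)

theorem unit_sum [Fintype V] {C : Cfg V} {T D : SimpleGraph V} (hm : Min C T D)
    (hn : ∀ v, Iso C T D v → ∃ q z, T.Adj v q ∧ Zn T D v q z) :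
    5 * {v | Iso C T D v}.ncard ≤
      (∑ u : V, if Inner C u then (dg T u - 1) else 0) +
        {e | ∃ v, Iso C T D v ∧ DD C T D v e}.ncard := by
  have hs := hm.1
  set I : Finset V := Finset.univ.filter (fun v => Iso C T D v) with hI
  have h0 : {v | Iso C T D v}.ncard = I.card := by
    rw [← Set.ncard_coe_finset]
    congr 1
    ext e
    simp [hI]
  have hRc : ∀ v, {q | Recv C T D v q}.ncard =
      (Finset.univ.filter (fun q => Recv C T D v q)).card := by
    intro v
    rw [← Set.ncard_coe_finset]
    congr 1
    ext e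
    simp
  have hCc : ∀ v, {q | Crit C T D v q}.ncard =
      (Finset.univ.filter (fun q => Crit C T D v q)).card := by
    intro v
    rw [← Set.ncard_coe_finset]
    congr 1
    ext e
    simp
  have h1 : ∑ v ∈ I, 5 ≤ ∑ v ∈ I, ((dg T v - 1) +
      (Finset.univ.filter (fun q => Recv C T D v q)).card +
      2 * (Finset.univ.filter (fun q => Crit C T D v q)).card +
      {e | DD C T D v e}.ncard) := by
    apply Finset.sum_le_sum
    intro v hv
    rw [hI, Finset.mem_filter] at hv
    have h2 := units5 hm hv.2 (hn v hv.2)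
    have h3 := iso_deg hs hv.2
    rw [hRc, hCc] at h2
    omega
  rw [Finset.sum_const, smul_eq_mul, Finset.sum_add_distrib, Finset.sum_add_distrib,
    Finset.sum_add_distrib, ← Finset.mul_sum] at h1
  have h2 := UnitSum_dd hs
  rw [← hI] at h2
  have h3 : ∑ u : V, ((if Iso C T D u then (dg T u - 1) else 0) +
      (I.filter (fun v => Recv C T D v u)).card +
      2 * (I.filter (fun v => Crit C T D v u)).card) ≤
      ∑ u : V, (if Inner C u then (dg T u - 1) else 0) :=
    Finset.sum_le_sum (fun u _ => UnitSum_point hm hn u)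
  rw [Finset.sum_add_distrib, Finset.sum_add_distrib, ← Finset.mul_sum] at h3
  have h4 : ∑ u : V, (if Iso C T D u then (dg T u - 1) else 0) = ∑ v ∈ I, (dg T v - 1) := by
    rw [hI, Finset.sum_filter]
  have h5 : ∑ u : V, (I.filter (fun v => Recv C T D v u)).card =
      ∑ v ∈ I, (Finset.univ.filter (fun q => Recv C T D v q)).card :=
    (Finset.sum_card_bipartiteAbove_eq_sum_card_bipartiteBelow
      (s := I) (t := Finset.univ) (fun v u => Recv C T D v u)).symm
  have h6 : ∑ u : V, (I.filter (fun v => Crit C T D v u)).card =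
      ∑ v ∈ I, (Finset.univ.filter (fun q => Crit C T D v q)).card :=
    (Finset.sum_card_bipartiteAbove_eq_sum_card_bipartiteBelow
      (s := I) (t := Finset.univ) (fun v u => Crit C T D v u)).symm
  rw [h4, h5, h6] at h3
  rw [h0]
  omega

end CT
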