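import Pool.Agent.H7.CT.HullCnt
import Pool.Agent.H7.CT.UnitSum
import Pool.Agent.H7.CT.StripEnd
import Pool.Agent.H7.CT.LemU

/-! # CT module Count

Proof. Let `k = #Iso`, `H = #Hot`, `D1 = {e | ∃ v, Iso v ∧ DD v e}`, `D2 = {e' | ∃ e, Hot e ∧ BlkBy e e'}`.
* If some `v` is `Iso` without `q z`, `T.Adj v q ∧ Zn T D v q z`: `hp` (with `UProp` from Lemma U) gives the star case, `star_n2`: `N2 ≤ 2`. Otherwise `unit_sum`: `5k ≤ Wint + #D1`.
* If some hot `e` has no blocker: `strip_lemma`: `N2 ≤ 2`. Otherwise `H ≤ 4 * #D2` (the hot darts are covered by the sets of `charge`, one for each element of `D2`).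
* `Hot`, `D1`, `D2` are pairwise disjoint (`not_hot_of_dead`, `blk_disj`) and consist of hull darts: `H + #D1 + #D2 ≤ #HD`. `hull_cnt`: `2 #HD ≤ Whull`; `deg_split`: `Wint + Whull + 2 = card V`.
* `5 N2 = 10 k + 5 H ≤ 2 Wint + 2 #D1 + H + 4H`, and `H ≤ 4 #D2`: `≤ 2 Wint + 4 (#D1 + #D2 + H) ≤ 2 Wint + 2 Whull = 2 card V - 4`. -/

open Classical

namespace CT

variable {V : Type}

theorem Count_mul {α β : Type} [Finite α] [Finite β] (H : Set α) (E : Set β) (F : β → Set α)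
    (hF : ∀ b, (F b).ncard ≤ 4) (hc : ∀ a ∈ H, ∃ b ∈ E, a ∈ F b) :
    H.ncard ≤ 4 * E.ncard := by
  have h1 : H.ncard ≤ ((Set.toFinite E).toFinset.biUnion
      (fun b => (Set.toFinite (F b)).toFinset)).card := by
    rw [← Set.ncard_coe_finset]
    apply Set.ncard_le_ncard _ (Set.toFinite _)
    intro a ha
    obtain ⟨b, hb, hab⟩ := hc a ha
    rw [Finset.mem_coe, Finset.mem_biUnion]
    exact ⟨b, (Set.Finite.mem_toFinset _).mpr hb, (Set.Finite.mem_toFinset _).mpr hab⟩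
  have h2 := Finset.card_biUnion_le_card_mul (Set.toFinite E).toFinset
    (fun b => (Set.toFinite (F b)).toFinset) 4 (by
      intro b _
      rw [← Set.ncard_eq_toFinset_card]
      exact hF b)
  rw [← Set.ncard_eq_toFinset_card] at h2
  linarith

theorem Count_cover [Finite V] {C : Cfg V} {T D : SimpleGraph V} (hs : Setup C T D)
    (hb : ∀ e, Hot C T D e → ∃ e', BlkBy C T D e e') :
    {e | Hot C T D e}.ncard ≤ 4 * {e' | ∃ e, Hot C T D e ∧ BlkBy C T D e e'}.ncard := by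
  apply Count_mul _ _ (fun e' => {e | Hot C T D e ∧ BlkBy C T D e e'}) (charge hs)
  intro e he
  obtain ⟨e', he'⟩ := hb e he
  exact ⟨e', ⟨e, he, he'⟩, he, he'⟩

theorem Count_disj [Finite V] {C : Cfg V} {T D : SimpleGraph V} (hs : Setup C T D) :
    {e | Hot C T D e}.ncard + {e | ∃ v, Iso C T D v ∧ DD C T D v e}.ncard +
      {e' | ∃ e, Hot C T D e ∧ BlkBy C T D e e'}.ncard ≤ {e | IsHD C T e}.ncard := by
  have h1 : Disjoint {e | Hot C T D e} {e | ∃ v, Iso C T D v ∧ DD C T D v e} := by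
    rw [Set.disjoint_left]
    rintro e he ⟨v, _, d, c, hd, _⟩
    exact not_hot_of_dead hs hd he
  have h2 : Disjoint ({e | Hot C T D e} ∪ {e | ∃ v, Iso C T D v ∧ DD C T D v e})
      {e' | ∃ e, Hot C T D e ∧ BlkBy C T D e e'} := by
    rw [Set.disjoint_left]
    rintro e' he' ⟨e, he, hb⟩
    rcases he' with h | ⟨v, hv, hd⟩
    · obtain ⟨δ, c, hδ, _⟩ := hb
      exact not_hot_of_dead hs hδ h
    · exact blk_disj hs hv he hb hd
  rw [← Set.ncard_union_eq h1 (Set.toFinite _) (Set.toFinite _),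
    ← Set.ncard_union_eq h2 (Set.toFinite _) (Set.toFinite _)]
  apply Set.ncard_le_ncard _ (Set.toFinite _)
  rintro e ((h | ⟨v, _, d, c, hd, _⟩) | ⟨e0, _, δ, c, hδ, _⟩)
  · exact h.1
  · exact hd.1
  · exact hδ.1

theorem count [Fintype V] {C : Cfg V} {T D : SimpleGraph V} (hm : Min C T D)
    (hR : Reduced C T) : N2 C T D ≤ 2 ∨ 5 * N2 C T D + 4 ≤ 2 * Fintype.card V := by
  have hs := hm.1
  by_cases h1 : ∃ v, Iso C T D v ∧ ¬ ∃ q z, T.Adj v q ∧ Zn T D v q z
  · obtain ⟨v, hv, hno⟩ := h1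
    left
    rcases hp hs hv (lemU hm hv) with h | h
    · exact star_n2 hs hv h
    · exact absurd h.2.1 hno
  by_cases h2 : ∃ e, Hot C T D e ∧ ¬ ∃ e', BlkBy C T D e e'
  · obtain ⟨e, he, hno⟩ := h2
    left
    exact (strip_lemma hm he).resolve_left hno
  have hn : ∀ v, Iso C T D v → ∃ q z, T.Adj v q ∧ Zn T D v q z := by
    intro v hv
    by_contra hc
    exact h1 ⟨v, hv, hc⟩
  have hb : ∀ e, Hot C T D e → ∃ e', BlkBy C T D e e' := by
    intro e he
    by_contra hc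
    exact h2 ⟨e, he, hc⟩
  right
  have hU := unit_sum hm hn
  have hC := hull_cnt hR hs.three
  obtain ⟨a, b, -, hab, -⟩ := hs.three
  have hD := deg_split hs.tree (C := C) ⟨a, b, hab⟩
  have hH := Count_cover hs hb
  have hJ := Count_disj hs
  unfold N2
  omega

end CT
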