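import Pool.Agent.H7.CT.Steps

/-! # CT module IsoWalk: W2, stars of isolated inner vertices are closed under steps

If `Iso v` then all `D`-edges at `v` are in `T`; a step from `(v,p)` goes through `Face v p c`, `vc ∈ T`,
so to `(v,c)`. -/

open Classical

namespace CT

variable {V : Type}

theorem iso_step {C : Cfg V} {T D : SimpleGraph V} (hs : Setup C T D) {v : V}
    (hv : Iso C T D v) {d d' : V × V} (h : Step C T D d d') :
    (d.1 = v ↔ d'.1 = v) ∧ (d.2 = v ↔ d'.2 = v) := by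
  rcases step_cases hs h with ⟨h1, _, _, h4, h5, _⟩ | ⟨h1, _, _, h4, h5, _⟩
  · refine ⟨by rw [h1], ?_, ?_⟩
    · intro h6
      rw [h6] at h4 h5
      exact absurd (hv.2 _ h4) h5
    · intro h6
      rw [h6] at h4 h5
      exact absurd (hv.2 _ h4.symm).symm h5
  · refine ⟨⟨?_, ?_⟩, by rw [h1]⟩
    · intro h6
      rw [h6] at h4 h5
      exact absurd (hv.2 _ h4) h5
    · intro h6
      rw [h6] at h4 h5
      exact absurd (hv.2 _ h4.symm).symm h5

/-- the walk of a hull dart avoids `v` -/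
theorem iso_avoid {C : Cfg V} {T D : SimpleGraph V} (hs : Setup C T D) {v : V}
    (hv : Iso C T D v) {e d : V × V} (he : IsHD C T e)
    (h : Relation.ReflTransGen (Step C T D) e d) : d.1 ≠ v ∧ d.2 ≠ v := by
  induction h with
  | refl =>
    obtain ⟨h1, h2⟩ := hd_not_inner he
    constructor
    · intro h3
      rw [h3] at h1
      exact h1 hv.1
    · intro h3
      rw [h3] at h2
      exact h2 hv.1
  | tail _ hbc ih =>
    obtain ⟨h1, h2⟩ := iso_step hs hv hbc
    exact ⟨fun h3 => ih.1 (h1.2 h3), fun h3 => ih.2 (h2.2 h3)⟩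

/-- an edge of `D` between two `T`-neighbours of a vertex is not in `T` -/
theorem IsoWalk_link {C : Cfg V} {T D : SimpleGraph V} (hs : Setup C T D)
    {v q q' : V} (hq : T.Adj v q) (hq' : T.Adj v q') : ¬ T.Adj q q' :=
  fun h => no3 T hs.tree hq h hq'.symm

/-- faces at both sides of an edge at an isolated vertex -/
theorem IsoWalk_faces [Finite V] {C : Cfg V} {T D : SimpleGraph V} (hs : Setup C T D)
    {v q : V} (hv : Iso C T D v) (hq : T.Adj v q) :
    (∃ c, Face C D v q c ∧ T.Adj v c ∧ D.Adj q c ∧ ¬ T.Adj q c) ∧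
    (∃ c, Face C D v c q ∧ T.Adj v c ∧ D.Adj c q ∧ ¬ T.Adj c q) := by
  obtain ⟨⟨z, hz⟩, ⟨z', hz'⟩⟩ := hv.1 q hq.ne'
  constructor
  · obtain ⟨c, hc⟩ := face_exists C D hs.mp (hs.le hq) hz
    have h1 : T.Adj v c := hv.2 c hc.2.2.1.symm
    exact ⟨c, hc, h1, hc.2.1, IsoWalk_link hs hq h1⟩
  · have hz2 : 0 < C.o q v z' := by
      rw [C.o_swap q v z']
      linarith
    obtain ⟨c, hc⟩ := face_exists C D hs.mp (hs.le hq.symm) hz2
    have h1 : T.Adj v c := hv.2 c hc.2.1
    exact ⟨c, hc.rot, h1, hc.2.2.1, IsoWalk_link hs h1 hq⟩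

/-- neighbours of an isolated vertex are not isolated (they have link edges in `D \ T`) -/
theorem iso_nbr_not_iso [Finite V] {C : Cfg V} {T D : SimpleGraph V} (hs : Setup C T D)
    {v q : V} (hv : Iso C T D v) (hq : T.Adj v q) : ¬ Iso C T D q := by
  intro hq2
  obtain ⟨⟨c, _, _, h3, h4⟩, _⟩ := IsoWalk_faces hs hv hq
  exact h4 (hq2.2 c h3)

/-- faces at both sides of an edge at an isolated (inner) vertex, with `T`-sides at `v` -/
theorem iso_faces [Finite V] {C : Cfg V} {T D : SimpleGraph V} (hs : Setup C T D)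
    {v q : V} (hv : Iso C T D v) (hq : T.Adj v q) :
    (∃ c, Face C D v q c ∧ T.Adj v c ∧ D.Adj q c ∧ ¬ T.Adj q c) ∧
    (∃ c, Face C D v c q ∧ T.Adj v c ∧ D.Adj c q ∧ ¬ T.Adj c q) :=
  IsoWalk_faces hs hv hq

/-- an isolated vertex has degree at least 3 (its neighbours are on both sides of every line
through it, `nbr_left`, `nbr_right`) -/
theorem iso_deg [Finite V] {C : Cfg V} {T D : SimpleGraph V} (hs : Setup C T D)
    {v : V} (hv : Iso C T D v) : 3 ≤ dg T v := by
  obtain ⟨b, hb⟩ : ∃ b : V, b ≠ v := by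
    obtain ⟨a, b, c, hab, _, _⟩ := hs.three
    by_cases h : a = v
    · exact ⟨b, fun h2 => hab (h.trans h2.symm)⟩
    · exact ⟨a, h⟩
  obtain ⟨⟨z, hz⟩, _⟩ := hv.1 b hb
  obtain ⟨q, hq, _⟩ := nbr_left C D hs.mp hz
  have hTq : T.Adj v q := hv.2 q hq
  obtain ⟨⟨c, hc, hTc, _, _⟩, ⟨c', hc', hTc', _, _⟩⟩ := IsoWalk_faces hs hv hTq
  have h1 : 0 < C.o v q c := hc.2.2.2.1
  have h2 : C.o v q c' < 0 := by
    have := hc'.2.2.2.1
    rw [C.o_swap' v c' q] at this
    linarith
  have hcc : c ≠ c' := by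
    rintro rfl
    linarith
  have hsub : ({q, c, c'} : Set V) ⊆ {w | T.Adj v w} := by
    intro w hw
    simp only [Set.mem_insert_iff, Set.mem_singleton_iff] at hw
    rcases hw with rfl | rfl | rfl
    · exact hTq
    · exact hTc
    · exact hTc'
  have h3 : ({q, c, c'} : Set V).ncard = 3 := by
    rw [Set.ncard_eq_three]
    exact ⟨q, c, c', hc.ne.2.2, hc'.ne.2.2.symm, hcc, rfl⟩
  unfold dg
  rw [← h3]
  exact Set.ncard_le_ncard hsub (Set.toFinite _)

/-- an edge of `D` between two `T`-neighbours of a vertex is not in `T` -/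
theorem link_not_T {C : Cfg V} {T D : SimpleGraph V} (hs : Setup C T D)
    {v q q' : V} (hq : T.Adj v q) (hq' : T.Adj v q') : ¬ T.Adj q q' :=
  IsoWalk_link hs hq hq'

end CT
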