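import Pool.Agent.H7.CT.Faces

/-! # CT module Rot: rotation around a vertex

A nonempty set `K` of `D`-neighbours of `v` closed under next face is the set of all
`D`-neighbours, and `v` is inner.
Proof. Let `z ∉ K`, `D.Adj v z`. For `y ∈ K` with `Face v y c`, `c ∈ K`: `z` is not strictly in the sector
(`sector`), `z ≠ c`, so `0 < o v y z → 0 < o v c z`. So `K₁ = {y ∈ K | 0 < o v y z}` is closed under
next; if nonempty take its last element `m` (`exists_last`, reference: `o v z y < 0`, mirror or use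
`C.o_swap'`): its next `c ∈ K₁` has `0 < o v m c`, contradiction. So `K₁` is empty, all of `K` is in the half-plane
`0 < o v z y`: same contradiction.
Inner: let `b ≠ v`. If no `y ∈ K` has `0 < o v b y`, then `b ∉ K` (its next would be left of `v → b`), so `K` is in the
open right half-plane, closed under next: contradiction. If no `y ∈ K` has `o v b y < 0`: all `y ∈ K`, `y ≠ b`, are left;
the last of them, `m`, has next `c` with `0 < o v m c`, so `c = b`, but `0 < o v b m`: contradiction. -/

open Classical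

namespace CT

variable {V : Type}

theorem Rot_left [Finite V] (C : Cfg V) (D : SimpleGraph V) {v a : V} (K : Set V)
    (hK : K.Nonempty) (hcl : ∀ y ∈ K, ∃ c ∈ K, Face C D v y c) (h : ∀ x ∈ K, 0 < C.o v a x) :
    False := by
  obtain ⟨m, hm, hm'⟩ := exists_last C v a K hK h
  obtain ⟨c, hc, hf⟩ := hcl m hm
  have h1 : 0 < C.o v m c := hf.2.2.2.1
  have h2 := hm' c hc (C.ne_of_o_pos h1).2.2.symm
  rw [C.o_swap'] at h2
  linarith

theorem Rot_right [Finite V] (C : Cfg V) (D : SimpleGraph V) {v a : V} (K : Set V)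
    (hK : K.Nonempty) (hcl : ∀ y ∈ K, ∃ c ∈ K, Face C D v y c) (h : ∀ x ∈ K, C.o v a x < 0) :
    False := by
  obtain ⟨m, hm, hm'⟩ := exists_first C.mir v a K hK fun x hx => by
    rw [C.mir_o]
    linarith [h x hx]
  obtain ⟨c, hc, hf⟩ := hcl m hm
  have h1 : 0 < C.o v m c := hf.2.2.2.1
  have h2 := hm' c hc (C.ne_of_o_pos h1).2.2.symm
  rw [C.mir_o] at h2
  linarith

theorem rot_all [Finite V] (C : Cfg V) (D : SimpleGraph V) (hD : Plane C D) {v : V} (K : Set V)
    (hK : K.Nonempty) (hcl : ∀ y ∈ K, ∃ c ∈ K, Face C D v y c) :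
    (∀ z, D.Adj v z → z ∈ K) ∧ Inner C v := by
  have hv : ∀ y ∈ K, v ≠ y := fun y hy => by
    obtain ⟨c, _, hf⟩ := hcl y hy
    exact hf.1.ne
  constructor
  · intro z hz
    by_contra hzK
    have hne : ∀ y ∈ K, y ≠ z := fun y hy he => hzK (he ▸ hy)
    by_cases hK1 : ({y | y ∈ K ∧ 0 < C.o v y z} : Set V).Nonempty
    · refine Rot_right C D (v := v) (a := z) {y | y ∈ K ∧ 0 < C.o v y z} hK1 ?_ ?_
      · rintro y ⟨hy, hyz⟩
        obtain ⟨c, hc, hf⟩ := hcl y hy
        refine ⟨c, ⟨hc, ?_⟩, hf⟩
        have hs := sector C D hD hf hz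
        rcases C.o_pos_or_neg hz.ne (hv c hc) (hne c hc).symm with h | h
        · exact absurd ⟨hyz, h⟩ hs
        · rw [C.o_swap']
          linarith
      · rintro y ⟨_, hyz⟩
        rw [C.o_swap']
        linarith
    · refine Rot_left C D (v := v) (a := z) K hK hcl fun y hy => ?_
      rcases C.o_pos_or_neg (hv y hy) hz.ne (hne y hy) with h | h
      · exact absurd ⟨y, hy, h⟩ hK1
      · rw [C.o_swap']
        linarith
  · intro b hb
    constructor
    · by_contra hcon
      have hcon' : ∀ z, ¬ 0 < C.o v b z := fun z hz => hcon ⟨z, hz⟩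
      have hbK : b ∉ K := fun hbK => by
        obtain ⟨c, _, hf⟩ := hcl b hbK
        exact hcon' c hf.2.2.2.1
      refine Rot_right C D (v := v) (a := b) K hK hcl fun y hy => ?_
      rcases C.o_pos_or_neg hb.symm (hv y hy) (fun he => hbK (he ▸ hy)) with h | h
      · exact absurd h (hcon' y)
      · exact h
    · by_contra hcon
      have hcon' : ∀ z, ¬ C.o v b z < 0 := fun z hz => hcon ⟨z, hz⟩
      have hX : ({y | y ∈ K ∧ y ≠ b} : Set V).Nonempty := by
        obtain ⟨y, hy⟩ := hK
        by_cases hyb : y = b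
        · obtain ⟨c, hc, hf⟩ := hcl y hy
          refine ⟨c, hc, ?_⟩
          rw [← hyb]
          exact (C.ne_of_o_pos hf.2.2.2.1).2.2.symm
        · exact ⟨y, hy, hyb⟩
      have hpos : ∀ x ∈ ({y | y ∈ K ∧ y ≠ b} : Set V), 0 < C.o v b x := by
        rintro x ⟨hx, hxb⟩
        rcases C.o_pos_or_neg hb.symm (hv x hx) hxb.symm with h | h
        · exact h
        · exact absurd h (hcon' x)
      obtain ⟨m, hm, hm'⟩ := exists_last C v b _ hX hpos
      obtain ⟨c, hc, hf⟩ := hcl m hm.1
      have h1 : 0 < C.o v m c := hf.2.2.2.1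
      by_cases hcb : c = b
      · have h2 := hpos m hm
        rw [hcb, C.o_swap'] at h1
        linarith
      · have h2 := hm' c ⟨hc, hcb⟩ (C.ne_of_o_pos h1).2.2.symm
        rw [C.o_swap'] at h2
        linarith

end CT
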