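import Pool.Agent.H7.CT.HWalk
import Pool.Agent.H7.CT.IsoWalk
import Pool.Agent.H7.CT.Rot

/-! # CT module Cyc: W1, cyclic walks rotate around an isolated inner vertex

Let `d` return to itself (`TransGen`).
(1) Suppose the step leaving `d = (a,b)` keeps the first component: `(a,b) → (a,c)`. Let `f` be the cut
function of the edge `ab` (`tree_cut`: `f a`, `¬ f b`). All darts reached later have both ends in
`{f}` until the walk returns to `d`: in a step `(a',b') → (a',c')` or `(c',b')` with `f a'`, `f b'` the new edge is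
`≠ {a,b}` (then `f c'`), or is `{a,b}`: by `f b'` (resp. `f a'`) and the colours (`reach_color`: the walk keeps the colours of the components, so it
never contains `(b,a)`) the step is `(a,b') → (a,b)`, first component kept. So the last step before the return keeps the first
component. Hence along the whole cycle every step keeps the first component (go backwards around the
cycle), or, if no step keeps the first component, every step keeps the second.
(2) So (first case; the second follows from the first for `C.mir` and swapped darts, `step_mir`) all darts of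
the cycle are `(v, y)`, and `K = {y | (v,y) reachable from d}` is closed under the next face; `rot_all`: `v` is inner
and all `D`-neighbours of `v` are in `K`, so they are `T`-neighbours. -/

open Classical

namespace CT

variable {V : Type}

theorem Cyc_back {α : Type} {R : α → α → Prop} (hf : ∀ a b c, R a b → R a c → b = c) {d e : α}
    (h : Relation.TransGen R d d) (h1 : Relation.ReflTransGen R d e) :
    Relation.ReflTransGen R e d := by
  induction h1 with
  | refl => exact Relation.ReflTransGen.refl
  | @tail b c _ h3 ih =>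
    have h4 : Relation.TransGen R b d := Relation.TransGen.trans_right ih h
    obtain ⟨x, hx, hxd⟩ := Relation.TransGen.head'_iff.mp h4
    have : x = c := hf b x c hx h3
    rw [← this]
    exact hxd

theorem Cyc_cyc {α : Type} {R : α → α → Prop} (hf : ∀ a b c, R a b → R a c → b = c) {d e : α}
    (h : Relation.TransGen R d d) (h1 : Relation.ReflTransGen R d e) :
    Relation.TransGen R e e :=
  Relation.TransGen.trans_right (Cyc_back hf h h1) (Relation.TransGen.trans_left h h1)

/-- one step inside the `a`-side of the edge `ab` -/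
theorem Cyc_step {C : Cfg V} {T D : SimpleGraph V} (hs : Setup C T D) {a b : V} {f : V → Prop}
    (hfb : ¬ f b)
    (hf : ∀ c d, T.Adj c d → ¬ (c = a ∧ d = b) → ¬ (c = b ∧ d = a) → (f c ↔ f d))
    {e e' : V × V} (hcol : ∀ χ : V → Bool, (∀ a b, T.Adj a b → χ a ≠ χ b) → χ e'.1 = χ a)
    (hab : T.Adj a b) (h : Step C T D e e') (he : f e.1 ∧ f e.2) :
    (f e'.1 ∧ f e'.2) ∨ (e' = (a, b) ∧ e'.1 = e.1) := by
  rcases step_cases hs h with ⟨h1, _, h3, _, _, _⟩ | ⟨h1, _, h3, _, _, _⟩
  · by_cases hc1 : e.1 = a ∧ e'.2 = b
    · right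
      exact ⟨Prod.ext (h1.trans hc1.1) hc1.2, h1⟩
    · by_cases hc2 : e.1 = b ∧ e'.2 = a
      · exact absurd (hc2.1 ▸ he.1) hfb
      · left
        rw [h1]
        exact ⟨he.1, (hf _ _ h3 hc1 hc2).1 he.1⟩
  · by_cases hc1 : e'.1 = a ∧ e.2 = b
    · exact absurd (hc1.2 ▸ he.2) hfb
    · by_cases hc2 : e'.1 = b ∧ e.2 = a
      · exfalso
        obtain ⟨χ, hχ⟩ := tree_color T hs.tree
        have h5 := hcol χ hχ
        rw [hc2.1] at h5
        exact hχ a b hab h5.symm
      · left
        rw [h1]
        exact ⟨(hf _ _ h3 hc1 hc2).2 he.2, he.2⟩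

/-- if the step leaving a periodic dart keeps the first component then so does the step arriving -/
theorem Cyc_pred {C : Cfg V} {T D : SimpleGraph V} (hs : Setup C T D) {d0 d1 d2 : V × V}
    (h12 : Step C T D d1 d2) (h1 : d2.1 = d1.1) (hc : Relation.TransGen (Step C T D) d1 d1)
    (h01 : Step C T D d0 d1) : d1.1 = d0.1 := by
  have hab : T.Adj d1.1 d1.2 := h12.1
  obtain ⟨f, hfa, hfb, hf⟩ := tree_cut T hs.tree hab
  -- `d2` reaches `d0`
  have h20 : Relation.ReflTransGen (Step C T D) d2 d0 := by
    obtain ⟨x, hx, hxd⟩ := Relation.TransGen.head'_iff.mp hc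
    have hx2 : x = d2 := step_func hs hx h12
    rw [hx2] at hxd
    rcases Relation.ReflTransGen.cases_tail hxd with h5 | ⟨y, hy, hyd⟩
    · -- `d1 = d2`, impossible
      exfalso
      rcases step_cases hs h12 with ⟨_, _, _, _, _, h6⟩ | ⟨_, _, _, _, _, h6⟩
      · exact h6 (by rw [h5])
      · exact h6 h1
    · have : y = d0 := step_inj hs hyd h01
      rw [← this]
      exact hy
  have hP2 : f d2.1 ∧ f d2.2 := by
    rcases step_cases hs h12 with ⟨_, _, h3, _, _, h6⟩ | ⟨_, _, _, _, _, h6⟩
    · rw [h1]
      refine ⟨hfa, (hf _ _ h3 (fun h => h6 h.2) (fun h => hab.ne h.1)).1 hfa⟩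
    · exact absurd h1 h6
  have key : ∀ e, Relation.ReflTransGen (Step C T D) d2 e →
      (f e.1 ∧ f e.2) ∨ d1.1 = d0.1 := by
    intro e he
    induction he with
    | refl => exact Or.inl hP2
    | @tail e e' hee' hst ih =>
      rcases ih with ih | ih
      · have hcol : ∀ χ : V → Bool, (∀ a b, T.Adj a b → χ a ≠ χ b) → χ e'.1 = χ d1.1 := by
          intro χ hχ
          have h7 := (reach_color hχ (hee'.tail hst)).1
          have h8 := (step_color hχ h12).1
          exact h7.trans h8
        rcases Cyc_step hs hfb hf hcol hab hst ih with h9 | ⟨h9, h10⟩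
        · exact Or.inl h9
        · right
          have h11 : e' = d1 := h9
          rw [h11] at hst h10
          rw [step_inj hs h01 hst]
          exact h10
      · exact Or.inr ih
  rcases key d0 h20 with h9 | h9
  · have hcol : ∀ χ : V → Bool, (∀ a b, T.Adj a b → χ a ≠ χ b) → χ d1.1 = χ d1.1 := fun _ _ => rfl
    rcases Cyc_step hs hfb hf hcol hab h01 h9 with h10 | ⟨_, h10⟩
    · exact absurd h10.2 hfb
    · exact h10
  · exact h9

theorem cyc_const [Finite V] {C : Cfg V} {T D : SimpleGraph V} (hs : Setup C T D) {d : V × V}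
    (h : Relation.TransGen (Step C T D) d d) :
    (∀ d1 d2, Relation.ReflTransGen (Step C T D) d d1 → Step C T D d1 d2 → d2.1 = d1.1) ∨
    (∀ d1 d2, Relation.ReflTransGen (Step C T D) d d1 → Step C T D d1 d2 → d2.2 = d1.2) := by
  have hf : ∀ a b c, Step C T D a b → Step C T D a c → b = c := fun a b c h1 h2 => step_func hs h1 h2
  by_cases hex : ∃ d1 d2, Relation.ReflTransGen (Step C T D) d d1 ∧ Step C T D d1 d2 ∧ d2.1 = d1.1
  · left
    obtain ⟨d1, d2, hd1, h12, hk⟩ := hex
    have main : ∀ e, Relation.ReflTransGen (Step C T D) e d1 →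
        Relation.ReflTransGen (Step C T D) d e → ∀ g, Step C T D e g → g.1 = e.1 := by
      intro e he
      induction he using Relation.ReflTransGen.head_induction_on with
      | refl =>
        intro _ g hg
        rw [step_func hs hg h12]
        exact hk
      | @head e e' hee' he'1 ih =>
        intro hde g hg
        have hge : g = e' := step_func hs hg hee'
        rw [hge]
        have hde' := hde.tail hee'
        have hcyc' := Cyc_cyc hf h hde'
        obtain ⟨x, hx, _⟩ := Relation.TransGen.head'_iff.mp hcyc'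
        exact Cyc_pred hs hx (ih hde' x hx) hcyc' hee'
    intro e g he hg
    exact main e ((Cyc_back hf h he).trans hd1) he g hg
  · right
    intro e g he hg
    rcases step_cases hs hg with ⟨h1, _⟩ | ⟨h1, _⟩
    · exact absurd ⟨e, g, he, hg, h1⟩ hex
    · exact h1

theorem Cyc_iso1 [Finite V] {C : Cfg V} {T D : SimpleGraph V} (hs : Setup C T D) {d : V × V}
    (h : Relation.TransGen (Step C T D) d d)
    (hc : ∀ d1 d2, Relation.ReflTransGen (Step C T D) d d1 → Step C T D d1 d2 → d2.1 = d1.1) :
    Iso C T D d.1 := by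
  have hf : ∀ a b c, Step C T D a b → Step C T D a c → b = c := fun a b c h1 h2 => step_func hs h1 h2
  have hrot := rot_all C D hs.mp.1 (v := d.1)
    {y | Relation.ReflTransGen (Step C T D) d (d.1, y)} ⟨d.2, Relation.ReflTransGen.refl⟩ (by
      intro y hy
      have hy' : Relation.ReflTransGen (Step C T D) d (d.1, y) := hy
      obtain ⟨x, hx, _⟩ := Relation.TransGen.head'_iff.mp (Cyc_cyc hf h hy')
      have hx1 : x.1 = d.1 := hc (d.1, y) x hy' hx
      rcases step_cases hs hx with ⟨_, h2, _, _, _, _⟩ | ⟨_, _, _, _, _, h6⟩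
      · refine ⟨x.2, ?_, h2⟩
        show Relation.ReflTransGen (Step C T D) d (d.1, x.2)
        have : x = (d.1, x.2) := Prod.ext hx1 rfl
        rw [← this]
        exact hy'.tail hx
      · exact absurd hx1 h6)
  refine ⟨hrot.2, ?_⟩
  intro w hw
  have hw' : Relation.ReflTransGen (Step C T D) d (d.1, w) := hrot.1 w hw
  obtain ⟨x, hx, _⟩ := Relation.TransGen.head'_iff.mp (Cyc_cyc hf h hw')
  exact hx.1

theorem Cyc_reach_mir {C : Cfg V} {T D : SimpleGraph V} {d d' : V × V}
    (h : Relation.ReflTransGen (Step C.mir T D) d d') :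
    Relation.ReflTransGen (Step C T D) d.swap d'.swap := by
  have := (reach_mir (C := C) (T := T) (D := D) (d := d.swap) (d' := d'.swap)).mp (by simpa using h)
  exact this

theorem cyc_iso [Finite V] {C : Cfg V} {T D : SimpleGraph V} (hs : Setup C T D) {d : V × V}
    (h : Relation.TransGen (Step C T D) d d) :
    ∃ v, Iso C T D v ∧ (d.1 = v ∨ d.2 = v) := by
  rcases cyc_const hs h with h1 | h1
  · exact ⟨d.1, Cyc_iso1 hs h h1, Or.inl rfl⟩
  · refine ⟨d.2, ?_, Or.inr rfl⟩
    have hsm : Setup C.mir T D := setup_mir.mpr hs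
    rw [← iso_mir]
    have hm : Relation.TransGen (Step C.mir T D) d.swap d.swap := by
      obtain ⟨x, hx, hxd⟩ := Relation.TransGen.head'_iff.mp h
      exact Relation.TransGen.head'_iff.mpr ⟨x.swap, step_mir.mpr hx, reach_mir.mpr hxd⟩
    refine Cyc_iso1 (d := d.swap) hsm hm ?_
    intro d1 d2 hd1 h12
    have h3 := Cyc_reach_mir hd1
    rw [Prod.swap_swap] at h3
    have h4 : Step C T D d1.swap d2.swap := by
      have := (step_mir (C := C) (T := T) (D := D) (d := d1.swap) (d' := d2.swap)).mp (by simpa using h12)
      exact this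
    exact h1 _ _ h3 h4

end CT
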