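import Mathlib

/-!
# Project CT (MP_1875a2_co): compatible plane spanning trees, definitions

`Cfg V` : a point configuration in general position indexed by `V`.
`o a b c > 0` : `c` is to the left of the directed line `a → b`.
-/

open Classical

namespace CT

/-- A finite or infinite family of points of the plane, no three on a line. -/
structure Cfg (V : Type) where
  x : V → ℝ
  y : V → ℝ
  gp : ∀ a b c : V, a ≠ b → a ≠ c → b ≠ c →
    (x b - x a) * (y c - y a) - (y b - y a) * (x c - x a) ≠ 0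

variable {V : Type}

/-- orientation determinant -/
def Cfg.o (C : Cfg V) (a b c : V) : ℝ :=
  (C.x b - C.x a) * (C.y c - C.y a) - (C.y b - C.y a) * (C.x c - C.x a)

/-- the segments `ab` and `cd` cross (in relatively interior points; in particular all four points are distinct) -/
def Cfg.Cross (C : Cfg V) (a b c d : V) : Prop :=
  C.o a b c * C.o a b d < 0 ∧ C.o c d a * C.o c d b < 0

/-- `z` is strictly inside the counterclockwise triangle `abc` -/
def Cfg.Ins (C : Cfg V) (a b c z : V) : Prop :=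
  0 < C.o a b z ∧ 0 < C.o b c z ∧ 0 < C.o c a z

/-- parameter of the crossing point of `bc` on the segment from `p` to `q` -/
noncomputable def Cfg.tau (C : Cfg V) (p q b c : V) : ℝ :=
  C.o b c p / (C.o b c p - C.o b c q)

/-- the mirror image -/
def Cfg.mir (C : Cfg V) : Cfg V where
  x := C.x
  y := fun v => - C.y v
  gp := by
    intro a b c h1 h2 h3 h
    apply C.gp a b c h1 h2 h3
    linarith [h]

/-- no two edges of `G` cross -/
def Plane (C : Cfg V) (G : SimpleGraph V) : Prop :=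
  ∀ a b c d, G.Adj a b → G.Adj c d → ¬ C.Cross a b c d

/-- maximal plane graph -/
def MaxPlane (C : Cfg V) (D : SimpleGraph V) : Prop :=
  Plane C D ∧ ∀ a b, a ≠ b → ¬ D.Adj a b → ∃ c d, D.Adj c d ∧ C.Cross a b c d

/-- `abc` is a counterclockwise empty triangle of `D` -/
def Face (C : Cfg V) (D : SimpleGraph V) (a b c : V) : Prop :=
  D.Adj a b ∧ D.Adj b c ∧ D.Adj c a ∧ 0 < C.o a b c ∧ ∀ z, ¬ C.Ins a b c z

/-- nothing to the left of `a → b` -/
def HE (C : Cfg V) (a b : V) : Prop := ∀ z, ¬ 0 < C.o a b z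

/-- `v` is not on the boundary of the convex hull -/
def Inner (C : Cfg V) (v : V) : Prop :=
  ∀ b, b ≠ v → (∃ z, 0 < C.o v b z) ∧ (∃ z, C.o v b z < 0)

/-- the dual step through a face with two `T`-sides -/
def Step (C : Cfg V) (T D : SimpleGraph V) (d d' : V × V) : Prop :=
  T.Adj d.1 d.2 ∧ ∃ c, Face C D d.1 d.2 c ∧
    ((T.Adj d.1 c ∧ d' = (d.1, c)) ∨ (T.Adj c d.2 ∧ d' = (c, d.2)))

/-- hull `T`-dart: `T`-edge with nothing on its right side -/
def IsHD (C : Cfg V) (T : SimpleGraph V) (d : V × V) : Prop :=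
  T.Adj d.1 d.2 ∧ HE C d.2 d.1

/-- hot hull dart: its walk ends at the hull -/
def Hot (C : Cfg V) (T D : SimpleGraph V) (d : V × V) : Prop :=
  IsHD C T d ∧ ∃ d', Relation.ReflTransGen (Step C T D) d d' ∧ HE C d'.1 d'.2

/-- dead hull dart `e`: its walk ends at the dart `d` whose left face has apex `c` and only one `T`-side -/
def DeadAt (C : Cfg V) (T D : SimpleGraph V) (e d : V × V) (c : V) : Prop :=
  IsHD C T e ∧ Relation.ReflTransGen (Step C T D) e d ∧ Face C D d.1 d.2 c ∧
    ¬ T.Adj d.1 c ∧ ¬ T.Adj c d.2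

/-- inner vertex all of whose `D`-edges are in `T` -/
def Iso (C : Cfg V) (T D : SimpleGraph V) (v : V) : Prop :=
  Inner C v ∧ ∀ w, D.Adj v w → T.Adj v w

/-- twice the number of isolated inner vertices and open strips -/
noncomputable def N2 (C : Cfg V) (T D : SimpleGraph V) : ℕ :=
  2 * {v | Iso C T D v}.ncard + {d : V × V | Hot C T D d}.ncard

/-- standing assumptions -/
structure Setup (C : Cfg V) (T D : SimpleGraph V) : Prop where
  tree : T.IsTree
  mp : MaxPlane C D
  le : T ≤ D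
  three : ∃ a b c : V, a ≠ b ∧ a ≠ c ∧ b ≠ c

/-- `D` minimises `N2` -/
def Min (C : Cfg V) (T D : SimpleGraph V) : Prop :=
  Setup C T D ∧ ∀ D', Setup C T D' → N2 C T D ≤ N2 C T D'

/-- `D'` is a maximal plane graph containing `xy` and all edges of `D` not crossing `xy` -/
def Rep (C : Cfg V) (T D D' : SimpleGraph V) (x y : V) : Prop :=
  Setup C T D' ∧ D'.Adj x y ∧ ∀ a b, D.Adj a b → ¬ C.Cross x y a b → D'.Adj a b

/-- degree, as `ncard` -/
noncomputable def dg (T : SimpleGraph V) (v : V) : ℕ := {w | T.Adj v w}.ncard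

/-- `z` is a `D`-neighbour of `q` outside the closed `T`-neighbourhood of `v` -/
def Zn (T D : SimpleGraph V) (v q z : V) : Prop := D.Adj q z ∧ z ≠ v ∧ ¬ T.Adj v z

/-- all outside neighbours of `N(v)` are on the negative side -/
def TypeN (C : Cfg V) (T D : SimpleGraph V) (v : V) : Prop :=
  ∀ q z, T.Adj v q → Zn T D v q z → C.o v q z < 0

/-- all outside neighbours of `N(v)` are on the positive side -/
def TypeP (C : Cfg V) (T D : SimpleGraph V) (v : V) : Prop :=
  ∀ q z, T.Adj v q → Zn T D v q z → 0 < C.o v q z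

/-- conclusion of Lemma U at `v` -/
def UProp (C : Cfg V) (T D : SimpleGraph V) (v : V) : Prop :=
  ∀ y, y ≠ v → ¬ T.Adj v y →
    ∃ b c, D.Adj b c ∧ C.Cross v y b c ∧ ¬ (T.Adj v b ∧ T.Adj v c)

/-- `q` is a leaf of `T` attached to `v` -/
def LeafAt (T : SimpleGraph V) (v q : V) : Prop := T.Adj v q ∧ ∀ w, T.Adj q w → w = v

/-- critical vertices for `v` -/
def Crit (C : Cfg V) (T D : SimpleGraph V) (v u : V) : Prop :=
  Inner C u ∧ ¬ Iso C T D u ∧ 3 ≤ dg T u ∧ (∀ v', Iso C T D v' → ¬ T.Adj v' u) ∧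
    (∃ w, D.Adj u w ∧ ¬ T.Adj u w) ∧ ∀ w, D.Adj u w → ¬ T.Adj u w → LeafAt T v w

/-- dead hull darts whose apex is a leaf at `v` -/
def DD (C : Cfg V) (T D : SimpleGraph V) (v : V) (e : V × V) : Prop :=
  ∃ d c, DeadAt C T D e d c ∧ LeafAt T v c

/-- non-leaf neighbours -/
def NL (T : SimpleGraph V) (v q : V) : Prop := T.Adj v q ∧ ¬ LeafAt T v q

end CT
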