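import Pool.Agent.H7.CT.Win

/-! # CT module Descent

Induction on `Win p s` (generalise `w`? `w` is fixed). Write `x_i = (d i).1`, `y_i = (d i).2`.
Base (`s = p+1`, `x_{p+1} = x_p`): `t = p`, `W0 b c := b = y_p ∧ c = y_{p+1}`; `x_p w` crosses `y_p y_{p+1}` by C1, C2, C3 and `Face x_p y_p y_{p+1}`.
Merge `Win p q`, `q ≤ q'`, `y_q' = y_q`, `Win q' s`, `Face y_p y_s y_q`. Put `y = y_q`.
(a) I1 for `(p,q)`: `0 < o x_p y_p y_q`: at `y_p` (`[a,b] = o y_p a b`): I1: `[y_s,x_p] > 0`; `sector` (`Face y_p y_s y_q`, edge `y_p x_p`): `[x_p,y_q] < 0` (nonzero by colours `strip_xy_ne`). Similarly I2 for `(q',s)`: `o x_s y_s y_q < 0` (at `y_s`, `Face y_s y_q y_p`).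
(b) `w` in the cone of `y` over `y_p y_s`: `0 < o y y_p w`: otherwise at `y_p`: `[w,y_s] > 0` (C3), `[y_q,x_p] > 0` (a), `[w,y_q] < 0`, `[y_s,x_p] > 0`, `[w,x_p] > 0` (C1), `[y_s,y_q] > 0`: `gp_contra`. Similarly `0 < o y w y_s` (at `y_s`, with C2, I2). (`w ≠ y_p, y_s, y`: nonzero orientations; `w = y`
  impossible by C3.)
(c) `o x_q y w < 0` or `0 < o x_q' y w` : otherwise (`w` may be an `x_i`: then the orientation is 0) there is `j`, `q ≤ j < q'` with `0 ≤ o x_j y w` and `o x_{j+1} y w ≤ 0`; step `j` keeps `y`: `Face x_j y x_{j+1}`, i.e. at `y` the face `y x_{j+1} x_j`; and the face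
  `y y_p y_s`; `w` is in the closed sector of the first and the open sector of the second. If both signs strict: `face_eq_of_sector`: `x_{j+1} = y_p`: contradiction with `strip_xy_ne`. If `w = x_j` or `x_{j+1}`: it is a `D`-neighbour of `y` strictly in the sector of `y y_p y_s`: `sector`.
  (If `q = q'` the two signs are opposite: `o x_q y w = 0` only if `w = x_q`, excluded by `sector` as well.)
(d) First case: apply the induction hypothesis to `(p,q)`: C1, C2 = `o x_q y w < 0`, C3 from (b), I1 from (a), I2: `o x_q y y_p < 0`: otherwise at `y`: `[y_p,x_q] > 0`; `sector` (`Face y y_p y_s`, `x_q`): `[x_q,y_s] < 0`; `gp_contra` for `y_p x_q w y_s` (`[y_p,x_q] > 0, [w,y_s] > 0, [x_q,y_s] < 0`…: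
  `[y_p,x_q][w,y_s] - [y_p,w][x_q,y_s] + [y_p,y_s][x_q,w] > 0`). Get `t`, `W0'`. Put `W0 b c := W0' b c ∨ (b = y_p ∧ c = y_s)`. `x_t w` crosses `y_p y_s` with `x_t` on the left: at `w`: `y_s, y_q, x_t, y_p` are in this counterclockwise order (`half_cone`), at `y_p`: `[y_s,x_t] > 0` by `trans_half` (reference `w`:
  `[w,y_s], [w,y_q], [w,x_t] > 0`, `[y_s,y_q] > 0`, `[y_q,x_t] > 0`). The far face of `y_p y_q` is `Face y_q y_p y_s` (rotation).
  Second case: symmetric with `(q',s)`; far face of `y_q y_s`: `Face y_s y_q y_p`. -/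

open Classical

namespace CT

variable {V : Type}

/-- contradiction pattern with `[b,d] < 0` -/
theorem Descent_gp_contra (C : Cfg V) {q a b c d : V} (h1 : 0 < C.o q a b) (h2 : 0 < C.o q c d)
    (h3 : 0 < C.o q a c) (h4 : C.o q b d < 0) (h5 : 0 < C.o q a d) (h6 : 0 < C.o q b c) :
    False := by
  have h := C.gpi q a b c d
  nlinarith [mul_pos h1 h2, mul_neg_of_pos_of_neg h3 h4, mul_pos h5 h6]

/-- crossings from a common left side -/
theorem Descent_cross_left {C : Cfg V} {a w b c : V} (h : C.Cross a w b c)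
    (hl : 0 < C.o b c a) : C.o a w b < 0 ∧ 0 < C.o a w c ∧ C.o b c w < 0 := by
  rcases C.cross_pattern h with ⟨_, _, h3, _⟩ | ⟨h1, h2, _, h4⟩
  · linarith
  · exact ⟨h1, h2, h4⟩

theorem Descent_switch (f : ℕ → ℝ) (q : ℕ) : ∀ k : ℕ,
    (∀ i, q ≤ i → i ≤ q + k → f i ≠ 0) → 0 < f q → f (q + k) < 0 →
      ∃ j, q ≤ j ∧ j < q + k ∧ 0 < f j ∧ f (j + 1) < 0 := by
  intro k
  induction k with
  | zero => intro _ h1 h2; simp at h2; linarith
  | succ k ih =>
    intro h0 h1 h2
    rcases lt_or_gt_of_ne (h0 (q + k) (by omega) (by omega)) with h | h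
    · obtain ⟨j, h3, h4, h5, h6⟩ := ih (fun i hi hi' => h0 i hi (by omega)) h1 h
      exact ⟨j, h3, by omega, h5, h6⟩
    · exact ⟨q + k, by omega, by omega, h, h2⟩

/-- the T-edge of a strip dart -/
theorem Descent_adj {C : Cfg V} {T D : SimpleGraph V} (hs : Setup C T D)
    {d : ℕ → V × V} {r : ℕ} (h : Strip C T D d r) {i : ℕ} (hi : i ≤ r) :
    D.Adj (d i).1 (d i).2 := by
  apply hs.le
  rcases Nat.eq_zero_or_pos i with rfl | hp
  · exact h.hd.1
  · obtain ⟨j, rfl⟩ : ∃ j, i = j + 1 := ⟨i - 1, by omega⟩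
    exact step_adj (h.step j (by omega))

theorem descent [Finite V] {C : Cfg V} {T D : SimpleGraph V} (hs : Setup C T D)
    {d : ℕ → V × V} {r p s : ℕ} (h : Strip C T D d r) (hW : Win C D d r p s) {w : V}
    (C1 : 0 < C.o (d p).1 (d p).2 w) (C2 : C.o (d s).1 (d s).2 w < 0)
    (C3 : C.o (d p).2 (d s).2 w < 0) (I1 : 0 < C.o (d p).1 (d p).2 (d s).2)
    (I2 : C.o (d s).1 (d s).2 (d p).2 < 0) :
    ∃ t, p ≤ t ∧ t < s ∧ (d (t + 1)).1 = (d t).1 ∧ ∃ W0 : V → V → Prop,
      W0 (d t).2 (d (t + 1)).2 ∧ W0 (d p).2 (d s).2 ∧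
      (∀ b c, W0 b c → D.Adj b c ∧ (∃ i, i ≤ r ∧ (d i).2 = b) ∧ (∃ i, i ≤ r ∧ (d i).2 = c) ∧
        C.Cross (d t).1 w b c ∧ 0 < C.o b c (d t).1) ∧
      (∀ b c, W0 b c → (b = (d t).2 ∧ c = (d (t + 1)).2) ∨
        ∃ z, (∃ i, i ≤ r ∧ (d i).2 = z) ∧ Face C D b c z) ∧
      (∀ b c, W0 b c → (b = (d p).2 ∧ c = (d s).2) ∨
        ∃ z, (∃ i, i ≤ r ∧ (d i).2 = z) ∧ Face C D c b z ∧ (W0 b z ∨ W0 z c)) := by
  revert C1 C2 C3 I1 I2
  induction hW with
  | @base j hj hx =>
    intro C1 C2 C3 I1 I2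
    refine ⟨j, le_refl _, Nat.lt_succ_self _, hx, fun b c => b = (d j).2 ∧ c = (d (j + 1)).2,
      ⟨rfl, rfl⟩, ⟨rfl, rfl⟩, ?_, ?_, ?_⟩
    · rintro b c ⟨rfl, rfl⟩
      have hF : Face C D (d j).1 (d j).2 (d (j + 1)).2 := by
        rcases strip_step hs h hj with ⟨_, _, hf⟩ | ⟨_, hne, _⟩
        · exact hf
        · exact absurd hx hne
      rw [hx] at C2
      have e1 : C.o (d j).1 w (d j).2 = - C.o (d j).1 (d j).2 w := C.o_swap' _ _ _
      have e2 : C.o (d j).1 w (d (j + 1)).2 = - C.o (d j).1 (d (j + 1)).2 w := C.o_swap' _ _ _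
      have e3 : C.o (d j).2 (d (j + 1)).2 (d j).1 = C.o (d j).1 (d j).2 (d (j + 1)).2 :=
        (C.o_cyc _ _ _).symm
      have e4 := hF.2.2.2.1
      refine ⟨hF.2.1, ⟨j, by omega, rfl⟩, ⟨j + 1, by omega, rfl⟩, ⟨?_, ?_⟩, ?_⟩
      · rw [e1, e2]; nlinarith
      · rw [e3]; exact mul_neg_of_pos_of_neg e4 C3
      · rw [e3]; exact e4
    · rintro b c ⟨rfl, rfl⟩; exact Or.inl ⟨rfl, rfl⟩
    · rintro b c ⟨rfl, rfl⟩; exact Or.inl ⟨rfl, rfl⟩
  | @merge p q q' s h1 hqq hy h2 hF ih1 ih2 =>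
    intro C1 C2 C3 I1 I2
    have hpq := h1.lt
    have hqs := h2.lt
    have hpr : p ≤ r := by omega
    have hsr : s ≤ r := by omega
    have hqr : q ≤ r := by omega
    have hqr' : q' ≤ r := by omega
    rw [hy] at ih2
    have hpl : Plane C D := hs.mp.1
    -- names
    obtain ⟨xp, hxp⟩ : ∃ x, x = (d p).1 := ⟨_, rfl⟩
    obtain ⟨yp, hyp⟩ : ∃ x, x = (d p).2 := ⟨_, rfl⟩
    obtain ⟨xs, hxs⟩ : ∃ x, x = (d s).1 := ⟨_, rfl⟩
    obtain ⟨ys, hys⟩ : ∃ x, x = (d s).2 := ⟨_, rfl⟩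
    obtain ⟨xq, hxq⟩ : ∃ x, x = (d q).1 := ⟨_, rfl⟩
    obtain ⟨y, hyq⟩ : ∃ x, x = (d q).2 := ⟨_, rfl⟩
    obtain ⟨xq', hxq'⟩ : ∃ x, x = (d q').1 := ⟨_, rfl⟩
    have n1 : xp ≠ yp := by rw [hxp, hyp]; exact strip_xy_ne hs h hpr hpr
    have n2 : xp ≠ y := by rw [hxp, hyq]; exact strip_xy_ne hs h hpr hqr
    have n3 : xs ≠ ys := by rw [hxs, hys]; exact strip_xy_ne hs h hsr hsr
    have n4 : xs ≠ y := by rw [hxs, hyq]; exact strip_xy_ne hs h hsr hqr
    have n5 : xq ≠ yp := by rw [hxq, hyp]; exact strip_xy_ne hs h hqr hpr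
    have n6 : xq ≠ y := by rw [hxq, hyq]; exact strip_xy_ne hs h hqr hqr
    have n7 : xq ≠ ys := by rw [hxq, hys]; exact strip_xy_ne hs h hqr hsr
    have n8 : xq' ≠ yp := by rw [hxq', hyp]; exact strip_xy_ne hs h hqr' hpr
    have n9 : xq' ≠ y := by rw [hxq', hyq]; exact strip_xy_ne hs h hqr' hqr
    have n10 : xq' ≠ ys := by rw [hxq', hys]; exact strip_xy_ne hs h hqr' hsr
    have a1 : D.Adj xp yp := by rw [hxp, hyp]; exact Descent_adj hs h hpr
    have a2 : D.Adj xs ys := by rw [hxs, hys]; exact Descent_adj hs h hsr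
    have a3 : D.Adj xq y := by rw [hxq, hyq]; exact Descent_adj hs h hqr
    have a4 : D.Adj xq' y := by
      rw [hxq', hyq, ← hy]; exact Descent_adj hs h hqr'
    have ay : ∀ i, q ≤ i → i ≤ q' → (d i).2 = y := by
      intro i hi hi'
      rw [hyq]
      exact strip_interval_y hs h hi hi' hqr' hy.symm
    simp only [← hxp, ← hyp, ← hxs, ← hys, ← hxq, ← hyq, ← hxq'] at C1 C2 C3 I1 I2 hF ih1 ih2 ⊢
    have hFp : 0 < C.o yp ys y := hF.2.2.2.1
    have m1 : yp ≠ ys := hF.ne.1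
    have m2 : yp ≠ y := hF.ne.2.1
    have m3 : ys ≠ y := hF.ne.2.2
    have hF2 : Face C D ys y yp := hF.rot
    have hF3 : Face C D y yp ys := hF.rot.rot
    -- w is different from the y
    have w1 : w ≠ yp := by rintro rfl; simp at C1
    have w2 : w ≠ ys := by rintro rfl; simp at C2
    have w3 : w ≠ y := by rintro rfl; linarith
    -- (a)
    have A1 : 0 < C.o xp yp y := by
      have s1 := sector C D hpl hF a1.symm
      have e1 : C.o yp ys xp = C.o xp yp ys := (C.o_cyc _ _ _).symm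
      have e2 : C.o yp xp y = - C.o xp yp y := by rw [C.o_swap]
      rcases C.o_pos_or_neg n1 n2 m2 with hh | hh
      · exact hh
      · exact absurd ⟨by rw [e1]; exact I1, by rw [e2]; linarith⟩ s1
    have A2 : C.o xs ys y < 0 := by
      have s1 := sector C D hpl hF2 a2.symm
      have e1 : C.o ys y xs = C.o xs ys y := (C.o_cyc _ _ _).symm
      have e2 : C.o ys xs yp = - C.o xs ys yp := by rw [C.o_swap]
      rcases C.o_pos_or_neg n3 n4 m3 with hh | hh
      · exact absurd ⟨by rw [e1]; exact hh, by rw [e2]; linarith⟩ s1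
      · exact hh
    -- (b)
    have B1 : 0 < C.o y yp w := by
      rcases C.o_pos_or_neg m2.symm w3.symm w1.symm with hh | hh
      · exact hh
      · exfalso
        have g1 : 0 < C.o yp w ys := by rw [C.o_swap']; linarith
        have g2 : 0 < C.o yp y xp := by rw [← C.o_cyc]; exact A1
        have g3 : C.o yp w y < 0 := by rw [← C.o_cyc]; exact hh
        have g4 : 0 < C.o yp ys xp := by rw [← C.o_cyc]; exact I1
        have g5 : 0 < C.o yp w xp := by rw [← C.o_cyc]; exact C1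
        exact C.gp_contra g1 g2 g3 g4 g5 hFp
    have B2 : 0 < C.o y w ys := by
      rcases C.o_pos_or_neg w3.symm m3.symm w2 with hh | hh
      · exact hh
      · exfalso
        have g1 : 0 < C.o ys xs y := by rw [C.o_swap]; linarith
        have g2 : 0 < C.o ys yp w := by rw [C.o_swap]; linarith
        have g3 : 0 < C.o ys xs yp := by rw [C.o_swap]; linarith
        have g4 : C.o ys y w < 0 := by rw [C.o_cyc]; exact hh
        have g5 : 0 < C.o ys xs w := by rw [C.o_swap]; linarith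
        have g6 : 0 < C.o ys y yp := hF2.2.2.2.1
        exact Descent_gp_contra C g1 g2 g3 g4 g5 g6
    have hsec : ∀ z, D.Adj y z → ¬ (0 < C.o y yp z ∧ 0 < C.o y z ys) := fun z hz =>
      sector C D hpl hF3 hz
    -- (c)
    have hne : ∀ i, q ≤ i → i ≤ q' → C.o (d i).1 y w ≠ 0 := by
      intro i hi hi' h0
      have hyi := ay i hi hi'
      have hadj : D.Adj (d i).1 y := by rw [← hyi]; exact Descent_adj hs h (by omega)
      have hxw : (d i).1 = w := by
        by_contra hc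
        exact C.o_ne hadj.ne hc w3.symm h0
      rw [hxw] at hadj
      exact hsec w hadj.symm ⟨B1, B2⟩
    have Ccase : C.o xq y w < 0 ∨ 0 < C.o xq' y w := by
      by_contra hcon
      push Not at hcon
      obtain ⟨c1, c2⟩ := hcon
      have d1 : 0 < C.o (d q).1 y w := by
        have := hne q (le_refl _) hqq
        rw [← hxq]
        rw [← hxq] at this
        exact lt_of_le_of_ne c1 (Ne.symm this)
      have d2 : C.o (d q').1 y w < 0 := by
        have := hne q' hqq (le_refl _)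
        rw [← hxq']
        rw [← hxq'] at this
        exact lt_of_le_of_ne c2 this
      obtain ⟨k, rfl⟩ : ∃ k, q' = q + k := ⟨q' - q, by omega⟩
      obtain ⟨j, j1, j2, j3, j4⟩ := Descent_switch (fun i => C.o (d i).1 y w) q k hne d1 d2
      have hyj := ay j j1 (by omega)
      have hyj1 := ay (j + 1) (by omega) (by omega)
      rcases strip_step hs h (j := j) (by omega) with ⟨_, hc, _⟩ | ⟨_, _, hf⟩
      · exact hc (by rw [hyj, hyj1])
      · rw [hyj] at hf
        have hf' := hf.rot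
        -- hf' : Face y x_{j+1} x_j
        have g1 : 0 < C.o y (d (j + 1)).1 w := by
          rw [C.o_swap]
          have j4' : C.o (d (j + 1)).1 y w < 0 := j4
          linarith
        have g2 : 0 < C.o y w (d j).1 := by
          rw [← C.o_cyc]; exact j3
        have := face_eq_of_sector C D hpl hf' hF3 g1 g2 B1 B2
        rw [hyp] at this
        exact strip_xy_ne hs h (i := j + 1) (j := p) (by omega) hpr this.1
    rcases Ccase with hcase | hcase
    · -- first case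
      have I2' : C.o xq y yp < 0 := by
        rcases C.o_pos_or_neg n6 n5 m2.symm with hh | hh
        · exfalso
          have g1 : 0 < C.o y yp xq := by rw [← C.o_cyc]; exact hh
          have g2 : C.o y xq ys < 0 := by
            rcases C.o_pos_or_neg n6.symm m3.symm n7 with g | g
            · exact absurd ⟨g1, g⟩ (hsec xq a3.symm)
            · exact g
          have g3 : 0 < C.o y xq w := by rw [C.o_swap]; linarith
          have g4 : 0 < C.o y yp ys := hF3.2.2.2.1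
          exact Descent_gp_contra C g1 B2 B1 g2 g4 g3
        · exact hh
      have C3' : C.o yp y w < 0 := by rw [C.o_swap]; linarith
      obtain ⟨t, t1, t2, t3, W0, v1, v2, v3, v4, v5⟩ := ih1 C1 hcase C3' A1 I2'
      obtain ⟨u1, u2, u3, u4, u5⟩ := v3 _ _ v2
      obtain ⟨k1, k2, k3⟩ := Descent_cross_left u4 u5
      -- at w
      have e1 : 0 < C.o w ys y := by rw [← C.o_cyc]; exact B2
      have e2 : 0 < C.o w ys yp := by
        rw [C.o_cyc, C.o_swap]; linarith
      have e3 : 0 < C.o w y (d t).1 := by rw [← C.o_cyc]; exact k2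
      have e4 : 0 < C.o w (d t).1 yp := by rw [C.o_swap]; linarith
      have e5 : 0 < C.o w y yp := by rw [C.o_cyc]; exact B1
      have e6 : 0 < C.o w ys (d t).1 := C.half_cone e1 e2 e3 e4 e5
      -- at yp
      have f1 : 0 < C.o yp w ys := by rw [C.o_swap']; linarith
      have f2 : 0 < C.o yp w y := by rw [C.o_swap']; linarith
      have f3 : 0 < C.o yp w (d t).1 := by rw [C.o_cyc]; exact e4
      have f4 : 0 < C.o yp ys (d t).1 := C.trans_half f1 f2 f3 hFp u5
      have f5 : C.Cross (d t).1 w yp ys := by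
        refine ⟨mul_neg_of_neg_of_pos k1 ?_, mul_neg_of_pos_of_neg f4 C3⟩
        rw [C.o_cyc]; exact e6
      refine ⟨t, t1, by omega, t3, fun b c => W0 b c ∨ (b = yp ∧ c = ys), Or.inl v1,
        Or.inr ⟨rfl, rfl⟩, ?_, ?_, ?_⟩
      · rintro b c (hb | ⟨rfl, rfl⟩)
        · exact v3 b c hb
        · exact ⟨hF.1, ⟨p, hpr, hyp.symm⟩, ⟨s, hsr, hys.symm⟩, f5, f4⟩
      · rintro b c (hb | ⟨rfl, rfl⟩)
        · exact v4 b c hb
        · exact Or.inr ⟨y, ⟨q, hqr, hyq.symm⟩, hF⟩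
      · rintro b c (hb | ⟨rfl, rfl⟩)
        · rcases v5 b c hb with ⟨rfl, rfl⟩ | ⟨z, z1, z2, z3⟩
          · exact Or.inr ⟨ys, ⟨s, hsr, hys.symm⟩, hF.rot.rot, Or.inl (Or.inr ⟨rfl, rfl⟩)⟩
          · refine Or.inr ⟨z, z1, z2, ?_⟩
            rcases z3 with z3 | z3
            · exact Or.inl (Or.inl z3)
            · exact Or.inr (Or.inl z3)
        · exact Or.inl ⟨rfl, rfl⟩
    · -- second case
      have I1' : 0 < C.o xq' y ys := by
        rcases C.o_pos_or_neg n9 n10 m3.symm with hh | hh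
        · exact hh
        · exfalso
          have g1 : 0 < C.o y xq' ys := by rw [C.o_swap]; linarith
          have g2 : C.o y yp xq' < 0 := by
            rcases C.o_pos_or_neg m2.symm n9.symm n8.symm with g | g
            · exact absurd ⟨g, g1⟩ (hsec xq' a4.symm)
            · exact g
          have g3 : 0 < C.o y w xq' := by rw [← C.o_cyc]; exact hcase
          have g4 : 0 < C.o y yp ys := hF3.2.2.2.1
          exact C.gp_contra B1 g1 g2 B2 g4 g3
      have C3' : C.o y ys w < 0 := by rw [C.o_swap']; linarith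
      obtain ⟨t, t1, t2, t3, W0, v1, v2, v3, v4, v5⟩ := ih2 hcase C2 C3' I1' A2
      obtain ⟨u1, u2, u3, u4, u5⟩ := v3 _ _ v2
      obtain ⟨k1, k2, k3⟩ := Descent_cross_left u4 u5
      -- at w
      have e1 : 0 < C.o w ys y := by rw [← C.o_cyc]; exact B2
      have e2 : 0 < C.o w ys yp := by
        rw [C.o_cyc, C.o_swap]; linarith
      have e3 : 0 < C.o w ys (d t).1 := by rw [← C.o_cyc]; exact k2
      have e4 : 0 < C.o w (d t).1 y := by rw [C.o_swap]; linarith
      have e5 : 0 < C.o w y yp := by rw [C.o_cyc]; exact B1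
      have e6 : 0 < C.o w (d t).1 yp := C.trans_half e3 e1 e2 e4 e5
      -- at ys
      have f1 : C.o ys w (d t).1 < 0 := by
        rw [C.o_swap13]; linarith
      have f2 : C.o ys w y < 0 := by
        rw [C.o_swap13]; linarith
      have f3 : C.o ys w yp < 0 := by
        rw [C.o_cyc']; exact C3
      have f4 : 0 < C.o ys (d t).1 y := by rw [C.o_cyc']; exact u5
      have f5 : 0 < C.o ys (d t).1 yp := C.trans_half' f1 f2 f3 f4 hF2.2.2.2.1
      have f6 : 0 < C.o yp ys (d t).1 := by rw [C.o_cyc]; exact f5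
      have f7 : C.Cross (d t).1 w yp ys := by
        refine ⟨mul_neg_of_neg_of_pos ?_ k2, mul_neg_of_pos_of_neg f6 C3⟩
        rw [C.o_swap]; linarith
      refine ⟨t, by omega, t2, t3, fun b c => W0 b c ∨ (b = yp ∧ c = ys), Or.inl v1,
        Or.inr ⟨rfl, rfl⟩, ?_, ?_, ?_⟩
      · rintro b c (hb | ⟨rfl, rfl⟩)
        · exact v3 b c hb
        · exact ⟨hF.1, ⟨p, hpr, hyp.symm⟩, ⟨s, hsr, hys.symm⟩, f7, f6⟩
      · rintro b c (hb | ⟨rfl, rfl⟩)
        · exact v4 b c hb
        · exact Or.inr ⟨y, ⟨q, hqr, hyq.symm⟩, hF⟩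
      · rintro b c (hb | ⟨rfl, rfl⟩)
        · rcases v5 b c hb with ⟨rfl, rfl⟩ | ⟨z, z1, z2, z3⟩
          · exact Or.inr ⟨yp, ⟨p, hpr, hyp.symm⟩, hF2, Or.inr (Or.inr ⟨rfl, rfl⟩)⟩
          · refine Or.inr ⟨z, z1, z2, ?_⟩
            rcases z3 with z3 | z3
            · exact Or.inl (Or.inl z3)
            · exact Or.inr (Or.inl z3)
        · exact Or.inl ⟨rfl, rfl⟩

end CT
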