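import Pool.Agent.H7.CT.Near

/-! # CT module Ext: maximal plane extensions, replacement graphs, minimal triangulations

* `exists_maxPlane`: a plane graph on a finite set extends to a maximal plane graph (take a plane
  supergraph with the maximal number of edges, or a maximal element of a finite set of graphs).
* `exists_rep`: replacement. If no `T`-edge crosses `xy` there is `D'` with `Rep C T D D' x y`:
  extend the plane graph `{edges of D not crossing xy} ∪ {xy}`.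
* `exists_min`: there is a minimiser of `N2`. -/

open Classical

namespace CT

variable {V : Type}

theorem Ext_sup_edge (C : Cfg V) {D : SimpleGraph V} (hD : Plane C D) {x y : V}
    (h : ∀ c d, D.Adj c d → ¬ C.Cross x y c d) : Plane C (D ⊔ SimpleGraph.edge x y) := by
  intro a b c d h1 h2 hx
  rw [SimpleGraph.sup_adj, SimpleGraph.edge_adj] at h1 h2
  rcases h1 with h1 | ⟨h1, _⟩
  · rcases h2 with h2 | ⟨h2, _⟩
    · exact hD a b c d h1 h2 hx
    · rcases h2 with ⟨rfl, rfl⟩ | ⟨rfl, rfl⟩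
      · exact h a b h1 (C.cross_symm hx)
      · exact h a b h1 (C.cross_symm12 (C.cross_symm hx))
  · have hxy : ∀ c d, D.Adj c d → ¬ C.Cross a b c d := by
      rcases h1 with ⟨rfl, rfl⟩ | ⟨rfl, rfl⟩
      · exact h
      · exact fun c d hc hx => h c d hc (C.cross_symm12 hx)
    rcases h2 with h2 | ⟨h2, _⟩
    · exact hxy c d h2 hx
    · have hn := C.cross_ne hx
      rcases h1 with ⟨rfl, rfl⟩ | ⟨rfl, rfl⟩ <;> rcases h2 with ⟨rfl, rfl⟩ | ⟨rfl, rfl⟩
      · exact hn.2.1 rfl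
      · exact hn.2.2.1 rfl
      · exact hn.2.2.1 rfl
      · exact hn.2.1 rfl

theorem exists_maxPlane [Finite V] (C : Cfg V) (G : SimpleGraph V) (hG : Plane C G) :
    ∃ D, G ≤ D ∧ MaxPlane C D := by
  have hfin : ({D : SimpleGraph V | Plane C D}).Finite := Set.toFinite _
  obtain ⟨D, hGD, hD⟩ := hfin.exists_le_maximal (a := G) hG
  refine ⟨D, hGD, hD.1, ?_⟩
  intro a b hab hn
  by_contra hc
  push Not at hc
  have h1 : Plane C (D ⊔ SimpleGraph.edge a b) := Ext_sup_edge C hD.1 hc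
  have h2 : D ⊔ SimpleGraph.edge a b ≤ D := hD.2 h1 le_sup_left
  apply hn
  apply h2
  rw [SimpleGraph.sup_adj, SimpleGraph.edge_adj]
  exact Or.inr ⟨Or.inl ⟨rfl, rfl⟩, hab⟩

theorem exists_rep [Finite V] (C : Cfg V) (T D : SimpleGraph V) (h : Setup C T D) {x y : V}
    (hxy : x ≠ y) (hT : ∀ a b, T.Adj a b → ¬ C.Cross x y a b) : ∃ D', Rep C T D D' x y := by
  let G : SimpleGraph V :=
    { Adj := fun a b => D.Adj a b ∧ ¬ C.Cross x y a b
      symm := ⟨fun a b hab => ⟨hab.1.symm, fun hx => hab.2 (C.cross_symm34 hx)⟩⟩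
      loopless := ⟨fun a ha => ha.1.ne rfl⟩ }
  have hG : Plane C G := fun a b c d h1 h2 => h.mp.1 a b c d h1.1 h2.1
  have hG2 : Plane C (G ⊔ SimpleGraph.edge x y) := Ext_sup_edge C hG fun c d hc => hc.2
  obtain ⟨D', hle, hmax⟩ := exists_maxPlane C _ hG2
  have hG' : ∀ a b, D.Adj a b → ¬ C.Cross x y a b → D'.Adj a b := by
    intro a b h1 h2
    apply hle
    rw [SimpleGraph.sup_adj]
    exact Or.inl ⟨h1, h2⟩
  refine ⟨D', ⟨h.tree, hmax, ?_, h.three⟩, ?_, hG'⟩
  · intro a b hab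
    exact hG' a b (h.le hab) (hT a b hab)
  · apply hle
    rw [SimpleGraph.sup_adj, SimpleGraph.edge_adj]
    exact Or.inr ⟨Or.inl ⟨rfl, rfl⟩, hxy⟩

theorem exists_min [Finite V] (C : Cfg V) (T : SimpleGraph V) (hT : T.IsTree)
    (hp : Plane C T) (h3 : ∃ a b c : V, a ≠ b ∧ a ≠ c ∧ b ≠ c) : ∃ D, Min C T D := by
  obtain ⟨D0, h0, hm0⟩ := exists_maxPlane C T hp
  have hex : ∃ n, ∃ D, Setup C T D ∧ N2 C T D = n := ⟨_, D0, ⟨hT, hm0, h0, h3⟩, rfl⟩
  obtain ⟨D, hD, hn⟩ := Nat.find_spec hex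
  refine ⟨D, hD, fun D' hD' => ?_⟩
  rw [hn]
  exact Nat.find_min' hex ⟨D', hD', rfl⟩

end CT
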