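import Pool.Agent.H7.CT.Geo

/-! # CT module InnerNbr: a triangle at `a` with two sides in `D` that contains a point contains
a `D`-neighbour of `a`.

Proof. Among the points strictly inside `abc` take `x` with `o b c x` maximal (highest above
`bc`). Claim `D.Adj a x`. Otherwise an edge `rs` of `D` crosses `ax` (maximality of `D`), in a point
`Z` with height `h(Z) > h(x)` (`h = o b c ·`, `h(a) > h(x) > 0`), so one of `r`, `s`, say `r`, has
`h(r) > h(x)`. `rs` does not cross `ab`, `ac`. Then `r` is strictly inside `abc`, contradicting the choice of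
`x`: the segment from `Z` (inside) to `r` stays at height `> h(x) > 0`, so it could leave the triangle only through
the sides `ab` or `ca`. (In signs: say `r` is left of `a → x`; `pasch` for the triangle `a x c`
and the segment `r s`: `r = c` (no, height), `r` inside `axc` (hence inside `abc`), `rs` crosses `xc`
(then `h(r) < h(x)`) or `ca` (no).  If `r` is right of `a → x` use the triangle `a b x`.) -/

open Classical

namespace CT

variable {V : Type}

theorem InnerNbr_high (C : Cfg V) {a b c x r s : V} (hx : C.Ins a b c x)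
    (h : C.Cross a x r s) (h1 : 0 < C.o a x r) :
    C.o b c x < C.o b c r ∨ C.o b c x < C.o b c s := by
  have hs := C.o_sum a b c x
  have e1 : C.o x a b = C.o a b x := C.o_cyc x a b
  have e2 : C.o x b c = C.o b c x := C.o_cyc x b c
  have e3 : C.o x c a = C.o c a x := C.o_cyc x c a
  have e4 : C.o a b c = C.o b c a := C.o_cyc a b c
  obtain ⟨x1, x2, x3⟩ := hx
  have hax : C.o b c x < C.o b c a := by linarith
  rcases C.cross_pattern h with ⟨p1, p2, p3, p4⟩ | ⟨p1, _, _, _⟩
  · by_contra hc
    rw [not_or, not_lt, not_lt] at hc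
    have k1 : C.o r s a - C.o r s x = C.o a x s - C.o a x r := by unfold Cfg.o; ring
    have k2 : C.o b c s * C.o a x r - C.o b c r * C.o a x s =
        C.o b c a * C.o r s x - C.o b c x * C.o r s a := by
      unfold Cfg.o; ring
    nlinarith [mul_nonneg p1.le (sub_nonneg.2 hc.2), mul_nonneg (neg_pos.2 p2).le
      (sub_nonneg.2 hc.1), mul_pos p4 (sub_pos.2 hax)]
  · linarith

theorem InnerNbr_left (C : Cfg V) (D : SimpleGraph V) (hD : Plane C D) {a b c x r s : V}
    (hac : D.Adj a c) (hrs : D.Adj r s) (hx : C.Ins a b c x)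
    (h : C.Cross a x r s) (h1 : 0 < C.o a x r) (h2 : C.o b c x < C.o b c r) :
    C.Ins a b c r := by
  have hx' := hx
  obtain ⟨x1, x2, x3⟩ := hx
  have hs := C.o_sum a b c x
  have e1 : C.o x a b = C.o a b x := C.o_cyc x a b
  have e2 : C.o x b c = C.o b c x := C.o_cyc x b c
  have e3 : C.o x c a = C.o c a x := C.o_cyc x c a
  have e4 : C.o a b c = C.o b c a := C.o_cyc a b c
  have e5 : C.o a x c = C.o c a x := C.o_cyc' a x c
  have hcr : C.Cross r s x a := C.cross_symm34 (C.cross_symm h)
  rcases pasch C (a := x) (b := c) (c := a) (x := r) (x' := s) (by linarith) h1 hcr with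
    h3 | h3 | h3 | h3
  · exfalso
    rw [h3] at h2
    rw [C.o_baa] at h2
    linarith
  · refine ⟨?_, ?_, h3.2.1⟩
    · exact C.ins_left h3 x1.le (by linarith) (by simp) (Or.inl x1)
    · exact C.ins_left h3 x2.le (by simp) (by linarith) (Or.inl x2)
  · exfalso
    rcases C.cross_pattern h with ⟨p1, p2, p3, p4⟩ | ⟨p1, _, _, _⟩
    · have g := C.gpi x c a r s
      have g1 : C.o x a s = - C.o a x s := C.o_swap x a s
      have g2 : C.o x a r = - C.o a x r := C.o_swap x a r
      have g3 : C.o x r s = C.o r s x := C.o_cyc x r s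
      have g4 : 0 < C.o x c a := by linarith
      rw [g1, g2, g3] at g
      have g5 := mul_pos g4 p4
      have k2 : C.o b c s * C.o a x r - C.o b c r * C.o a x s =
        C.o b c a * C.o r s x - C.o b c x * C.o r s a := by
        unfold Cfg.o; ring
      have k1 : C.o r s a - C.o r s x = C.o a x s - C.o a x r := by unfold Cfg.o; ring
      have k3 : C.o b c r * C.o x c s - C.o b c s * C.o x c r =
        C.o b c x * (C.o x c s - C.o x c r) - C.o b c x * C.o r s x := by
        unfold Cfg.o; ring
      have hax : C.o b c x < C.o b c a := by linarith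
      rcases C.cross_pattern h3 with ⟨q1, q2, q3, q4⟩ | ⟨q1, q2, q3, q4⟩
      · have w1 : 0 < C.o b c x * C.o r s x := mul_pos x2 p4
        -- `H s < H x`
        have w2 : C.o b c s < C.o b c x := by
          by_contra hc
          rw [not_lt] at hc
          nlinarith [mul_nonneg (sub_nonneg.2 hc) (neg_pos.2 q3).le,
            mul_pos (sub_pos.2 h2) q4]
        have w3 : (C.o b c r - C.o b c x) * C.o x c s <
            (C.o b c x - C.o b c s) * (- C.o x c r) := by nlinarith
        have w4 : (C.o b c x - C.o b c s) * C.o a x r <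
            (C.o b c r - C.o b c x) * (- C.o a x s) := by
          nlinarith [mul_pos p4 (sub_pos.2 hax)]
        have w5 := mul_pos (sub_pos.2 h2) (sub_pos.2 w2)
        have w6 : 0 < C.o x c s * C.o a x r - C.o x c r * C.o a x s := by linarith
        have w7 := mul_pos w5 w6
        have w8 : ((C.o b c r - C.o b c x) * C.o x c s) *
            ((C.o b c x - C.o b c s) * C.o a x r) <
            ((C.o b c x - C.o b c s) * (- C.o x c r)) *
            ((C.o b c r - C.o b c x) * (- C.o a x s)) :=
          mul_lt_mul'' w3 w4 (mul_nonneg (sub_pos.2 h2).le q4.le)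
            (mul_nonneg (sub_pos.2 w2).le p1.le)
        nlinarith
      · linarith
    · linarith
  · exact absurd h3 (hD r s c a hrs hac.symm)

theorem inner_nbr [Finite V] (C : Cfg V) (D : SimpleGraph V) (hD : MaxPlane C D) {a b c x : V}
    (hab : D.Adj a b) (hac : D.Adj a c) (hx : C.Ins a b c x) :
    ∃ p, D.Adj a p ∧ C.Ins a b c p := by
  obtain ⟨m, hm, hmax⟩ := Set.exists_max_image {z | C.Ins a b c z} (fun z => C.o b c z)
    (Set.toFinite _) ⟨x, hx⟩
  have hm' : C.Ins a b c m := hm
  refine ⟨m, ?_, hm'⟩
  by_contra hne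
  have ham : a ≠ m := by
    rintro rfl
    have := hm'.1
    rw [C.o_aba] at this
    exact lt_irrefl _ this
  obtain ⟨r, s, hrs, hcr⟩ := hD.2 a m ham hne
  have key : ∀ r s : V, D.Adj r s → C.Cross a m r s → 0 < C.o a m r → False := by
    intro r s hrs hcr h1
    rcases InnerNbr_high C hm' hcr h1 with h2 | h2
    · have := InnerNbr_left C D hD.1 hac hrs hm' hcr h1 h2
      exact absurd (hmax r this) (not_le.2 h2)
    · have h3 : C.o a m s < 0 := by
        by_contra h4
        rw [not_lt] at h4
        have := hcr.1
        nlinarith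
      have := InnerNbr_left C.mir D (plane_mir.2 hD.1) (a := a) (b := c) (c := b) (x := m)
        (r := s) (s := r) hab hrs.symm ((C.mir_ins a c b m).2 hm')
        ((C.mir_cross a m s r).2 (C.cross_symm34 hcr)) (by rw [C.mir_o]; linarith)
        (by rw [C.mir_o, C.mir_o, C.o_swap c b m, C.o_swap c b s]; linarith)
      have h5 : C.Ins a b c s := (C.mir_ins a c b s).1 this
      exact absurd (hmax s h5) (not_le.2 h2)
  rcases C.cross_pattern hcr with ⟨p1, p2, p3, p4⟩ | ⟨p1, p2, p3, p4⟩
  · exact key r s hrs hcr p1
  · exact key s r hrs.symm (C.cross_symm34 hcr) p2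

end CT
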