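import Pool.Agent.H7.CT.Nbr
import Pool.Agent.H7.CT.InnerNbr

/-! # CT module Faces: existence and uniqueness of faces, sector lemma

* `sector` (F2): `Face a b c`, `D.Adj a z` ⇒ `z` is not strictly in the sector `b → c` at `a`.
  Proof: `cone_dich`: `z` inside (excluded, face empty) or `az` crosses `bc` (excluded, plane).
* `face_unique`: two apexes `c ≠ c'`: `sector` both ways contradicts `o a c c' = - o a c' c`.
* `face_exists` (F1): take `c` := angularly first `D`-neighbour of `a` left of `a → b`
  (`nbr_left`, `exists_first`). No point is strictly inside `abc` (else `inner_nbr` gives a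
  `D`-neighbour of `a` strictly inside, before `c`). If `bc` is not an edge, an edge `rs` crosses `bc`; it does not cross
  `ab`, `ac`; by `pasch` (for the triangle `c a b`, side `bc`) one end is inside (no) or is `a`; then `a s` is
  an edge, `s` in the sector between `b` and `c`: contradiction with the choice of `c`.
* `face_dir` (F4): `v` inner, `x ≠ v`: there is a face at `v` whose sector contains the direction of `x` (or its
  first side is `vx`). Proof: if `D.Adj v x` use `face_exists` (inner). Otherwise let `b` be the last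
  `D`-neighbour of `v` right of `v → x` (`nbr_right`, `exists_last` in the half-plane, reference
  direction: `{p | D.Adj v p ∧ 0 < o v p x}`), `Face v b c` from `face_exists`; then `0 < o v x c`.
  (If `o v x c < 0` then, as `0 < o v b c`, `c` would be a later neighbour right of `v → x`.) -/

open Classical

namespace CT

variable {V : Type}

theorem sector (C : Cfg V) (D : SimpleGraph V) (hD : Plane C D) {a b c z : V}
    (hf : Face C D a b c) (hz : D.Adj a z) : ¬ (0 < C.o a b z ∧ 0 < C.o a z c) := by
  rintro ⟨h1, h2⟩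
  rcases C.cone_dich h1 h2 hf.2.2.2.1 with h | h
  · exact hf.2.2.2.2 z h
  · exact hD a z b c hz hf.2.1 h

theorem face_unique (C : Cfg V) (D : SimpleGraph V) (hD : Plane C D) {a b c c' : V}
    (h : Face C D a b c) (h' : Face C D a b c') : c = c' := by
  by_contra hne
  have s1 := sector C D hD h h'.2.2.1.symm
  have s2 := sector C D hD h' h.2.2.1.symm
  rcases C.o_pos_or_neg h.ne.2.1 h'.ne.2.1 hne with h3 | h3
  · exact s2 ⟨h.2.2.2.1, h3⟩
  · refine s1 ⟨h'.2.2.2.1, ?_⟩
    rw [C.o_swap' a c' c]
    linarith

theorem face_exists [Finite V] (C : Cfg V) (D : SimpleGraph V) (hD : MaxPlane C D) {a b z : V}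
    (hab : D.Adj a b) (hz : 0 < C.o a b z) : ∃ c, Face C D a b c := by
  obtain ⟨p, hp1, hp2⟩ := nbr_left C D hD hz
  obtain ⟨c, hc, hfirst⟩ := exists_first C a b {p | D.Adj a p ∧ 0 < C.o a b p} ⟨p, hp1, hp2⟩
    (fun x hx => hx.2)
  obtain ⟨hac, habc⟩ := hc
  have hempty : ∀ w, ¬ C.Ins a b c w := by
    intro w hw
    obtain ⟨p, hp1, hp2⟩ := inner_nbr C D hD hab hac hw
    have hpc : p ≠ c := by
      rintro rfl
      have := hp2.2.2
      simp at this
    have h1 := hfirst p ⟨hp1, hp2.1⟩ hpc
    have h2 := hp2.2.2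
    rw [C.o_swap c a p] at h2
    linarith
  have hne := C.ne_of_o_pos habc
  have hbc : D.Adj b c := by
    by_contra hn
    obtain ⟨r, s, hrs, hcr⟩ := hD.2 b c hne.2.2 hn
    have main : ∀ x x' : V, D.Adj x x' → C.Cross x x' c b → 0 < C.o b c x → False := by
      intro x x' hxx hx hpos
      rcases pasch C (a := c) (b := a) (c := b) (by rw [← C.o_cyc' a b c]; exact habc) hpos hx
        with h | h | h | h
      · subst h
        rcases C.cross_pattern hx with h | h
        · have e1 : 0 < C.o x b x' := by rw [C.o_swap' x b x']; linarith [h.2.1]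
          have e2 : x' ≠ c := by
            rintro rfl
            have := h.1
            simp at this
          have e3 := hfirst x' ⟨hxx, e1⟩ e2
          have e4 := h.1
          rw [C.o_swap' x x' c] at e4
          linarith
        · have e1 := h.2.2.1
          rw [C.o_swap13 c b x] at e1
          linarith
      · exact hempty x ⟨h.2.1, h.2.2, h.1⟩
      · exact hD.1 x x' c a hxx hac.symm h
      · exact hD.1 x x' a b hxx hab h
    have hcr' := C.cross_symm hcr
    rcases C.cross_pattern hcr with h | h
    · exact main r s hrs (C.cross_symm34 hcr') h.1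
    · exact main s r hrs.symm (C.cross_symm12 (C.cross_symm34 hcr')) h.2.1
  exact ⟨c, hab, hbc, hac.symm, habc, hempty⟩

theorem face_dir [Finite V] (C : Cfg V) (D : SimpleGraph V) (hD : MaxPlane C D) {v x : V}
    (hv : Inner C v) (hx : x ≠ v) :
    ∃ b c, Face C D v b c ∧ (x = b ∨ (0 < C.o v b x ∧ 0 < C.o v x c)) := by
  by_cases hvx : D.Adj v x
  · obtain ⟨z, hz⟩ := (hv x hx).1
    obtain ⟨c, hc⟩ := face_exists C D hD hvx hz
    exact ⟨x, c, hc, Or.inl rfl⟩
  · obtain ⟨z, hz⟩ := (hv x hx).2
    obtain ⟨p, hp1, hp2⟩ := nbr_right C D hD hz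
    obtain ⟨b, hb, hlast⟩ := exists_first C.mir v x {p | D.Adj v p ∧ C.o v x p < 0}
      ⟨p, hp1, hp2⟩ (fun y hy => by
        rw [Cfg.mir_o]
        have := hy.2
        linarith)
    obtain ⟨hvb, hxb⟩ := hb
    have hbne : b ≠ v := hvb.ne'
    obtain ⟨z', hz'⟩ := (hv b hbne).1
    obtain ⟨c, hc⟩ := face_exists C D hD hvb hz'
    refine ⟨b, c, hc, Or.inr ⟨?_, ?_⟩⟩
    · rw [C.o_swap' v b x]
      linarith
    · have hvc : D.Adj v c := hc.2.2.1.symm
      have hxc : x ≠ c := by
        rintro rfl
        exact hvx hvc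
      rcases C.o_pos_or_neg hx.symm hvc.ne hxc with h | h
      · exact h
      · exfalso
        have h1 := hlast c ⟨hvc, h⟩ hc.ne.2.2.symm
        rw [Cfg.mir_o] at h1
        have h2 := hc.2.2.2.1
        linarith

/-- two faces at `v` whose open sectors intersect are equal -/
theorem face_eq_of_sector (C : Cfg V) (D : SimpleGraph V) (hD : Plane C D) {v a b c d x : V}
    (h : Face C D v a b) (h' : Face C D v c d) (hx1 : 0 < C.o v a x) (hx2 : 0 < C.o v x b)
    (hx3 : 0 < C.o v c x) (hx4 : 0 < C.o v x d) : a = c ∧ b = d := by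
  have hac : a = c := by
    by_contra hne
    rcases C.o_pos_or_neg h.ne.1 h'.ne.1 hne with h1 | h1
    · exact sector C D hD h h'.1 ⟨h1, C.trans_half h1 hx1 h.2.2.2.1 hx3 hx2⟩
    · have h2 : 0 < C.o v c a := by
        rw [C.o_swap' v c a]
        linarith
      exact sector C D hD h' h.1 ⟨h2, C.trans_half h2 hx3 h'.2.2.2.1 hx1 hx4⟩
  subst hac
  exact ⟨rfl, face_unique C D hD h h'⟩

end CT
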