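import Mathlib

/-! # CT module Fam: the lower bound family (explicit integer coordinates)

`n = 5k + 2 + j`, `j ≤ 4`. Points are numbered `0, 1, …, n - 1`. For `i = 0, 1, …` the star `i` consists of the points `5i+1` (`a_i`), `5i+2` (`v_i`, the centre), `5i+3` (`b_i`), `5i+4` (`r_i`), `5i+5` (`s_i`), with coordinates
 `i` even: `a = (8i+1, -1)`, `v = (8i, 0)`, `b = (8i-2, 1)`, `r = (8i+3, 1)`, `s = (8i+1, -7)`;
 `i` odd: `a = (8i+2, 3)`, `v = (8i, 4)`, `b = (8i-1, 5)`, `r = (8i-3, 3)`, `s = (8i-1, 11)`.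
Point `0` (`e0 = b_{-1}`) is `(-9, 5)`. Point `5k+1` is `a_k` (coordinates as above with `i = k`). Extra points `m = 5k+1+t`, `1 ≤ t ≤ j`: `a_k + (t, 0)`.
Parents: `par (5i+1) = 5i-2` (`b_{i-1}`) for `1 ≤ i ≤ k`, `par 1 = 0`, `par (5i+2) = 5i+1`, `par (5i+3) = 5i+2`, `par (5i+4) = 5i+2`, `par (5i+5) = 5i+4` for `i < k`; `par m = 5k+1` for `m ≥ 5k+2`.
(checked by computer for all `k ≤ 12`, `j ≤ 4`).

(A) planarity. The edges of star `i` (`a_i v_i`, `v_i b_i`, `v_i r_i`, `r_i s_i`) have `x`-coordinates in `[8i-3, 8i+3]`; the right link `b_i a_{i+1}` has them in `[8i-2, 8i+10]` (even `i`: from `8i-2` to `8i+10`; odd `i`: from `8i-1` to `8i+9`), the first edge `e0 a_0` in `[-9, 1]`. So star edges of `i` and `i' ≥ i+1` are separated horizontally,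
the link `b_i a_{i+1}` is separated from everything of the stars `≥ i+2` and `≤ i-1`, and it has to be compared (by determinants) with the edges of star `i` not at `b_i` (`a_i v_i`, `v_i r_i`, `r_i s_i`), the edges of star `i+1` not at `a_{i+1}` (`v b`, `v r`, `r s`), the link `b_{i+1} a_{i+2}`, and the link `b_{i-1} a_i`. The extra edges are to the right of everything else.
(B) blocking. Put `(X, Y) = y - v_i` for even `i`, `v_i - y` for odd `i` (the odd stars are point reflections of the even ones). The edge `b_i a_{i+1}` blocks if `0 < X + 2Y`, `3X < 10Y`, `X + 8 < 6Y`; the edge `r_i s_i` blocks if `3Y < X`, `0 < 7X + Y`, `11 < 4X - Y`; the edge `a_i b_{i-1}` blocks if `X + Y < 0`, `5X + 9Y < 0`, `3X + 5Y + 2 < 0` (even `i`; for odd `i` the roles of the two links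
`b_i a_{i+1}` and `a_i b_{i-1}` are exchanged). With `d` = difference of the star indices (`d` replaced by `-d` for odd `i`) the point `y` of star `i + d` has `(X, Y)` equal to `(8d+1,-1), (8d,0), (8d-2,1), (8d+3,1), (8d+1,-7)` (even `d`) or `(8d+2,3), (8d,4), (8d-1,5), (8d-3,3), (8d-1,11)` (odd `d`), where for odd `i` the names `a` and `b` are exchanged;
 `d ≥ 2` even: `rs`. `d ≥ 3` odd: `rs`, except `(23, 11)` (`d = 3`): link `b_i a_{i+1}`-type. `d = 1`: `(10,3)`: `rs`; the other four: the first link. `d = 0`, `s = (1,-7)`: the third edge. `d = -1`: `(-9,5)` and `(-9,11)`: the first link; the other three: the third edge. `d ≤ -2`: the third edge. Extra points: `rs` for even `i`; for odd `i`, `k = i + d`, `d ≥ 1`, they have `(X,Y) = (-8d-1-t, 5)` (`d` odd) or `(-8d-2-t, 1)` (`d` even), `t ≥ 1`: the third edge. -/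

open Classical

namespace CT

/-- orientation determinant of integer points -/
def dt (X Y : ℕ → ℤ) (a b c : ℕ) : ℤ := (X b - X a) * (Y c - Y a) - (Y b - Y a) * (X c - X a)

def Sep (X Y : ℕ → ℤ) (a b c d : ℕ) : Prop :=
  (0 < dt X Y a b c ∧ 0 < dt X Y a b d) ∨ (dt X Y a b c < 0 ∧ dt X Y a b d < 0) ∨
  (0 < dt X Y c d a ∧ 0 < dt X Y c d b) ∨ (dt X Y c d a < 0 ∧ dt X Y c d b < 0) ∨
  (X a < X c ∧ X a < X d ∧ X b < X c ∧ X b < X d) ∨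
  (X c < X a ∧ X c < X b ∧ X d < X a ∧ X d < X b)

def Crs (X Y : ℕ → ℤ) (a b c d : ℕ) : Prop :=
  (0 < dt X Y a b c ∧ dt X Y a b d < 0 ∧ dt X Y c d a < 0 ∧ 0 < dt X Y c d b) ∨
  (dt X Y a b c < 0 ∧ 0 < dt X Y a b d ∧ 0 < dt X Y c d a ∧ dt X Y c d b < 0)

/-- x-coordinates -/
def Fam_X (k m : ℕ) : ℤ :=
  if m = 0 then -9
  else if 5 * k + 1 ≤ m then 8 * k + 1 + (k % 2 : ℕ) + ((m : ℤ) - (5 * k + 1))
  else if m % 5 = 1 then 8 * (m / 5 : ℕ) + 1 + ((m / 5) % 2 : ℕ)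
  else if m % 5 = 2 then 8 * (m / 5 : ℕ)
  else if m % 5 = 3 then 8 * (m / 5 : ℕ) - 2 + ((m / 5) % 2 : ℕ)
  else if m % 5 = 4 then 8 * (m / 5 : ℕ) + 3 - 6 * ((m / 5) % 2 : ℕ)
  else 8 * (m / 5 - 1 : ℕ) + 1 - 2 * ((m / 5 - 1) % 2 : ℕ)

/-- y-coordinates -/
def Fam_Y (k m : ℕ) : ℤ :=
  if m = 0 then 5
  else if 5 * k + 1 ≤ m then -1 + 4 * (k % 2 : ℕ)
  else if m % 5 = 1 then -1 + 4 * ((m / 5) % 2 : ℕ)
  else if m % 5 = 2 then 4 * ((m / 5) % 2 : ℕ)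
  else if m % 5 = 3 then 1 + 4 * ((m / 5) % 2 : ℕ)
  else if m % 5 = 4 then 1 + 2 * ((m / 5) % 2 : ℕ)
  else -7 + 18 * ((m / 5 - 1) % 2 : ℕ)

/-- parents -/
def Fam_par (k m : ℕ) : ℕ :=
  if 5 * k + 2 ≤ m then 5 * k + 1
  else if m = 1 then 0
  else if m % 5 = 1 then m - 3
  else if m % 5 = 4 then m - 2
  else m - 1

theorem Fam_X0 (k : ℕ) : Fam_X k 0 = -9 ∧ Fam_Y k 0 = 5 := by
  simp [Fam_X, Fam_Y]

theorem Fam_Xa (k i : ℕ) (hi : i ≤ k) :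
    Fam_X k (5 * i + 1) = 8 * i + 1 + ((i % 2 : ℕ) : ℤ) ∧
    Fam_Y k (5 * i + 1) = -1 + 4 * ((i % 2 : ℕ) : ℤ) := by
  have h1 : ¬ (5 * i + 1 = 0) := by omega
  have h3 : (5 * i + 1) % 5 = 1 := by omega
  have h4 : (5 * i + 1) / 5 = i := by omega
  unfold Fam_X Fam_Y
  rw [if_neg h1, if_neg h1, if_pos h3, if_pos h3, h4]
  by_cases h2 : 5 * k + 1 ≤ 5 * i + 1
  · have h5 : i = k := by omega
    subst h5
    rw [if_pos h2, if_pos h2]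
    constructor
    · push_cast; ring
    · rfl
  · rw [if_neg h2, if_neg h2]
    exact ⟨rfl, rfl⟩

theorem Fam_Xv (k i : ℕ) (hi : i < k) :
    Fam_X k (5 * i + 2) = 8 * i ∧ Fam_Y k (5 * i + 2) = 4 * ((i % 2 : ℕ) : ℤ) := by
  have h1 : ¬ (5 * i + 2 = 0) := by omega
  have h2 : ¬ (5 * k + 1 ≤ 5 * i + 2) := by omega
  have h3 : (5 * i + 2) % 5 = 2 := by omega
  have h4 : (5 * i + 2) / 5 = i := by omega
  unfold Fam_X Fam_Y
  rw [if_neg h1, if_neg h1, if_neg h2, if_neg h2, h3, h4]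
  norm_num

theorem Fam_Xb (k i : ℕ) (hi : i < k) :
    Fam_X k (5 * i + 3) = 8 * i - 2 + ((i % 2 : ℕ) : ℤ) ∧
    Fam_Y k (5 * i + 3) = 1 + 4 * ((i % 2 : ℕ) : ℤ) := by
  have h1 : ¬ (5 * i + 3 = 0) := by omega
  have h2 : ¬ (5 * k + 1 ≤ 5 * i + 3) := by omega
  have h3 : (5 * i + 3) % 5 = 3 := by omega
  have h4 : (5 * i + 3) / 5 = i := by omega
  unfold Fam_X Fam_Y
  rw [if_neg h1, if_neg h1, if_neg h2, if_neg h2, h3, h4]
  norm_num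

theorem Fam_Xr (k i : ℕ) (hi : i < k) :
    Fam_X k (5 * i + 4) = 8 * i + 3 - 6 * ((i % 2 : ℕ) : ℤ) ∧
    Fam_Y k (5 * i + 4) = 1 + 2 * ((i % 2 : ℕ) : ℤ) := by
  have h1 : ¬ (5 * i + 4 = 0) := by omega
  have h2 : ¬ (5 * k + 1 ≤ 5 * i + 4) := by omega
  have h3 : (5 * i + 4) % 5 = 4 := by omega
  have h4 : (5 * i + 4) / 5 = i := by omega
  unfold Fam_X Fam_Y
  rw [if_neg h1, if_neg h1, if_neg h2, if_neg h2, h3, h4]
  norm_num

theorem Fam_Xs (k i : ℕ) (hi : i < k) :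
    Fam_X k (5 * i + 5) = 8 * i + 1 - 2 * ((i % 2 : ℕ) : ℤ) ∧
    Fam_Y k (5 * i + 5) = -7 + 18 * ((i % 2 : ℕ) : ℤ) := by
  have h1 : ¬ (5 * i + 5 = 0) := by omega
  have h2 : ¬ (5 * k + 1 ≤ 5 * i + 5) := by omega
  have h3 : (5 * i + 5) % 5 = 0 := by omega
  have h4 : (5 * i + 5) / 5 - 1 = i := by omega
  unfold Fam_X Fam_Y
  rw [if_neg h1, if_neg h1, if_neg h2, if_neg h2, h3, h4]
  norm_num

theorem Fam_Xe (k t : ℕ) :
    Fam_X k (5 * k + 1 + t) = 8 * k + 1 + ((k % 2 : ℕ) : ℤ) + t ∧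
    Fam_Y k (5 * k + 1 + t) = -1 + 4 * ((k % 2 : ℕ) : ℤ) := by
  have h1 : ¬ (5 * k + 1 + t = 0) := by omega
  have h2 : 5 * k + 1 ≤ 5 * k + 1 + t := by omega
  unfold Fam_X Fam_Y
  rw [if_neg h1, if_neg h1, if_pos h2, if_pos h2]
  refine ⟨?_, rfl⟩
  push_cast
  ring

theorem Fam_pa0 (k : ℕ) : Fam_par k 1 = 0 := by
  unfold Fam_par
  by_cases h : 5 * k + 2 ≤ 1
  · omega
  · rw [if_neg h, if_pos rfl]

theorem Fam_pa (k i : ℕ) (hi : i + 1 ≤ k) : Fam_par k (5 * (i + 1) + 1) = 5 * i + 3 := by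
  unfold Fam_par
  rw [if_neg (by omega), if_neg (by omega), if_pos (by omega)]
  omega

theorem Fam_pv (k i : ℕ) (hi : i < k) : Fam_par k (5 * i + 2) = 5 * i + 1 := by
  unfold Fam_par
  rw [if_neg (by omega), if_neg (by omega), if_neg (by omega), if_neg (by omega)]
  omega

theorem Fam_pb (k i : ℕ) (hi : i < k) : Fam_par k (5 * i + 3) = 5 * i + 2 := by
  unfold Fam_par
  rw [if_neg (by omega), if_neg (by omega), if_neg (by omega), if_neg (by omega)]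
  omega

theorem Fam_pr (k i : ℕ) (hi : i < k) : Fam_par k (5 * i + 4) = 5 * i + 2 := by
  unfold Fam_par
  rw [if_neg (by omega), if_neg (by omega), if_neg (by omega), if_pos (by omega)]
  omega

theorem Fam_ps (k i : ℕ) (hi : i < k) : Fam_par k (5 * i + 5) = 5 * i + 4 := by
  unfold Fam_par
  rw [if_neg (by omega), if_neg (by omega), if_neg (by omega), if_neg (by omega)]
  omega

theorem Fam_pe (k t : ℕ) (ht : 1 ≤ t) : Fam_par k (5 * k + 1 + t) = 5 * k + 1 := by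
  unfold Fam_par
  rw [if_pos (by omega)]

/-- coordinates of the parent of `a_i` (the formula of `b` with index `i - 1`) -/
theorem Fam_Xpa (k i : ℕ) (hi : i ≤ k) :
    Fam_X k (Fam_par k (5 * i + 1)) = 8 * i - 10 + (((i + 1) % 2 : ℕ) : ℤ) ∧
    Fam_Y k (Fam_par k (5 * i + 1)) = 1 + 4 * (((i + 1) % 2 : ℕ) : ℤ) ∧
    ((i = 0 ∧ Fam_par k (5 * i + 1) = 0) ∨
      (1 ≤ i ∧ Fam_par k (5 * i + 1) + 2 = 5 * i)) := by
  rcases Nat.eq_zero_or_pos i with h | h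
  · subst h
    have h1 : Fam_par k (5 * 0 + 1) = 0 := Fam_pa0 k
    have h2 := Fam_X0 k
    rw [h1, h2.1, h2.2]
    norm_num
  · obtain ⟨q, rfl⟩ : ∃ q, i = q + 1 := ⟨i - 1, by omega⟩
    rw [Fam_pa k q hi, (Fam_Xb k q (by omega)).1, (Fam_Xb k q (by omega)).2]
    have h3 : (q + 1 + 1) % 2 = q % 2 := by omega
    rw [h3]
    refine ⟨by push_cast; ring, rfl, Or.inr ⟨by omega, by omega⟩⟩

/-- separation in terms of coordinates -/
def Fam_Sep (x1 y1 x2 y2 x3 y3 x4 y4 : ℤ) : Prop :=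
  (0 < (x2 - x1) * (y3 - y1) - (y2 - y1) * (x3 - x1) ∧
    0 < (x2 - x1) * (y4 - y1) - (y2 - y1) * (x4 - x1)) ∨
  ((x2 - x1) * (y3 - y1) - (y2 - y1) * (x3 - x1) < 0 ∧
    (x2 - x1) * (y4 - y1) - (y2 - y1) * (x4 - x1) < 0) ∨
  (0 < (x4 - x3) * (y1 - y3) - (y4 - y3) * (x1 - x3) ∧
    0 < (x4 - x3) * (y2 - y3) - (y4 - y3) * (x2 - x3)) ∨
  ((x4 - x3) * (y1 - y3) - (y4 - y3) * (x1 - x3) < 0 ∧
    (x4 - x3) * (y2 - y3) - (y4 - y3) * (x2 - x3) < 0) ∨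
  (x1 < x3 ∧ x1 < x4 ∧ x2 < x3 ∧ x2 < x4) ∨
  (x3 < x1 ∧ x3 < x2 ∧ x4 < x1 ∧ x4 < x2)

theorem Fam_sep_of (X Y : ℕ → ℤ) (a b c d : ℕ) {x1 y1 x2 y2 x3 y3 x4 y4 : ℤ}
    (h1 : X a = x1) (h2 : Y a = y1) (h3 : X b = x2) (h4 : Y b = y2)
    (h5 : X c = x3) (h6 : Y c = y3) (h7 : X d = x4) (h8 : Y d = y4)
    (h : Fam_Sep x1 y1 x2 y2 x3 y3 x4 y4) : Sep X Y a b c d := by
  subst h1 h2 h3 h4 h5 h6 h7 h8
  exact h

theorem Fam_sep_symm (X Y : ℕ → ℤ) (a b c d : ℕ) (h : Sep X Y a b c d) : Sep X Y c d a b := by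
  unfold Sep at *
  rcases h with h | h | h | h | h | h
  · exact Or.inr (Or.inr (Or.inl h))
  · exact Or.inr (Or.inr (Or.inr (Or.inl h)))
  · exact Or.inl h
  · exact Or.inr (Or.inl h)
  · exact Or.inr (Or.inr (Or.inr (Or.inr (Or.inr h))))
  · exact Or.inr (Or.inr (Or.inr (Or.inr (Or.inl h))))

theorem Fam_sepx {x1 y1 x2 y2 x3 y3 x4 y4 : ℤ} (h1 : x1 < x3) (h2 : x1 < x4) (h3 : x2 < x3)
    (h4 : x2 < x4) : Fam_Sep x1 y1 x2 y2 x3 y3 x4 y4 :=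
  Or.inr (Or.inr (Or.inr (Or.inr (Or.inl ⟨h1, h2, h3, h4⟩))))

/-- the list of the edges: index `i`, coordinates, numbers -/
theorem Fam_edges (k j m : ℕ) (hm : 0 < m) (hm' : m < 5 * k + 2 + j) :
    (∃ i, i ≤ k ∧ m = 5 * i + 1 ∧
      ((i = 0 ∧ Fam_par k m = 0) ∨ (1 ≤ i ∧ Fam_par k m + 2 = 5 * i)) ∧
      Fam_X k m = 8 * i + 1 + ((i % 2 : ℕ) : ℤ) ∧ Fam_Y k m = -1 + 4 * ((i % 2 : ℕ) : ℤ) ∧
      Fam_X k (Fam_par k m) = 8 * i - 10 + (((i + 1) % 2 : ℕ) : ℤ) ∧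
      Fam_Y k (Fam_par k m) = 1 + 4 * (((i + 1) % 2 : ℕ) : ℤ)) ∨
    (∃ i, i < k ∧ m = 5 * i + 2 ∧ Fam_par k m = 5 * i + 1 ∧
      Fam_X k m = 8 * i ∧ Fam_Y k m = 4 * ((i % 2 : ℕ) : ℤ) ∧
      Fam_X k (Fam_par k m) = 8 * i + 1 + ((i % 2 : ℕ) : ℤ) ∧
      Fam_Y k (Fam_par k m) = -1 + 4 * ((i % 2 : ℕ) : ℤ)) ∨
    (∃ i, i < k ∧ m = 5 * i + 3 ∧ Fam_par k m = 5 * i + 2 ∧
      Fam_X k m = 8 * i - 2 + ((i % 2 : ℕ) : ℤ) ∧ Fam_Y k m = 1 + 4 * ((i % 2 : ℕ) : ℤ) ∧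
      Fam_X k (Fam_par k m) = 8 * i ∧ Fam_Y k (Fam_par k m) = 4 * ((i % 2 : ℕ) : ℤ)) ∨
    (∃ i, i < k ∧ m = 5 * i + 4 ∧ Fam_par k m = 5 * i + 2 ∧
      Fam_X k m = 8 * i + 3 - 6 * ((i % 2 : ℕ) : ℤ) ∧ Fam_Y k m = 1 + 2 * ((i % 2 : ℕ) : ℤ) ∧
      Fam_X k (Fam_par k m) = 8 * i ∧ Fam_Y k (Fam_par k m) = 4 * ((i % 2 : ℕ) : ℤ)) ∨
    (∃ i, i < k ∧ m = 5 * i + 5 ∧ Fam_par k m = 5 * i + 4 ∧
      Fam_X k m = 8 * i + 1 - 2 * ((i % 2 : ℕ) : ℤ) ∧ Fam_Y k m = -7 + 18 * ((i % 2 : ℕ) : ℤ) ∧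
      Fam_X k (Fam_par k m) = 8 * i + 3 - 6 * ((i % 2 : ℕ) : ℤ) ∧
      Fam_Y k (Fam_par k m) = 1 + 2 * ((i % 2 : ℕ) : ℤ)) ∨
    (∃ t, 1 ≤ t ∧ m = 5 * k + 1 + t ∧ Fam_par k m = 5 * k + 1 ∧
      Fam_X k m = 8 * k + 1 + ((k % 2 : ℕ) : ℤ) + t ∧ Fam_Y k m = -1 + 4 * ((k % 2 : ℕ) : ℤ) ∧
      Fam_X k (Fam_par k m) = 8 * k + 1 + ((k % 2 : ℕ) : ℤ) ∧
      Fam_Y k (Fam_par k m) = -1 + 4 * ((k % 2 : ℕ) : ℤ)) := by
  rcases Nat.lt_or_ge (5 * k + 1) m with h | h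
  · right; right; right; right; right
    refine ⟨m - (5 * k + 1), by omega, by omega, ?_⟩
    obtain ⟨t, rfl⟩ : ∃ t, m = 5 * k + 1 + t := ⟨m - (5 * k + 1), by omega⟩
    have h1 : 5 * k + 1 + t - (5 * k + 1) = t := by omega
    rw [h1, Fam_pe k t (by omega)]
    exact ⟨rfl, (Fam_Xe k t).1, (Fam_Xe k t).2, (Fam_Xa k k le_rfl).1, (Fam_Xa k k le_rfl).2⟩
  · have hc : m = 5 * (m / 5) + 1 ∨ m = 5 * (m / 5) + 2 ∨ m = 5 * (m / 5) + 3 ∨
        m = 5 * (m / 5) + 4 ∨ m = 5 * (m / 5 - 1) + 5 := by omega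
    rcases hc with hc | hc | hc | hc | hc
    · left
      generalize m / 5 = i at hc
      subst hc
      have h1 := Fam_Xa k i (by omega)
      have h2 := Fam_Xpa k i (by omega)
      exact ⟨i, by omega, rfl, h2.2.2, h1.1, h1.2, h2.1, h2.2.1⟩
    · right; left
      generalize m / 5 = i at hc
      subst hc
      have hi : i < k := by omega
      refine ⟨i, hi, rfl, Fam_pv k i hi, (Fam_Xv k i hi).1, (Fam_Xv k i hi).2, ?_⟩
      rw [Fam_pv k i hi]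
      exact Fam_Xa k i hi.le
    · right; right; left
      generalize m / 5 = i at hc
      subst hc
      have hi : i < k := by omega
      refine ⟨i, hi, rfl, Fam_pb k i hi, (Fam_Xb k i hi).1, (Fam_Xb k i hi).2, ?_⟩
      rw [Fam_pb k i hi]
      exact Fam_Xv k i hi
    · right; right; right; left
      generalize m / 5 = i at hc
      subst hc
      have hi : i < k := by omega
      refine ⟨i, hi, rfl, Fam_pr k i hi, (Fam_Xr k i hi).1, (Fam_Xr k i hi).2, ?_⟩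
      rw [Fam_pr k i hi]
      exact Fam_Xv k i hi
    · right; right; right; right; left
      generalize m / 5 - 1 = i at hc
      subst hc
      have hi : i < k := by omega
      refine ⟨i, hi, rfl, Fam_ps k i hi, (Fam_Xs k i hi).1, (Fam_Xs k i hi).2, ?_⟩
      rw [Fam_ps k i hi]
      exact Fam_Xr k i hi

/-- planarity for `m < m'` -/
theorem Fam_planar (k j m m' : ℕ) (hm : 0 < m) (hm1 : m < 5 * k + 2 + j) (hm2 : m < m')
    (hm3 : m' < 5 * k + 2 + j) (h1 : m ≠ Fam_par k m') (h2 : Fam_par k m ≠ Fam_par k m') :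
    Sep (Fam_X k) (Fam_Y k) m (Fam_par k m) m' (Fam_par k m') := by
  rcases Fam_edges k j m hm hm1 with ⟨i, ha, hb, hc, hd, he, hf, hg⟩ |
      ⟨i, ha, hb, hc, hd, he, hf, hg⟩ | ⟨i, ha, hb, hc, hd, he, hf, hg⟩ |
      ⟨i, ha, hb, hc, hd, he, hf, hg⟩ | ⟨i, ha, hb, hc, hd, he, hf, hg⟩ |
      ⟨i, ha, hb, hc, hd, he, hf, hg⟩ <;>
  rcases Fam_edges k j m' (by omega) hm3 with ⟨q, ka, kb, kc, kd, ke, kf, kg⟩ |
      ⟨q, ka, kb, kc, kd, ke, kf, kg⟩ | ⟨q, ka, kb, kc, kd, ke, kf, kg⟩ |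
      ⟨q, ka, kb, kc, kd, ke, kf, kg⟩ | ⟨q, ka, kb, kc, kd, ke, kf, kg⟩ |
      ⟨q, ka, kb, kc, kd, ke, kf, kg⟩ <;>
  refine Fam_sep_of _ _ _ _ _ _ hd he hf hg kd ke kf kg ?_ <;>
  first
  | (exfalso; omega)
  | (refine Fam_sepx ?_ ?_ ?_ ?_ <;> omega)
  | skip
  all_goals
    rcases (show q = i ∨ q = i + 1 ∨ i + 2 ≤ q ∨ q < i by omega) with hq | hq | hq | hq <;>
    first
    | (exfalso; omega)
    | (refine Fam_sepx ?_ ?_ ?_ ?_ <;> omega)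
    | (rw [hq]
       rcases Nat.mod_two_eq_zero_or_one i with hp | hp
       · have hp1 : (i + 1) % 2 = 1 := by omega
         have hp2 : (i + 1 + 1) % 2 = 0 := by omega
         simp only [hp, hp1, hp2]
         push_cast
         unfold Fam_Sep
         omega
       · have hp1 : (i + 1) % 2 = 0 := by omega
         have hp2 : (i + 1 + 1) % 2 = 1 := by omega
         simp only [hp, hp1, hp2]
         push_cast
         unfold Fam_Sep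
         omega)

/-- crossing in terms of coordinates -/
def Fam_Crs (x1 y1 x2 y2 x3 y3 x4 y4 : ℤ) : Prop :=
  (0 < (x2 - x1) * (y3 - y1) - (y2 - y1) * (x3 - x1) ∧
    (x2 - x1) * (y4 - y1) - (y2 - y1) * (x4 - x1) < 0 ∧
    (x4 - x3) * (y1 - y3) - (y4 - y3) * (x1 - x3) < 0 ∧
    0 < (x4 - x3) * (y2 - y3) - (y4 - y3) * (x2 - x3)) ∨
  ((x2 - x1) * (y3 - y1) - (y2 - y1) * (x3 - x1) < 0 ∧
    0 < (x2 - x1) * (y4 - y1) - (y2 - y1) * (x4 - x1) ∧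
    0 < (x4 - x3) * (y1 - y3) - (y4 - y3) * (x1 - x3) ∧
    (x4 - x3) * (y2 - y3) - (y4 - y3) * (x2 - x3) < 0)

theorem Fam_crs_of (X Y : ℕ → ℤ) (a b c d : ℕ) {x1 y1 x2 y2 x3 y3 x4 y4 : ℤ}
    (h1 : X a = x1) (h2 : Y a = y1) (h3 : X b = x2) (h4 : Y b = y2)
    (h5 : X c = x3) (h6 : Y c = y3) (h7 : X d = x4) (h8 : Y d = y4)
    (h : Fam_Crs x1 y1 x2 y2 x3 y3 x4 y4) : Crs X Y a b c d := by
  subst h1 h2 h3 h4 h5 h6 h7 h8
  exact h

/-- one of the three edges blocks -/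
def Fam_B (U V : ℤ) : Prop :=
  (0 < U + 2 * V ∧ 3 * U < 10 * V ∧ U + 8 < 6 * V) ∨
  (3 * V < U ∧ 0 < 7 * U + V ∧ 11 < 4 * U - V) ∨
  (U + V < 0 ∧ 5 * U + 9 * V < 0 ∧ 3 * U + 5 * V + 2 < 0)

theorem Fam_blk_even (k j i y : ℕ) (hi : i < k) (he : i % 2 = 0) {x z : ℤ}
    (hx : Fam_X k y = x) (hz : Fam_Y k y = z) (hB : Fam_B (x - 8 * i) z) :
    ∃ m, 0 < m ∧ m < 5 * k + 2 + j ∧
      Crs (Fam_X k) (Fam_Y k) (5 * i + 2) y m (Fam_par k m) := by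
  have ho : (i + 1) % 2 = 1 := by omega
  have hv := Fam_Xv k i hi
  rcases hB with hB | hB | hB
  · refine ⟨5 * (i + 1) + 1, by omega, by omega, ?_⟩
    have ha := Fam_Xa k (i + 1) (by omega)
    have hp := Fam_Xpa k (i + 1) (by omega)
    refine Fam_crs_of _ _ _ _ _ _ hv.1 hv.2 hx hz ha.1 ha.2 hp.1 hp.2.1 ?_
    have ho2 : (i + 1 + 1) % 2 = 0 := by omega
    simp only [he, ho, ho2]
    push_cast
    unfold Fam_Crs
    omega
  · refine ⟨5 * i + 5, by omega, by omega, ?_⟩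
    have ha := Fam_Xs k i hi
    have hp := Fam_Xr k i hi
    rw [← Fam_ps k i hi] at hp
    refine Fam_crs_of _ _ _ _ _ _ hv.1 hv.2 hx hz ha.1 ha.2 hp.1 hp.2 ?_
    simp only [he]
    push_cast
    unfold Fam_Crs
    omega
  · refine ⟨5 * i + 1, by omega, by omega, ?_⟩
    have ha := Fam_Xa k i hi.le
    have hp := Fam_Xpa k i hi.le
    refine Fam_crs_of _ _ _ _ _ _ hv.1 hv.2 hx hz ha.1 ha.2 hp.1 hp.2.1 ?_
    simp only [he, ho]
    push_cast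
    unfold Fam_Crs
    omega

theorem Fam_blk_odd (k j i y : ℕ) (hi : i < k) (he : i % 2 = 1) {x z : ℤ}
    (hx : Fam_X k y = x) (hz : Fam_Y k y = z) (hB : Fam_B (8 * i - x) (4 - z)) :
    ∃ m, 0 < m ∧ m < 5 * k + 2 + j ∧
      Crs (Fam_X k) (Fam_Y k) (5 * i + 2) y m (Fam_par k m) := by
  have ho : (i + 1) % 2 = 0 := by omega
  have hv := Fam_Xv k i hi
  rcases hB with hB | hB | hB
  · refine ⟨5 * i + 1, by omega, by omega, ?_⟩
    have ha := Fam_Xa k i hi.le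
    have hp := Fam_Xpa k i hi.le
    refine Fam_crs_of _ _ _ _ _ _ hv.1 hv.2 hx hz ha.1 ha.2 hp.1 hp.2.1 ?_
    simp only [he, ho]
    push_cast
    unfold Fam_Crs
    omega
  · refine ⟨5 * i + 5, by omega, by omega, ?_⟩
    have ha := Fam_Xs k i hi
    have hp := Fam_Xr k i hi
    rw [← Fam_ps k i hi] at hp
    refine Fam_crs_of _ _ _ _ _ _ hv.1 hv.2 hx hz ha.1 ha.2 hp.1 hp.2 ?_
    simp only [he]
    push_cast
    unfold Fam_Crs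
    omega
  · refine ⟨5 * (i + 1) + 1, by omega, by omega, ?_⟩
    have ha := Fam_Xa k (i + 1) (by omega)
    have hp := Fam_Xpa k (i + 1) (by omega)
    refine Fam_crs_of _ _ _ _ _ _ hv.1 hv.2 hx hz ha.1 ha.2 hp.1 hp.2.1 ?_
    have ho2 : (i + 1 + 1) % 2 = 1 := by omega
    simp only [he, ho, ho2]
    push_cast
    unfold Fam_Crs
    omega

theorem Fam_block (k j i y : ℕ) (hi : i < k) (hy : y < 5 * k + 2 + j) (h1 : y ≠ 5 * i + 2)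
    (h2 : ¬ (0 < y ∧ Fam_par k y = 5 * i + 2)) (h3 : Fam_par k (5 * i + 2) ≠ y) :
    ∃ m, 0 < m ∧ m < 5 * k + 2 + j ∧
      Crs (Fam_X k) (Fam_Y k) (5 * i + 2) y m (Fam_par k m) := by
  rw [Fam_pv k i hi] at h3
  rcases Nat.eq_zero_or_pos y with h0 | h0
  · subst h0
    rcases Nat.mod_two_eq_zero_or_one i with hp | hp
    · refine Fam_blk_even k j i 0 hi hp (Fam_X0 k).1 (Fam_X0 k).2 ?_
      unfold Fam_B
      omega
    · refine Fam_blk_odd k j i 0 hi hp (Fam_X0 k).1 (Fam_X0 k).2 ?_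
      unfold Fam_B
      omega
  · have h4 : Fam_par k y ≠ 5 * i + 2 := fun h => h2 ⟨h0, h⟩
    rcases Fam_edges k j y h0 hy with ⟨q, ka, kb, kc, kd, ke, -, -⟩ |
        ⟨q, ka, kb, kc, kd, ke, -, -⟩ | ⟨q, ka, kb, kc, kd, ke, -, -⟩ |
        ⟨q, ka, kb, kc, kd, ke, -, -⟩ | ⟨q, ka, kb, kc, kd, ke, -, -⟩ |
        ⟨q, ka, kb, kc, kd, ke, -, -⟩ <;>
    rcases Nat.mod_two_eq_zero_or_one i with hp | hp <;>
    first
    | (refine Fam_blk_even k j i y hi hp kd ke ?_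
       unfold Fam_B
       omega)
    | (refine Fam_blk_odd k j i y hi hp kd ke ?_
       unfold Fam_B
       omega)
    | (refine Fam_blk_even k j i y hi hp kd ke ?_
       rcases (show q + 2 ≤ i ∨ q + 1 = i ∨ q = i ∨ q = i + 1 ∨ q = i + 2 ∨ i + 3 ≤ q by
         omega) with hq | hq | hq | hq | hq | hq <;>
       rcases Nat.mod_two_eq_zero_or_one q with hr | hr <;>
       unfold Fam_B <;>
       omega)

theorem fam (k j : ℕ) (hj : j ≤ 4) : ∃ (X Y : ℕ → ℤ) (par : ℕ → ℕ),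
    (∀ m, 0 < m → m < 5 * k + 2 + j → par m < m) ∧
    (∀ i, i < k → par (5 * i + 2) = 5 * i + 1) ∧
    (∀ m m', 0 < m → m < 5 * k + 2 + j → 0 < m' → m' < 5 * k + 2 + j → m ≠ m' →
      par m ≠ m' → m ≠ par m' → par m ≠ par m' → Sep X Y m (par m) m' (par m')) ∧
    (∀ i, i < k → ∀ y, y < 5 * k + 2 + j → y ≠ 5 * i + 2 → ¬ (0 < y ∧ par y = 5 * i + 2) →
      par (5 * i + 2) ≠ y →
      ∃ m, 0 < m ∧ m < 5 * k + 2 + j ∧ Crs X Y (5 * i + 2) y m (par m)) := by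
  refine ⟨Fam_X k, Fam_Y k, Fam_par k, ?_, fun i hi => Fam_pv k i hi, ?_, ?_⟩
  · intro m hm hm'
    rcases Fam_edges k j m hm hm' with ⟨i, ha, hb, hc, -⟩ | ⟨i, ha, hb, hc, -⟩ |
        ⟨i, ha, hb, hc, -⟩ | ⟨i, ha, hb, hc, -⟩ | ⟨i, ha, hb, hc, -⟩ | ⟨i, ha, hb, hc, -⟩ <;>
    omega
  · intro m m' hm hm1 hm2 hm3 hne h1 h2 h3
    rcases Nat.lt_or_ge m m' with h | h
    · exact Fam_planar k j m m' hm hm1 h hm3 h2 h3
    · exact Fam_sep_symm _ _ _ _ _ _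
        (Fam_planar k j m' m hm2 hm3 (by omega) hm1 (fun h5 => h1 h5.symm) (fun h5 => h3 h5.symm))
  · intro i hi y hy h1 h2 h3
    exact Fam_block k j i y hi hy h1 h2 h3

end CT
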