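import Pool.Agent.H7.CT.Basic

/-! # CT module Perturb: perturbation to general position

Proof. For `δ > 0` let `x a = X a + δ a`, `y a = Y a + δ a²` (`a` the number of the point). The orientation determinant of `a, b, c` is `D0 + D1 δ + D2 δ²` with `D2 = (b - a)(c² - a²) - (b² - a²)(c - a) = (b - a)(c - a)(c - b)`, not zero if `a, b, c` are different. So for every triple of different indices at most two
values of `δ` give a zero, and `0 < D0` implies a positive value for all small `δ > 0`; `X a < X b` implies `x a < x b` for small `δ`. Finitely many conditions (`Filter.eventually_all`, `nhdsWithin`), so some `δ > 0` satisfies all of them. -/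

open Classical

namespace CT

open Filter Topology

theorem Perturb_quad_fin {A B D : ℝ} (hA : A ≠ 0) : {t : ℝ | A * t ^ 2 + B * t + D = 0}.Finite := by
  have hp : (Polynomial.C A * Polynomial.X ^ 2 + Polynomial.C B * Polynomial.X +
      Polynomial.C D : Polynomial ℝ) ≠ 0 := by
    intro h
    have := congrArg (fun p => Polynomial.coeff p 2) h
    simp [Polynomial.coeff_X, Polynomial.coeff_C] at this
    exact hA this
  refine Set.Finite.subset (Polynomial.rootSet_finite (Polynomial.C A * Polynomial.X ^ 2 +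
    Polynomial.C B * Polynomial.X + Polynomial.C D : Polynomial ℝ) ℝ) ?_
  intro t ht
  rw [Polynomial.mem_rootSet]
  refine ⟨hp, ?_⟩
  simpa using ht

theorem Perturb_quad_ev {A B D : ℝ} (hA : A ≠ 0) :
    ∀ᶠ t : ℝ in 𝓝[>] (0 : ℝ), A * t ^ 2 + B * t + D ≠ 0 := by
  have hf := (Perturb_quad_fin (A := A) (B := B) (D := D) hA).subset
    (Set.sdiff_subset : {t : ℝ | A * t ^ 2 + B * t + D = 0} \ {0} ⊆ _)
  have h1 : ∀ᶠ t : ℝ in 𝓝[>] (0 : ℝ), t ∈ ({t : ℝ | A * t ^ 2 + B * t + D = 0} \ {0})ᶜ := by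
    apply nhdsWithin_le_nhds
    exact hf.isClosed.isOpen_compl.mem_nhds (by simp)
  filter_upwards [h1, self_mem_nhdsWithin] with t ht ht0 h
  exact ht ⟨h, ne_of_gt ht0⟩

theorem perturb (n : ℕ) (X Y : Fin n → ℝ) : ∃ C : Cfg (Fin n),
    (∀ a b c, 0 < (X b - X a) * (Y c - Y a) - (Y b - Y a) * (X c - X a) → 0 < C.o a b c) ∧
    (∀ a b, X a < X b → C.x a < C.x b) := by
  have h1 : ∀ᶠ δ : ℝ in 𝓝[>] (0:ℝ), ∀ a b c : Fin n, a ≠ b → a ≠ c → b ≠ c →
      ((X b + δ * b.1) - (X a + δ * a.1)) * ((Y c + δ * (c.1 : ℝ) ^ 2) - (Y a + δ * (a.1 : ℝ) ^ 2)) -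
      ((Y b + δ * (b.1 : ℝ) ^ 2) - (Y a + δ * (a.1 : ℝ) ^ 2)) * ((X c + δ * c.1) - (X a + δ * a.1)) ≠ 0 := by
    rw [eventually_all]; intro a
    rw [eventually_all]; intro b
    rw [eventually_all]; intro c
    by_cases hab : a = b
    · filter_upwards with δ h using absurd hab h
    by_cases hac : a = c
    · filter_upwards with δ _ h using absurd hac h
    by_cases hbc : b = c
    · filter_upwards with δ _ _ h using absurd hbc h
    have e1 : ((b.1 : ℝ) - a.1) ≠ 0 := by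
      rw [sub_ne_zero]; intro h; exact hab (Fin.ext (by exact_mod_cast h.symm))
    have e2 : ((c.1 : ℝ) - a.1) ≠ 0 := by
      rw [sub_ne_zero]; intro h; exact hac (Fin.ext (by exact_mod_cast h.symm))
    have e3 : ((c.1 : ℝ) - b.1) ≠ 0 := by
      rw [sub_ne_zero]; intro h; exact hbc (Fin.ext (by exact_mod_cast h.symm))
    have hA : ((b.1 : ℝ) - a.1) * (c.1 - a.1) * (c.1 - b.1) ≠ 0 := mul_ne_zero (mul_ne_zero e1 e2) e3
    filter_upwards [Perturb_quad_ev (A := ((b.1 : ℝ) - a.1) * (c.1 - a.1) * (c.1 - b.1))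
      (B := (X b - X a) * ((c.1 : ℝ) ^ 2 - (a.1 : ℝ) ^ 2) + ((b.1 : ℝ) - a.1) * (Y c - Y a) -
        (Y b - Y a) * ((c.1 : ℝ) - a.1) - ((b.1 : ℝ) ^ 2 - (a.1 : ℝ) ^ 2) * (X c - X a))
      (D := (X b - X a) * (Y c - Y a) - (Y b - Y a) * (X c - X a)) hA] with δ hδ _ _ _ h
    apply hδ
    rw [← h]; ring
  have h2 : ∀ᶠ δ : ℝ in 𝓝[>] (0:ℝ), ∀ a b c : Fin n,
      0 < (X b - X a) * (Y c - Y a) - (Y b - Y a) * (X c - X a) →
      0 < ((X b + δ * b.1) - (X a + δ * a.1)) * ((Y c + δ * (c.1 : ℝ) ^ 2) - (Y a + δ * (a.1 : ℝ) ^ 2)) -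
      ((Y b + δ * (b.1 : ℝ) ^ 2) - (Y a + δ * (a.1 : ℝ) ^ 2)) * ((X c + δ * c.1) - (X a + δ * a.1)) := by
    rw [eventually_all]; intro a
    rw [eventually_all]; intro b
    rw [eventually_all]; intro c
    by_cases h0 : 0 < (X b - X a) * (Y c - Y a) - (Y b - Y a) * (X c - X a)
    · have hc : Continuous (fun δ : ℝ => ((X b + δ * b.1) - (X a + δ * a.1)) *
        ((Y c + δ * (c.1 : ℝ) ^ 2) - (Y a + δ * (a.1 : ℝ) ^ 2)) -
        ((Y b + δ * (b.1 : ℝ) ^ 2) - (Y a + δ * (a.1 : ℝ) ^ 2)) *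
          ((X c + δ * c.1) - (X a + δ * a.1))) := by fun_prop
      have hpos := hc.continuousAt (x := 0)
      have h3 : ∀ᶠ δ : ℝ in 𝓝 (0:ℝ), 0 < ((X b + δ * b.1) - (X a + δ * a.1)) *
        ((Y c + δ * (c.1 : ℝ) ^ 2) - (Y a + δ * (a.1 : ℝ) ^ 2)) -
        ((Y b + δ * (b.1 : ℝ) ^ 2) - (Y a + δ * (a.1 : ℝ) ^ 2)) *
          ((X c + δ * c.1) - (X a + δ * a.1)) := by
        apply hpos.eventually (lt_mem_nhds _)
        simpa using h0
      filter_upwards [nhdsWithin_le_nhds h3] with δ hδ _ using hδ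
    · filter_upwards with δ h using absurd h h0
  have h3 : ∀ᶠ δ : ℝ in 𝓝[>] (0:ℝ), ∀ a b : Fin n, X a < X b →
      X a + δ * a.1 < X b + δ * b.1 := by
    rw [eventually_all]; intro a
    rw [eventually_all]; intro b
    by_cases h0 : X a < X b
    · have hc : Continuous (fun δ : ℝ => (X b + δ * b.1) - (X a + δ * a.1)) := by fun_prop
      have hpos := hc.continuousAt (x := 0)
      have h3 : ∀ᶠ δ : ℝ in 𝓝 (0:ℝ), 0 < (X b + δ * b.1) - (X a + δ * a.1) := by
        apply hpos.eventually (lt_mem_nhds _)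
        simpa using h0
      filter_upwards [nhdsWithin_le_nhds h3] with δ hδ _
      linarith
    · filter_upwards with δ h using absurd h h0
  obtain ⟨δ, hδ1, hδ2, hδ3⟩ := (h1.and (h2.and h3)).exists
  exact ⟨⟨fun a => X a + δ * a.1, fun a => Y a + δ * (a.1 : ℝ) ^ 2, hδ1⟩, hδ2, hδ3⟩

/-- horizontally separated segments do not cross -/
theorem not_cross_of_sepX {V : Type} (C : Cfg V) {a b c d : V} (h1 : C.x a < C.x c)
    (h2 : C.x a < C.x d) (h3 : C.x b < C.x c) (h4 : C.x b < C.x d) : ¬ C.Cross a b c d := by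
  intro h
  obtain ⟨g1, g2⟩ := h
  set p := C.o c d a with hp
  set q := C.o c d b with hq
  set r := C.o a b c with hr
  set s := C.o a b d with hs
  have key : (p * C.x b - q * C.x a) * (r - s) = (r * C.x d - s * C.x c) * (p - q) := by
    rw [hp, hq, hr, hs]; unfold Cfg.o; ring
  rcases lt_or_gt_of_ne (show p ≠ 0 by intro h; rw [h] at g2; simp at g2) with hp0 | hp0
  · have hq0 : 0 < q := by by_contra hc; push Not at hc; nlinarith
    rcases lt_or_gt_of_ne (show r ≠ 0 by intro h; rw [h] at g1; simp at g1) with hr0 | hr0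
    · have hs0 : 0 < s := by by_contra hc; push Not at hc; nlinarith
      nlinarith [mul_pos (neg_pos.mpr hp0) (neg_pos.mpr hr0), mul_pos hq0 hs0, mul_pos (neg_pos.mpr hp0) hs0, mul_pos hq0 (neg_pos.mpr hr0), mul_pos (mul_pos (neg_pos.mpr hp0) (neg_pos.mpr hr0)) (sub_pos.mpr h4), mul_pos (mul_pos (neg_pos.mpr hp0) hs0) (sub_pos.mpr h3), mul_pos (mul_pos hq0 (neg_pos.mpr hr0)) (sub_pos.mpr h2), mul_pos (mul_pos hq0 hs0) (sub_pos.mpr h1)]
    · have hs0 : s < 0 := by by_contra hc; push Not at hc; nlinarith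
      nlinarith [mul_pos (neg_pos.mpr hp0) hr0, mul_pos (mul_pos (neg_pos.mpr hp0) hr0) (sub_pos.mpr h4), mul_pos (mul_pos (neg_pos.mpr hp0) (neg_pos.mpr hs0)) (sub_pos.mpr h3), mul_pos (mul_pos hq0 hr0) (sub_pos.mpr h2), mul_pos (mul_pos hq0 (neg_pos.mpr hs0)) (sub_pos.mpr h1)]
  · have hq0 : q < 0 := by by_contra hc; push Not at hc; nlinarith
    rcases lt_or_gt_of_ne (show r ≠ 0 by intro h; rw [h] at g1; simp at g1) with hr0 | hr0
    · have hs0 : 0 < s := by by_contra hc; push Not at hc; nlinarith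
      nlinarith [mul_pos (mul_pos hp0 (neg_pos.mpr hr0)) (sub_pos.mpr h4), mul_pos (mul_pos hp0 hs0) (sub_pos.mpr h3), mul_pos (mul_pos (neg_pos.mpr hq0) (neg_pos.mpr hr0)) (sub_pos.mpr h2), mul_pos (mul_pos (neg_pos.mpr hq0) hs0) (sub_pos.mpr h1)]
    · have hs0 : s < 0 := by by_contra hc; push Not at hc; nlinarith
      nlinarith [mul_pos (mul_pos hp0 hr0) (sub_pos.mpr h4), mul_pos (mul_pos hp0 (neg_pos.mpr hs0)) (sub_pos.mpr h3), mul_pos (mul_pos (neg_pos.mpr hq0) hr0) (sub_pos.mpr h2), mul_pos (mul_pos (neg_pos.mpr hq0) (neg_pos.mpr hs0)) (sub_pos.mpr h1)]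

end CT
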