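import Pool.Agent.H7.CT.LBTree
import Pool.Agent.H7.CT.Perturb
import Pool.Agent.H7.CT.Fam

/-! # CT module Lower: the lower bound

Proof. `fam k j`, `perturb` applied to the (cast) coordinates gives `C` on `Fin n`; `T := parG n par` (`parG_tree`). Orientations of `C` have the same strict signs as `dt` (negative ones by swapping two arguments). `Plane C T`: edges with a common end do not cross (`cross_ne`); otherwise `Sep`
(if `c, d` are on the same side of `a b`, or `a, b` on the same side of `c d`, or `not_cross_of_sepX`, `cross_symm`). Let `T'` be connected with `T ⊔ T'` plane. Every centre `v_i = 5i+2` has a `T'`-neighbour `y` (connected, at least two vertices); if it is not a `T`-neighbour, `Crs` gives a `T`-edge crossing `v_i y`: contradiction.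
So `s(v_i, y) ∈ (T ⊓ T').edgeSet`. The map `i ↦ s(v_i, y_i)` is injective: centres are not `T`-adjacent (`par (5i+2) = 5i+1` is no centre). So `k ≤ ncard`.
`lower_one`: `C` from `perturb` with `X a = a`, `Y a = 0` (so `C.x` is injective), `T` = star with centre `0` (`parG n (fun _ => 0)`): `Plane C T` (all edges share `0`), and a `T'`-edge at `0` is a `T`-edge. -/

open Classical

namespace CT

theorem Lower_exists_adj {V : Type} (T' : SimpleGraph V) (h : T'.Connected) (v w : V)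
    (hvw : v ≠ w) : ∃ y, T'.Adj v y := by
  obtain ⟨p⟩ := h.preconnected v w
  cases p with
  | nil => exact absurd rfl hvw
  | cons h _ => exact ⟨_, h⟩

theorem lower (k j n : ℕ) (hj : j ≤ 4) (hn : n = 5 * k + 2 + j) :
    ∃ (C : Cfg (Fin n)) (T : SimpleGraph (Fin n)), T.IsTree ∧ Plane C T ∧
      ∀ T' : SimpleGraph (Fin n), T'.Connected → Plane C (T ⊔ T') →
        k ≤ (T ⊓ T').edgeSet.ncard := by
  obtain ⟨X, Y, par, h1, h2, h3, h4⟩ := fam k j hj
  rw [← hn] at h1 h3 h4
  obtain ⟨C, hC1, hC2⟩ := perturb n (fun a => (X a.1 : ℝ)) (fun a => (Y a.1 : ℝ))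
  have pos : ∀ a b c : Fin n, 0 < dt X Y a.1 b.1 c.1 → 0 < C.o a b c := by
    intro a b c h
    apply hC1
    have h' : (0:ℝ) < ((dt X Y a.1 b.1 c.1 : ℤ) : ℝ) := by exact_mod_cast h
    unfold dt at h'
    push_cast at h'
    exact h'
  have neg : ∀ a b c : Fin n, dt X Y a.1 b.1 c.1 < 0 → C.o a b c < 0 := by
    intro a b c h
    have h' : 0 < dt X Y b.1 a.1 c.1 := by
      have e : dt X Y b.1 a.1 c.1 = - dt X Y a.1 b.1 c.1 := by unfold dt; ring
      rw [e]; linarith
    have h5 := pos b a c h'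
    rw [C.o_swap] at h5
    linarith
  have hx : ∀ a b : Fin n, X a.1 < X b.1 → C.x a < C.x b := by
    intro a b h
    apply hC2
    exact_mod_cast h
  have sep : ∀ a b c d : Fin n, Sep X Y a.1 b.1 c.1 d.1 → ¬ C.Cross a b c d := by
    intro a b c d h hc
    obtain ⟨c1, c2⟩ := hc
    rcases h with h | h | h | h | h | h
    · have h5 := mul_pos (pos a b c h.1) (pos a b d h.2)
      linarith
    · have h5 := mul_pos_of_neg_of_neg (neg a b c h.1) (neg a b d h.2)
      linarith
    · have h5 := mul_pos (pos c d a h.1) (pos c d b h.2)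
      linarith
    · have h5 := mul_pos_of_neg_of_neg (neg c d a h.1) (neg c d b h.2)
      linarith
    · exact not_cross_of_sepX C (hx _ _ h.1) (hx _ _ h.2.1) (hx _ _ h.2.2.1)
        (hx _ _ h.2.2.2) ⟨c1, c2⟩
    · exact not_cross_of_sepX C (a := c) (b := d) (c := a) (d := b) (hx _ _ h.1)
        (hx _ _ h.2.1) (hx _ _ h.2.2.1) (hx _ _ h.2.2.2) ⟨c2, c1⟩
  have key : ∀ a b c d : Fin n, 0 < a.1 → par a.1 = b.1 → 0 < c.1 → par c.1 = d.1 →
      ¬ C.Cross a b c d := by
    intro a b c d ha hab hc hcd hcr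
    obtain ⟨n1, n2, n3, n4, n5, n6⟩ := C.cross_ne hcr
    have s := h3 a.1 c.1 ha a.2 hc c.2 (fun h => n2 (Fin.ext h))
      (fun h => n4 (Fin.ext (by rw [← hab]; exact h)))
      (fun h => n3 (Fin.ext (by rw [← hcd]; exact h)))
      (fun h => n5 (Fin.ext (by rw [← hab, ← hcd]; exact h)))
    rw [hab, hcd] at s
    exact sep a b c d s hcr
  have hT : (parG n par).IsTree := parG_tree n (by omega) par h1
  refine ⟨C, parG n par, hT, ?_, ?_⟩
  · intro a b c d hab hcd hcr
    rcases hab.2 with ⟨a0, a1⟩ | ⟨a0, a1⟩ <;> rcases hcd.2 with ⟨c0, c1⟩ | ⟨c0, c1⟩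
    · exact key a b c d a0 a1 c0 c1 hcr
    · exact key a b d c a0 a1 c0 c1 (C.cross_symm34 hcr)
    · exact key b a c d a0 a1 c0 c1 (C.cross_symm12 hcr)
    · exact key b a d c a0 a1 c0 c1 (C.cross_symm34 (C.cross_symm12 hcr))
  · intro T' hT' hP
    have hk : ∀ i : Fin k, 5 * i.1 + 2 < n := fun i => by have := i.2; omega
    have hex : ∀ i : Fin k, ∃ y : Fin n, (parG n par).Adj ⟨5 * i.1 + 2, hk i⟩ y ∧
        T'.Adj ⟨5 * i.1 + 2, hk i⟩ y := by
      intro i
      obtain ⟨y, hy⟩ := Lower_exists_adj T' hT' ⟨5 * i.1 + 2, hk i⟩ ⟨0, by omega⟩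
        (fun h => by have := congrArg Fin.val h; simp at this)
      refine ⟨y, ?_, hy⟩
      by_contra hn'
      have hne : y.1 ≠ 5 * i.1 + 2 := fun h => hy.ne (Fin.ext h.symm)
      obtain ⟨m, m0, mn, hc⟩ := h4 i.1 i.2 y.1 y.2 hne
        (fun h => hn' ⟨hy.ne, Or.inr ⟨h.1, h.2⟩⟩)
        (fun h => hn' ⟨hy.ne, Or.inl ⟨Nat.succ_pos _, h⟩⟩)
      have hpm : par m < m := h1 m m0 mn
      have hadj : (parG n par).Adj ⟨m, mn⟩ ⟨par m, lt_trans hpm mn⟩ :=
        ⟨fun h => by have := congrArg Fin.val h; simp at this; omega, Or.inl ⟨m0, rfl⟩⟩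
      refine hP ⟨5 * i.1 + 2, hk i⟩ y ⟨m, mn⟩ ⟨par m, lt_trans hpm mn⟩ (Or.inr hy)
        (Or.inl hadj) ?_
      rcases hc with ⟨e1, e2, e3, e4⟩ | ⟨e1, e2, e3, e4⟩
      · exact ⟨mul_neg_of_pos_of_neg (pos _ _ _ e1) (neg _ _ _ e2),
          mul_neg_of_neg_of_pos (neg _ _ _ e3) (pos _ _ _ e4)⟩
      · exact ⟨mul_neg_of_neg_of_pos (neg _ _ _ e1) (pos _ _ _ e2),
          mul_neg_of_pos_of_neg (pos _ _ _ e3) (neg _ _ _ e4)⟩
    choose y hy1 hy2 using hex
    let f : Fin k → Sym2 (Fin n) := fun i => s(⟨5 * i.1 + 2, hk i⟩, y i)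
    have hinj : Function.Injective f := by
      intro i i' h
      rcases Sym2.eq_iff.mp h with ⟨h5, _⟩ | ⟨h5, h6⟩
      · have := congrArg Fin.val h5
        simp at this
        exact Fin.ext this
      · exfalso
        have ha := hy1 i'
        rw [← h5] at ha
        rcases ha.2 with ⟨_, e⟩ | ⟨_, e⟩
        · simp only at e
          rw [h2 i'.1 i'.2] at e
          omega
        · simp only at e
          rw [h2 i.1 i.2] at e
          omega
    have hsub : Set.range f ⊆ (parG n par ⊓ T').edgeSet := by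
      rintro _ ⟨i, rfl⟩
      exact ⟨hy1 i, hy2 i⟩
    have hcard : (Set.range f).ncard = k := by
      rw [← Set.image_univ, Set.ncard_image_of_injective _ hinj, Set.ncard_univ, Nat.card_fin]
    calc k = (Set.range f).ncard := hcard.symm
      _ ≤ _ := Set.ncard_le_ncard hsub (Set.toFinite _)

theorem lower_one (n : ℕ) (hn : 2 ≤ n) :
    ∃ (C : Cfg (Fin n)) (T : SimpleGraph (Fin n)), (∀ a b, C.x a = C.x b → a = b) ∧
      T.IsTree ∧ Plane C T ∧
      ∀ T' : SimpleGraph (Fin n), T'.Connected → Plane C (T ⊔ T') →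
        1 ≤ (T ⊓ T').edgeSet.ncard := by
  obtain ⟨C, _, hC2⟩ := perturb n (fun a => ((a.1 : ℕ) : ℝ)) (fun _ => 0)
  have hT : (parG n (fun _ => 0)).IsTree := parG_tree n (by omega) _ (fun m h _ => h)
  refine ⟨C, parG n (fun _ => 0), ?_, hT, ?_, ?_⟩
  · intro a b hab
    rcases lt_trichotomy a b with h | h | h
    · have h5 := hC2 a b (by simpa using h)
      rw [hab] at h5
      exact absurd h5 (lt_irrefl _)
    · exact h
    · have h5 := hC2 b a (by simpa using h)
      rw [hab] at h5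
      exact absurd h5 (lt_irrefl _)
  · intro a b c d hab hcd hcr
    obtain ⟨n1, n2, n3, n4, n5, n6⟩ := C.cross_ne hcr
    have e1 : a.1 = 0 ∨ b.1 = 0 := by
      rcases hab.2 with ⟨_, e⟩ | ⟨_, e⟩
      · exact Or.inr e.symm
      · exact Or.inl e.symm
    have e2 : c.1 = 0 ∨ d.1 = 0 := by
      rcases hcd.2 with ⟨_, e⟩ | ⟨_, e⟩
      · exact Or.inr e.symm
      · exact Or.inl e.symm
    rcases e1 with e1 | e1 <;> rcases e2 with e2 | e2
    · exact n2 (Fin.ext (by rw [e1, e2]))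
    · exact n3 (Fin.ext (by rw [e1, e2]))
    · exact n4 (Fin.ext (by rw [e1, e2]))
    · exact n5 (Fin.ext (by rw [e1, e2]))
  · intro T' hT' hP
    have h0 : 0 < n := by omega
    obtain ⟨y, hy⟩ := Lower_exists_adj T' hT' ⟨0, h0⟩ ⟨1, by omega⟩
      (fun h => by have := congrArg Fin.val h; simp at this)
    have hy0 : 0 < y.1 := by
      rcases Nat.eq_zero_or_pos y.1 with h | h
      · exact absurd (Fin.ext (by simpa using h.symm)) hy.ne
      · exact h
    have hmem : s((⟨0, h0⟩ : Fin n), y) ∈ (parG n (fun _ => 0) ⊓ T').edgeSet :=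
      ⟨⟨hy.ne, Or.inr ⟨hy0, rfl⟩⟩, hy⟩
    exact (Set.ncard_pos (Set.toFinite _)).mpr ⟨_, hmem⟩

end CT
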