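import Pool.Agent.H7.CT.Main
import Pool.Agent.H7.CT.Lower
import Pool.Agent.H7.CT.Bridge

/-! # CT module Fin: upper and lower bound for point sets of the Euclidean plane -/

open Classical

namespace CT

theorem fin_upper {n : ℕ} (P : Fin n → EuclideanSpace ℝ (Fin 2)) (hP : GenPos P)
    (T : SimpleGraph (Fin n)) (hT : T.IsTree) (hp : IsPlane P T) :
    ∃ T' : SimpleGraph (Fin n), T'.IsTree ∧ IsPlane P T' ∧ IsPlane P (T ⊔ T') ∧
      ((T ⊓ T').edgeSet.ncard ≤ 1 ∨ 5 * (T ⊓ T').edgeSet.ncard + 2 ≤ n) := by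
  obtain ⟨C, hx, hy⟩ := exists_toCfg P hP
  obtain ⟨T', h1, h2, h3⟩ := main_tree (Fin n) C T hT ((isPlane_iff C P hP hx hy T).mp hp)
  refine ⟨T', h1, ?_, (isPlane_iff C P hP hx hy _).mpr h2, ?_⟩
  · rw [isPlane_iff C P hP hx hy]
    intro a b c d hab hcd
    exact h2 a b c d (Or.inr hab) (Or.inr hcd)
  · simpa [Nat.card_eq_fintype_card] using h3

theorem fin_lower {n : ℕ} (hn : 2 ≤ n) :
    ∃ (P : Fin n → EuclideanSpace ℝ (Fin 2)) (T : SimpleGraph (Fin n)), GenPos P ∧ T.IsTree ∧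
      IsPlane P T ∧ ∀ T' : SimpleGraph (Fin n), T'.IsTree → IsPlane P (T ⊔ T') →
        max 1 ((n - 2) / 5) ≤ (T ⊓ T').edgeSet.ncard := by
  have key : ∀ (k : ℕ) (C : Cfg (Fin n)) (T : SimpleGraph (Fin n)),
      (∀ a b, C.x a = C.x b → C.y a = C.y b → a = b) → T.IsTree → Plane C T →
      (∀ T' : SimpleGraph (Fin n), T'.Connected → Plane C (T ⊔ T') →
        k ≤ (T ⊓ T').edgeSet.ncard) → max 1 ((n - 2) / 5) ≤ k →
      ∃ (P : Fin n → EuclideanSpace ℝ (Fin 2)) (T : SimpleGraph (Fin n)), GenPos P ∧ T.IsTree ∧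
      IsPlane P T ∧ ∀ T' : SimpleGraph (Fin n), T'.IsTree → IsPlane P (T ⊔ T') →
        max 1 ((n - 2) / 5) ≤ (T ⊓ T').edgeSet.ncard := by
    intro k C T hinj hT hp hk hle
    have hG := pts_genPos C hinj
    have hx : ∀ v, C.x v = pts C v 0 := by intro v; simp [pts]
    have hy : ∀ v, C.y v = pts C v 1 := by intro v; simp [pts]
    refine ⟨pts C, T, hG, hT, (isPlane_iff C _ hG hx hy T).mpr hp, ?_⟩
    intro T' hT' h
    exact hle.trans (hk T' hT'.connected ((isPlane_iff C _ hG hx hy _).mp h))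
  by_cases h7 : 7 ≤ n
  · obtain ⟨C, T, hT, hp, hk⟩ := lower ((n - 2) / 5) ((n - 2) % 5) n (by omega) (by omega)
    refine key ((n - 2) / 5) C T (cfg_inj C ?_) hT hp hk (by omega)
    intro a b
    by_contra hcon
    push Not at hcon
    have : (Finset.univ : Finset (Fin n)) ⊆ {a, b} := by
      intro c _
      by_cases hc : c = a
      · simp [hc]
      · simp [hcon c hc]
    have h1 := Finset.card_le_card this
    have h2 : ({a, b} : Finset (Fin n)).card ≤ 2 := Finset.card_le_two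
    simp at h1
    omega
  · obtain ⟨C, T, hinj, hT, hp, hk⟩ := lower_one n hn
    exact key 1 C T (fun a b h _ => hinj a b h) hT hp hk (by omega)

end CT
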