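import Pool.Agent.H7.CT.RepWalk

/-! # CT module Flip: flipping a `D \ T`-edge without any `T`-`T` face

`Face D p b' b`, `Face D b b' y` (the two faces at `bb'`), `py` crosses `bb'`, `bb'`, `pb`, `pb'` not in `T`, not both `yb`, `yb'` in `T`.
Then there is `D1` with `Setup C T D1`, `D1.Adj p y`, `N2 C T D1 ≤ N2 C T D`, same isolated vertices: `Iso D u → Iso D1 u`
for `u ∉ {p,y}`, `Iso D1 u → Iso D u`, and every `D`-edge except `bb'` is in `D1`, every `D1`-edge except `py` is in `D`.
Proof. The only `D`-edge crossing `py` is `bb'`: let `cd` cross `py`, `≠ bb'`, with `C.tau p y c d` minimal among the crossing edges `≠ bb'`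
(or directly: the faces `p b' b` and `b b' y` are empty, their union is a convex quadrilateral). One way: an edge crossing `py` crosses it
strictly inside one of the two triangles or at `bb'`; by `near_face` from `p`: the crossing edge `e` nearest to `p` has near face with apex `p`, and its sector at `p` contains `y`,
so the face is `p b' b` (`face_eq_of_sector`): `e = bb'`. Similarly the crossing edge nearest to `y` is `bb'`. So `bb'` is the only one (`tau` strict, two crossing edges with equal `tau`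
would cross or share... use minimal and maximal `tau`: nearest to `y` = maximal `tau`).
`D1 := ` replacement graph (`exists_rep` for `x := p`). New edges of `D1`: `rep_new_edge`: both ends in `{p, y, b, b'}`; `pb, pb', yb, yb' ∈ D`, `bb'` crosses `py`: so the only new edge is `py`.
No new `T`-`T` step (`new_step`: the kept vertex `a ∈ {b,b'}`, `{b,c}` an edge of `D1` not in `D`, so `{p,y}`, but `pb, pb' ∉ T`); no `T`-`T` step of `D` is lost (`step_persist`; its base would be `bb'`, its
face one of the two faces, kept vertex `p` (no: `pb ∉ T`) or `y` (no)). So the step relations are equal, hence `Hot` is the same (`D1` steps from `D`-steps and conversely).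
Isolated: `Iso D1 u`: every `D`-edge at `u` except `bb'` is in `D1`; if `u ∈ {b,b'}` then `pu ∈ D1 \ T` contradiction. So `Iso D u`. -/

open Classical

namespace CT

variable {V : Type}

/-- a crossing edge nearest to `p` is `bb'` -/
theorem Flip_min [Finite V] {C : Cfg V} {D : SimpleGraph V} (hD : MaxPlane C D)
    {p b b' y : V} (h1 : Face C D p b' b) (h3 : C.Cross p y b b')
    {c d : V} (hcd : D.Adj c d) (hc : C.Cross p y c d)
    (hm : ∀ c' d', D.Adj c' d' → C.Cross p y c' d' → C.tau p y c d ≤ C.tau p y c' d') :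
    (c = b ∧ d = b') ∨ (c = b' ∧ d = b) := by
  have e0 : 0 < C.o b' b p := by
    have := h1.2.2.2.1
    rwa [C.o_cyc p b' b] at this
  have e1 : C.o b b' p < 0 := by
    have := C.o_swap b b' p
    linarith
  have e2 : 0 < C.o p y b ∧ 0 < C.o p b' y := by
    rcases C.cross_pattern h3 with ⟨g1, g2, g3, g4⟩ | ⟨g1, g2, g3, g4⟩
    · have := C.o_swap' p y b'
      exact ⟨g1, by linarith⟩
    · linarith
  -- main case
  have key : ∀ c d : V, D.Adj c d → C.Cross p y c d →
      (∀ c' d', D.Adj c' d' → C.Cross p y c' d' → C.tau p y c d ≤ C.tau p y c' d') →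
      0 < C.o c d p → 0 < C.o p y d → 0 < C.o p c y → c = b' ∧ d = b := by
    intro c d hcd hc hm k1 k2 k3
    obtain ⟨w, hw⟩ := face_exists C D hD hcd k1
    rcases near_face C D hw k1 hc with h | h | h
    · subst h
      have f1 : Face C D p c d := hw.rot.rot
      exact face_eq_of_sector C D hD.1 f1 h1 k3 k2 e2.2 e2.1
    · have := hm c w hw.2.2.1.symm h.1
      exact absurd h.2 (not_lt.mpr this)
    · have := hm d w hw.2.1 h.1
      exact absurd h.2 (not_lt.mpr this)
  rcases C.cross_pattern hc with ⟨g1, g2, g3, g4⟩ | ⟨g1, g2, g3, g4⟩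
  · -- `o c d p < 0`: swap
    have a1 : 0 < C.o d c p := by
      have := C.o_swap d c p
      linarith
    have a2 : 0 < C.o p d y := by
      have := C.o_swap' p y d
      linarith
    have := key d c hcd.symm (C.cross_symm34 hc)
      (fun c' d' q1 q2 => by rw [tau_symm C p y d c]; exact hm c' d' q1 q2) a1 g1 a2
    exact Or.inl ⟨this.2, this.1⟩
  · have a2 : 0 < C.o p c y := by
      have := C.o_swap' p y c
      linarith
    exact Or.inr (key c d hcd hc hm g3 g2 a2)

/-- `bb'` is the strictly nearest crossing edge -/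
theorem Flip_strict [Finite V] {C : Cfg V} {D : SimpleGraph V} (hD : MaxPlane C D)
    {p b b' y : V} (h1 : Face C D p b' b) (h3 : C.Cross p y b b')
    {c d : V} (hcd : D.Adj c d) (hc : C.Cross p y c d)
    (hn : ¬ ((c = b ∧ d = b') ∨ (c = b' ∧ d = b))) : C.tau p y b b' < C.tau p y c d := by
  set S : Set (V × V) := {q | D.Adj q.1 q.2 ∧ C.Cross p y q.1 q.2} with hS
  have hne : S.Nonempty := ⟨(c, d), hcd, hc⟩
  obtain ⟨q, hq, hmin⟩ := Set.exists_min_image S (fun q => C.tau p y q.1 q.2) S.toFinite hne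
  have hq2 := Flip_min hD h1 h3 hq.1 hq.2 (fun c' d' g1 g2 => hmin (c', d') ⟨g1, g2⟩)
  have hq3 : C.tau p y q.1 q.2 = C.tau p y b b' := by
    rcases hq2 with ⟨g1, g2⟩ | ⟨g1, g2⟩
    · rw [g1, g2]
    · rw [g1, g2, tau_symm]
  have hle : C.tau p y b b' ≤ C.tau p y c d := by
    rw [← hq3]; exact hmin (c, d) ⟨hcd, hc⟩
  rcases lt_or_eq_of_le hle with h | h
  · exact h
  · exfalso
    apply hn
    apply Flip_min hD h1 h3 hcd hc
    intro c' d' g1 g2
    rw [← h, ← hq3]
    exact hmin (c', d') ⟨g1, g2⟩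

theorem Flip_tau (C : Cfg V) {p y c d : V} (hc : C.Cross p y c d) :
    C.tau y p c d = 1 - C.tau p y c d := by
  have h : C.o c d p - C.o c d y ≠ 0 := by
    rcases C.cross_pattern hc with ⟨g1, g2, g3, g4⟩ | ⟨g1, g2, g3, g4⟩
    · exact ne_of_lt (by linarith)
    · exact ne_of_gt (by linarith)
  have h' : C.o c d y - C.o c d p ≠ 0 := by
    intro h2; apply h; linarith
  unfold Cfg.tau
  field_simp
  ring

/-- the only edge of `D` crossing `py` is `bb'` -/
theorem only_cross [Finite V] {C : Cfg V} {D : SimpleGraph V} (hD : MaxPlane C D)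
    {p b b' y : V} (h1 : Face C D p b' b) (h2 : Face C D b b' y) (h3 : C.Cross p y b b')
    {c d : V} (hcd : D.Adj c d) (hc : C.Cross p y c d) :
    (c = b ∧ d = b') ∨ (c = b' ∧ d = b) := by
  by_contra hn
  have k1 := Flip_strict hD h1 h3 hcd hc hn
  have h3' : C.Cross y p b' b := C.cross_symm34 (C.cross_symm12 h3)
  have hc' : C.Cross y p c d := C.cross_symm12 hc
  have k2 := Flip_strict hD h2.rot.rot h3' hcd hc' (fun h => hn h.symm)
  rw [tau_symm C y p b' b, Flip_tau C h3, Flip_tau C hc] at k2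
  linarith

/-- the edges of the replacement graph -/
theorem Flip_new [Finite V] {C : Cfg V} {T D D1 : SimpleGraph V} (hs : Setup C T D)
    {p b b' y : V} (h1 : Face C D p b' b) (h2 : Face C D b b' y) (h3 : C.Cross p y b b')
    (hr : Rep C T D D1 p y) {z z' : V} (hz : D1.Adj z z') (hn : ¬ D.Adj z z') :
    (z = p ∧ z' = y) ∨ (z = y ∧ z' = p) := by
  have key : ∀ z z', D1.Adj z z' → ¬ D.Adj z z' → z = p ∨ z = y ∨ z = b ∨ z = b' := by
    intro z z' hz hn
    rcases rep_new_edge C T D D1 hs hr hz hn with h | h | ⟨w, hw1, hw2⟩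
    · exact Or.inl h
    · exact Or.inr (Or.inl h)
    · rcases only_cross hs.mp h1 h2 h3 hw1 hw2 with h | h
      · exact Or.inr (Or.inr (Or.inl h.1))
      · exact Or.inr (Or.inr (Or.inr h.1))
  have a1 := key z z' hz hn
  have a2 := key z' z hz.symm (fun h => hn h.symm)
  have e1 : D.Adj p b' := h1.1
  have e2 : D.Adj b' b := h1.2.1
  have e3 : D.Adj b p := h1.2.2.1
  have e4 : D.Adj b' y := h2.2.1
  have e5 : D.Adj y b := h2.2.2.1
  have hne : z ≠ z' := hz.ne
  rcases a1 with rfl | rfl | rfl | rfl <;> rcases a2 with rfl | rfl | rfl | rfl <;>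
    first
    | exact absurd rfl hne
    | exact Or.inl ⟨rfl, rfl⟩
    | exact Or.inr ⟨rfl, rfl⟩
    | exact absurd e1 hn
    | exact absurd e1.symm hn
    | exact absurd e2 hn
    | exact absurd e2.symm hn
    | exact absurd e3 hn
    | exact absurd e3.symm hn
    | exact absurd e4 hn
    | exact absurd e4.symm hn
    | exact absurd e5 hn
    | exact absurd e5.symm hn

theorem neutral_flip [Finite V] {C : Cfg V} {T D : SimpleGraph V} (hs : Setup C T D)
    {p b b' y : V} (h1 : Face C D p b' b) (h2 : Face C D b b' y) (h3 : C.Cross p y b b')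
    (t1 : ¬ T.Adj b b') (t2 : ¬ T.Adj p b) (t3 : ¬ T.Adj p b')
    (t4 : ¬ (T.Adj y b ∧ T.Adj y b')) :
    ∃ D1, Setup C T D1 ∧ D1.Adj p y ∧ N2 C T D1 ≤ N2 C T D ∧
      (∀ u, Iso C T D1 u → Iso C T D u) ∧
      (∀ u, Iso C T D u → u ≠ p → u ≠ y → Iso C T D1 u) ∧
      (∀ c d, D.Adj c d → ¬ (c = b ∧ d = b') → ¬ (c = b' ∧ d = b) → D1.Adj c d) := by
  have hpy : p ≠ y := (C.cross_ne h3).1
  have hbb : b ≠ b' := (C.cross_ne h3).2.2.2.2.2
  have hT : ∀ a c, T.Adj a c → ¬ C.Cross p y a c := by
    intro a c hac hcr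
    rcases only_cross hs.mp h1 h2 h3 (hs.le hac) hcr with ⟨rfl, rfl⟩ | ⟨rfl, rfl⟩
    · exact t1 hac
    · exact t1 hac.symm
  obtain ⟨D1, hr⟩ := exists_rep C T D hs hpy hT
  have hkeep : ∀ c d, D.Adj c d → ¬ (c = b ∧ d = b') → ¬ (c = b' ∧ d = b) → D1.Adj c d := by
    intro c d hcd n1 n2
    apply hr.2.2 c d hcd
    intro hcr
    rcases only_cross hs.mp h1 h2 h3 hcd hcr with h | h
    · exact n1 h
    · exact n2 h
  have hpb : D1.Adj b p := by
    apply hkeep b p h1.2.2.1
    · rintro ⟨-, h⟩; exact h1.1.ne h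
    · rintro ⟨h, -⟩; exact hbb h
  have hpb' : D1.Adj b' p := by
    apply hkeep b' p h1.1.symm
    · rintro ⟨h, -⟩; exact hbb h.symm
    · rintro ⟨-, h⟩; exact h1.2.2.1.ne h.symm
  have hiso : ∀ u, Iso C T D1 u → Iso C T D u := by
    intro u hu
    refine ⟨hu.1, ?_⟩
    intro w hw
    by_cases n1 : u = b ∧ w = b'
    · exfalso
      rw [n1.1] at hu
      exact t2 (hu.2 p hpb).symm
    · by_cases n2 : u = b' ∧ w = b
      · exfalso
        rw [n2.1] at hu
        exact t3 (hu.2 p hpb').symm
      · exact hu.2 w (hkeep u w hw n1 n2)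
  have hstep : ∀ d d', Step C T D1 d d' → Step C T D d d' := by
    intro d d' hd
    by_contra hn
    obtain ⟨a, b2, c2, ta, tb, -, q1, q2, ⟨x', q3, q4⟩, -, -, -⟩ := new_step hs hr hd hn
    have ha : a = b ∨ a = b' := by
      rcases only_cross hs.mp h1 h2 h3 q3 q4 with h | h
      · exact Or.inl h.1
      · exact Or.inr h.1
    have hap : T.Adj a p := by
      rcases Flip_new hs h1 h2 h3 hr q1 q2 with h | h
      · rw [← h.1]; exact ta
      · rw [← h.2]; exact tb
    rcases ha with rfl | rfl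
    · exact t2 hap.symm
    · exact t3 hap.symm
  have hhot : ∀ e, Hot C T D1 e → Hot C T D e := by
    rintro e ⟨he, d, hd1, hd2⟩
    exact ⟨he, d, Relation.ReflTransGen.mono (fun a c h => hstep a c h) _ _ hd1, hd2⟩
  refine ⟨D1, hr.1, hr.2.1, ?_, hiso, ?_, hkeep⟩
  · unfold N2
    have g1 : {v | Iso C T D1 v}.ncard ≤ {v | Iso C T D v}.ncard :=
      Set.ncard_le_ncard (fun u hu => hiso u hu) (Set.toFinite _)
    have g2 : {d : V × V | Hot C T D1 d}.ncard ≤ {d : V × V | Hot C T D d}.ncard :=
      Set.ncard_le_ncard (fun u hu => hhot u hu) (Set.toFinite _)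
    omega
  · intro u hu n1 n2
    refine ⟨hu.1, ?_⟩
    intro w hw
    by_cases hD : D.Adj u w
    · exact hu.2 w hD
    · exfalso
      rcases Flip_new hs h1 h2 h3 hr hw hD with h | h
      · exact n1 h.1
      · exact n2 h.1

end CT
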