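import Pool.Agent.H7.CT.Basic

/-! # CT module Geo: Pasch, exit from a triangle, extreme points of a half-plane

`C.Ins a b c z`: `z` strictly inside the counterclockwise triangle `abc`
(three positive orientations). `C.Cross`: proper crossing. Everything is about at most five
points; zero orientations are excluded by `C.o_ne` as soon as the points are distinct.

* `pasch`: the segment `x x'` enters the triangle `abc` through the side `ac` (`x` on the inner
  side of `ca`). Either `x = b`, or `x` is inside, or `x x'` leaves through `ab` or `bc`.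
  Proof: `a`, `c` are on different sides of the line `x x'`, so `b` is on one of them, say on the
  side of `a` (so the line separates `b` and `c`): if `x, x'` are on different sides of `bc` it
  is a crossing with `bc`; otherwise one checks with `o_sum`/`gpi` that `x` is inside.
* `exit_tri`: from inside, a segment stays inside, ends in a vertex or crosses a side.
  Proof: `x'` is in one of the three cones at `x`, use `cone_dich` at `x`.
* `exists_last`, `exists_first`: angular order in an open half-plane is a linear order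
  (`trans_half`), finite set. -/

open Classical

namespace CT

variable {V : Type}

theorem Geo_Ia (C : Cfg V) (a b c x x' : V) :
    C.o a b c * C.o x x' a = C.o c a x * C.o a b x' - C.o a b x * C.o c a x' := by
  unfold Cfg.o; ring

theorem Geo_Ib (C : Cfg V) (a b c x x' : V) :
    C.o a b c * C.o x x' b = C.o a b x * C.o b c x' - C.o b c x * C.o a b x' := by
  unfold Cfg.o; ring

theorem Geo_Ic (C : Cfg V) (a b c x x' : V) :
    C.o a b c * C.o x x' c = C.o b c x * C.o c a x' - C.o c a x * C.o b c x' := by
  unfold Cfg.o; ring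

theorem Geo_sum (C : Cfg V) (a b c x : V) :
    C.o a b c = C.o b c x + C.o c a x + C.o a b x := by
  unfold Cfg.o; ring

theorem pasch (C : Cfg V) {a b c x x' : V} (ht : 0 < C.o a b c) (hx : 0 < C.o c a x)
    (h : C.Cross x x' a c) :
    x = b ∨ C.Ins a b c x ∨ C.Cross x x' a b ∨ C.Cross x x' b c := by
  by_cases hxb : x = b
  · exact Or.inl hxb
  right
  obtain ⟨n1, n2, n3, n4, n5, n6⟩ := C.cross_ne h
  have hab := C.ne_of_o_pos ht
  have hsw : C.o a c x = - C.o c a x := C.o_swap a c x
  have hsw' : C.o a c x' = - C.o c a x' := C.o_swap a c x'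
  obtain ⟨p1, p2, p3, p4⟩ | ⟨p1, p2, p3, p4⟩ := C.cross_pattern h
  swap
  · exfalso; linarith
  have hx' : C.o c a x' < 0 := by linarith
  have hx'b : x' ≠ b := by
    rintro rfl
    have : C.o c a x' = C.o a x' c := C.o_cyc c a x'
    linarith
  have Ia := Geo_Ia C a b c x x'
  have Ib := Geo_Ib C a b c x x'
  have Ic := Geo_Ic C a b c x x'
  have JA : 0 < C.o c a x * C.o a b x' - C.o a b x * C.o c a x' := by
    rw [← Ia]; exact mul_pos ht p1
  have JC : C.o b c x * C.o c a x' - C.o c a x * C.o b c x' < 0 := by
    rw [← Ic]; exact mul_neg_of_pos_of_neg ht p2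
  rcases C.o_pos_or_neg n1 (Ne.intro hxb) hx'b with hb | hb
  · -- `b` on the side of `a`
    have JB : 0 < C.o a b x * C.o b c x' - C.o b c x * C.o a b x' := by
      rw [← Ib]; exact mul_pos ht hb
    rcases C.o_pos_or_neg hab.2.2 (Ne.symm hxb) n3.symm with ha1 | ha1
    · rcases C.o_pos_or_neg hab.2.2 (Ne.symm hx'b) n5.symm with ha2 | ha2
      · left
        refine ⟨?_, ha1, hx⟩
        rcases C.o_pos_or_neg hab.1 n2.symm (Ne.symm hxb) with hg | hg
        · exact hg
        · exfalso
          have h1 : C.o a b x * C.o b c x' < 0 := mul_neg_of_neg_of_pos hg ha2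
          have h2 : C.o b c x * C.o a b x' < 0 := by linarith
          have h3 : C.o a b x' < 0 := by
            by_contra h3; push Not at h3
            have := mul_nonneg ha1.le h3
            linarith
          have h4 : C.o c a x * C.o a b x' < 0 := mul_neg_of_pos_of_neg hx h3
          have h5 : 0 < C.o a b x * C.o c a x' := mul_pos_of_neg_of_neg hg hx'
          linarith
      · right; right
        exact ⟨mul_neg_of_pos_of_neg hb p2, mul_neg_of_pos_of_neg ha1 ha2⟩
    · rcases C.o_pos_or_neg hab.2.2 (Ne.symm hx'b) n5.symm with ha2 | ha2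
      · right; right
        exact ⟨mul_neg_of_pos_of_neg hb p2, mul_neg_of_neg_of_pos ha1 ha2⟩
      · exfalso
        have h1 : 0 < C.o b c x * C.o c a x' := mul_pos_of_neg_of_neg ha1 hx'
        have h2 : C.o c a x * C.o b c x' < 0 := mul_neg_of_pos_of_neg hx ha2
        linarith
  · have JB : C.o a b x * C.o b c x' - C.o b c x * C.o a b x' < 0 := by
      rw [← Ib]; exact mul_neg_of_pos_of_neg ht hb
    rcases C.o_pos_or_neg hab.1 n2.symm (Ne.symm hxb) with hg1 | hg1
    · rcases C.o_pos_or_neg hab.1 n4.symm (Ne.symm hx'b) with hg2 | hg2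
      · left
        refine ⟨hg1, ?_, hx⟩
        rcases C.o_pos_or_neg hab.2.2 (Ne.symm hxb) n3.symm with ha | ha
        · exact ha
        · exfalso
          have h1 : C.o b c x * C.o a b x' < 0 := mul_neg_of_neg_of_pos ha hg2
          have h2 : C.o a b x * C.o b c x' < 0 := by linarith
          have h3 : C.o b c x' < 0 := by
            by_contra h3; push Not at h3
            have := mul_nonneg hg1.le h3
            linarith
          have h4 : C.o c a x * C.o b c x' < 0 := mul_neg_of_pos_of_neg hx h3
          have h5 : 0 < C.o b c x * C.o c a x' := mul_pos_of_neg_of_neg ha hx'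
          linarith
      · right; left
        exact ⟨mul_neg_of_pos_of_neg p1 hb, mul_neg_of_pos_of_neg hg1 hg2⟩
    · rcases C.o_pos_or_neg hab.1 n4.symm (Ne.symm hx'b) with hg2 | hg2
      · right; left
        exact ⟨mul_neg_of_pos_of_neg p1 hb, mul_neg_of_neg_of_pos hg1 hg2⟩
      · exfalso
        have h1 : C.o c a x * C.o a b x' < 0 := mul_neg_of_pos_of_neg hx hg2
        have h2 : 0 < C.o a b x * C.o c a x' := mul_pos_of_neg_of_neg hg1 hx'
        linarith

/-- the sum of three inside orientations is the orientation of the triangle -/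
theorem ins_pos (C : Cfg V) {a b c x : V} (hx : C.Ins a b c x) : 0 < C.o a b c := by
  obtain ⟨h1, h2, h3⟩ := hx
  have := Geo_sum C a b c x
  linarith

theorem exit_tri (C : Cfg V) {a b c x x' : V} (hx : C.Ins a b c x) (hne : x' ≠ x) :
    x' = a ∨ x' = b ∨ x' = c ∨ C.Ins a b c x' ∨ C.Cross x x' a b ∨ C.Cross x x' b c ∨
      C.Cross x x' c a := by
  have ht := ins_pos C hx
  obtain ⟨g1, a1, b1⟩ := hx
  by_cases ea : x' = a
  · exact Or.inl ea
  by_cases eb : x' = b
  · exact Or.inr (Or.inl eb)
  by_cases ec : x' = c
  · exact Or.inr (Or.inr (Or.inl ec))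
  right; right; right
  have hab := C.ne_of_o_pos ht
  have nxa : x ≠ a := (C.ne_of_o_pos g1).2.1.symm
  have nxb : x ≠ b := (C.ne_of_o_pos g1).2.2.symm
  have nxc : x ≠ c := (C.ne_of_o_pos a1).2.2.symm
  have Ia := Geo_Ia C a b c x x'
  have Ib := Geo_Ib C a b c x x'
  have Ic := Geo_Ic C a b c x x'
  have hs := Geo_sum C a b c x'
  have sgn : ∀ t : ℝ, (0 < C.o a b c * t → 0 < t) ∧ (C.o a b c * t < 0 → t < 0) := by
    intro t
    constructor
    · intro h; exact (pos_iff_pos_of_mul_pos h).mp ht
    · intro h
      by_contra h2; push Not at h2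
      have := mul_nonneg ht.le h2
      linarith
  rcases C.o_pos_or_neg hab.2.2 (Ne.symm eb) (Ne.symm ec) with a2 | a2 <;>
  rcases C.o_pos_or_neg hab.2.1.symm (Ne.symm ec) (Ne.symm ea) with b2 | b2 <;>
  rcases C.o_pos_or_neg hab.1 (Ne.symm ea) (Ne.symm eb) with g2 | g2
  · left; exact ⟨g2, a2, b2⟩
  · -- only g2 negative : cross ab
    right; left
    have hA : C.o x x' a < 0 := by
      apply (sgn _).2; rw [Ia]
      have := mul_neg_of_pos_of_neg b1 g2
      have := mul_pos g1 b2
      linarith
    have hB : 0 < C.o x x' b := by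
      apply (sgn _).1; rw [Ib]
      have := mul_neg_of_pos_of_neg a1 g2
      have := mul_pos g1 a2
      linarith
    exact ⟨mul_neg_of_neg_of_pos hA hB, mul_neg_of_pos_of_neg g1 g2⟩
  · -- only b2 negative : cross ca
    right; right; right
    have hA : 0 < C.o x x' a := by
      apply (sgn _).1; rw [Ia]
      have := mul_neg_of_pos_of_neg g1 b2
      have := mul_pos b1 g2
      linarith
    have hC : C.o x x' c < 0 := by
      apply (sgn _).2; rw [Ic]
      have := mul_neg_of_pos_of_neg a1 b2
      have := mul_pos b1 a2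
      linarith
    exact ⟨mul_neg_of_neg_of_pos hC hA, mul_neg_of_pos_of_neg b1 b2⟩
  · -- b2, g2 negative, a2 positive
    have hB : 0 < C.o x x' b := by
      apply (sgn _).1; rw [Ib]
      have := mul_neg_of_pos_of_neg a1 g2
      have := mul_pos g1 a2
      linarith
    have hC : C.o x x' c < 0 := by
      apply (sgn _).2; rw [Ic]
      have := mul_neg_of_pos_of_neg a1 b2
      have := mul_pos b1 a2
      linarith
    rcases C.o_pos_or_neg hne.symm nxa ea with hA | hA
    · right; right; right
      exact ⟨mul_neg_of_neg_of_pos hC hA, mul_neg_of_pos_of_neg b1 b2⟩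
    · right; left
      exact ⟨mul_neg_of_neg_of_pos hA hB, mul_neg_of_pos_of_neg g1 g2⟩
  · -- only a2 negative
    right; right; left
    have hB : C.o x x' b < 0 := by
      apply (sgn _).2; rw [Ib]
      have := mul_pos a1 g2
      have := mul_neg_of_pos_of_neg g1 a2
      linarith
    have hC : 0 < C.o x x' c := by
      apply (sgn _).1; rw [Ic]
      have := mul_pos a1 b2
      have := mul_neg_of_pos_of_neg b1 a2
      linarith
    exact ⟨mul_neg_of_neg_of_pos hB hC, mul_neg_of_pos_of_neg a1 a2⟩
  · -- a2, g2 negative, b2 positive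
    have hA : C.o x x' a < 0 := by
      apply (sgn _).2; rw [Ia]
      have := mul_neg_of_pos_of_neg b1 g2
      have := mul_pos g1 b2
      linarith
    have hC : 0 < C.o x x' c := by
      apply (sgn _).1; rw [Ic]
      have := mul_pos a1 b2
      have := mul_neg_of_pos_of_neg b1 a2
      linarith
    rcases C.o_pos_or_neg hne.symm nxb eb with hB | hB
    · right; left
      exact ⟨mul_neg_of_neg_of_pos hA hB, mul_neg_of_pos_of_neg g1 g2⟩
    · right; right; left
      exact ⟨mul_neg_of_neg_of_pos hB hC, mul_neg_of_pos_of_neg a1 a2⟩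
  · -- a2, b2 negative, g2 positive
    have hA : 0 < C.o x x' a := by
      apply (sgn _).1; rw [Ia]
      have := mul_neg_of_pos_of_neg g1 b2
      have := mul_pos b1 g2
      linarith
    have hB : C.o x x' b < 0 := by
      apply (sgn _).2; rw [Ib]
      have := mul_pos a1 g2
      have := mul_neg_of_pos_of_neg g1 a2
      linarith
    rcases C.o_pos_or_neg hne.symm nxc ec with hC | hC
    · right; right; left
      exact ⟨mul_neg_of_neg_of_pos hB hC, mul_neg_of_pos_of_neg a1 a2⟩
    · right; right; right
      exact ⟨mul_neg_of_neg_of_pos hC hA, mul_neg_of_pos_of_neg b1 b2⟩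
  · exfalso; linarith

theorem Geo_last (C : Cfg V) (v a : V) (s : Finset V) :
    s.Nonempty → (∀ x ∈ s, 0 < C.o v a x) → ∃ m ∈ s, ∀ x ∈ s, x ≠ m → 0 < C.o v x m := by
  induction s using Finset.induction_on with
  | empty => intro h; exact absurd h (by simp)
  | insert y s hy ih =>
    intro _ h
    by_cases hs : s.Nonempty
    · obtain ⟨m, hm, hm2⟩ := ih hs (fun x hx => h x (Finset.mem_insert_of_mem hx))
      have hpy := h y (Finset.mem_insert_self y s)
      have hpm := h m (Finset.mem_insert_of_mem hm)
      have hym : y ≠ m := by rintro rfl; exact hy hm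
      rcases C.o_pos_or_neg (C.ne_of_o_pos hpy).2.1 (C.ne_of_o_pos hpm).2.1 hym with h1 | h1
      · refine ⟨m, Finset.mem_insert_of_mem hm, ?_⟩
        intro x hx hxm
        rcases Finset.mem_insert.mp hx with rfl | hx
        · exact h1
        · exact hm2 x hx hxm
      · have h2 : 0 < C.o v m y := by rw [C.o_swap' v m y]; linarith
        refine ⟨y, Finset.mem_insert_self y s, ?_⟩
        intro x hx hxy
        rcases Finset.mem_insert.mp hx with rfl | hx
        · exact absurd rfl hxy
        · by_cases hxm : x = m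
          · rw [hxm]; exact h2
          · exact C.trans_half (h x (Finset.mem_insert_of_mem hx)) hpm hpy (hm2 x hx hxm) h2
    · rw [Finset.not_nonempty_iff_eq_empty] at hs
      subst hs
      refine ⟨y, by simp, ?_⟩
      intro x hx hxy
      simp at hx
      exact absurd hx hxy

theorem Geo_first (C : Cfg V) (v a : V) (s : Finset V) :
    s.Nonempty → (∀ x ∈ s, 0 < C.o v a x) → ∃ m ∈ s, ∀ x ∈ s, x ≠ m → 0 < C.o v m x := by
  induction s using Finset.induction_on with
  | empty => intro h; exact absurd h (by simp)
  | insert y s hy ih =>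
    intro _ h
    by_cases hs : s.Nonempty
    · obtain ⟨m, hm, hm2⟩ := ih hs (fun x hx => h x (Finset.mem_insert_of_mem hx))
      have hpy := h y (Finset.mem_insert_self y s)
      have hpm := h m (Finset.mem_insert_of_mem hm)
      have hym : m ≠ y := by rintro rfl; exact hy hm
      rcases C.o_pos_or_neg (C.ne_of_o_pos hpm).2.1 (C.ne_of_o_pos hpy).2.1 hym with h1 | h1
      · refine ⟨m, Finset.mem_insert_of_mem hm, ?_⟩
        intro x hx hxm
        rcases Finset.mem_insert.mp hx with rfl | hx
        · exact h1
        · exact hm2 x hx hxm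
      · have h2 : 0 < C.o v y m := by rw [C.o_swap' v y m]; linarith
        refine ⟨y, Finset.mem_insert_self y s, ?_⟩
        intro x hx hxy
        rcases Finset.mem_insert.mp hx with rfl | hx
        · exact absurd rfl hxy
        · by_cases hxm : x = m
          · rw [hxm]; exact h2
          · exact C.trans_half hpy hpm (h x (Finset.mem_insert_of_mem hx)) h2 (hm2 x hx hxm)
    · rw [Finset.not_nonempty_iff_eq_empty] at hs
      subst hs
      refine ⟨y, by simp, ?_⟩
      intro x hx hxy
      simp at hx
      exact absurd hx hxy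

theorem exists_last [Finite V] (C : Cfg V) (v a : V) (X : Set V) (hX : X.Nonempty)
    (h : ∀ x ∈ X, 0 < C.o v a x) : ∃ m ∈ X, ∀ x ∈ X, x ≠ m → 0 < C.o v x m := by
  have hf : X.Finite := X.toFinite
  obtain ⟨m, hm, hm2⟩ := Geo_last C v a hf.toFinset
    (by rw [Set.Finite.toFinset_nonempty]; exact hX) (fun x hx => h x (hf.mem_toFinset.mp hx))
  exact ⟨m, hf.mem_toFinset.mp hm, fun x hx => hm2 x (hf.mem_toFinset.mpr hx)⟩

theorem exists_first [Finite V] (C : Cfg V) (v a : V) (X : Set V) (hX : X.Nonempty)
    (h : ∀ x ∈ X, 0 < C.o v a x) : ∃ m ∈ X, ∀ x ∈ X, x ≠ m → 0 < C.o v m x := by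
  have hf : X.Finite := X.toFinite
  obtain ⟨m, hm, hm2⟩ := Geo_first C v a hf.toFinset
    (by rw [Set.Finite.toFinset_nonempty]; exact hX) (fun x hx => h x (hf.mem_toFinset.mp hx))
  exact ⟨m, hf.mem_toFinset.mp hm, fun x hx => hm2 x (hf.mem_toFinset.mpr hx)⟩

end CT
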