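import Pool.Agent.H7.CT.ShareY

/-! # CT module Giver

`GiveN C T D v p`: `p` is a common neighbour of `v` and another isolated vertex `v'`, with `b, b', y` as in `share_bb`, `share_y` and `T.Adj v y`.
`give_total` : for a common neighbour of `v` (type N) and `v'` (type P): `GiveN C v p` or `GiveN C.mir v' p` (mirror: exchange the roles of `b, b'`; `face_mir`).
`giver_leaf` (`v` type N). Data `v', p, b, b', y`. `b' ∉ N[v]` (if `T.Adj v b'` then `no4` with `p`: `b' = p`), so `Zn v b b'`, `Zn v p b'`, `Zn v y b'`: `o v b b' < 0`, `o v p b' < 0`, `o v y b' < 0`.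
 (1) `0 < o v p b`: at `b`: `[v,b'] > 0`; `v` not in the sector `(p,b')` of `Face b p b'`: `[v,p] > 0` (`sector`), i.e. `0 < o v p b`.
 (2) `0 < o v b y`: otherwise `[v,y] > 0` at `b` and `[b',y] > 0`: `b'` is in the cone `(v,y)` at `b`, `v y` is an edge so `bb'` does not cross it: `Ins b v y b'`, i.e. `Ins v y b b'`, and
   `pocket` (`q := y, r := b`, `D.Adj y b`, `0 < o v y b`) gives `T.Adj v b'`: contradiction.
 (3) `Zn v b g → g = b'`: suppose `g ≠ b'`. `o v b g < 0`: `[v,g] > 0`. If `[b',g] > 0`: `g` is in the sector `(b',y)` of `Face b b' y` (`[g,y] > 0` because `[v,y] < 0`: gpi at `b` for `v b' g y`): contradiction `sector`.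
   So `[g,b'] > 0`; not in the sector `(p,b')` of `Face b p b'`: `g = p` (no, `p ∈ N(v)`) or `[g,p] > 0`: `g` in the cone `(v,p)` at `b`; `b g` does not cross `v p`: `Ins b v p g`, i.e. `Ins v p b g`; `pocket` (`q := p, r := b`): `T.Adj v g`:
   contradiction.
 (4) `b` is a leaf: a `T`-neighbour `g ≠ v` of `b` is not in `N(v)` (`no3`), so `Zn v b g`, `g = b'`, but `bb' ∉ T` (`no5`).
 (5) `4 ≤ dg T v`: `p, b, y ∈ N(v)` distinct; if they are all of `N(v)` then every `q ∈ N(v)` has `o v q b' < 0`, i.e. `0 < o v b' q`, contradicting `nbr_right` for `v → b'` (`v` inner, `D`-neighbours of `v` are in `N(v)`).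
`giver_inj`: `p ↦ b` is injective: `b' ` is determined by `b` (3) and `p` by `Face b' b p` (`face_unique`). -/

open Classical

namespace CT

variable {V : Type}

def GiveN (C : Cfg V) (T D : SimpleGraph V) (v p : V) : Prop :=
  ∃ v' b b' y, Iso C T D v' ∧ v' ≠ v ∧ T.Adj v p ∧ T.Adj v' p ∧ Face C D p b' b ∧
    T.Adj v b ∧ T.Adj v' b' ∧ Face C D b b' y ∧ T.Adj v y

theorem give_total [Finite V] {C : Cfg V} {T D : SimpleGraph V} (hm : Min C T D)
    {v v' p : V} (hv : Iso C T D v) (hv' : Iso C T D v') (hne : v ≠ v')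
    (hN : TypeN C T D v) (hP : TypeP C T D v') (hI : ∀ q, T.Adj v q → Inner C q)
    (hI' : ∀ q, T.Adj v' q → Inner C q) (hp : T.Adj v p) (hp' : T.Adj v' p) :
    GiveN C T D v p ∨ GiveN C.mir T D v' p := by
  obtain ⟨b, b', hf, hb, hb', hvb', hv'b, -, h1, h2, h3⟩ :=
    share_bb hm.1 hv hv' hne hN hP (hI p hp) hp hp'
  have hbb : D.Adj b b' := hf.2.1.symm
  obtain ⟨z, hz⟩ := (hI b hb b' hbb.ne').1
  obtain ⟨y, hy⟩ := face_exists C D hm.1.mp hbb hz
  rcases share_y hm hv hv' hne hN hP hp hp' hf hb hb' hvb' hv'b h1 h2 h3 hy with h | h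
  · exact Or.inl ⟨v', b, b', y, hv', hne.symm, hp, hp', hf, hb, hb', hy, h⟩
  · exact Or.inr ⟨v, b', b, y, iso_mir.mpr hv, hne, hp', hp, face_mir.mpr hf, hb', hb,
      face_mir.mpr hy.rot, h⟩

theorem giver_leaf [Finite V] {C : Cfg V} {T D : SimpleGraph V} (hs : Setup C T D)
    {v v' p b b' y : V} (hv : Iso C T D v) (hU : UProp C T D v) (hN : TypeN C T D v)
    (hne : v' ≠ v) (hp : T.Adj v p) (hp' : T.Adj v' p) (hf : Face C D p b' b)
    (hb : T.Adj v b) (hb' : T.Adj v' b') (hy : Face C D b b' y) (hvy : T.Adj v y) :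
    LeafAt T v b ∧ (∀ g, Zn T D v b g → g = b') ∧ Zn T D v b b' ∧ 4 ≤ dg T v := by
  have hD : Plane C D := hs.mp.1
  have hvb' : ¬ T.Adj v b' := by
    intro h
    exact hf.1.ne (no4 T hs.tree hne.symm hp hp' h hb')
  have hb'v : b' ≠ v := by
    rintro rfl
    exact no3 T hs.tree hp hp'.symm hb'
  have zb : Zn T D v b b' := ⟨hy.1, hb'v, hvb'⟩
  have zp : Zn T D v p b' := ⟨hf.1, hb'v, hvb'⟩
  have zy : Zn T D v y b' := ⟨hy.2.1.symm, hb'v, hvb'⟩
  have nb : C.o v b b' < 0 := hN b b' hb zb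
  have np : C.o v p b' < 0 := hN p b' hp zp
  have ny : C.o v y b' < 0 := hN y b' hvy zy
  have hfb : Face C D b p b' := hf.rot.rot
  have e1 : 0 < C.o b v b' := by
    rw [C.o_swap b v b']
    linarith
  -- (1)
  have s1 : 0 < C.o v p b := by
    have h := sector C D hD hfb (hs.le hb).symm
    rcases C.o_pos_or_neg hfb.ne.1 hb.ne' hp.ne' with h2 | h2
    · exact absurd ⟨h2, e1⟩ h
    · rw [C.o_swap v p b, ← C.o_cyc b p v]
      linarith
  -- (2)
  have s2 : 0 < C.o v b y := by
    rcases C.o_pos_or_neg hb.ne hvy.ne hy.ne.2.1 with h2 | h2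
    · exact h2
    · exfalso
      have h3 : 0 < C.o b v y := by
        rw [C.o_swap b v y]
        linarith
      rcases C.cone_dich e1 hy.2.2.2.1 h3 with h4 | h4
      · have := h4.2.1
        linarith
      · exact hD b b' v y hy.1 (hs.le hvy) h4
  -- (3)
  have s3 : ∀ g, Zn T D v b g → g = b' := by
    intro g hg
    by_contra hgb
    have n1 : C.o v b g < 0 := hN b g hb hg
    have e2 : 0 < C.o b v g := by
      rw [C.o_swap b v g]
      linarith
    have e3 : C.o b v y < 0 := by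
      rw [C.o_swap b v y]
      linarith
    have e4 : 0 < C.o b b' y := hy.2.2.2.1
    rcases C.o_pos_or_neg hy.ne.1 hg.1.ne (Ne.symm hgb) with h1 | h1
    · have h2 := C.gpi b v b' g y
      have h3 : 0 < C.o b v b' * C.o b g y := by
        nlinarith [mul_pos e2 e4, mul_neg_of_neg_of_pos e3 h1]
      have h4 : 0 < C.o b g y := (pos_iff_pos_of_mul_pos h3).mp e1
      exact sector C D hD hy hg.1 ⟨h1, h4⟩
    · have h2 : 0 < C.o b g b' := by
        rw [C.o_swap' b g b']
        linarith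
      have hgp : p ≠ g := by
        rintro rfl
        exact hg.2.2 hp
      rcases C.o_pos_or_neg hfb.ne.1 hg.1.ne hgp with h3 | h3
      · exact sector C D hD hfb hg.1 ⟨h3, h2⟩
      · have h4 : 0 < C.o b g p := by
          rw [C.o_swap' b g p]
          linarith
        have h5 : 0 < C.o b v p := by
          rw [C.o_cyc b v p]
          exact s1
        rcases C.cone_dich e2 h4 h5 with h6 | h6
        · have h7 : C.Ins v p b g := ⟨h6.2.1, h6.2.2, h6.1⟩
          exact hg.2.2 (pocket hs hv hU hN hp hb hfb.1.symm s1 h7)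
        · exact hD b g v p hg.1 (hs.le hp) h6
  refine ⟨⟨hb, ?_⟩, s3, zb, ?_⟩
  · -- (4)
    intro g hg
    by_contra hgv
    have h1 : ¬ T.Adj v g := fun h => no3 T hs.tree hb hg h.symm
    have h2 := s3 g ⟨hs.le hg, hgv, h1⟩
    subst h2
    exact no5 T hs.tree hb hg hb'.symm hp' hp.symm
  · -- (5)
    by_contra hlt
    push Not at hlt
    have hpy : p ≠ y := by
      rintro rfl
      have h1 := hy.2.2.2.1
      have h2 := hf.rot.2.2.2.1
      rw [C.o_swap b' b p] at h2
      linarith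
    have hsub : ({p, b, y} : Set V) ⊆ {w | T.Adj v w} := by
      intro x hx
      rcases hx with rfl | rfl | rfl
      · exact hp
      · exact hb
      · exact hvy
    have h3 : ({p, b, y} : Set V).ncard = 3 :=
      Set.ncard_eq_three.mpr ⟨p, b, y, hfb.ne.1.symm, hpy, hy.ne.2.1, rfl⟩
    have hle : ({w | T.Adj v w} : Set V).ncard ≤ ({p, b, y} : Set V).ncard := by
      rw [h3]
      unfold dg at hlt
      omega
    have heq := Set.eq_of_subset_of_ncard_le hsub hle (Set.toFinite _)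
    obtain ⟨z, hz⟩ := (hv.1 b' hb'v).2
    obtain ⟨q, hq1, hq2⟩ := nbr_right C D hs.mp hz
    have hqT : T.Adj v q := hv.2 q hq1
    have hq3 : q ∈ ({p, b, y} : Set V) := by
      rw [heq]
      exact hqT
    rw [C.o_swap' v b' q] at hq2
    rcases hq3 with rfl | rfl | rfl <;> linarith

theorem giver_inj [Finite V] {C : Cfg V} {T D : SimpleGraph V} (hs : Setup C T D) {v : V}
    (hv : Iso C T D v) (hU : UProp C T D v) (hN : TypeN C T D v) :
    {p | GiveN C T D v p}.ncard ≤ {b | LeafAt T v b}.ncard ∧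
      ((∃ p, GiveN C T D v p) → 4 ≤ dg T v) := by
  constructor
  · have key : ∀ p, GiveN C T D v p → ∃ b, LeafAt T v b ∧ ∃ b', Face C D p b' b ∧
        (∀ g, Zn T D v b g → g = b') ∧ Zn T D v b b' := by
      rintro p ⟨v', b, b', y, -, hne, hp, hp', hf, hb, hb', hy, hvy⟩
      obtain ⟨h1, h2, h3, -⟩ := giver_leaf hs hv hU hN hne hp hp' hf hb hb' hy hvy
      exact ⟨b, h1, b', hf, h2, h3⟩
    choose! f hf using key
    refine Set.ncard_le_ncard_of_injOn f (fun p hp => (hf p hp).1) ?_ (Set.toFinite _)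
    intro p1 hp1 p2 hp2 h12
    obtain ⟨-, b1, hf1, hg1, hz1⟩ := hf p1 hp1
    obtain ⟨-, b2, hf2, hg2, hz2⟩ := hf p2 hp2
    rw [h12] at hf1 hg1 hz1
    have hbb : b1 = b2 := hg2 b1 hz1
    subst hbb
    exact face_unique C D hs.mp.1 hf1.rot hf2.rot
  · rintro ⟨p, v', b, b', y, -, hne, hp, hp', hf, hb, hb', hy, hvy⟩
    exact (giver_leaf hs hv hU hN hne hp hp' hf hb hb' hy hvy).2.2.2

end CT
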