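import Pool.Agent.H7.CT.LemK

/-! # CT module HP

`hp`: `Iso v` with `UProp`: either every point is in `N[v]`, or `v` has type N or P, some outside neighbour exists and
all neighbours of `v` are inner.
Call `q ∈ N(v)` of kind A if `∃ z, Zn v q z ∧ 0 < o v q z`, B if `∃ z, Zn v q z ∧ o v q z < 0`.
(1) No A and no B: `N_D(q) ⊆ N[v]` for `q ∈ N(v)`, so by connectedness of `T ≤ D` everything is in `N[v]`.
(2) Some A `q₀` and some B `q̃`: contradiction. Let `A' = {A-elements ≠ q̃}`. `A'` is nonempty (`lemK` at `q₀`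
 gives an A element `q'` not B, so `≠ q̃`). (i) some element of `A'` has `o v q̃ q < 0`: otherwise all have `0 < o v q̃ q`; take the last one `q` (`exists_last`);
 `lemK` gives `q' ∈ A'` (`q'` is A, not B), `0 < o v q q'` (from `Ins v q z q'`), contradicting `last`. (ii) take the last `q` in
 `A' ∩ {o v q̃ · < 0}` (i.e. `0 < o v x q` for the others there); `q'` from `lemK`: `0 < o v q q'`, so `q'` is not in that set; `q' ≠ q̃`; so
 `0 < o v q̃ q'`. And `0 < o v q q̃` (as `o v q̃ q < 0`). So `q̃` is in the cone `(q,q')`: `Zn v q̃ ·` empty by `lemK`: contradiction with B.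
(3) So type N (no A) or type P (no B). Inner: say no B (type P), some A. Let `p ∈ N(v)`. As in (2) with `q̃ := p` and `A' = {A-elements ≠ p}`
 (if `A' = ∅`: `p` is the only A element but `lemK p` gives another one): the same argument gives `q ∈ A'`, `z`, `q'` with `q' = p` or `p` in the cone `(q,q')`
 (in (i) the element `q'` may be `p`: then also fine: `q' = p`), in all cases `Ins v q z p` with `Zn v q z`; a point strictly inside a triangle
 of points is inner: for every `b ≠ p` some vertex of the triangle is strictly left and one strictly right of `p → b`.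
 Type N: apply to `C.mir`. -/

open Classical

namespace CT

variable {V : Type}

/-- a point strictly inside a triangle is inner -/
theorem inner_of_ins (C : Cfg V) {a b c x : V} (h : C.Ins a b c x) : Inner C x := by
  intro w hw
  obtain ⟨h1, h2, h3⟩ := h
  have n1 := C.ne_of_o_pos h1
  have n2 := C.ne_of_o_pos h2
  have n3 := C.ne_of_o_pos h3
  have hid : C.o b c x * C.o x w a + C.o c a x * C.o x w b + C.o a b x * C.o x w c = 0 := by
    unfold Cfg.o; ring
  -- not all three vanish
  have hnz : C.o x w a ≠ 0 ∨ C.o x w b ≠ 0 := by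
    by_cases hwa : w = a
    · right
      subst hwa
      exact C.o_ne hw.symm n2.2.1.symm n1.1
    · left
      exact C.o_ne hw.symm n1.2.1.symm hwa
  constructor
  · by_contra hcon
    push Not at hcon
    have ha := hcon a
    have hb := hcon b
    have hc := hcon c
    have k1 := mul_nonpos_of_nonneg_of_nonpos h2.le ha
    have k2 := mul_nonpos_of_nonneg_of_nonpos h3.le hb
    have k3 := mul_nonpos_of_nonneg_of_nonpos h1.le hc
    rcases hnz with h | h
    · have h4 : C.o x w a < 0 := lt_of_le_of_ne ha h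
      have := mul_neg_of_pos_of_neg h2 h4
      linarith
    · have h4 : C.o x w b < 0 := lt_of_le_of_ne hb h
      have := mul_neg_of_pos_of_neg h3 h4
      linarith
  · by_contra hcon
    push Not at hcon
    have ha := hcon a
    have hb := hcon b
    have hc := hcon c
    have k1 := mul_nonneg h2.le ha
    have k2 := mul_nonneg h3.le hb
    have k3 := mul_nonneg h1.le hc
    rcases hnz with h | h
    · have h4 : 0 < C.o x w a := lt_of_le_of_ne ha (Ne.symm h)
      have := mul_pos h2 h4
      linarith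
    · have h4 : 0 < C.o x w b := lt_of_le_of_ne hb (Ne.symm h)
      have := mul_pos h3 h4
      linarith

/-- core of `hp`: if some neighbour of `v` is of kind A then every neighbour `p` of `v` is strictly
inside a triangle `v q z` and has outside neighbours only on the positive side -/
theorem HP_core [Finite V] {C : Cfg V} {T D : SimpleGraph V} (hs : Setup C T D) {v : V}
    (hv : Iso C T D v) (hU : UProp C T D v) {q0 z0 : V} (hq0 : T.Adj v q0)
    (hz0 : Zn T D v q0 z0) (hA : 0 < C.o v q0 z0) {p : V} (hp : T.Adj v p) :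
    (∃ q z, C.Ins v q z p) ∧ ∀ z', Zn T D v p z' → 0 < C.o v p z' := by
  set A : Set V := {q | T.Adj v q ∧ q ≠ p ∧ ∃ z, Zn T D v q z ∧ 0 < C.o v q z} with hAdef
  have hmem : ∀ q, T.Adj v q → q ≠ p → (∃ z', Zn T D v q z') →
      (∀ z', Zn T D v q z' → 0 < C.o v q z') → q ∈ A := by
    intro q h1 h2 h3 h4
    obtain ⟨z', hz'⟩ := h3
    exact ⟨h1, h2, z', hz', h4 z' hz'⟩
  have hAne : A.Nonempty := by
    by_cases h : q0 = p
    · obtain ⟨z, q', -, -, -, k1, k2, k3, k4, -⟩ := lemK hs hv hU hq0 hz0 hA
      have hne : q' ≠ p := by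
        rintro rfl
        have := k2.1
        rw [h] at this
        simp at this
      exact ⟨q', hmem q' k1 hne k3 k4⟩
    · exact ⟨q0, hq0, h, z0, hz0, hA⟩
  have hnz : ∀ q ∈ A, C.o v p q ≠ 0 := by
    intro q hq
    exact C.o_ne hp.ne hq.1.ne hq.2.1.symm
  by_cases hneg : ∃ q ∈ A, C.o v p q < 0
  · -- take the last one of these
    obtain ⟨q1, hq1, hq1'⟩ := hneg
    obtain ⟨m, hm, hmlast⟩ := exists_first C.mir v p {q | q ∈ A ∧ C.o v p q < 0}
      ⟨q1, hq1, hq1'⟩ (fun x hx => by
        rw [Cfg.mir_o]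
        have := hx.2
        linarith)
    obtain ⟨⟨hm1, hm2, zm, hzm, hzm'⟩, hm3⟩ := hm
    obtain ⟨z, q', -, -, -, k1, k2, k3, k4, k5⟩ := lemK hs hv hU hm1 hzm hzm'
    by_cases hq'p : q' = p
    · subst hq'p
      exact ⟨⟨m, z, k2⟩, k4⟩
    · have hq'A : q' ∈ A := hmem q' k1 hq'p k3 k4
      have hpos : 0 < C.o v p q' := by
        rcases lt_or_gt_of_ne (hnz q' hq'A) with h | h
        · exfalso
          have hne : q' ≠ m := by
            rintro rfl
            have := k2.1
            simp at this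
          have h2 := hmlast q' ⟨hq'A, h⟩ hne
          rw [Cfg.mir_o] at h2
          have := k2.1
          linarith
        · exact h
      have hmp : 0 < C.o v m p := by
        rw [C.o_swap' v m p]
        linarith
      obtain ⟨k6, k7⟩ := k5 p hp hmp hpos
      exact ⟨⟨m, z, k6⟩, fun z' hz' => absurd hz' (k7 z')⟩
  · push Not at hneg
    have hall : ∀ q ∈ A, 0 < C.o v p q := fun q hq =>
      lt_of_le_of_ne (hneg q hq) (Ne.symm (hnz q hq))
    obtain ⟨m, hm, hmlast⟩ := exists_last C v p A hAne hall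
    obtain ⟨hm1, hm2, zm, hzm, hzm'⟩ := hm
    obtain ⟨z, q', -, -, -, k1, k2, k3, k4, k5⟩ := lemK hs hv hU hm1 hzm hzm'
    by_cases hq'p : q' = p
    · subst hq'p
      exact ⟨⟨m, z, k2⟩, k4⟩
    · exfalso
      have hq'A : q' ∈ A := hmem q' k1 hq'p k3 k4
      have hne : q' ≠ m := by
        rintro rfl
        have := k2.1
        simp at this
      have h2 := hmlast q' hq'A hne
      have h3 := k2.1
      rw [C.o_swap' v m q'] at h3
      linarith

theorem hp [Finite V] {C : Cfg V} {T D : SimpleGraph V} (hs : Setup C T D) {v : V}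
    (hv : Iso C T D v) (hU : UProp C T D v) :
    (∀ z, z = v ∨ T.Adj v z) ∨
      ((TypeN C T D v ∨ TypeP C T D v) ∧ (∃ q z, T.Adj v q ∧ Zn T D v q z) ∧
        ∀ p, T.Adj v p → Inner C p) := by
  by_cases hAex : ∃ q z, T.Adj v q ∧ Zn T D v q z ∧ 0 < C.o v q z
  · right
    obtain ⟨q0, z0, hq0, hz0, hpos⟩ := hAex
    refine ⟨Or.inr ?_, ⟨q0, z0, hq0, hz0⟩, ?_⟩
    · intro p z hp hz
      exact (HP_core hs hv hU hq0 hz0 hpos hp).2 z hz
    · intro p hp
      obtain ⟨⟨q, z, h⟩, -⟩ := HP_core hs hv hU hq0 hz0 hpos hp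
      exact inner_of_ins C h
  by_cases hBex : ∃ q z, T.Adj v q ∧ Zn T D v q z ∧ C.o v q z < 0
  · right
    obtain ⟨q0, z0, hq0, hz0, hneg⟩ := hBex
    have hpos : 0 < C.mir.o v q0 z0 := by
      rw [Cfg.mir_o]
      linarith
    have hs' : Setup C.mir T D := setup_mir.mpr hs
    have hv' : Iso C.mir T D v := iso_mir.mpr hv
    have hU' : UProp C.mir T D v := uProp_mir.mpr hU
    refine ⟨Or.inl ?_, ⟨q0, z0, hq0, hz0⟩, ?_⟩
    · intro p z hp hz
      have h := (HP_core hs' hv' hU' hq0 hz0 hpos hp).2 z hz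
      rw [Cfg.mir_o] at h
      linarith
    · intro p hp
      obtain ⟨⟨q, z, h⟩, -⟩ := HP_core hs' hv' hU' hq0 hz0 hpos hp
      exact inner_mir.mp (inner_of_ins C.mir h)
  left
  have hno : ∀ q z, T.Adj v q → ¬ Zn T D v q z := by
    intro q z hq hz
    have hne : C.o v q z ≠ 0 := C.o_ne hq.ne hz.2.1.symm hz.1.ne
    rcases lt_or_gt_of_ne hne with h | h
    · exact hBex ⟨q, z, hq, hz, h⟩
    · exact hAex ⟨q, z, hq, hz, h⟩
  intro z
  obtain ⟨w⟩ := hs.tree.1.preconnected z v
  induction w with
  | nil => exact Or.inl rfl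
  | @cons a b c hab _ ih =>
    rcases ih hv hU hAex hBex hno with h | h
    · right
      rw [← h]
      exact hab.symm
    · by_cases h1 : a = c
      · exact Or.inl h1
      · right
        by_contra h2
        exact hno b a h ⟨(hs.le hab).symm, h1, h2⟩

/-- star case: `N2 = 2` -/
theorem star_n2 [Finite V] {C : Cfg V} {T D : SimpleGraph V} (hs : Setup C T D) {v : V}
    (hv : Iso C T D v) (h : ∀ z, z = v ∨ T.Adj v z) : N2 C T D ≤ 2 := by
  have h1 : {v' | Iso C T D v'} = {v} := by
    ext x
    simp only [Set.mem_ofPred_eq, Set.mem_singleton_iff]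
    constructor
    · intro hx
      rcases h x with h2 | h2
      · exact h2
      · exact absurd hx (iso_nbr_not_iso hs hv h2)
    · rintro rfl
      exact hv
  have h2 : {d : V × V | Hot C T D d} = ∅ := by
    ext d
    simp only [Set.mem_ofPred_eq, Set.mem_empty_iff_false, iff_false]
    intro hd
    have h3 := iso_avoid hs hv hd.1 Relation.ReflTransGen.refl
    have h4 : T.Adj v d.1 := (h d.1).resolve_left h3.1
    have h5 : T.Adj v d.2 := (h d.2).resolve_left h3.2
    exact link_not_T hs h4 h5 hd.1.1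
  unfold N2
  rw [h1, h2, Set.ncard_singleton, Set.ncard_empty]

end CT
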