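import Pool.Agent.H7.CT.Steps

/-! # CT module HWalk: walks from hull darts

`HWalk C T D d r`: `d 0` is a hull dart, `d j → d (j+1)` for `j < r`, no step from `d r`.
Existence: the step relation is functional and injective on a finite set and `d 0` has no
predecessor, so the walk does not repeat a dart (if `d i = d j`, `i < j`, go back with `step_inj` to
`d 0 = d (j-i)`, which has a predecessor: contradiction) and must stop. -/

open Classical

namespace CT

variable {V : Type}

structure HWalk (C : Cfg V) (T D : SimpleGraph V) (d : ℕ → V × V) (r : ℕ) : Prop where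
  hd : IsHD C T (d 0)
  step : ∀ j, j < r → Step C T D (d j) (d (j + 1))
  term : ∀ d', ¬ Step C T D (d r) d'

/-- a sequence of steps beginning with a hull dart does not repeat a dart -/
theorem HWalk_no_repeat {C : Cfg V} {T D : SimpleGraph V} (hs : Setup C T D) {d : ℕ → V × V}
    (h0 : IsHD C T (d 0)) (i : ℕ) : ∀ j, i < j → (∀ k, k < j → Step C T D (d k) (d (k + 1))) →
    d i ≠ d j := by
  induction i with
  | zero =>
    intro j hj hst heq
    obtain ⟨k, rfl⟩ : ∃ k, j = k + 1 := ⟨j - 1, by omega⟩
    have h1 := hst k (by omega)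
    rw [← heq] at h1
    exact no_step_into_hd h0 h1
  | succ i ih =>
    intro j hj hst heq
    obtain ⟨k, rfl⟩ : ∃ k, j = k + 1 := ⟨j - 1, by omega⟩
    have h1 := hst k (by omega)
    have h2 := hst i (by omega)
    rw [← heq] at h1
    exact ih k (by omega) (fun l hl => hst l (by omega)) (step_inj hs h2 h1)

theorem exists_hwalk [Finite V] {C : Cfg V} {T D : SimpleGraph V} (hs : Setup C T D)
    {e : V × V} (he : IsHD C T e) : ∃ d r, HWalk C T D d r ∧ d 0 = e := by
  set f : V × V → V × V := fun x => if h : ∃ y, Step C T D x y then h.choose else x with hf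
  have hfs : ∀ x, (∃ y, Step C T D x y) → Step C T D x (f x) := by
    intro x hx
    have : f x = hx.choose := by simp only [hf, dif_pos hx]
    rw [this]
    exact hx.choose_spec
  set d : ℕ → V × V := fun j => f^[j] e with hd
  have hd0 : d 0 = e := rfl
  have hds : ∀ j, d (j + 1) = f (d j) := fun j => Function.iterate_succ_apply' f j e
  have hex : ∃ r, ∀ y, ¬ Step C T D (d r) y := by
    by_contra hcon
    push Not at hcon
    have hstep : ∀ k, Step C T D (d k) (d (k + 1)) := by
      intro k
      rw [hds]
      exact hfs _ (hcon k)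
    have hinj : Function.Injective d := by
      intro i j hij
      by_contra hne
      rcases Nat.lt_or_gt_of_ne hne with h | h
      · exact HWalk_no_repeat hs (by rw [hd0]; exact he) i j h (fun k _ => hstep k) hij
      · exact HWalk_no_repeat hs (by rw [hd0]; exact he) j i h (fun k _ => hstep k) hij.symm
    exact not_injective_infinite_finite d hinj
  refine ⟨d, Nat.find hex, ⟨by rw [hd0]; exact he, ?_, Nat.find_spec hex⟩, hd0⟩
  intro j hj
  have h1 := Nat.find_min hex hj
  push Not at h1
  rw [hds]
  exact hfs _ h1

theorem HWalk.adj {C : Cfg V} {T D : SimpleGraph V} {d : ℕ → V × V} {r : ℕ}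
    (h : HWalk C T D d r) {j : ℕ} (hj : j ≤ r) : T.Adj (d j).1 (d j).2 := by
  cases j with
  | zero => exact h.hd.1
  | succ j => exact step_adj (h.step j (by omega))

theorem HWalk.reach {C : Cfg V} {T D : SimpleGraph V} {d : ℕ → V × V} {r : ℕ}
    (h : HWalk C T D d r) {i j : ℕ} (hij : i ≤ j) (hj : j ≤ r) :
    Relation.ReflTransGen (Step C T D) (d i) (d j) := by
  induction j with
  | zero =>
    have : i = 0 := by omega
    rw [this]
  | succ j ih =>
    rcases Nat.lt_or_ge i (j + 1) with h1 | h1
    · exact (ih (by omega) (by omega)).tail (h.step j (by omega))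
    · have : i = j + 1 := by omega
      rw [this]

/-- everything reachable from `d 0` is on the walk -/
theorem HWalk.of_reach {C : Cfg V} {T D : SimpleGraph V} (hs : Setup C T D) {d : ℕ → V × V}
    {r : ℕ} (h : HWalk C T D d r) {d' : V × V}
    (hr : Relation.ReflTransGen (Step C T D) (d 0) d') : ∃ j, j ≤ r ∧ d j = d' := by
  induction hr with
  | refl => exact ⟨0, by omega, rfl⟩
  | tail _ h2 ih =>
    obtain ⟨j, hj, rfl⟩ := ih
    rcases Nat.lt_or_ge j r with h1 | h1
    · exact ⟨j + 1, by omega, step_func hs (h.step j h1) h2⟩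
    · have : j = r := by omega
      subst this
      exact absurd h2 (h.term _)

theorem HWalk.inj {C : Cfg V} {T D : SimpleGraph V} (hs : Setup C T D) {d : ℕ → V × V}
    {r : ℕ} (h : HWalk C T D d r) {i j : ℕ} (hi : i ≤ r) (hj : j ≤ r) (hij : d i = d j) :
    i = j := by
  by_contra hne
  rcases Nat.lt_or_gt_of_ne hne with h1 | h1
  · exact HWalk_no_repeat hs h.hd i j h1 (fun k hk => h.step k (by omega)) hij
  · exact HWalk_no_repeat hs h.hd j i h1 (fun k hk => h.step k (by omega)) hij.symm

end CT
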