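import Pool.Agent.H7.CT.Basic

/-! # CT module TreeF: facts about finite trees

* `tree_cut`: deleting the edge `ab` of a tree separates: a function `f` changing exactly across
  `ab` (e.g. `f c := (T.deleteEdges {s(a,b)}).Reachable a c`; bridge).
* `tree_color`: proper 2-colouring (parity of the distance to a root).
* `tree_sep`: two different vertices are separated by some edge (first edge of the path).
* `tree_deg`: `∑ deg = 2 (n-1)`, written with `dg`.
* short cycles. -/

open Classical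

namespace CT

variable {V : Type}

theorem tree_cut (T : SimpleGraph V) (hT : T.IsTree) {a b : V} (hab : T.Adj a b) :
    ∃ f : V → Prop, f a ∧ ¬ f b ∧
      ∀ c d, T.Adj c d → ¬ (c = a ∧ d = b) → ¬ (c = b ∧ d = a) → (f c ↔ f d) := by
  have hbr := (SimpleGraph.isAcyclic_iff_forall_adj_isBridge.mp hT.isAcyclic) hab
  rw [SimpleGraph.isBridge_iff] at hbr
  refine ⟨fun c => (T.deleteEdges {s(a, b)}).Reachable a c, SimpleGraph.Reachable.refl _, hbr, ?_⟩
  intro c d hcd h1 h2
  have hadj : (T.deleteEdges {s(a, b)}).Adj c d := by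
    rw [SimpleGraph.deleteEdges_adj]
    refine ⟨hcd, ?_⟩
    rw [Set.mem_singleton_iff, Sym2.eq_iff]
    rintro (h | h)
    · exact h1 h
    · exact h2 h
  exact ⟨fun h => h.trans hadj.reachable, fun h => h.trans hadj.symm.reachable⟩

theorem tree_color (T : SimpleGraph V) (hT : T.IsTree) :
    ∃ χ : V → Bool, ∀ a b, T.Adj a b → χ a ≠ χ b := by
  obtain ⟨C⟩ := hT.colorable_two
  refine ⟨fun v => decide (C v = 0), fun a b hab => ?_⟩
  have h := C.valid hab
  intro h2
  apply h
  have h3 : (C a = 0) ↔ (C b = 0) := by simpa using h2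
  by_cases h4 : C a = 0
  · rw [h4, h3.mp h4]
  · have h5 : C b ≠ 0 := fun h => h4 (h3.mpr h)
    generalize C a = p at *
    generalize C b = q at *
    omega

theorem TreeF_walk {T : SimpleGraph V} {a b : V} {f : V → Prop}
    (hf : ∀ c d, T.Adj c d → ¬ (c = a ∧ d = b) → ¬ (c = b ∧ d = a) → (f c ↔ f d))
    {x y : V} (q : T.Walk x y) (hq : a ∉ q.support) : f x ↔ f y := by
  induction q with
  | nil => exact Iff.rfl
  | @cons u v w h p ih =>
    rw [SimpleGraph.Walk.support_cons, List.mem_cons, not_or] at hq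
    have h1 : a ≠ u := hq.1
    have h2 : a ≠ v := by
      rintro rfl
      exact hq.2 p.start_mem_support
    exact (hf u v h (fun h => h1 h.1.symm) (fun h => h2 h.2.symm)).trans (ih hq.2)

theorem tree_sep (T : SimpleGraph V) (hT : T.IsTree) {x y : V} (hxy : x ≠ y) :
    ∃ a b, T.Adj a b ∧ ∃ f : V → Prop, f a ∧ ¬ f b ∧
      (∀ c d, T.Adj c d → ¬ (c = a ∧ d = b) → ¬ (c = b ∧ d = a) → (f c ↔ f d)) ∧
      ¬ (f x ↔ f y) := by
  obtain ⟨p, hp, -⟩ := hT.existsUnique_path x y
  cases p with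
  | nil => exact absurd rfl hxy
  | @cons _ b _ h q =>
    rw [SimpleGraph.Walk.cons_isPath_iff] at hp
    obtain ⟨f, f1, f2, f3⟩ := tree_cut T hT h
    refine ⟨x, b, h, f, f1, f2, f3, ?_⟩
    have h4 := TreeF_walk f3 q hp.2
    intro h5
    exact f2 (h4.mpr (h5.mp f1))

theorem tree_deg [Fintype V] (T : SimpleGraph V) (hT : T.IsTree) :
    ∑ v : V, dg T v + 2 = 2 * Fintype.card V := by
  have h1 := T.sum_degrees_eq_twice_card_edges
  have h2 := hT.card_edgeFinset
  have h3 : ∀ v : V, dg T v = T.degree v := by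
    intro v
    unfold dg
    rw [← SimpleGraph.card_neighborSet_eq_degree, ← Nat.card_eq_fintype_card,
      ← Nat.card_coe_set_eq]
    rfl
  simp only [h3]
  omega

/-- if `T` has at least two vertices every degree is positive -/
theorem tree_deg_pos [Finite V] (T : SimpleGraph V) (hT : T.IsTree) {v w : V} (hvw : v ≠ w) :
    1 ≤ dg T v := by
  obtain ⟨p, hp, -⟩ := hT.existsUnique_path v w
  cases p with
  | nil => exact absurd rfl hvw
  | @cons _ b _ h q =>
    unfold dg
    rw [Nat.one_le_iff_ne_zero, Ne, Set.ncard_eq_zero (Set.toFinite _)]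
    intro h2
    have : b ∈ {w | T.Adj v w} := h
    rw [h2] at this
    exact this

theorem no3 (T : SimpleGraph V) (hT : T.IsTree) {a b c : V} (h1 : T.Adj a b) (h2 : T.Adj b c)
    (h3 : T.Adj c a) : False := by
  obtain ⟨χ, hχ⟩ := tree_color T hT
  have e1 := hχ _ _ h1
  have e2 := hχ _ _ h2
  have e3 := hχ _ _ h3
  revert e1 e2 e3
  cases χ a <;> cases χ b <;> cases χ c <;> simp

/-- two different vertices have at most one common neighbour -/
theorem no4 (T : SimpleGraph V) (hT : T.IsTree) {a b u w : V} (hab : a ≠ b) (h1 : T.Adj a u)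
    (h2 : T.Adj b u) (h3 : T.Adj a w) (h4 : T.Adj b w) : u = w := by
  by_contra hne
  obtain ⟨f, f1, f2, f3⟩ := tree_cut T hT h1
  have g1 : f u ↔ f b := f3 u b h2.symm (fun h => h1.ne h.1.symm) (fun h => hab h.2.symm)
  have g2 : f b ↔ f w := f3 b w h4 (fun h => hab h.1.symm) (fun h => h3.ne h.2.symm)
  have g3 : f w ↔ f a := f3 w a h3.symm (fun h => h1.ne h.2) (fun h => hne h.1.symm)
  exact f2 (g1.mpr (g2.mpr (g3.mpr f1)))

theorem no5 (T : SimpleGraph V) (hT : T.IsTree) {a b c d e : V} (h1 : T.Adj a b)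
    (h2 : T.Adj b c) (h3 : T.Adj c d) (h4 : T.Adj d e) (h5 : T.Adj e a) : False := by
  obtain ⟨χ, hχ⟩ := tree_color T hT
  have e1 := hχ _ _ h1
  have e2 := hχ _ _ h2
  have e3 := hχ _ _ h3
  have e4 := hχ _ _ h4
  have e5 := hχ _ _ h5
  revert e1 e2 e3 e4 e5
  cases χ a <;> cases χ b <;> cases χ c <;> cases χ d <;> cases χ e <;> simp

theorem no6 (T : SimpleGraph V) (hT : T.IsTree) {a b c d e f : V} (h1 : T.Adj a b)
    (h2 : T.Adj b c) (h3 : T.Adj c d) (h4 : T.Adj d e) (h5 : T.Adj e f) (h6 : T.Adj f a)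
    (n1 : a ≠ c) (n2 : b ≠ f) (n3 : b ≠ d) : False := by
  by_cases hda : d = a
  · subst hda
    exact no3 T hT h1 h2 h3
  obtain ⟨g, f1, f2, f3⟩ := tree_cut T hT h1
  have g1 : g b ↔ g c := f3 b c h2 (fun h => h1.ne h.1.symm) (fun h => n1 h.2.symm)
  have g2 : g c ↔ g d := f3 c d h3 (fun h => n1 h.1.symm) (fun h => h2.ne h.1.symm)
  have g3 : g d ↔ g e := f3 d e h4 (fun h => hda h.1) (fun h => n3 h.1.symm)
  have g4 : g e ↔ g f := f3 e f h5 (fun h => n2 h.2.symm) (fun h => h6.ne h.2)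
  have g5 : g f ↔ g a := f3 f a h6 (fun h => h6.ne h.1) (fun h => n2 h.1.symm)
  exact f2 (g1.mpr (g2.mpr (g3.mpr (g4.mpr (g5.mpr f1)))))

end CT
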