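import Pool.Agent.H7.CT.Faces
import Pool.Agent.H7.CT.TreeF

/-! # CT module Steps: elementary properties of the step relation

`Step C T D d d'`: `d = (a,b)` a `T`-dart, `Face a b c`, and `d' = (a,c)` (if `ac ∈ T`) or
`d' = (c,b)` (if `cb ∈ T`). -/

open Classical

namespace CT

variable {V : Type}

theorem step_adj {C : Cfg V} {T D : SimpleGraph V} {d d' : V × V} (h : Step C T D d d') :
    T.Adj d'.1 d'.2 := by
  obtain ⟨_, c, _, ⟨h1, rfl⟩ | ⟨h1, rfl⟩⟩ := h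
  · exact h1
  · exact h1

/-- reversal: dart reversal reverses steps -/
theorem step_swap {C : Cfg V} {T D : SimpleGraph V} {d d' : V × V} (h : Step C T D d d') :
    Step C T D d'.swap d.swap := by
  obtain ⟨h0, c, hf, ⟨h1, rfl⟩ | ⟨h1, rfl⟩⟩ := h
  · exact ⟨h1.symm, d.2, hf.rot.rot, Or.inr ⟨h0.symm, rfl⟩⟩
  · exact ⟨h1.symm, d.1, hf.rot, Or.inl ⟨h0.symm, rfl⟩⟩

theorem reach_swap {C : Cfg V} {T D : SimpleGraph V} {d d' : V × V}
    (h : Relation.ReflTransGen (Step C T D) d d') :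
    Relation.ReflTransGen (Step C T D) d'.swap d.swap := by
  induction h with
  | refl => exact Relation.ReflTransGen.refl
  | tail _ h2 ih => exact Relation.ReflTransGen.head (step_swap h2) ih

/-- `Step` is functional (`face_unique`, no `T`-triangle) -/
theorem step_func {C : Cfg V} {T D : SimpleGraph V} (hs : Setup C T D) {d d1 d2 : V × V}
    (h1 : Step C T D d d1) (h2 : Step C T D d d2) : d1 = d2 := by
  obtain ⟨h0, c, hf, h1'⟩ := h1
  obtain ⟨_, c', hf', h2'⟩ := h2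
  obtain rfl := face_unique C D hs.mp.1 hf hf'
  rcases h1' with ⟨a1, e1⟩ | ⟨a1, e1⟩ <;> rcases h2' with ⟨a2, e2⟩ | ⟨a2, e2⟩
  · rw [e1, e2]
  · exact (no3 T hs.tree h0 a2.symm a1.symm).elim
  · exact (no3 T hs.tree h0 a1.symm a2.symm).elim
  · rw [e1, e2]

/-- `Step` is injective (reversal) -/
theorem step_inj {C : Cfg V} {T D : SimpleGraph V} (hs : Setup C T D) {d d1 d2 : V × V}
    (h1 : Step C T D d1 d) (h2 : Step C T D d2 d) : d1 = d2 :=
  Prod.swap_injective (step_func hs (step_swap h1) (step_swap h2))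

theorem step_color {C : Cfg V} {T D : SimpleGraph V} {χ : V → Bool}
    (hχ : ∀ a b, T.Adj a b → χ a ≠ χ b) {d d' : V × V} (h : Step C T D d d') :
    χ d'.1 = χ d.1 ∧ χ d'.2 = χ d.2 := by
  obtain ⟨h0, c, _, ⟨h1, rfl⟩ | ⟨h1, rfl⟩⟩ := h
  · refine ⟨rfl, ?_⟩
    have e1 := hχ _ _ h0
    have e2 := hχ _ _ h1
    show χ c = χ d.2
    revert e1 e2
    cases χ d.1 <;> cases χ d.2 <;> cases χ c <;> simp
  · refine ⟨?_, rfl⟩
    have e1 := hχ _ _ h0
    have e2 := hχ _ _ h1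
    show χ c = χ d.1
    revert e1 e2
    cases χ d.1 <;> cases χ d.2 <;> cases χ c <;> simp

theorem reach_color {C : Cfg V} {T D : SimpleGraph V} {χ : V → Bool}
    (hχ : ∀ a b, T.Adj a b → χ a ≠ χ b) {d d' : V × V}
    (h : Relation.ReflTransGen (Step C T D) d d') : χ d'.1 = χ d.1 ∧ χ d'.2 = χ d.2 := by
  induction h with
  | refl => exact ⟨rfl, rfl⟩
  | tail _ h2 ih =>
    have h3 := step_color hχ h2
    exact ⟨h3.1.trans ih.1, h3.2.trans ih.2⟩

/-- the two forms of a step; the base of the face is in `D \ T` -/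
theorem step_cases {C : Cfg V} {T D : SimpleGraph V} (hs : Setup C T D) {d d' : V × V}
    (h : Step C T D d d') :
    (d'.1 = d.1 ∧ Face C D d.1 d.2 d'.2 ∧ T.Adj d.1 d'.2 ∧ D.Adj d.2 d'.2 ∧
      ¬ T.Adj d.2 d'.2 ∧ d'.2 ≠ d.2) ∨
    (d'.2 = d.2 ∧ Face C D d.1 d.2 d'.1 ∧ T.Adj d'.1 d.2 ∧ D.Adj d.1 d'.1 ∧
      ¬ T.Adj d.1 d'.1 ∧ d'.1 ≠ d.1) := by
  obtain ⟨h0, c, hf, ⟨h1, rfl⟩ | ⟨h1, rfl⟩⟩ := h
  · left
    exact ⟨rfl, hf, h1, hf.2.1, fun h2 => no3 T hs.tree h0 h2 h1.symm, hf.ne.2.2.symm⟩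
  · right
    exact ⟨rfl, hf, h1, hf.2.2.1.symm, fun h2 => no3 T hs.tree h0 h1.symm h2.symm,
      hf.ne.2.1.symm⟩

/-- a `T`-dart without step is at the hull or dead -/
theorem step_none [Finite V] {C : Cfg V} {T D : SimpleGraph V} (hs : Setup C T D) {d : V × V}
    (hd : T.Adj d.1 d.2) (h : ∀ d', ¬ Step C T D d d') :
    HE C d.1 d.2 ∨ ∃ c, Face C D d.1 d.2 c ∧ ¬ T.Adj d.1 c ∧ ¬ T.Adj c d.2 := by
  by_cases hh : HE C d.1 d.2
  · exact Or.inl hh
  · right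
    unfold HE at hh
    push Not at hh
    obtain ⟨z, hz⟩ := hh
    obtain ⟨c, hc⟩ := face_exists C D hs.mp (hs.le hd) hz
    refine ⟨c, hc, fun h1 => ?_, fun h1 => ?_⟩
    · exact h (d.1, c) ⟨hd, c, hc, Or.inl ⟨h1, rfl⟩⟩
    · exact h (c, d.2) ⟨hd, c, hc, Or.inr ⟨h1, rfl⟩⟩

theorem no_step_of_he {C : Cfg V} {T D : SimpleGraph V} {d d' : V × V}
    (h : HE C d.1 d.2) : ¬ Step C T D d d' := by
  rintro ⟨_, c, hf, _⟩
  exact h c hf.2.2.2.1

theorem no_step_of_dead {C : Cfg V} {T D : SimpleGraph V} (hs : Setup C T D) {d d' : V × V}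
    {c : V} (h : Face C D d.1 d.2 c) (h1 : ¬ T.Adj d.1 c) (h2 : ¬ T.Adj c d.2) :
    ¬ Step C T D d d' := by
  rintro ⟨_, c', hf, h3⟩
  obtain rfl := face_unique C D hs.mp.1 h hf
  rcases h3 with ⟨h3, _⟩ | ⟨h3, _⟩
  · exact h1 h3
  · exact h2 h3

/-- nothing steps into a hull dart -/
theorem no_step_into_hd {C : Cfg V} {T D : SimpleGraph V} {d e : V × V} (he : IsHD C T e) :
    ¬ Step C T D d e := by
  intro h
  exact no_step_of_he (d := e.swap) he.2 (step_swap h)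

/-- the ends of a hull dart are not inner -/
theorem hd_not_inner {C : Cfg V} {T : SimpleGraph V} {e : V × V} (he : IsHD C T e) :
    ¬ Inner C e.1 ∧ ¬ Inner C e.2 := by
  constructor
  · intro h
    obtain ⟨z, hz⟩ := (h e.2 he.1.ne').2
    apply he.2 z
    rw [C.o_swap]
    linarith
  · intro h
    obtain ⟨z, hz⟩ := (h e.1 he.1.ne).1
    exact he.2 z hz

/-- all other points are on the left of a hull dart -/
theorem hd_left {C : Cfg V} {T : SimpleGraph V} {e : V × V} (he : IsHD C T e) {z : V}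
    (h1 : z ≠ e.1) (h2 : z ≠ e.2) : 0 < C.o e.1 e.2 z := by
  rcases C.o_pos_or_neg he.1.ne h1.symm h2.symm with h | h
  · exact h
  · exfalso
    apply he.2 z
    rw [C.o_swap]
    linarith

/-- the reverse of a `T`-dart with nothing on its left is a hull dart -/
theorem hd_of_he {C : Cfg V} {T : SimpleGraph V} {d : V × V} (h : T.Adj d.1 d.2)
    (h2 : HE C d.1 d.2) : IsHD C T d.swap := ⟨h.symm, h2⟩

end CT
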