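import Pool.Agent.H7.CT.Res
import Pool.Agent.H7.CT.Steps

/-! # CT module HullCnt: counting at the hull

`hull_cnt`. For a vertex `v` let `hd v := {e | IsHD C T e ∧ (e.1 = v ∨ e.2 = v)}`. `∑ v, (hd v).ncard = 2 * #HD` (double counting: `e.1 ≠ e.2`). If `Inner C v`: `hd v = ∅` (`hd_not_inner`). If `hd v` is nonempty then `(hd v).ncard + 1 ≤ dg T v`: the map `e ↦` other end is injective from `hd v` into the `T`-neighbours of `v`
(if `(v,b)` and `(b,v)` are both hull darts, nothing lies on either side of `v b`, contradiction with a third point by general position), and its image avoids the `T`-neighbour `w` from `Reduced` (`¬ HE C v w`, `¬ HE C w v`). If `hd v` is empty the inequality `(hd v).ncard ≤ dg T v - 1` is trivial.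
`deg_split`: `tree_deg` and `tree_deg_pos`: `∑ (dg T v - 1) + 2 = card V` (at least two vertices), split by `Inner`. -/

open Classical

namespace CT

variable {V : Type}

theorem HullCnt_double [Fintype V] {C : Cfg V} {T : SimpleGraph V} :
    2 * {e | IsHD C T e}.ncard =
      ∑ v : V, {e : V × V | IsHD C T e ∧ (e.1 = v ∨ e.2 = v)}.ncard := by
  have h1 : {e | IsHD C T e}.ncard = (Finset.univ.filter (fun e : V × V => IsHD C T e)).card := by
    rw [← Set.ncard_coe_finset]
    congr 1
    ext e
    simp
  have h2 : ∀ v : V, {e : V × V | IsHD C T e ∧ (e.1 = v ∨ e.2 = v)}.ncard =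
      ∑ e ∈ Finset.univ.filter (fun e : V × V => IsHD C T e),
        if e.1 = v ∨ e.2 = v then 1 else 0 := by
    intro v
    rw [← Finset.card_filter, Finset.filter_filter, ← Set.ncard_coe_finset]
    congr 1
    ext e
    simp
  rw [h1, Finset.sum_congr rfl (fun v _ => h2 v), Finset.sum_comm]
  have h3 : ∀ e ∈ Finset.univ.filter (fun e : V × V => IsHD C T e),
      (∑ v : V, if e.1 = v ∨ e.2 = v then 1 else 0) = 2 := by
    intro e he
    have hne : e.1 ≠ e.2 := ((Finset.mem_filter.mp he).2).1.ne
    rw [← Finset.card_filter]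
    have : (Finset.univ.filter (fun v : V => e.1 = v ∨ e.2 = v)) = {e.1, e.2} := by
      ext v
      simp only [Finset.mem_filter, Finset.mem_univ, true_and, Finset.mem_insert,
        Finset.mem_singleton]
      constructor
      · rintro (h | h)
        · exact Or.inl h.symm
        · exact Or.inr h.symm
      · rintro (h | h)
        · exact Or.inl h.symm
        · exact Or.inr h.symm
    rw [this, Finset.card_pair hne]
  rw [Finset.sum_congr rfl h3, Finset.sum_const, smul_eq_mul, mul_comm]

theorem HullCnt_third (h3 : ∃ a b c : V, a ≠ b ∧ a ≠ c ∧ b ≠ c) (x y : V) :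
    ∃ z, z ≠ x ∧ z ≠ y := by
  obtain ⟨a, b, c, hab, hac, hbc⟩ := h3
  by_contra hcon
  push Not at hcon
  by_cases ha : a = x
  · have hb : b = y := hcon b (fun h => hab (ha.trans h.symm))
    have hc : c = y := hcon c (fun h => hac (ha.trans h.symm))
    exact hbc (hb.trans hc.symm)
  · have ha' : a = y := hcon a ha
    by_cases hb : b = x
    · have hc : c = y := hcon c (fun h => hbc (hb.trans h.symm))
      exact hac (ha'.trans hc.symm)
    · exact hab (ha'.trans (hcon b hb).symm)

theorem HullCnt_not_both {C : Cfg V} {T : SimpleGraph V}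
    (h3 : ∃ a b c : V, a ≠ b ∧ a ≠ c ∧ b ≠ c) {x y : V}
    (h1 : IsHD C T (x, y)) (h2 : IsHD C T (y, x)) : False := by
  obtain ⟨z, hzx, hzy⟩ := HullCnt_third h3 x y
  have e1 := hd_left h1 (z := z) hzx hzy
  have e2 := hd_left h2 (z := z) hzy hzx
  simp only at e1 e2
  rw [C.o_swap] at e2
  linarith

theorem HullCnt_vert [Fintype V] {C : Cfg V} {T : SimpleGraph V} (hR : Reduced C T)
    (h3 : ∃ a b c : V, a ≠ b ∧ a ≠ c ∧ b ≠ c) (v : V) :
    {e : V × V | IsHD C T e ∧ (e.1 = v ∨ e.2 = v)}.ncard ≤
      if Inner C v then 0 else (dg T v - 1) := by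
  by_cases hemp : {e : V × V | IsHD C T e ∧ (e.1 = v ∨ e.2 = v)} = ∅
  · rw [hemp, Set.ncard_empty]
    exact Nat.zero_le _
  · obtain ⟨e0, he0, he0v⟩ := Set.nonempty_iff_ne_empty.mpr hemp
    have hni : ¬ Inner C v := by
      rcases he0v with h | h
      · rw [← h]; exact (hd_not_inner he0).1
      · rw [← h]; exact (hd_not_inner he0).2
    rw [if_neg hni]
    obtain ⟨w, hw1, hw2, hw3⟩ : ∃ w, T.Adj v w ∧ ¬ HE C v w ∧ ¬ HE C w v := by
      rcases he0v with h | h
      · exact hR v e0.2 (h ▸ he0.1) (Or.inr (h ▸ he0.2))
      · exact hR v e0.1 (h ▸ he0.1.symm) (Or.inl (h ▸ he0.2))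
    have hd : dg T v - 1 = ({u | T.Adj v u} \ {w}).ncard := by
      unfold dg
      rw [Set.ncard_sdiff_singleton_of_mem (show w ∈ {u | T.Adj v u} from hw1)]
    rw [hd]
    refine Set.ncard_le_ncard_of_injOn (fun e : V × V => if e.1 = v then e.2 else e.1) ?_ ?_
      (Set.toFinite _)
    · rintro ⟨a, b⟩ ⟨h1, h2⟩
      have hadj : T.Adj a b := h1.1
      have hhe : HE C b a := h1.2
      by_cases ha : a = v
      · subst ha
        simp only [if_true]
        refine ⟨hadj, ?_⟩
        rintro hb
        rw [Set.mem_singleton_iff] at hb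
        subst hb
        exact hw3 hhe
      · have hb : b = v := by
          rcases h2 with h2 | h2
          · exact absurd h2 ha
          · exact h2
        subst hb
        simp only [if_neg ha]
        refine ⟨hadj.symm, ?_⟩
        rintro hb
        rw [Set.mem_singleton_iff] at hb
        subst hb
        exact hw2 hhe
    · rintro ⟨a, b⟩ ⟨h1, h2⟩ ⟨a', b'⟩ ⟨h1', h2'⟩ heq
      simp only at heq h2 h2'
      by_cases ha : a = v
      · subst ha
        by_cases ha' : a' = a
        · subst ha'
          simp only [if_true] at heq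
          rw [heq]
        · have hb' : b' = a := by
            rcases h2' with h | h
            · exact absurd h ha'
            · exact h
          subst hb'
          simp only [if_true, if_neg ha'] at heq
          subst heq
          exact (HullCnt_not_both h3 h1 h1').elim
      · have hb : b = v := by
          rcases h2 with h | h
          · exact absurd h ha
          · exact h
        subst hb
        by_cases ha' : a' = b
        · subst ha'
          simp only [if_true, if_neg ha] at heq
          subst heq
          exact (HullCnt_not_both h3 h1 h1').elim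
        · have hb' : b' = b := by
            rcases h2' with h | h
            · exact absurd h ha'
            · exact h
          subst hb'
          simp only [if_neg ha, if_neg ha'] at heq
          rw [heq]

theorem hull_cnt [Fintype V] {C : Cfg V} {T : SimpleGraph V} (hR : Reduced C T)
    (h3 : ∃ a b c : V, a ≠ b ∧ a ≠ c ∧ b ≠ c) :
    2 * {e | IsHD C T e}.ncard ≤ ∑ v : V, if Inner C v then 0 else (dg T v - 1) := by
  rw [HullCnt_double]
  exact Finset.sum_le_sum (fun v _ => HullCnt_vert hR h3 v)

theorem deg_split [Fintype V] {C : Cfg V} {T : SimpleGraph V} (hT : T.IsTree)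
    (h2 : ∃ a b : V, a ≠ b) :
    (∑ v : V, if Inner C v then (dg T v - 1) else 0) +
      (∑ v : V, if Inner C v then 0 else (dg T v - 1)) + 2 = Fintype.card V := by
  rw [← Finset.sum_add_distrib]
  have h1 : ∀ v : V, (if Inner C v then (dg T v - 1) else 0) +
      (if Inner C v then 0 else (dg T v - 1)) = dg T v - 1 := by
    intro v
    split_ifs <;> simp
  rw [Finset.sum_congr rfl (fun v _ => h1 v)]
  have hpos : ∀ v : V, 1 ≤ dg T v := by
    intro v
    obtain ⟨a, b, hab⟩ := h2
    by_cases hva : v = a
    · exact tree_deg_pos T hT (v := v) (w := b) (fun h => hab (hva.symm.trans h))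
    · exact tree_deg_pos T hT (v := v) (w := a) hva
  have h4 : ∑ v : V, (dg T v - 1) + Fintype.card V = ∑ v : V, dg T v := by
    rw [show Fintype.card V = ∑ _v : V, 1 by simp, ← Finset.sum_add_distrib]
    refine Finset.sum_congr rfl (fun v _ => ?_)
    have := hpos v
    omega
  have h5 := tree_deg T hT
  omega

end CT
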