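import Pool.Agent.H7.CT.Geo

/-! # CT module HullPair

`hull_other`: `X := {q | q ≠ x ∧ q ≠ y}`; for `q ∈ X`: `o x y q < 0`, so in `C.mir`: `0 < o x y q`; `exists_last` (in `C.mir`) gives `m` with `o x q m < 0` for all other `q ∈ X`, so `0 < o x m q`; also `0 < o x m y`. So nothing is left of `m → x`.

`hull_pair`. All points other than `x` lie in the cone of `x` from `w` to `u`: `o x u z < 0` for `z ≠ x, u` and `0 < o x w z` for `z ≠ x, w` (general position and `h1`, `h2`). Call `p ≠ x` visible if `p = w` or there is `p' ≠ x` with `0 < o p' p x` and `∀ z ≠ x, ¬ 0 < o p' p z`.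
 Claim: if `p` is visible and `p ≠ u` there is `q ≠ x` with `0 < o p q x` and `∀ z ≠ x, ¬ 0 < o p q z` (so `q` is visible and `0 < o x p q`).
 Proof. `Q := {z | z ≠ x ∧ z ≠ p ∧ z ≠ p'}` (without the last condition if `p = w`); `u ∈ Q` (`u ≠ p'`: `0 < o x p' p` and `o x u z ≤ 0` for all `z`). All `z ∈ Q` lie strictly on one side of the line through `p` (`p = w`: `o w x z < 0`; otherwise `o p' p z < 0`, i.e. `0 < o p p' z`).
 Let `q` be the extreme element with `o p q z < 0` for all other `z ∈ Q` (and also for `z = p'`, as `0 < o p p' q`). It remains `0 < o p q x`. Suppose `o p q x < 0`. Case `p = w`: `o w x q < 0` means `0 < o w q x`: contradiction.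
 Case `p'`: `0 < o p' p x`, i.e. `o p p' x < 0`; `u`: `0 < o p p' u`, and `u = q` or `o p q u < 0`; `o p x u < 0` (from `o x u p < 0`). At `p` write `[a,b] = o p a b`: `[q,x] < 0`, `[p',x] < 0`, `[p',q] > 0`, `[x,u] < 0`, `[p',u] > 0`, `[q,u] ≤ 0`. GP identity `gpi p p' q x u`: `[p',q][x,u] - [p',x][q,u] + [p',u][q,x] = 0`:
 the first and the third term are negative, the second one is `≤ 0`: contradiction.
 Now take a visible `p` with `B p` such that no visible `p₂` with `B p₂` has `0 < o x p p₂` (finite; `exists_last` at `x` with reference `w` applied to the visible elements of `B` other than `w`, or `p = w` if there are none). `p ≠ u` since `¬ B u`. The claim gives `q`; `q` is visible with `0 < o x p q`, so `¬ B q`. -/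

open Classical

namespace CT

variable {V : Type}

theorem hull_other [Finite V] (C : Cfg V) {x y : V} (hxy : x ≠ y) (h : HE C x y)
    (h3 : ∃ q, q ≠ x ∧ q ≠ y) : ∃ z, z ≠ x ∧ z ≠ y ∧ HE C z x := by
  have hneg : ∀ q, q ≠ x → q ≠ y → C.o x y q < 0 := by
    intro q h1 h2
    rcases C.o_pos_or_neg hxy h1.symm h2.symm with h4 | h4
    · exact absurd h4 (h q)
    · exact h4
  obtain ⟨m, ⟨hm1, hm2⟩, hm3⟩ := exists_last C.mir x y {q | q ≠ x ∧ q ≠ y} h3 (by
    rintro q ⟨h1, h2⟩
    rw [C.mir_o]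
    linarith [hneg q h1 h2])
  refine ⟨m, hm1, hm2, fun z hz => ?_⟩
  have hne := C.ne_of_o_pos hz
  rw [C.o_cyc] at hz
  by_cases hzy : z = y
  · subst hzy
    linarith [hneg m hm1 hm2]
  · have h1 := hm3 z ⟨hne.2.2.symm, hzy⟩ hne.2.1.symm
    rw [C.mir_o] at h1
    linarith

/-- the claim in the proof of `hull_pair` -/
theorem HullPair_claim [Finite V] (C : Cfg V) {x u w p : V} (hu : u ≠ x) (huw : u ≠ w)
    (h1 : HE C x u) (h2 : HE C w x) (hpx : p ≠ x) (hpu : p ≠ u)
    (hv : p = w ∨ ∃ p', p' ≠ x ∧ 0 < C.o p' p x ∧ ∀ z, z ≠ x → ¬ 0 < C.o p' p z) :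
    ∃ q, q ≠ x ∧ 0 < C.o p q x ∧ ∀ z, z ≠ x → ¬ 0 < C.o p q z := by
  rcases hv with rfl | ⟨p', hp'x, hp1, hp2⟩
  · have hneg : ∀ z, z ≠ x → z ≠ p → C.o p x z < 0 := by
      intro z h3 h4
      rcases C.o_pos_or_neg hpx h4.symm h3.symm with h5 | h5
      · exact absurd h5 (h2 z)
      · exact h5
    obtain ⟨m, ⟨hm1, hm2⟩, hm3⟩ := exists_first C.mir p x {z | z ≠ x ∧ z ≠ p} ⟨u, hu, huw⟩ (by
      rintro z ⟨h3, h4⟩
      rw [C.mir_o]
      linarith [hneg z h3 h4])
    refine ⟨m, hm1, ?_, fun z hz hpos => ?_⟩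
    · rw [C.o_swap']
      linarith [hneg m hm1 hm2]
    · have hne := C.ne_of_o_pos hpos
      have h3 := hm3 z ⟨hz, hne.2.1.symm⟩ hne.2.2.symm
      rw [C.mir_o] at h3
      linarith
  · have hpp' : p' ≠ p := (C.ne_of_o_pos hp1).1
    have hpos : ∀ z, z ≠ x → z ≠ p → z ≠ p' → 0 < C.o p p' z := by
      intro z h3 h4 h5
      rcases C.o_pos_or_neg hpp' h5.symm h4.symm with h6 | h6
      · exact absurd h6 (hp2 z h3)
      · rw [C.o_swap]; linarith
    have hup' : u ≠ p' := by
      rintro rfl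
      rw [C.o_cyc' u p x] at hp1
      exact h1 p hp1
    obtain ⟨m, ⟨hm1, hm2, hm3⟩, hm4⟩ := exists_last C p p' {z | z ≠ x ∧ z ≠ p ∧ z ≠ p'}
      ⟨u, hu, hpu.symm, hup'⟩ (by
        rintro z ⟨h3, h4, h5⟩
        exact hpos z h3 h4 h5)
    have hpm := hpos m hm1 hm2 hm3
    refine ⟨m, hm1, ?_, fun z hz hpz => ?_⟩
    · by_contra hcon
      have k1 : C.o p m x < 0 := by
        rcases C.o_pos_or_neg hm2.symm hpx hm1 with h6 | h6
        · exact absurd h6 hcon
        · exact h6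
      have k2 : C.o p p' x < 0 := by rw [C.o_swap]; linarith
      have k3 : C.o p x u < 0 := by
        rw [C.o_cyc]
        rcases C.o_pos_or_neg hu.symm hpx.symm hpu.symm with h6 | h6
        · exact absurd h6 (h1 p)
        · exact h6
      have k4 : 0 < C.o p p' u := hpos u hu hpu.symm hup'
      have k5 : C.o p m u ≤ 0 := by
        by_cases hum : u = m
        · rw [hum]; simp
        · have h6 := hm4 u ⟨hu, hpu.symm, hup'⟩ hum
          rw [C.o_swap' p m u]
          linarith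
      have hg := C.gpi p p' m x u
      have e1 := mul_neg_of_pos_of_neg hpm k3
      have e2 := mul_nonneg_of_nonpos_of_nonpos k2.le k5
      have e3 := mul_neg_of_pos_of_neg k4 k1
      linarith
    · have hne := C.ne_of_o_pos hpz
      by_cases hzp : z = p'
      · subst hzp
        rw [C.o_swap'] at hpz
        linarith
      · have h3 := hm4 z ⟨hz, hne.2.1.symm, hzp⟩ hne.2.2.symm
        rw [C.o_swap'] at hpz
        linarith

theorem hull_pair [Finite V] (C : Cfg V) {x u w : V} (hu : u ≠ x) (hw : w ≠ x)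
    (h1 : HE C x u) (h2 : HE C w x) (B : V → Prop) (hBw : B w) (hBu : ¬ B u) :
    ∃ p q, p ≠ x ∧ q ≠ x ∧ B p ∧ ¬ B q ∧ 0 < C.o p q x ∧ ∀ z, z ≠ x → ¬ 0 < C.o p q z := by
  have huw : u ≠ w := by
    rintro rfl
    exact hBu hBw
  -- visible points
  obtain ⟨Vis, hVis⟩ : ∃ Vis : V → Prop, ∀ p, Vis p ↔
      (p = w ∨ ∃ p', p' ≠ x ∧ 0 < C.o p' p x ∧ ∀ z, z ≠ x → ¬ 0 < C.o p' p z) :=
    ⟨_, fun p => Iff.rfl⟩
  have hmain : ∃ p, p ≠ x ∧ Vis p ∧ B p ∧ ∀ p2, p2 ≠ x → Vis p2 → B p2 → ¬ 0 < C.o x p p2 := by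
    by_cases hX : ({z | Vis z ∧ B z ∧ z ≠ x ∧ z ≠ w} : Set V).Nonempty
    · have hpos : ∀ z, z ≠ x → z ≠ w → 0 < C.o x w z := by
        intro z h3 h4
        rcases C.o_pos_or_neg hw h4.symm h3.symm with h5 | h5
        · exact absurd h5 (h2 z)
        · rw [C.o_swap]; linarith
      obtain ⟨m, ⟨hm1, hm2, hm3, hm4⟩, hm5⟩ := exists_last C x w _ hX (by
        rintro z ⟨-, -, h3, h4⟩
        exact hpos z h3 h4)
      refine ⟨m, hm3, hm1, hm2, fun p2 hp2 hv2 hb2 hcon => ?_⟩
      have hne := C.ne_of_o_pos hcon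
      rw [C.o_swap'] at hcon
      by_cases hpw : p2 = w
      · subst hpw
        linarith [hpos m hm3 hm4]
      · have h3 := hm5 p2 ⟨hv2, hb2, hp2, hpw⟩ hne.2.2.symm
        linarith
    · refine ⟨w, hw, (hVis w).mpr (Or.inl rfl), hBw, fun p2 hp2 hv2 hb2 hcon => ?_⟩
      apply hX
      refine ⟨p2, hv2, hb2, hp2, ?_⟩
      exact (C.ne_of_o_pos hcon).2.2.symm
  obtain ⟨p, hpx, hpv, hpB, hpmax⟩ := hmain
  have hpu : p ≠ u := by
    rintro rfl
    exact hBu hpB
  obtain ⟨q, hqx, hq1, hq2⟩ := HullPair_claim C hu huw h1 h2 hpx hpu ((hVis p).mp hpv)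
  refine ⟨p, q, hpx, hqx, hpB, fun hBq => ?_, hq1, hq2⟩
  refine hpmax q hqx ((hVis q).mpr (Or.inr ⟨p, hpx, hq1, hq2⟩)) hBq ?_
  rw [C.o_cyc]
  exact hq1

/-- a point `x` strictly beyond the line `p q`, all other points on the other side: a segment from `x` to `p` or `q` crosses no segment between other points.
The crossing point would be strictly left of `p → q` (on the open segment from `x`) and not left (on `a b`). Algebra: put `L z = o p q z`; from `Cross x c a b` (`c` is `p` or `q`, `L c = 0`): by `o_bary` or the identity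
`o x c a * L b - o x c b * L a = (o a b c) * L x + (o b a x) * L c`-like relations; one can also write the crossing point as a convex combination in coordinates. -/
theorem beyond_not_cross (C : Cfg V) {p q x c a b : V} (h1 : 0 < C.o p q x)
    (h2 : ∀ z, z ≠ x → ¬ 0 < C.o p q z) (hc : c = p ∨ c = q) (ha : a ≠ x) (hb : b ≠ x) :
    ¬ C.Cross x c a b := by
  intro hcr
  have hLc : C.o p q c = 0 := by
    rcases hc with rfl | rfl <;> simp
  have hLa : C.o p q a ≤ 0 := not_lt.mp (h2 a ha)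
  have hLb : C.o p q b ≤ 0 := not_lt.mp (h2 b hb)
  have hid : C.o x c b * C.o p q a - C.o x c a * C.o p q b =
      - (C.o a b c * C.o p q x) + C.o a b x * C.o p q c := by
    unfold Cfg.o; ring
  rw [hLc] at hid
  rcases C.cross_pattern hcr with ⟨k1, k2, k3, k4⟩ | ⟨k1, k2, k3, k4⟩
  · have e1 := mul_nonneg_of_nonpos_of_nonpos k2.le hLa
    have e2 := mul_nonpos_of_nonneg_of_nonpos k1.le hLb
    have e3 := mul_pos k4 h1
    linarith
  · have e1 := mul_nonpos_of_nonneg_of_nonpos k2.le hLa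
    have e2 := mul_nonneg_of_nonpos_of_nonpos k1.le hLb
    have e3 := mul_neg_of_neg_of_pos k4 h1
    linarith

/-- a hull edge crosses nothing -/
theorem he_not_cross (C : Cfg V) {x y a b : V} (h : HE C x y ∨ HE C y x) :
    ¬ C.Cross x y a b := by
  rintro ⟨h1, -⟩
  rcases h with h | h
  · have e1 := mul_nonneg_of_nonpos_of_nonpos (not_lt.mp (h a)) (not_lt.mp (h b))
    linarith
  · have e1 := mul_nonneg_of_nonpos_of_nonpos (not_lt.mp (h a)) (not_lt.mp (h b))
    rw [C.o_swap y x a, C.o_swap y x b] at e1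
    linarith

end CT
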