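import Mathlib

/-! # CT module LBTree: the graph of a parent function is a tree

Connected: every `m` is reachable from `0` (strong induction along `par m < m`). The edge set is contained in the image of `{m | 0 < m}` under `m ↦ s(m, par m)`, so it has at most `n - 1` elements; a connected graph on `n` vertices has at least `n - 1` edges (`SimpleGraph.isTree_iff_connected_and_card` and the corresponding inequality in Mathlib,
or show acyclicity directly: the largest vertex of a cycle would have two different smaller neighbours). -/

open Classical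

namespace CT

/-- the edges are `m — par m` for `0 < m` -/
def parG (n : ℕ) (par : ℕ → ℕ) : SimpleGraph (Fin n) where
  Adj a b := a ≠ b ∧ ((0 < a.1 ∧ par a.1 = b.1) ∨ (0 < b.1 ∧ par b.1 = a.1))
  symm := ⟨fun _ _ h => ⟨h.1.symm, h.2.symm⟩⟩
  loopless := ⟨fun _ h => h.1 rfl⟩

theorem parG_tree (n : ℕ) (hn : 0 < n) (par : ℕ → ℕ) (h : ∀ m, 0 < m → m < n → par m < m) :
    (parG n par).IsTree := by
  have : Nonempty (Fin n) := ⟨⟨0, hn⟩⟩
  have hreach : ∀ m (hm : m < n), (parG n par).Reachable ⟨m, hm⟩ ⟨0, hn⟩ := by
    intro m
    induction m using Nat.strong_induction_on with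
    | _ m ih =>
      intro hm
      rcases Nat.eq_zero_or_pos m with rfl | h0
      · exact SimpleGraph.Reachable.refl _
      · have h1 := h m h0 hm
        have h2 := ih (par m) h1 (h1.trans hm)
        refine SimpleGraph.Reachable.trans (SimpleGraph.Adj.reachable ?_) h2
        refine ⟨?_, Or.inl ⟨h0, rfl⟩⟩
        intro he
        have := congrArg Fin.val he
        simp at this
        omega
  have hconn : (parG n par).Connected := by
    refine ⟨?_⟩
    intro a b
    exact (hreach a.1 a.2).trans (hreach b.1 b.2).symm
  rw [SimpleGraph.isTree_iff_connected_and_card]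
  refine ⟨hconn, ?_⟩
  have h1 : (parG n par).edgeSet ⊆ (fun m : Fin n => s(m, ⟨par m.1 % n, Nat.mod_lt _ hn⟩)) '' {m | 0 < m.1} := by
    intro e he
    induction e using Sym2.ind with
    | _ a b =>
      rw [SimpleGraph.mem_edgeSet] at he
      rcases he.2 with ⟨h0, h1⟩ | ⟨h0, h1⟩
      · refine ⟨a, h0, ?_⟩
        have : par a.1 % n = b.1 := by rw [h1]; exact Nat.mod_eq_of_lt b.2
        simp only [this]
      · refine ⟨b, h0, ?_⟩
        have : par b.1 % n = a.1 := by rw [h1]; exact Nat.mod_eq_of_lt a.2
        simp only [this]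
        exact Sym2.eq_swap
  have h2 : (parG n par).edgeSet.ncard ≤ n - 1 := by
    refine (Set.ncard_le_ncard h1 (Set.toFinite _)).trans ((Set.ncard_image_le (Set.toFinite _)).trans ?_)
    have : {m : Fin n | 0 < m.1} = {(⟨0, hn⟩ : Fin n)}ᶜ := by
      ext m
      simp only [Set.mem_ofPred_eq, Set.mem_compl_iff, Set.mem_singleton_iff]
      constructor
      · intro hm he; rw [he] at hm; simp at hm
      · intro hm
        rcases Nat.eq_zero_or_pos m.1 with h0 | h0
        · exact absurd (Fin.ext h0) hm
        · exact h0
    rw [this, Set.ncard_compl]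
    simp
  have h3 := hconn.card_vert_le_card_edgeSet_add_one
  rw [← Nat.card_coe_set_eq] at h2
  rw [Nat.card_fin] at h3 ⊢
  omega

end CT
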