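import Pool.Agent.H7.CT.Faces

/-! # CT module Near: near faces along a crossing segment, closed triangles

`near_face` (F3). `Face b c z`, `x` left of `b → c` (the side of the face), `xy` crosses `bc`.
Then `x = z` or `xy` crosses `bz` or `cz`, strictly nearer to `x` (`C.tau x y b c` is the
parameter of the crossing point on the segment from `x` to `y`).
Proof: `pasch` for the triangle `c z b` (side `b c`), the face contains no point. The comparison of `tau`:
`tau x y b z < tau x y b c` reduces to the sign of
`o b z x * o b c y - o b z y * o b c x = o b z c * o b x y` (`C.gpi b ..`).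

`far_unique`: if `xy` crosses the side `bc` of the face `bcz` then it crosses at most one of the other
two sides (a line separates the vertices `b | c` and `z` is on one side).

`tri_closed` (F5): a `D`-edge starting strictly inside a triangle with three sides in `D` ends in
the closed triangle (`exit_tri`). -/

open Classical

namespace CT

variable {V : Type}

private theorem Near_div_lt {a b c d : ℝ} (hb : b < 0) (hd : 0 < d) :
    a / b < c / d ↔ c * b < a * d := by
  rw [div_lt_iff_of_neg hb, div_mul_eq_mul_div, div_lt_iff₀ hd]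

theorem near_face (C : Cfg V) (D : SimpleGraph V) {b c z x y : V} (hf : Face C D b c z)
    (hx : 0 < C.o b c x) (hc : C.Cross x y b c) :
    x = z ∨ (C.Cross x y b z ∧ C.tau x y b z < C.tau x y b c) ∨
      (C.Cross x y c z ∧ C.tau x y c z < C.tau x y b c) := by
  obtain ⟨_, _, _, ho, hemp⟩ := hf
  have ho' : 0 < C.o c z b := by rw [← C.o_cyc]; exact ho
  -- signs of the first crossing
  obtain ⟨s1, s2, s3, s4⟩ : C.o x y b < 0 ∧ 0 < C.o x y c ∧ 0 < C.o b c x ∧ C.o b c y < 0 := by
    rcases C.cross_pattern hc with h | h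
    · exact absurd h.2.2.1 (not_lt.2 hx.le)
    · exact h
  have hA : 0 < C.o b c x - C.o b c y := by linarith
  rcases pasch C ho' hx (C.cross_symm34 hc) with h | h | h | h
  · exact Or.inl h
  · exact absurd ⟨h.2.2, h.1, h.2.1⟩ (hemp x)
  · right; right
    refine ⟨h, ?_⟩
    obtain ⟨_, _, t3, t4⟩ : 0 < C.o x y c ∧ C.o x y z < 0 ∧ C.o c z x < 0 ∧ 0 < C.o c z y := by
      rcases C.cross_pattern h with h' | h'
      · exact h'
      · exact absurd h'.1 (not_lt.2 s2.le)
    have g := C.gpi c z b x y
    have e1 : C.o c b y = - C.o b c y := C.o_swap c b y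
    have e2 : C.o c b x = - C.o b c x := C.o_swap c b x
    have e3 : C.o c x y = C.o x y c := C.o_cyc c x y
    rw [e1, e2, e3] at g
    have g2 : 0 < C.o c z b * C.o x y c := mul_pos ho' s2
    have hP : C.o c z x - C.o c z y < 0 := by linarith
    unfold Cfg.tau
    rw [Near_div_lt hP hA]
    nlinarith
  · right; left
    have h0 := C.cross_symm34 h
    refine ⟨h0, ?_⟩
    obtain ⟨_, _, t3, t4⟩ : C.o x y b < 0 ∧ 0 < C.o x y z ∧ 0 < C.o b z x ∧ C.o b z y < 0 := by
      rcases C.cross_pattern h0 with h' | h'
      · exact absurd h'.1 (not_lt.2 s1.le)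
      · exact h'
    have g := C.gpi b z c x y
    have e1 : C.o b z c = - C.o c z b := by rw [C.o_swap13 b z c]
    have e3 : C.o b x y = C.o x y b := C.o_cyc b x y
    rw [e1, e3] at g
    have g2 : C.o c z b * C.o x y b < 0 := mul_neg_of_pos_of_neg ho' s1
    have hP : 0 < C.o b z x - C.o b z y := by linarith
    unfold Cfg.tau
    rw [div_lt_div_iff₀ hP hA]
    nlinarith

theorem tau_symm (C : Cfg V) (x y b c : V) : C.tau x y b c = C.tau x y c b := by
  unfold Cfg.tau
  rw [C.o_swap c b x, C.o_swap c b y, show -C.o b c x - -C.o b c y = -(C.o b c x - C.o b c y) by ring,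
    neg_div_neg_eq]

theorem far_unique (C : Cfg V) {b c z x y : V} (h1 : C.Cross x y b c) (h2 : C.Cross x y b z) :
    ¬ C.Cross x y c z := by
  intro h3
  have a1 := h1.1
  have a2 := h2.1
  have a3 := h3.1
  have h4 : 0 < (C.o x y b * C.o x y c) * (C.o x y b * C.o x y z) := mul_pos_of_neg_of_neg a1 a2
  have h5 : (C.o x y b * C.o x y c) * (C.o x y b * C.o x y z) =
      (C.o x y b) ^ 2 * (C.o x y c * C.o x y z) := by ring
  rw [h5] at h4
  have h6 : 0 ≤ (C.o x y b) ^ 2 := sq_nonneg _
  nlinarith [mul_nonpos_of_nonneg_of_nonpos h6 a3.le]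

theorem tri_closed (C : Cfg V) (D : SimpleGraph V) (hD : Plane C D) {a b c x x' : V}
    (hab : D.Adj a b) (hbc : D.Adj b c) (hca : D.Adj c a) (hx : C.Ins a b c x)
    (hxx : D.Adj x x') : x' = a ∨ x' = b ∨ x' = c ∨ C.Ins a b c x' := by
  rcases exit_tri C hx hxx.ne' with h | h | h | h | h | h | h
  · exact Or.inl h
  · exact Or.inr (Or.inl h)
  · exact Or.inr (Or.inr (Or.inl h))
  · exact Or.inr (Or.inr (Or.inr h))
  · exact absurd h (hD _ _ _ _ hxx hab)
  · exact absurd h (hD _ _ _ _ hxx hbc)
  · exact absurd h (hD _ _ _ _ hxx hca)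

/-- a `D`-edge from `v`'s side: an edge `bc` of `D` crossing `va`'s extension... : an edge of `D` crossing the side
`vy` of a triangle `v q y` with `vq`, `qy` in `D` has an endpoint strictly inside or equal to `q`. -/
theorem cross_side (C : Cfg V) (D : SimpleGraph V) (hD : Plane C D) {v q y b c : V}
    (hvq : D.Adj v q) (hqy : D.Adj q y) (ht : 0 < C.o v q y) (hbc : D.Adj b c)
    (hcr : C.Cross v y b c) (hb : C.o v y b < 0) : b = q ∨ C.Ins v q y b := by
  have hx : 0 < C.o y v b := by
    rw [C.o_swap y v b]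
    linarith
  rcases pasch C ht hx (C.cross_symm hcr) with h | h | h | h
  · exact Or.inl h
  · exact Or.inr h
  · exact absurd h (hD _ _ _ _ hbc hvq)
  · exact absurd h (hD _ _ _ _ hbc hqy)

end CT
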