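import Pool.Agent.H7.CT.IsoWalk
import Pool.Agent.H7.CT.Near

/-! # CT module LemK (Lemma K)

`Zn T D v q z`: `z` is a `D`-neighbour of `q` not in `N[v]`.
Proof. Among the `z` with `Zn v q z`, `0 < o v q z` take the first in clockwise rotation at `q` from `v`: for the
others `z'`: `o q z z' < 0` (`exists_first`/`exists_last` for `C.mir` at `q`).
`Ω := {x | C.Ins v q z x ∧ (¬ T.Adj v x ∨ ∃ z', Zn v x z')}`.
(a) `Ω ≠ ∅`: `UProp` for `z`: an edge `bc` crosses `vz`, not both ends in `N(v)`; name `b` the end right of `v → z`;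
 `cross_side`: `b = q` or `Ins v q z b`. If `b = q` then `Zn v q c` (`c ≠ v` since it crosses `vz`), `0 < o v q c`, and `0 < o q z c`… i.e. `c` is
 before `z` in the rotation (crossing with `vz`): contradiction with the choice of `z`. Otherwise `b ∈ Ω` (`¬ T.Adj v b`, or `Zn v b c`).
(b) `q'` := first element of `Ω` from `q` (`exists_first`): `0 < o v q' x` for the others.
(c) `T.Adj v q'`: otherwise `UProp` for `q'` gives `bc` crossing `vq'`, `b` right of `v → q'`. The edges `vq`, `qz` are not crossed; `b` is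
 `q` or inside `v q z` (`pasch` for the triangle `v q q'`: `b = q`, inside `vqq'` (fine), crosses `vq` (no) or crosses
 `qq'`; in the last case still `b` is inside `v q z`: `pasch`/`exit` for the triangle `v q z` from the crossing point;
 e.g. use `exit_tri` or the segment `c b` crossing `v q'`, `q'` inside `vqz`, `b` on the right side). `b = q`: then `Zn v q c` and `c` before `z`:
 contradiction. `b` inside: `b ∈ Ω`, `o v q' b < 0`: contradiction with (b).
(d) for `Zn v q' z'`: `0 < o v q' z'`: otherwise `z'` is right of `v → q'`, `q' z'` does not cross `vq`, `qz`: `z'` strictly inside `vqz`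
 (`z' ≠ q` as `q ∈ N(v)`), in `Ω` (`¬ T.Adj v z'`), before `q'`: contradiction. Existence of `z'`: `q' ∈ Ω`, `T.Adj v q'`.
(e) `p ∈ N(v)` in the cone `(q,q')`: in the cone `(q,z)`; `vp` does not cross `qz`, so `Ins v q z p` (`cone_dich`); if
 `Zn v p z'` then `p ∈ Ω` before `q'`: contradiction. -/

open Classical

namespace CT

variable {V : Type}

/-- the extreme `z` -/
private theorem LemK_first [Finite V] {C : Cfg V} {T D : SimpleGraph V} {v q z0 : V}
    (hz0 : Zn T D v q z0) (hA : 0 < C.o v q z0) :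
    ∃ z, Zn T D v q z ∧ 0 < C.o v q z ∧
      (∀ z', Zn T D v q z' → 0 < C.o v q z' → z' = z ∨ C.o q z z' < 0) := by
  obtain ⟨m, hm, hm2⟩ := exists_first C.mir q v {z | Zn T D v q z ∧ 0 < C.o v q z} ⟨z0, hz0, hA⟩
    (by
      rintro x ⟨_, hx⟩
      rw [Cfg.mir_o, C.o_swap q v x, neg_neg]
      exact hx)
  refine ⟨m, hm.1, hm.2, ?_⟩
  intro z' h1 h2
  by_cases h : z' = m
  · exact Or.inl h
  · right
    have := hm2 z' ⟨h1, h2⟩ h
    rw [Cfg.mir_o] at this
    linarith

/-- the analysis of an edge at `q` crossing `v x` with `x` in the closed triangle -/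
private theorem LemK_atq {C : Cfg V} {T D : SimpleGraph V} {v q z : V}
    (hq : T.Adj v q) (hA : 0 < C.o v q z)
    (hmin : ∀ z', Zn T D v q z' → 0 < C.o v q z' → z' = z ∨ C.o q z z' < 0)
    {x c : V} (hx1 : 0 < C.o v q x) (hx2 : 0 ≤ C.o q z x) (hqc : D.Adj q c)
    (hcr : C.Cross v x q c) (hn : ¬ (T.Adj v q ∧ T.Adj v c)) : False := by
  have hne := C.cross_ne hcr
  have hZ : Zn T D v q c := ⟨hqc, hne.2.2.1.symm, fun h => hn ⟨hq, h⟩⟩
  have h1 : C.o v x q < 0 := by rw [C.o_swap']; linarith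
  rcases C.cross_pattern hcr with ⟨a1, a2, a3, a4⟩ | ⟨a1, a2, a3, a4⟩
  · linarith
  · have h2 : 0 < C.o v q c := by rw [C.o_cyc]; exact a3
    rcases hmin c hZ h2 with h3 | h3
    · rw [h3] at a4
      linarith
    · have e1 : C.o q v x < 0 := by rw [C.o_swap]; linarith
      have e2 : C.o q v c < 0 := by rw [C.o_swap]; linarith
      have e3 : C.o q v z < 0 := by rw [C.o_swap]; linarith
      have e4 : 0 < C.o q x c := by rw [C.o_swap']; linarith
      have e5 : 0 < C.o q c z := by rw [C.o_swap']; linarith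
      have e6 := C.trans_half' e1 e2 e3 e4 e5
      have e7 : C.o q z x = - C.o q x z := by rw [C.o_swap']
      linarith

/-- a `D`-edge crossing `v q'`, `q'` inside `v q z`, has its right end in the triangle -/
private theorem LemK_right {C : Cfg V} {D : SimpleGraph V} (hD : Plane C D) {v q z q' b c : V}
    (hvq : D.Adj v q) (hqz : D.Adj q z) (hI : C.Ins v q z q') (hbc : D.Adj b c)
    (hcr : C.Cross v q' b c) (hb : C.o v q' b < 0) : b = q ∨ C.Ins v q z b := by
  have hA : 0 < C.o v q z := ins_pos C hI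
  obtain ⟨i1, i2, i3⟩ := hI
  rcases C.cross_pattern hcr with ⟨a1, a2, a3, a4⟩ | ⟨a1, a2, a3, a4⟩
  · linarith
  have p1 : 0 < C.o q' v b := by rw [C.o_swap]; linarith
  rcases pasch C i1 p1 (C.cross_symm hcr) with h | h | h | h
  · exact Or.inl h
  · right
    refine ⟨h.1, ?_, ?_⟩
    · apply C.ins_left h (p := q) (q := z)
      · rw [C.o_cyc' q z v]; exact hA.le
      · simp
      · exact i2.le
      · exact Or.inr (Or.inr i2)
    · apply C.ins_left h (p := z) (q := v)
      · simp
      · rw [C.o_cyc z v q]; exact hA.le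
      · exact i3.le
      · exact Or.inr (Or.inr i3)
  · exact absurd h (hD b c v q hbc hvq)
  · -- crosses `q q'`
    have h' := C.cross_symm h
    rcases C.cross_pattern h' with ⟨b1, b2, b3, b4⟩ | ⟨b1, b2, b3, b4⟩
    · linarith
    have p2 : 0 < C.o q' q b := by rw [C.o_swap]; linarith
    rcases pasch C i2 p2 h with g | g | g | g
    · exfalso
      subst g
      have : C.o v q' b = C.o b v q' := by rw [C.o_cyc' v q' b]
      linarith
    · right
      refine ⟨?_, g.1, ?_⟩
      · apply C.ins_left g (p := v) (q := q)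
        · simp
        · exact hA.le
        · exact i1.le
        · exact Or.inr (Or.inl hA)
      · apply C.ins_left g (p := z) (q := v)
        · rw [C.o_cyc z v q]; exact hA.le
        · simp
        · exact i3.le
        · exact Or.inr (Or.inr i3)
    · exact absurd g (hD b c q z hbc hqz)
    · exfalso
      have g' := C.cross_symm g
      rcases C.cross_pattern g' with ⟨c1, c2, c3, c4⟩ | ⟨c1, c2, c3, c4⟩
      · linarith
      · have := C.ins_left ⟨i1, i2, i3⟩ (p := b) (q := c) a3.le b3.le c3.le (Or.inl a3)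
        linarith

theorem lemK [Finite V] {C : Cfg V} {T D : SimpleGraph V} (hs : Setup C T D) {v q z0 : V}
    (hv : Iso C T D v) (hU : UProp C T D v) (hq : T.Adj v q) (hz0 : Zn T D v q z0)
    (hA : 0 < C.o v q z0) :
    ∃ z q', Zn T D v q z ∧ 0 < C.o v q z ∧
      (∀ z', Zn T D v q z' → 0 < C.o v q z' → z' = z ∨ C.o q z z' < 0) ∧
      T.Adj v q' ∧ C.Ins v q z q' ∧ (∃ z', Zn T D v q' z') ∧
      (∀ z', Zn T D v q' z' → 0 < C.o v q' z') ∧
      (∀ p, T.Adj v p → 0 < C.o v q p → 0 < C.o v p q' →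
        C.Ins v q z p ∧ ∀ z', ¬ Zn T D v p z') := by
  obtain ⟨z, hz, hA, hmin⟩ := LemK_first (C := C) hz0 hA
  have hpl : Plane C D := hs.mp.1
  have hvq : D.Adj v q := hs.le hq
  have hqz : D.Adj q z := hz.1
  -- the set `Ω`
  set Om : Set V := {x | C.Ins v q z x ∧ (¬ T.Adj v x ∨ ∃ z', Zn T D v x z')} with hOm
  have memOm : ∀ {b c : V}, C.Ins v q z b → D.Adj b c → c ≠ v → ¬ (T.Adj v b ∧ T.Adj v c) →
      b ∈ Om := by
    intro b c h1 h2 h3 h4
    refine ⟨h1, ?_⟩
    by_cases h5 : T.Adj v b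
    · exact Or.inr ⟨c, h2, h3, fun h => h4 ⟨h5, h⟩⟩
    · exact Or.inl h5
  have hne : Om.Nonempty := by
    obtain ⟨b, c, hbc, hcr, hn⟩ := hU z hz.2.1 hz.2.2
    -- name `b` the right end
    have key : ∀ b c : V, D.Adj b c → C.Cross v z b c → ¬ (T.Adj v b ∧ T.Adj v c) →
        C.o v z b < 0 → Om.Nonempty := by
      intro b c hbc hcr hn hb
      have hcne := C.cross_ne hcr
      rcases cross_side C D hpl hvq hqz hA hbc hcr hb with h | h
      · exfalso
        subst h
        exact LemK_atq hq hA hmin hA (by simp) hbc hcr hn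
      · exact ⟨b, memOm h hbc hcne.2.2.1.symm hn⟩
    rcases C.cross_pattern hcr with ⟨a1, a2, a3, a4⟩ | ⟨a1, a2, a3, a4⟩
    · exact key c b hbc.symm (C.cross_symm34 hcr) (fun h => hn ⟨h.2, h.1⟩) a2
    · exact key b c hbc hcr hn a1
  obtain ⟨q', hq'Om, hfirst⟩ := exists_first C v q Om hne (fun x hx => hx.1.1)
  obtain ⟨hI, hq'2⟩ := hq'Om
  have hvz : 0 < C.o v q' z := by rw [C.o_cyc' v q' z]; exact hI.2.2
  have hTq' : T.Adj v q' := by
    by_contra hcon
    have hq'v : q' ≠ v := ((C.ne_of_o_pos hI.1).2.1).symm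
    obtain ⟨b, c, hbc, hcr, hn⟩ := hU q' hq'v hcon
    have key : ∀ b c : V, D.Adj b c → C.Cross v q' b c → ¬ (T.Adj v b ∧ T.Adj v c) →
        C.o v q' b < 0 → False := by
      intro b c hbc hcr hn hb
      have hcne := C.cross_ne hcr
      rcases LemK_right hpl hvq hqz hI hbc hcr hb with h | h
      · subst h
        exact LemK_atq hq hA hmin hI.1 hI.2.1.le hbc hcr hn
      · have h1 := hfirst b (memOm h hbc hcne.2.2.1.symm hn) hcne.2.2.2.1.symm
        linarith
    rcases C.cross_pattern hcr with ⟨a1, a2, a3, a4⟩ | ⟨a1, a2, a3, a4⟩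
    · exact key c b hbc.symm (C.cross_symm34 hcr) (fun h => hn ⟨h.2, h.1⟩) a2
    · exact key b c hbc hcr hn a1
  have hex : ∃ z', Zn T D v q' z' := by
    rcases hq'2 with h | h
    · exact absurd hTq' h
    · exact h
  refine ⟨z, q', hz, hA, hmin, hTq', hI, hex, ?_, ?_⟩
  · intro z' hz'
    have hq'v : v ≠ q' := (C.ne_of_o_pos hI.1).2.1
    rcases C.o_pos_or_neg hq'v (fun h => hz'.2.1 h.symm) hz'.1.ne with h | h
    · exact h
    · exfalso
      rcases exit_tri C hI hz'.1.ne.symm with g | g | g | g | g | g | g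
      · exact hz'.2.1 g
      · exact hz'.2.2 (g ▸ hq)
      · rw [g] at h
        linarith
      · have h1 := hfirst z' ⟨g, Or.inl hz'.2.2⟩ hz'.1.ne.symm
        linarith
      · exact hpl _ _ _ _ hz'.1 hvq g
      · exact hpl _ _ _ _ hz'.1 hqz g
      · have g' := C.cross_symm g
        have e1 := C.o_sum q' z' z v
        have e2 : C.o v z' z = C.o z v z' := by rw [C.o_cyc' v z' z]
        have e3 : C.o v z q' = - C.o v q' z := by rw [C.o_swap']
        have e4 : C.o q' z' v = C.o v q' z' := by rw [C.o_cyc' q' z' v]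
        have h5 := hI.2.2
        rcases C.cross_pattern g' with ⟨c1, c2, c3, c4⟩ | ⟨c1, c2, c3, c4⟩
        · linarith
        · linarith
  · intro p hp h1 h2
    have h3 : 0 < C.o v p z := C.trans_half h1 hI.1 hA h2 hvz
    have hIp : C.Ins v q z p := by
      rcases C.cone_dich h1 h3 hA with h | h
      · exact h
      · exact absurd h (hpl _ _ _ _ (hs.le hp) hqz)
    refine ⟨hIp, ?_⟩
    intro z' hz'
    have h4 := hfirst p ⟨hIp, Or.inr ⟨z', hz'⟩⟩ (C.ne_of_o_pos h2).2.2
    have h5 : C.o v q' p = - C.o v p q' := by rw [C.o_swap']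
    linarith

end CT
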