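import Pool.Agent.H7.CT.Geo

/-! # CT module LemX (Lemma X): moving to a less crossed neighbour

Let the edge `rs` of the plane graph `D` cross the segment `aq`, `r` to the left of `a → q`.
Then there is a point `p`, angularly in `(q, r]` seen from `a`, such that every edge of `D`
crossing `ap` crosses `aq`, while `rs` does not cross `ap`.

Proof. `o a s r > 0`, triangle `a s r` counterclockwise. Let
`X = {x | 0 < o a q x ∧ C.Ins a s r x} ∪ {r}` and `p ∈ X` angularly first from `q`
(`exists_first` with reference `q`): `0 < o a p x` for the other `x ∈ X`. `p` is in the closed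
triangle, so `rs` does not cross `ap`.
Let `cd` be an edge crossing `ap`, `c` left of `a → p`, `d` right (`o a p d < 0`). `cd` does not
cross `rs` (planarity).
Case A: `d = q` or `d` in the cone from `q` to `p` (`0 < o a q d`): `d` is not inside `a s r`
(it would be in `X` before `p`), so it is beyond `sr` (for `d = q` because `rs` crosses `aq`), and
then `cd` crosses `rs` (the crossing point with `ap` is inside or on the closed triangle, `d` beyond `sr` in
the cone of `a` over `sr`): contradiction.
Case B: `o a q d < 0`. The segment from the crossing point `Z` (on `ap`) to `d` crosses the line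
`aq` in a point `Y` of the open ray `aq`. If `Y` is before `q` we get `Cross a q c d`. Otherwise `Y` is beyond `sr`, and
`cd` crosses `rs` between `Z` and `Y`: contradiction.
(Work with the real crossing points, e.g. `Z = a + t (p - a)`, or with orientation signs and
`C.gpi`, `C.o_sum`.)  `lemX'` is the mirror image (apply `lemX` to `C.mir`). -/

open Classical

namespace CT

variable {V : Type}

/-- the crossing point of two lines, evaluated with an orientation function -/
theorem LemX_id (C : Cfg V) (a q c d r s : V) :
    C.o a q c * C.o r s d - C.o a q d * C.o r s c =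
      C.o c d q * C.o r s a - C.o c d a * C.o r s q := by
  unfold Cfg.o; ring

theorem LemX_core (C : Cfg V) (D : SimpleGraph V) (hD : Plane C D) {a q r s p c d : V}
    (hrs : D.Adj r s) (hr : 0 < C.o a q r) (hs : C.o a q s < 0) (hfa : C.o r s a < 0)
    (hfq : 0 < C.o r s q) (hAp : 0 < C.o a q p) (hfp : C.o r s p ≤ 0) (hBr : 0 ≤ C.o a p r)
    (hBs : C.o a p s < 0)
    (hX : ∀ x, 0 < C.o a q x → C.Ins a s r x → x ≠ p → 0 < C.o a p x) (hpr : p = r ∨ 0 < C.o a p r)
    (hcd : D.Adj c d) (hBc : 0 < C.o a p c) (hBd : C.o a p d < 0) (hga : C.o c d a < 0)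
    (hgp : 0 < C.o c d p) : C.Cross a q c d := by
  have hnc : ¬ C.Cross r s c d := hD r s c d hrs hcd
  -- the value at the crossing point with `ap`
  have hFZ : C.o a p c * C.o r s d - C.o a p d * C.o r s c < 0 := by
    rw [LemX_id C a p c d r s]
    nlinarith [mul_neg_of_pos_of_neg hgp hfa, mul_nonneg_of_nonpos_of_nonpos hga.le hfp]
  have hgrs : C.o c d s * C.o a p r - C.o c d r * C.o a p s =
      C.o r s c * C.o a p d - C.o r s d * C.o a p c := (LemX_id C r s c d a p).symm
  have hK := C.gpi a q p c d
  have hga' : C.o a c d = C.o c d a := C.o_cyc a c d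
  have hqc : q ≠ c := by
    rintro rfl
    have := C.o_swap' a q p
    linarith
  have hne := C.ne_of_o_neg hBd
  have hnq := C.ne_of_o_pos hAp
  by_cases hdq : C.o a q d < 0
  · -- case B
    have hAc : 0 < C.o a q c := by
      by_contra h
      rw [not_lt] at h
      rw [hga'] at hK
      nlinarith [mul_neg_of_pos_of_neg hAp hga, mul_neg_of_neg_of_pos hdq hBc,
        mul_nonneg_of_nonpos_of_nonpos h hBd.le]
    by_cases hgq : 0 < C.o c d q
    · exact Cfg.cross_of C hAc hdq hgq hga
    · exfalso
      have hcdn := C.ne_of_o_neg hga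
      have hqd : q ≠ d := by
        rintro rfl
        simp at hdq
      have hgq' : C.o c d q < 0 := by
        rcases C.o_pos_or_neg hcdn.1 hqc.symm hqd.symm with h | h
        · exact absurd h hgq
        · exact h
      have hFY : 0 < C.o a q c * C.o r s d - C.o a q d * C.o r s c := by
        rw [LemX_id C a q c d r s]
        nlinarith [mul_pos_of_neg_of_neg hgq' hfa, mul_neg_of_neg_of_pos hga hfq]
      have hKpos : 0 < -(C.o a q c * C.o a p d) + C.o a q d * C.o a p c := by
        rw [hga'] at hK
        nlinarith [mul_neg_of_pos_of_neg hAp hga]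
      have hfd : 0 < C.o r s d := by
        have h1 : C.o r s d * (-(C.o a q c * C.o a p d) + C.o a q d * C.o a p c) =
            (C.o a q c * C.o r s d - C.o a q d * C.o r s c) * (-C.o a p d) +
              (C.o a p c * C.o r s d - C.o a p d * C.o r s c) * C.o a q d := by ring
        have h2 : 0 < C.o r s d * (-(C.o a q c * C.o a p d) + C.o a q d * C.o a p c) := by
          rw [h1]
          have h3 := mul_pos hFY (neg_pos.2 hBd)
          have h4 := mul_pos_of_neg_of_neg hFZ hdq
          linarith
        exact (pos_iff_pos_of_mul_pos h2).2 hKpos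
      have hfc : C.o r s c < 0 := by
        have h1 : (-C.o r s c) * (-(C.o a q c * C.o a p d) + C.o a q d * C.o a p c) =
            (C.o a q c * C.o r s d - C.o a q d * C.o r s c) * C.o a p c -
              (C.o a p c * C.o r s d - C.o a p d * C.o r s c) * C.o a q c := by ring
        have h2 : 0 < (-C.o r s c) * (-(C.o a q c * C.o a p d) + C.o a q d * C.o a p c) := by
          rw [h1]
          have h3 := mul_pos hFY hBc
          have h4 := mul_neg_of_neg_of_pos hFZ hAc
          linarith
        have := (pos_iff_pos_of_mul_pos h2).2 hKpos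
        linarith
      have hAX : C.o c d s * C.o a q r - C.o c d r * C.o a q s =
          C.o r s c * C.o a q d - C.o r s d * C.o a q c := (LemX_id C r s c d a q).symm
      apply hnc
      refine ⟨mul_neg_of_neg_of_pos hfc hfd, ?_⟩
      -- the signs of `o c d r`, `o c d s`
      by_contra h
      rw [not_lt] at h
      have h5 : 0 < C.o c d r * C.o a q s - C.o c d s * C.o a q r := by linarith
      have h6 : 0 < C.o c d s * C.o a p r - C.o c d r * C.o a p s := by linarith
      rcases lt_trichotomy (C.o c d r) 0 with h7 | h7 | h7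
      · have h8 : C.o c d s ≤ 0 := by
          by_contra h8
          rw [not_le] at h8
          linarith [mul_neg_of_neg_of_pos h7 h8]
        nlinarith [mul_nonneg_of_nonpos_of_nonpos h7.le hBs.le, mul_nonneg (neg_nonneg.2 h8) hBr]
      · rw [h7] at h5 h6
        have h8 : 0 < C.o c d s := by
          by_contra h8
          rw [not_lt] at h8
          nlinarith [mul_nonneg (neg_nonneg.2 h8) hBr]
        nlinarith [mul_pos h8 hr]
      · have h8 : 0 ≤ C.o c d s := by
          by_contra h8
          rw [not_le] at h8
          linarith [mul_neg_of_pos_of_neg h7 h8]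
        nlinarith [mul_neg_of_pos_of_neg h7 hs, mul_nonneg h8 hr.le]
  · -- case A
    exfalso
    have hsp : 0 < C.o a s p := by
      have := C.o_swap' a s p
      linarith
    have hsq : 0 < C.o a s q := by
      have := C.o_swap' a s q
      linarith
    have hsr : 0 < C.o a s r := by
      have h1 := C.o_swap' a s r
      have h2 : C.o a r s = C.o r s a := C.o_cyc a r s
      linarith
    have hdp : 0 < C.o a d p := by
      have := C.o_swap' a d p
      linarith
    have key : 0 < C.o r s d ∧ 0 < C.o a s d := by
      by_cases hdq' : d = q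
      · subst hdq'
        exact ⟨hfq, hsq⟩
      · have hqd : 0 < C.o a q d := by
          rcases C.o_pos_or_neg hnq.1 hne.2.1 (Ne.symm hdq') with h | h
          · exact h
          · exact absurd h hdq
        have hsd : 0 < C.o a s d := by
          have h1 := C.gpi a s q d p
          have h2 : 0 < C.o a s d * C.o a q p := by
            nlinarith [mul_pos hsq hdp, mul_pos hsp hqd]
          exact (pos_iff_pos_of_mul_pos h2).2 hAp
        have hdr : 0 < C.o a d r := by
          rcases hpr with h | h
          · rw [← h]; exact hdp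
          · have h1 := C.gpi a q d p r
            have h2 : 0 < C.o a q p * C.o a d r := by
              nlinarith [mul_pos hqd h, mul_pos hr hdp]
            exact (pos_iff_pos_of_mul_pos h2).1 hAp
        have hn1 := C.ne_of_o_pos hsd
        have hn2 := C.ne_of_o_pos hdr
        have hn3 := C.ne_of_o_pos hsr
        refine ⟨?_, hsd⟩
        rcases C.o_pos_or_neg hn3.2.2.symm hn2.2.2.symm hn1.2.2 with h | h
        · exact h
        · exfalso
          have h3 : C.Ins a s r d := by
            refine ⟨hsd, ?_, ?_⟩
            · have := C.o_swap s r d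
              linarith
            · rw [C.o_cyc r a d]; exact hdr
          have h4 := hX d hqd h3 hne.2.2.symm
          linarith
    obtain ⟨hfd, hsd⟩ := key
    have hfc : C.o r s c < 0 := by
      by_contra h
      rw [not_lt] at h
      nlinarith [mul_pos hBc hfd, mul_nonneg (neg_nonneg.2 hBd.le) h]
    apply hnc
    refine ⟨mul_neg_of_neg_of_pos hfc hfd, ?_⟩
    -- `h = o a s ·`
    have hHZ : C.o a p c * C.o a s d - C.o a p d * C.o a s c = - C.o c d a * C.o a s p := by
      rw [LemX_id C a p c d a s]
      simp
    have hhX : C.o r s c * C.o a s d - C.o r s d * C.o a s c = C.o c d s * C.o a s r := by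
      rw [LemX_id C r s c d a s]
      simp
    have hgs : C.o c d s < 0 := by
      have h1 : (C.o r s c * C.o a s d - C.o r s d * C.o a s c) * C.o a p d =
          C.o r s d * (C.o a p c * C.o a s d - C.o a p d * C.o a s c) -
            (C.o a p c * C.o r s d - C.o a p d * C.o r s c) * C.o a s d := by ring
      rw [hhX, hHZ] at h1
      have h2 : 0 < C.o c d s * C.o a s r * C.o a p d := by
        rw [h1]
        have h3 := mul_pos hfd (mul_pos (neg_pos.2 hga) hsp)
        have h4 := mul_neg_of_neg_of_pos hFZ hsd
        linarith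
      by_contra h
      rw [not_lt] at h
      have := mul_nonpos_of_nonneg_of_nonpos (mul_nonneg h hsr.le) hBd.le
      linarith
    have hgr : 0 < C.o c d r := by
      have h6 : 0 < C.o c d s * C.o a p r - C.o c d r * C.o a p s := by linarith
      by_contra h
      rw [not_lt] at h
      nlinarith [mul_nonneg_of_nonpos_of_nonpos h hBs.le, mul_nonneg (neg_nonneg.2 hgs.le) hBr]
    exact mul_neg_of_pos_of_neg hgr hgs

theorem lemX [Finite V] (C : Cfg V) (D : SimpleGraph V) (hD : Plane C D) {a q r s : V}
    (hrs : D.Adj r s) (hcr : C.Cross a q r s) (hr : 0 < C.o a q r) :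
    ∃ p, 0 < C.o a q p ∧ (p = r ∨ 0 < C.o a p r) ∧
      (∀ c d, D.Adj c d → C.Cross a p c d → C.Cross a q c d) ∧ ¬ C.Cross a p r s := by
  rcases C.cross_pattern hcr with ⟨h1, h2, h3, h4⟩ | ⟨h1, _⟩
  · obtain ⟨p, hp, hpX⟩ := exists_first C a q {x | x = r ∨ (0 < C.o a q x ∧ C.Ins a s r x)} ⟨r, Or.inl rfl⟩
      (by
        rintro x (rfl | ⟨hx, _⟩)
        · exact hr
        · exact hx)
    have hAp : 0 < C.o a q p := by
      rcases hp with rfl | ⟨hx, _⟩
      · exact hr
      · exact hx
    have hpr : p = r ∨ 0 < C.o a p r := by
      by_cases h : r = p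
      · exact Or.inl h.symm
      · exact Or.inr (hpX r (Or.inl rfl) h)
    have hrsa : C.o a r s = C.o r s a := C.o_cyc a r s
    have hfp : C.o r s p ≤ 0 := by
      rcases hp with rfl | ⟨_, hx⟩
      · rw [C.o_aba]
      · have := C.o_swap s r p
        linarith [hx.2.1]
    have hBs : C.o a p s < 0 := by
      rcases hp with rfl | ⟨_, hx⟩
      · linarith
      · have := C.o_swap' a s p
        linarith [hx.1]
    have hBr : 0 ≤ C.o a p r := by
      rcases hpr with h | h
      · rw [h, C.o_baa]
      · exact h.le
    have hcore : ∀ c d, D.Adj c d → 0 < C.o a p c → C.o a p d < 0 → C.o c d a < 0 → 0 < C.o c d p →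
        C.Cross a q c d := by
      intro c d hcd k1 k2 k3 k4
      exact LemX_core C D hD hrs hr h2 h3 h4 hAp hfp hBr hBs
        (fun x hx1 hx2 hx3 => hpX x (Or.inr ⟨hx1, hx2⟩) hx3) hpr hcd k1 k2 k3 k4
    refine ⟨p, hAp, hpr, fun c d hcd hx => ?_, fun hx => ?_⟩
    · rcases C.cross_pattern hx with ⟨k1, k2, k3, k4⟩ | ⟨k1, k2, k3, k4⟩
      · exact hcore c d hcd k1 k2 k3 k4
      · have e1 := C.o_swap d c a
        have e2 := C.o_swap d c p
        exact C.cross_symm34 (hcore d c hcd.symm k2 k1 (by linarith) (by linarith))
    · have := hx.2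
      nlinarith [mul_nonneg_of_nonpos_of_nonpos h3.le hfp]
  · linarith

theorem lemX' [Finite V] (C : Cfg V) (D : SimpleGraph V) (hD : Plane C D) {a q r s : V}
    (hrs : D.Adj r s) (hcr : C.Cross a q r s) (hr : C.o a q r < 0) :
    ∃ p, C.o a q p < 0 ∧ (p = r ∨ C.o a p r < 0) ∧
      (∀ c d, D.Adj c d → C.Cross a p c d → C.Cross a q c d) ∧ ¬ C.Cross a p r s := by
  obtain ⟨p, h1, h2, h3, h4⟩ := lemX C.mir D (plane_mir.2 hD) hrs ((C.mir_cross a q r s).2 hcr)
    (by rw [C.mir_o]; linarith)
  rw [C.mir_o] at h1 h2
  simp only [C.mir_cross] at h3 h4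
  refine ⟨p, by linarith, ?_, h3, h4⟩
  rcases h2 with h | h
  · exact Or.inl h
  · exact Or.inr (by linarith)

end CT
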