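import Pool.Agent.H7.CT.Res

/-! # CT module Red2a: tree exchange after deleting a vertex of degree two

Proof. `B := f` from `tree_cut` for the edge `x u`: `f x`, `¬ f u`, `f` invariant on the other `T`-edges, so `f w`. Let `f p`, `¬ f q`, `p, q ≠ x`: `pq` is no `T`-edge (it would be `xu`).
`Off`: `g` invariant on `del T x ⊔ edge p q`. Let `g' z := if z = x then g w else g z`: invariant on all `T`-edges except `xu`. If also `g' x ↔ g' u`: constant (`conn_iff`). Otherwise `h z := (g' z ↔ f z)` is invariant on all `T`-edges, so constant; `h p ↔ h q` and `g' p ↔ g' q` contradict `f p`, `¬ f q`.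
Count: `T.edgeSet = insert s(x,u) (insert s(x,w) (del T x).edgeSet)`, `(del T x ⊔ edge p q).edgeSet = insert s(p,q) (del T x).edgeSet`. -/

open Classical

namespace CT

variable {V : Type}

theorem Red2a_prop {a b c d : Prop} (hc : c) (hd : ¬ d) (h : ¬ (a ↔ b)) :
    (a ↔ c) ↔ (b ↔ d) := by
  by_cases k1 : a <;> by_cases k2 : b <;> simp_all

theorem off_two [Finite V] {T : SimpleGraph V} (hT : T.IsTree) {x u w : V} (hu : T.Adj x u)
    (hw : T.Adj x w) (huw : u ≠ w) (hx : ∀ z, T.Adj x z → z = u ∨ z = w) :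
    ∃ B : V → Prop, B w ∧ ¬ B u ∧ ∀ p q, p ≠ x → q ≠ x → B p → ¬ B q →
      ¬ T.Adj p q ∧ Off x (del T x ⊔ SimpleGraph.edge p q) ∧
        (del T x ⊔ SimpleGraph.edge p q).edgeSet.ncard + 2 = Nat.card V := by
  obtain ⟨f, f1, f2, f3⟩ := tree_cut T hT hu
  have hfw : f w := (f3 x w hw (fun h => huw h.2.symm) (fun h => hu.ne h.1)).mp f1
  refine ⟨f, hfw, f2, ?_⟩
  intro p q hp hq hfp hfq
  have hpq : p ≠ q := by rintro rfl; exact hfq hfp
  have hnadj : ¬ T.Adj p q := by
    intro h
    exact hfq ((f3 p q h (fun h' => hp h'.1) (fun h' => hq h'.2)).mp hfp)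
  refine ⟨hnadj, ⟨?_, ?_⟩, ?_⟩
  · intro a ha
    rw [SimpleGraph.sup_adj, edge_adj' hpq] at ha
    rcases ha with ha | ⟨h1, h2⟩ | ⟨h1, h2⟩
    · exact ha.2.1 rfl
    · exact hp h1.symm
    · exact hq h1.symm
  · intro g hg a b ha hb
    have hx' : ∀ z, T.Adj x z → z ≠ u → z = w := fun z hz hzu => (hx z hz).resolve_left hzu
    have hadj : ∀ c d, T.Adj c d → c ≠ x → d ≠ x → (g c ↔ g d) := by
      intro c d hcd hc hd
      exact hg c d (by rw [SimpleGraph.sup_adj]; exact Or.inl ⟨hcd, hc, hd⟩)
    have hgpq : g p ↔ g q := hg p q (by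
      rw [SimpleGraph.sup_adj, edge_adj' hpq]; exact Or.inr (Or.inl ⟨rfl, rfl⟩))
    obtain ⟨g', hg'x, hg'⟩ : ∃ g' : V → Prop, (g' x ↔ g w) ∧ ∀ z, z ≠ x → (g' z ↔ g z) :=
      ⟨fun z => if z = x then g w else g z, by simp, fun z hz => by simp [hz]⟩
    have hinv : ∀ c d, T.Adj c d → ¬ (c = x ∧ d = u) → ¬ (c = u ∧ d = x) → (g' c ↔ g' d) := by
      intro c d hcd h1 h2
      by_cases hc : c = x
      · subst hc
        have hdw : d = w := hx' d hcd (fun h => h1 ⟨rfl, h⟩)
        rw [hg'x, hg' d hcd.ne', hdw]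
      · by_cases hd : d = x
        · subst hd
          have hcw : c = w := hx' c hcd.symm (fun h => h2 ⟨h, rfl⟩)
          rw [hg'x, hg' c hc, hcw]
        · rw [hg' c hc, hg' d hd]
          exact hadj c d hcd hc hd
    have hconn := ((conn_iff T).mp hT.connected).2
    have key : ∀ c d, g' c ↔ g' d := by
      by_cases hxu : g' x ↔ g' u
      · refine hconn g' (fun c d hcd => ?_)
        by_cases h1 : c = x ∧ d = u
        · rw [h1.1, h1.2]; exact hxu
        · by_cases h2 : c = u ∧ d = x
          · rw [h2.1, h2.2]; exact hxu.symm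
          · exact hinv c d hcd h1 h2
      · exfalso
        have hh : ∀ c d, T.Adj c d → ((g' c ↔ f c) ↔ (g' d ↔ f d)) := by
          intro c d hcd
          by_cases h1 : c = x ∧ d = u
          · rw [h1.1, h1.2]
            exact Red2a_prop f1 f2 hxu
          · by_cases h2 : c = u ∧ d = x
            · rw [h2.1, h2.2]
              exact (Red2a_prop f1 f2 hxu).symm
            · rw [hinv c d hcd h1 h2, f3 c d hcd h1 h2]
        have h3 : (g' p ↔ f p) ↔ (g' q ↔ f q) := hconn (fun z => (g' z ↔ f z)) hh p q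
        rw [hg' p hp, hg' q hq, hgpq] at h3
        have h6 : (g q ↔ f p) ↔ g q := ⟨fun h => h.mpr hfp, fun h => iff_of_true h hfp⟩
        have h7 : (g q ↔ f q) ↔ ¬ g q := ⟨fun h k => hfq (h.mp k), fun h => iff_of_false h hfq⟩
        rw [h6, h7] at h3
        by_cases k : g q
        · exact h3.mp k k
        · exact k (h3.mpr k)
    exact ((hg' a ha).symm.trans (key a b)).trans (hg' b hb)
  · have hcard := tree_card hT
    have e1 : T.edgeSet = insert s(x, u) (insert s(x, w) (del T x).edgeSet) := by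
      ext e
      induction e using Sym2.ind with
      | _ c d =>
        simp only [Set.mem_insert_iff, SimpleGraph.mem_edgeSet, Sym2.eq_iff]
        constructor
        · intro hcd
          by_cases hc : c = x
          · subst hc
            rcases hx d hcd with h | h
            · exact Or.inl (Or.inl ⟨rfl, h⟩)
            · exact Or.inr (Or.inl (Or.inl ⟨rfl, h⟩))
          · by_cases hd : d = x
            · subst hd
              rcases hx c hcd.symm with h | h
              · exact Or.inl (Or.inr ⟨h, rfl⟩)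
              · exact Or.inr (Or.inl (Or.inr ⟨h, rfl⟩))
            · exact Or.inr (Or.inr ⟨hcd, hc, hd⟩)
        · rintro ((⟨rfl, rfl⟩ | ⟨rfl, rfl⟩) | ((⟨rfl, rfl⟩ | ⟨rfl, rfl⟩) | h))
          · exact hu
          · exact hu.symm
          · exact hw
          · exact hw.symm
          · exact h.1
    have e2 : (del T x ⊔ SimpleGraph.edge p q).edgeSet = insert s(p, q) (del T x).edgeSet := by
      ext e
      induction e using Sym2.ind with
      | _ c d =>
        simp only [Set.mem_insert_iff, SimpleGraph.mem_edgeSet, Sym2.eq_iff,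
          SimpleGraph.sup_adj, edge_adj' hpq]
        exact Or.comm
    have n1 : s(x, w) ∉ (del T x).edgeSet := fun h => by
      rw [SimpleGraph.mem_edgeSet] at h; exact h.2.1 rfl
    have n2 : s(x, u) ∉ insert s(x, w) (del T x).edgeSet := by
      rw [Set.mem_insert_iff, Sym2.eq_iff]
      rintro ((⟨-, h⟩ | ⟨h, -⟩) | h)
      · exact huw h
      · exact hw.ne h
      · rw [SimpleGraph.mem_edgeSet] at h; exact h.2.1 rfl
    have n3 : s(p, q) ∉ (del T x).edgeSet := fun h => by
      rw [SimpleGraph.mem_edgeSet] at h; exact hnadj h.1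
    rw [e1, Set.ncard_insert_of_notMem n2 (Set.toFinite _),
      Set.ncard_insert_of_notMem n1 (Set.toFinite _)] at hcard
    rw [e2, Set.ncard_insert_of_notMem n3 (Set.toFinite _)]
    omega

end CT
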