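import Pool.Agent.H7.CT.Res
import Pool.Agent.H7.CT.HullPair

/-! # CT module Red2b: `x` has exactly two `T`-edges, both hull edges; case `{p,q} ≠ {u,w}`

`T0 := del T x ⊔ edge p q`, `G` with `Off x G`, `T0 ⊔ G` plane. Edges `x p`, `x q` cross no edge between other points (`beyond_not_cross`), and `x u`, `x w` cross nothing (`he_not_cross`); edges with a common end do not cross (`cross_ne`).
Case `¬ G.Adj p q`: `G' := G ⊔ edge x p` if `p ≠ w`, otherwise `G ⊔ edge x q` (then `q ≠ u`); the new edge is not in `T` (`p ≠ u`, `q ≠ w`). `T ⊓ G' = T0 ⊓ G`.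
Case `G.Adj p q`: `G' := (G.deleteEdges {s(p,q)}) ⊔ edge x p ⊔ edge x q`: connected: an invariant predicate satisfies `g p ↔ g x ↔ g q`, so it is invariant on `G` off `x`. `T ⊓ G'`: its edges are those of `T0 ⊓ G` except `s(p,q)` (which is in `T0 ⊓ G`) and at most one of `s(x,p)`, `s(x,q)`
(not both in `T`: that would be `p = w`, `q = u`). So `ncard (T ⊓ G') ≤ ncard (T0 ⊓ G)`. -/

open Classical

namespace CT

variable {V : Type}

/-- edges away from `x` of a plane graph together with `xu`, `xw`, `xp`, `xq` -/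
theorem Red2b_plane (C : Cfg V) {x u w p q : V} (h1 : HE C x u) (h2 : HE C w x)
    (hv : 0 < C.o p q x) (hH : ∀ z, z ≠ x → ¬ 0 < C.o p q z) {K H : SimpleGraph V}
    (hK : Plane C K)
    (hadj : ∀ a b, H.Adj a b → (a ≠ x ∧ b ≠ x ∧ K.Adj a b) ∨
      (a = x ∧ (b = u ∨ b = w ∨ b = p ∨ b = q)) ∨ (b = x ∧ (a = u ∨ a = w ∨ a = p ∨ a = q))) :
    Plane C H := by
  have key : ∀ c a b : V, (c = u ∨ c = w ∨ c = p ∨ c = q) → H.Adj a b → ¬ C.Cross x c a b := by
    intro c a b hc hab hcr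
    rcases hc with rfl | rfl | hc
    · exact he_not_cross C (Or.inl h1) hcr
    · exact he_not_cross C (Or.inr h2) hcr
    · have hn := C.cross_ne hcr
      exact beyond_not_cross C hv hH hc (Ne.symm hn.2.1) (Ne.symm hn.2.2.1) hcr
  intro a b c d hab hcd hcr
  rcases hadj a b hab with h | ⟨rfl, h⟩ | ⟨rfl, h⟩
  · rcases hadj c d hcd with h' | ⟨rfl, h'⟩ | ⟨rfl, h'⟩
    · exact hK a b c d h.2.2 h'.2.2 hcr
    · exact key d a b h' hab (C.cross_symm hcr)
    · exact key c a b h' hab (C.cross_symm12 (C.cross_symm hcr))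
  · exact key b c d h hcd hcr
  · exact key a c d h hcd (C.cross_symm12 hcr)

theorem red2b [Finite V] (C : Cfg V) (T : SimpleGraph V) (hp : Plane C T) {x u w p q : V}
    (hu : T.Adj x u) (hw : T.Adj x w) (hx : ∀ z, T.Adj x z → z = u ∨ z = w)
    (h1 : HE C x u) (h2 : HE C w x) (hpx : p ≠ x) (hqx : q ≠ x) (hpu : p ≠ u) (hqw : q ≠ w)
    (hne : ¬ (p = w ∧ q = u)) (hpq : ¬ T.Adj p q) (hv : 0 < C.o p q x)
    (hH : ∀ z, z ≠ x → ¬ 0 < C.o p q z) {G : SimpleGraph V} (hG : Off x G)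
    (hGp : Plane C (del T x ⊔ SimpleGraph.edge p q ⊔ G))
    (hc : ((del T x ⊔ SimpleGraph.edge p q) ⊓ G).edgeSet.ncard ≤ 1 ∨
      5 * ((del T x ⊔ SimpleGraph.edge p q) ⊓ G).edgeSet.ncard + 3 ≤ Nat.card V) :
    Good C T := by
  have hpq' : p ≠ q := (C.ne_of_o_pos hv).1
  have hTx : ∀ a, T.Adj x a → a ≠ u → a ≠ w → False := by
    intro a ha h3 h4
    rcases hx a ha with h | h
    · exact h3 h
    · exact h4 h
  -- edges of `T`
  have hTadj : ∀ a b, T.Adj a b →
      (a ≠ x ∧ b ≠ x ∧ (del T x ⊔ SimpleGraph.edge p q ⊔ G).Adj a b) ∨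
      (a = x ∧ (b = u ∨ b = w ∨ b = p ∨ b = q)) ∨
        (b = x ∧ (a = u ∨ a = w ∨ a = p ∨ a = q)) := by
    intro a b hab
    by_cases ha : a = x
    · subst ha
      rcases hx b hab with h | h
      · exact Or.inr (Or.inl ⟨rfl, Or.inl h⟩)
      · exact Or.inr (Or.inl ⟨rfl, Or.inr (Or.inl h)⟩)
    · by_cases hb : b = x
      · subst hb
        rcases hx a hab.symm with h | h
        · exact Or.inr (Or.inr ⟨rfl, Or.inl h⟩)
        · exact Or.inr (Or.inr ⟨rfl, Or.inr (Or.inl h)⟩)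
      · exact Or.inl ⟨ha, hb, Or.inl (Or.inl ⟨hab, ha, hb⟩)⟩
  have hGne : ∀ a b, G.Adj a b → a ≠ x ∧ b ≠ x := by
    intro a b hab
    refine ⟨?_, ?_⟩
    · rintro rfl
      exact hG.1 b hab
    · rintro rfl
      exact hG.1 a hab.symm
  have hGadj : ∀ a b, G.Adj a b →
      (a ≠ x ∧ b ≠ x ∧ (del T x ⊔ SimpleGraph.edge p q ⊔ G).Adj a b) := fun a b hab =>
    ⟨(hGne a b hab).1, (hGne a b hab).2, Or.inr hab⟩
  have hfin : ∀ n : ℕ, n ≤ ((del T x ⊔ SimpleGraph.edge p q) ⊓ G).edgeSet.ncard →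
      (n ≤ 1 ∨ 5 * n + 2 ≤ Nat.card V) := by
    intro n hn
    rcases hc with h | h
    · left; omega
    · right; omega
  by_cases hGpq : G.Adj p q
  · -- replace `pq` by `xp` and `xq`
    refine ⟨G.deleteEdges {s(p, q)} ⊔ SimpleGraph.edge x p ⊔ SimpleGraph.edge x q, ?_, ?_, ?_⟩
    · rw [conn_iff]
      refine ⟨⟨x⟩, fun g hg => ?_⟩
      have e1 : g x ↔ g p := hg x p (Or.inl (Or.inr ((edge_adj' hpx.symm).2 (Or.inl ⟨rfl, rfl⟩))))
      have e2 : g x ↔ g q := hg x q (Or.inr ((edge_adj' hqx.symm).2 (Or.inl ⟨rfl, rfl⟩)))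
      have hinv : ∀ a b, G.Adj a b → (g a ↔ g b) := by
        intro a b hab
        by_cases hs : s(a, b) = s(p, q)
        · rcases Sym2.eq_iff.1 hs with ⟨rfl, rfl⟩ | ⟨rfl, rfl⟩
          · exact e1.symm.trans e2
          · exact e2.symm.trans e1
        · refine hg a b (Or.inl (Or.inl ?_))
          rw [SimpleGraph.deleteEdges_adj]
          exact ⟨hab, fun h => hs (Set.mem_singleton_iff.1 h)⟩
      have hall : ∀ a, g a ↔ g p := by
        intro a
        by_cases ha : a = x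
        · rw [ha]; exact e1
        · exact hG.2 g hinv a p ha hpx
      intro a b
      exact (hall a).trans (hall b).symm
    · refine Red2b_plane C h1 h2 hv hH hGp ?_
      intro a b hab
      rcases hab with hab | ((hab | hab) | hab)
      · exact hTadj a b hab
      · rw [SimpleGraph.deleteEdges_adj] at hab
        exact Or.inl (hGadj a b hab.1)
      · rcases (edge_adj' hpx.symm).1 hab with ⟨h, h'⟩ | ⟨h, h'⟩
        · exact Or.inr (Or.inl ⟨h, Or.inr (Or.inr (Or.inl h'))⟩)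
        · exact Or.inr (Or.inr ⟨h', Or.inr (Or.inr (Or.inl h))⟩)
      · rcases (edge_adj' hqx.symm).1 hab with ⟨h, h'⟩ | ⟨h, h'⟩
        · exact Or.inr (Or.inl ⟨h, Or.inr (Or.inr (Or.inr h'))⟩)
        · exact Or.inr (Or.inr ⟨h', Or.inr (Or.inr (Or.inr h))⟩)
    · apply hfin
      have hmem : s(p, q) ∈ ((del T x ⊔ SimpleGraph.edge p q) ⊓ G).edgeSet := by
        rw [SimpleGraph.mem_edgeSet]
        exact ⟨Or.inr ((edge_adj' hpq').2 (Or.inl ⟨rfl, rfl⟩)), hGpq⟩
      obtain ⟨r, hr⟩ : ∃ r : V, ∀ a b, T.Adj a b →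
          (SimpleGraph.edge x p ⊔ SimpleGraph.edge x q).Adj a b → s(a, b) = s(x, r) := by
        by_cases hpw : p = w
        · refine ⟨p, fun a b hT hab => ?_⟩
          rcases hab with hab | hab
          · rcases (edge_adj' hpx.symm).1 hab with ⟨rfl, rfl⟩ | ⟨rfl, rfl⟩
            · rfl
            · exact Sym2.eq_swap
          · exfalso
            have hqu : q ≠ u := fun h => hne ⟨hpw, h⟩
            rcases (edge_adj' hqx.symm).1 hab with ⟨rfl, rfl⟩ | ⟨rfl, rfl⟩
            · exact hTx _ hT hqu hqw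
            · exact hTx _ hT.symm hqu hqw
        · refine ⟨q, fun a b hT hab => ?_⟩
          rcases hab with hab | hab
          · exfalso
            rcases (edge_adj' hpx.symm).1 hab with ⟨rfl, rfl⟩ | ⟨rfl, rfl⟩
            · exact hTx _ hT hpu hpw
            · exact hTx _ hT.symm hpu hpw
          · rcases (edge_adj' hqx.symm).1 hab with ⟨rfl, rfl⟩ | ⟨rfl, rfl⟩
            · rfl
            · exact Sym2.eq_swap
      have hsub : (T ⊓ (G.deleteEdges {s(p, q)} ⊔ SimpleGraph.edge x p ⊔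
          SimpleGraph.edge x q)).edgeSet ⊆
          insert s(x, r) (((del T x ⊔ SimpleGraph.edge p q) ⊓ G).edgeSet \ {s(p, q)}) := by
        intro e
        induction e using Sym2.ind with
        | _ a b =>
        intro he
        rw [SimpleGraph.mem_edgeSet] at he
        obtain ⟨hT, hab⟩ := he
        rcases hab with ((hab | hab) | hab)
        · rw [SimpleGraph.deleteEdges_adj] at hab
          refine Set.mem_insert_of_mem _ ⟨?_, hab.2⟩
          rw [SimpleGraph.mem_edgeSet]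
          exact ⟨Or.inl ⟨hT, (hGne a b hab.1).1, (hGne a b hab.1).2⟩, hab.1⟩
        · rw [hr a b hT (Or.inl hab)]
          exact Set.mem_insert _ _
        · rw [hr a b hT (Or.inr hab)]
          exact Set.mem_insert _ _
      calc _ ≤ (insert s(x, r) (((del T x ⊔ SimpleGraph.edge p q) ⊓ G).edgeSet \
            {s(p, q)})).ncard := Set.ncard_le_ncard hsub (Set.toFinite _)
        _ ≤ (((del T x ⊔ SimpleGraph.edge p q) ⊓ G).edgeSet \ {s(p, q)}).ncard + 1 :=
            Set.ncard_insert_le _ _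
        _ = _ := Set.ncard_sdiff_singleton_add_one hmem (Set.toFinite _)
  · -- add one edge
    obtain ⟨r, hr, hTr⟩ : ∃ r, (r = p ∨ r = q) ∧ ¬ T.Adj x r := by
      by_cases hpw : p = w
      · exact ⟨q, Or.inr rfl, fun h => hTx q h (fun h => hne ⟨hpw, h⟩) hqw⟩
      · exact ⟨p, Or.inl rfl, fun h => hTx p h hpu hpw⟩
    have hrx : r ≠ x := by
      rcases hr with rfl | rfl
      · exact hpx
      · exact hqx
    refine ⟨G ⊔ SimpleGraph.edge x r, ?_, ?_, ?_⟩
    · rw [conn_iff]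
      refine ⟨⟨x⟩, fun g hg => ?_⟩
      have e1 : g x ↔ g r := hg x r (Or.inr ((edge_adj' hrx.symm).2 (Or.inl ⟨rfl, rfl⟩)))
      have hall : ∀ a, g a ↔ g r := by
        intro a
        by_cases ha : a = x
        · rw [ha]; exact e1
        · exact hG.2 g (fun a b hab => hg a b (Or.inl hab)) a r ha hrx
      intro a b
      exact (hall a).trans (hall b).symm
    · refine Red2b_plane C h1 h2 hv hH hGp ?_
      intro a b hab
      rcases hab with hab | (hab | hab)
      · exact hTadj a b hab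
      · exact Or.inl (hGadj a b hab)
      · have hr' : r = u ∨ r = w ∨ r = p ∨ r = q := Or.inr (Or.inr hr)
        rcases (edge_adj' hrx.symm).1 hab with ⟨h, h'⟩ | ⟨h, h'⟩
        · exact Or.inr (Or.inl ⟨h, h' ▸ hr'⟩)
        · exact Or.inr (Or.inr ⟨h', h ▸ hr'⟩)
    · apply hfin
      refine Set.ncard_le_ncard ?_ (Set.toFinite _)
      intro e
      induction e using Sym2.ind with
      | _ a b =>
      intro he
      rw [SimpleGraph.mem_edgeSet] at he ⊢
      obtain ⟨hT, hab⟩ := he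
      rcases hab with hab | hab
      · exact ⟨Or.inl ⟨hT, (hGne a b hab).1, (hGne a b hab).2⟩, hab⟩
      · exfalso
        rcases (edge_adj' hrx.symm).1 hab with ⟨rfl, rfl⟩ | ⟨rfl, rfl⟩
        · exact hTr hT
        · exact hTr hT.symm

end CT
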