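import Pool.Agent.H7.CT.Res
import Pool.Agent.H7.CT.HullPair
import Pool.Agent.H7.CT.Ext
import Pool.Agent.H7.CT.Chain

/-! # CT module Red2c: `x` has exactly two `T`-edges, both hull edges; case `p = w`, `q = u`

`apex_far`: `P := K ⊔ edge x u ⊔ edge x w` is plane (`he_not_cross`); `D3 ≥ P` maximal plane (`exists_maxPlane`). `Face C D3 w u x`: `w u`, `u x`, `x w` are edges of `D3`, `0 < o w u x`, and no point is inside (an inside point `z ≠ x` would have `0 < o w u z`). The given point `z0` is on the other side: `0 < o u w z0` (`hH`, general position),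
so `Face C D3 u w z` exists (`face_exists`); `z ≠ x` (`o u w x < 0`). `x z` crosses `w u`: `z` is in the cone of `x` (from `h1`, `h2`: `o x u z < 0`, `0 < o x w z`) and beyond `w u`. `chain` with `a := x`, `w := z`, `b0 = b1 := w`, `c0 = c1 := u`, `W0 b c := b = w ∧ c = u`: every edge of `D3` crossing `x z` is `w u`.
`red2c`: `K := del T x ⊔ edge w u ⊔ G`. Case `¬ G.Adj w u`: `G' := G ⊔ edge x z`: `T ⊓ G' = T0 ⊓ G` (`z ≠ u, w`); plane: the edges of `T ⊔ G'` other than `x z` are edges of `K ⊔ xu ⊔ xw` other than `w u`.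
Case `G.Adj w u`: let `G1 := G.deleteEdges {s(w,u)} ⊔ edge x z ⊔ edge x u`, `G2 := … ⊔ edge x z ⊔ edge x w`; one of them is connected: otherwise (`conn_iff`) there are non-constant invariant `g1`, `g2`; `g1 u ↔ g1 w` would make `g1` constant (`hG`, and `g1 x ↔ g1 z`), so not; same for `g2`; `h y := (g1 y ↔ g2 y)` is invariant on `G`, so `h z ↔ h u`;
but `g1 z ↔ g1 x ↔ g1 u` and `g2 z ↔ g2 x ↔ g2 w`, `¬ (g2 w ↔ g2 u)`: contradiction. `T ⊓ Gi`: the edges of `T0 ⊓ G` except `s(w,u)` (which is in it) and one new edge: `ncard ≤`. Plane as before (`w u` is neither in `T` nor in `Gi`). -/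

open Classical

namespace CT

variable {V : Type}

theorem Red2c_plane_add (C : Cfg V) (K : SimpleGraph V) (hK : Plane C K) {x y : V}
    (hxy : x ≠ y) (h : ∀ a b, K.Adj a b → ¬ C.Cross x y a b) :
    Plane C (K ⊔ SimpleGraph.edge x y) := by
  have hE : ∀ a b c d, K.Adj c d → (SimpleGraph.edge x y).Adj a b → ¬ C.Cross a b c d := by
    intro a b c d hcd hab hcr
    rw [edge_adj' hxy] at hab
    rcases hab with ⟨rfl, rfl⟩ | ⟨rfl, rfl⟩
    · exact h c d hcd hcr
    · exact h c d hcd (C.cross_symm12 hcr)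
  intro a b c d hab hcd hcr
  rcases hab with hab | hab <;> rcases hcd with hcd | hcd
  · exact hK a b c d hab hcd hcr
  · exact hE c d a b hab hcd (C.cross_symm hcr)
  · exact hE a b c d hcd hab hcr
  · rw [edge_adj' hxy] at hab hcd
    have hne := C.cross_ne hcr
    rcases hab with ⟨rfl, rfl⟩ | ⟨rfl, rfl⟩ <;> rcases hcd with ⟨rfl, rfl⟩ | ⟨rfl, rfl⟩
    · exact hne.2.1 rfl
    · exact hne.2.2.1 rfl
    · exact hne.2.2.1 rfl
    · exact hne.2.1 rfl

theorem Red2c_plane_mono (C : Cfg V) {K K' : SimpleGraph V} (h : K ≤ K') (hK : Plane C K') :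
    Plane C K := fun a b c d hab hcd => hK a b c d (h hab) (h hcd)

theorem apex_far [Finite V] (C : Cfg V) (K : SimpleGraph V) {x u w : V} (hK : Plane C K)
    (hux : u ≠ x) (hwx : w ≠ x) (hwu : K.Adj w u)
    (h1 : HE C x u) (h2 : HE C w x) (hv : 0 < C.o w u x) (hH : ∀ z, z ≠ x → ¬ 0 < C.o w u z)
    (h4 : ∃ z, z ≠ x ∧ z ≠ u ∧ z ≠ w) :
    ∃ z, z ≠ x ∧ z ≠ u ∧ z ≠ w ∧
      ∀ a b, K.Adj a b → C.Cross x z a b → (a = w ∧ b = u) ∨ (a = u ∧ b = w) := by
  have hP : Plane C (K ⊔ SimpleGraph.edge x u ⊔ SimpleGraph.edge x w) :=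
    Red2c_plane_add C _ (Red2c_plane_add C K hK hux.symm
      (fun a b _ => he_not_cross C (Or.inl h1))) hwx.symm
      (fun a b _ => he_not_cross C (Or.inr h2))
  obtain ⟨D3, hD3, hmax⟩ := exists_maxPlane C _ hP
  have a1 : D3.Adj w u := hD3 (Or.inl (Or.inl hwu))
  have a2 : D3.Adj x u := hD3 (Or.inl (Or.inr ((edge_adj' hux.symm).mpr (Or.inl ⟨rfl, rfl⟩))))
  have a3 : D3.Adj x w := hD3 (Or.inr ((edge_adj' hwx.symm).mpr (Or.inl ⟨rfl, rfl⟩)))
  have hF1 : Face C D3 w u x := by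
    refine ⟨a1, a2.symm, a3, hv, ?_⟩
    rintro z ⟨z1, z2, z3⟩
    by_cases hzx : z = x
    · subst hzx; simp at z2
    · exact hH z hzx z1
  obtain ⟨z0, hz01, hz02, hz03⟩ := h4
  have hz0 : 0 < C.o u w z0 := by
    rcases C.o_pos_or_neg hwu.ne hz03.symm hz02.symm with h | h
    · exact absurd h (hH z0 hz01)
    · rw [C.o_swap]; linarith
  obtain ⟨z, hF2⟩ := face_exists C D3 hmax a1.symm hz0
  have hzne := hF2.ne
  have hz1 := hF2.2.2.2.1
  have hzx : z ≠ x := by
    rintro rfl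
    rw [C.o_swap] at hz1
    linarith
  refine ⟨z, hzx, hzne.2.1.symm, hzne.2.2.symm, ?_⟩
  have hcr : C.Cross x z w u := by
    have e1 : 0 < C.o x z u := by
      rcases C.o_pos_or_neg hux.symm hzx.symm hzne.2.1 with h | h
      · exact absurd h (h1 z)
      · rw [C.o_swap']; linarith
    have e2 : C.o x z w < 0 := by
      rw [C.o_cyc']
      rcases C.o_pos_or_neg hwx hzne.2.2 hzx.symm with h | h
      · exact absurd h (h2 z)
      · exact h
    refine ⟨mul_neg_of_neg_of_pos e2 e1, ?_⟩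
    rw [C.o_swap w u z]
    exact mul_neg_of_pos_of_neg hv (by linarith)
  have hch := chain hmax (a := x) (w := z) (fun b c => b = w ∧ c = u) hF2 hF1 ⟨rfl, rfl⟩
    (by rintro b c ⟨rfl, rfl⟩; exact ⟨a1, hcr, hv⟩)
    (by rintro b c ⟨rfl, rfl⟩; exact Or.inl ⟨rfl, rfl⟩)
  intro a b hab hc
  have hne := C.cross_ne hc
  have hab' : D3.Adj a b := hD3 (Or.inl (Or.inl hab))
  rcases C.o_pos_or_neg hne.2.2.2.2.2 hne.2.1.symm hne.2.2.1.symm with h | h
  · exact Or.inl (hch a b hab' hc h)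
  · have h3 := hch b a hab'.symm (C.cross_symm34 hc) (by rw [C.o_swap]; linarith)
    exact Or.inr ⟨h3.2, h3.1⟩

/-- the plane graph containing everything -/
theorem Red2c_big (C : Cfg V) (T : SimpleGraph V) {x u w z : V} (hux : u ≠ x) (hwx : w ≠ x)
    (hzx : z ≠ x) (h1 : HE C x u) (h2 : HE C w x) (hpq : ¬ T.Adj w u) {G M : SimpleGraph V}
    (hGp : Plane C (del T x ⊔ SimpleGraph.edge w u ⊔ G))
    (hz : ∀ a b, (del T x ⊔ SimpleGraph.edge w u ⊔ G).Adj a b → C.Cross x z a b →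
      (a = w ∧ b = u) ∨ (a = u ∧ b = w))
    (hM : M ≤ G) (hMn : ¬ M.Adj w u) :
    Plane C (del T x ⊔ M ⊔ SimpleGraph.edge x z ⊔ SimpleGraph.edge x u ⊔
      SimpleGraph.edge x w) := by
  have hle : del T x ⊔ M ≤ del T x ⊔ SimpleGraph.edge w u ⊔ G :=
    sup_le (le_trans le_sup_left le_sup_left) (le_trans hM le_sup_right)
  refine Red2c_plane_add C _ (Red2c_plane_add C _ (Red2c_plane_add C _
    (Red2c_plane_mono C hle hGp) hzx.symm ?_) hux.symm
      (fun a b _ => he_not_cross C (Or.inl h1))) hwx.symm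
      (fun a b _ => he_not_cross C (Or.inr h2))
  intro a b hab hcr
  rcases hz a b (hle hab) hcr with ⟨rfl, rfl⟩ | ⟨rfl, rfl⟩
  · rcases hab with hab | hab
    · exact hpq hab.1
    · exact hMn hab
  · rcases hab with hab | hab
    · exact hpq hab.1.symm
    · exact hMn hab.symm

theorem Red2c_T_le (T : SimpleGraph V) {x u w : V} (hux : u ≠ x) (hwx : w ≠ x)
    (hx : ∀ z, T.Adj x z → z = u ∨ z = w) {M : SimpleGraph V} :
    T ≤ M ⊔ del T x ⊔ SimpleGraph.edge x u ⊔ SimpleGraph.edge x w := by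
  intro a b hab
  by_cases ha : a = x
  · subst ha
    rcases hx b hab with rfl | rfl
    · exact Or.inl (Or.inr ((edge_adj' hux.symm).mpr (Or.inl ⟨rfl, rfl⟩)))
    · exact Or.inr ((edge_adj' hwx.symm).mpr (Or.inl ⟨rfl, rfl⟩))
  · by_cases hb : b = x
    · subst hb
      rcases hx a hab.symm with rfl | rfl
      · exact Or.inl (Or.inr ((edge_adj' hux.symm).mpr (Or.inr ⟨rfl, rfl⟩)))
      · exact Or.inr ((edge_adj' hwx.symm).mpr (Or.inr ⟨rfl, rfl⟩))
    · exact Or.inl (Or.inl (Or.inr ⟨hab, ha, hb⟩))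

theorem Red2c_del_adj (G : SimpleGraph V) {w u a b : V} (hab : G.Adj a b)
    (h1 : ¬ (a = w ∧ b = u)) (h2 : ¬ (a = u ∧ b = w)) :
    (G.deleteEdges {s(w, u)}).Adj a b := by
  rw [SimpleGraph.deleteEdges_adj]
  refine ⟨hab, ?_⟩
  rw [Set.mem_singleton_iff, Sym2.eq_iff]
  rintro (h | h)
  · exact h1 h
  · exact h2 h

theorem Red2c_adj (G : SimpleGraph V) {w u : V} : ¬ (G.deleteEdges {s(w, u)}).Adj w u := by
  rw [SimpleGraph.deleteEdges_adj]
  rintro ⟨-, h⟩
  exact h rfl

/-- if `G` minus `wu` plus `xz` and `xy` is not connected there is an invariant predicate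
separating `u` and `w` -/
theorem Red2c_sep {x u w z y : V} {G : SimpleGraph V} (hG : Off x G) (hzx : z ≠ x) (hyx : y ≠ x)
    (hn : ¬ (G.deleteEdges {s(w, u)} ⊔ SimpleGraph.edge x z ⊔ SimpleGraph.edge x y).Connected) :
    ∃ g : V → Prop, (∀ a b, G.Adj a b → ¬ (a = w ∧ b = u) → ¬ (a = u ∧ b = w) → (g a ↔ g b)) ∧
      (g x ↔ g z) ∧ (g x ↔ g y) ∧ ¬ (g u ↔ g w) := by
  rw [conn_iff] at hn
  push Not at hn
  obtain ⟨g, hg, a0, b0, hab⟩ := hn ⟨x⟩
  have i1 : ∀ a b, G.Adj a b → ¬ (a = w ∧ b = u) → ¬ (a = u ∧ b = w) → (g a ↔ g b) :=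
    fun a b hab h1 h2 => hg a b (Or.inl (Or.inl (Red2c_del_adj G hab h1 h2)))
  have i2 : g x ↔ g z := hg x z (Or.inl (Or.inr ((edge_adj' hzx.symm).mpr (Or.inl ⟨rfl, rfl⟩))))
  have i3 : g x ↔ g y := hg x y (Or.inr ((edge_adj' hyx.symm).mpr (Or.inl ⟨rfl, rfl⟩)))
  refine ⟨g, i1, i2, i3, fun huw => ?_⟩
  have h5 := hG.2 g (fun a b hab => by
    by_cases h1 : a = w ∧ b = u
    · rw [h1.1, h1.2]; exact huw.symm
    · by_cases h2 : a = u ∧ b = w
      · rw [h2.1, h2.2]; exact huw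
      · exact i1 a b hab h1 h2)
  have h6 : ∀ a, g a ↔ g z := by
    intro a
    by_cases ha : a = x
    · rw [ha]; exact i2
    · exact h5 a z ha hzx
  have h7 : g a0 ↔ g b0 := (h6 a0).trans (h6 b0).symm
  rcases hab with ⟨h8, h9⟩ | ⟨h8, h9⟩
  · exact h9 (h7.mp h8)
  · exact h8 (h7.mpr h9)

theorem Red2c_prop1 {p q r t : Prop} (h1 : ¬ (p ↔ q)) (h2 : ¬ (r ↔ t)) :
    (q ↔ t) ↔ (p ↔ r) := by
  by_cases hp : p <;> by_cases hq : q <;> by_cases hr : r <;> by_cases ht : t <;> simp_all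

theorem Red2c_prop2 {p q r : Prop} (h1 : ¬ (q ↔ r)) (h2 : (p ↔ r) ↔ (p ↔ q)) : False := by
  by_cases hp : p <;> by_cases hq : q <;> by_cases hr : r <;> simp_all

theorem red2c [Finite V] (C : Cfg V) (T : SimpleGraph V) (hp : Plane C T) {x u w : V}
    (hu : T.Adj x u) (hw : T.Adj x w) (huw : u ≠ w) (hx : ∀ z, T.Adj x z → z = u ∨ z = w)
    (h1 : HE C x u) (h2 : HE C w x) (h4 : ∃ z, z ≠ x ∧ z ≠ u ∧ z ≠ w)
    (hpq : ¬ T.Adj w u) (hv : 0 < C.o w u x)
    (hH : ∀ z, z ≠ x → ¬ 0 < C.o w u z) {G : SimpleGraph V} (hG : Off x G)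
    (hGp : Plane C (del T x ⊔ SimpleGraph.edge w u ⊔ G))
    (hc : ((del T x ⊔ SimpleGraph.edge w u) ⊓ G).edgeSet.ncard ≤ 1 ∨
      5 * ((del T x ⊔ SimpleGraph.edge w u) ⊓ G).edgeSet.ncard + 3 ≤ Nat.card V) :
    Good C T := by
  have hux : u ≠ x := hu.ne'
  have hwx : w ≠ x := hw.ne'
  obtain ⟨z, hzx, hzu, hzw, hz⟩ := apex_far C (del T x ⊔ SimpleGraph.edge w u ⊔ G) hGp hux hwx
    (Or.inl (Or.inr ((edge_adj' huw.symm).mpr (Or.inl ⟨rfl, rfl⟩)))) h1 h2 hv hH h4
  have hzT : ¬ T.Adj x z := fun h => by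
    rcases hx z h with h | h
    · exact hzu h
    · exact hzw h
  have hGx : ∀ a b, G.Adj a b → a ≠ x ∧ b ≠ x := fun a b hab =>
    ⟨fun h => hG.1 b (h ▸ hab), fun h => hG.1 a (h ▸ hab.symm)⟩
  -- it is enough to have a bound for the number of common edges
  have hfin : ∀ G' : SimpleGraph V, G'.Connected → Plane C (T ⊔ G') →
      (T ⊓ G').edgeSet.ncard ≤ ((del T x ⊔ SimpleGraph.edge w u) ⊓ G).edgeSet.ncard →
      Good C T := by
    intro G' g1 g2 g3
    refine ⟨G', g1, g2, ?_⟩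
    rcases hc with hc | hc
    · left; omega
    · right; omega
  by_cases hwu : G.Adj w u
  · -- `w u` is an edge of `G`
    have hgen : ∀ y, (y = u ∨ y = w) →
        (G.deleteEdges {s(w, u)} ⊔ SimpleGraph.edge x z ⊔ SimpleGraph.edge x y).Connected →
        Good C T := by
      intro y hy hcon
      have hyx : y ≠ x := by rcases hy with rfl | rfl <;> assumption
      refine hfin _ hcon ?_ ?_
      · have hbig := Red2c_big C T hux hwx hzx h1 h2 hpq hGp hz
          (SimpleGraph.deleteEdges_le {s(w, u)}) (Red2c_adj G)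
        refine Red2c_plane_mono C (sup_le ?_ (sup_le (sup_le ?_ ?_) ?_)) hbig
        · refine le_trans (Red2c_T_le T hux hwx hx (M := ⊥)) ?_
          refine sup_le (sup_le (sup_le bot_le ?_) ?_) le_sup_right
          · exact le_trans le_sup_left (le_trans le_sup_left (le_trans le_sup_left le_sup_left))
          · exact le_trans le_sup_right le_sup_left
        · exact le_trans le_sup_right (le_trans le_sup_left (le_trans le_sup_left le_sup_left))
        · exact le_trans le_sup_right (le_trans le_sup_left le_sup_left)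
        · rcases hy with rfl | rfl
          · exact le_trans le_sup_right le_sup_left
          · exact le_sup_right
      · have hmem : s(w, u) ∈ ((del T x ⊔ SimpleGraph.edge w u) ⊓ G).edgeSet :=
          ⟨Or.inr ((edge_adj' huw.symm).mpr (Or.inl ⟨rfl, rfl⟩)), hwu⟩
        have hsub : (T ⊓ (G.deleteEdges {s(w, u)} ⊔ SimpleGraph.edge x z ⊔
            SimpleGraph.edge x y)).edgeSet ⊆
            insert s(x, y) (((del T x ⊔ SimpleGraph.edge w u) ⊓ G).edgeSet \ {s(w, u)}) := by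
          intro e
          induction e using Sym2.ind with
          | _ a b =>
            rintro ⟨hT, (hab | hab) | hab⟩
            · right
              rw [SimpleGraph.deleteEdges_adj] at hab
              exact ⟨⟨Or.inl ⟨hT, hGx a b hab.1⟩, hab.1⟩, hab.2⟩
            · exfalso
              rw [edge_adj' hzx.symm] at hab
              rcases hab with ⟨rfl, rfl⟩ | ⟨rfl, rfl⟩
              · exact hzT hT
              · exact hzT hT.symm
            · left
              rw [edge_adj' hyx.symm] at hab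
              rw [Sym2.eq_iff]
              exact hab
        have hcard := Set.ncard_le_ncard hsub (Set.toFinite _)
        have hins := Set.ncard_insert_le s(x, y)
          (((del T x ⊔ SimpleGraph.edge w u) ⊓ G).edgeSet \ {s(w, u)})
        have hdiff := Set.ncard_sdiff_singleton_add_one hmem (Set.toFinite _)
        omega
    by_cases c1 : (G.deleteEdges {s(w, u)} ⊔ SimpleGraph.edge x z ⊔
        SimpleGraph.edge x u).Connected
    · exact hgen u (Or.inl rfl) c1
    · by_cases c2 : (G.deleteEdges {s(w, u)} ⊔ SimpleGraph.edge x z ⊔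
          SimpleGraph.edge x w).Connected
      · exact hgen w (Or.inr rfl) c2
      · exfalso
        obtain ⟨g1, i1, j1, k1, l1⟩ := Red2c_sep hG hzx hux c1
        obtain ⟨g2, i2, j2, k2, l2⟩ := Red2c_sep hG hzx hwx c2
        have h5 : (g1 z ↔ g2 z) ↔ (g1 u ↔ g2 u) :=
          hG.2 (fun y => (g1 y ↔ g2 y)) (fun a b hab => by
          by_cases e1 : a = w ∧ b = u
          · rw [e1.1, e1.2]; exact Red2c_prop1 l1 l2
          · by_cases e2 : a = u ∧ b = w
            · rw [e2.1, e2.2]; exact (Red2c_prop1 l1 l2).symm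
            · rw [propext (i1 a b hab e1 e2), propext (i2 a b hab e1 e2)]) z u hzx hux
        rw [propext (j1.symm.trans k1), propext (j2.symm.trans k2)] at h5
        exact Red2c_prop2 l2 h5
  · -- `w u` is not an edge of `G`
    refine hfin (G ⊔ SimpleGraph.edge x z) ?_ ?_ ?_
    · rw [conn_iff]
      refine ⟨⟨x⟩, fun g hg a b => ?_⟩
      have h5 := hG.2 g (fun a b hab => hg a b (Or.inl hab))
      have h6 : g x ↔ g z := hg x z (Or.inr ((edge_adj' hzx.symm).mpr (Or.inl ⟨rfl, rfl⟩)))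
      have h7 : ∀ a, g a ↔ g z := by
        intro a
        by_cases ha : a = x
        · rw [ha]; exact h6
        · exact h5 a z ha hzx
      exact (h7 a).trans (h7 b).symm
    · have hbig := Red2c_big C T hux hwx hzx h1 h2 hpq hGp hz le_rfl hwu
      refine Red2c_plane_mono C (sup_le ?_ (sup_le ?_ ?_)) hbig
      · refine le_trans (Red2c_T_le T hux hwx hx (M := ⊥)) ?_
        refine sup_le (sup_le (sup_le bot_le ?_) ?_) le_sup_right
        · exact le_trans le_sup_left (le_trans le_sup_left (le_trans le_sup_left le_sup_left))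
        · exact le_trans le_sup_right le_sup_left
      · exact le_trans le_sup_right (le_trans le_sup_left (le_trans le_sup_left le_sup_left))
      · exact le_trans le_sup_right (le_trans le_sup_left le_sup_left)
    · refine Set.ncard_le_ncard (SimpleGraph.edgeSet_mono ?_) (Set.toFinite _)
      rintro a b ⟨hT, hab | hab⟩
      · exact ⟨Or.inl ⟨hT, hGx a b hab⟩, hab⟩
      · exfalso
        rw [edge_adj' hzx.symm] at hab
        rcases hab with ⟨rfl, rfl⟩ | ⟨rfl, rfl⟩
        · exact hzT hT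
        · exact hzT hT.symm

end CT
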