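import Pool.Agent.H7.CT.Red1
import Pool.Agent.H7.CT.Red2a
import Pool.Agent.H7.CT.Red2b
import Pool.Agent.H7.CT.Red2c

/-! # CT module Red: if `T` is not reduced, the theorem follows from smaller point sets

Proof. Case A: some `x` has exactly one `T`-neighbour `y` and `HE C x y` or `HE C y x`: `red1` in `C` or in `C.mir` (`good_mir`, `ihx_mir`, `he_mir`, `plane_mir`).
Case B: no such `x`. `¬ Reduced`: `x` on a hull `T`-edge `x y`, and every `T`-edge `x w'` at `x` has `HE C x w'` or `HE C w' x`. By the negation of case A there is another `T`-neighbour `w ≠ y`. Two different `T`-neighbours `a, b` cannot both have `HE C x a`, `HE C x b` (then `o x a b < 0` and `o x b a < 0`, general position), nor both `HE C a x`, `HE C b x`.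
So there are exactly two `T`-neighbours, `u` with `HE C x u` and `w` with `HE C w x`. `h4`: `u` is on the hull edge `u x`, so by the negation of case A it has a `T`-neighbour `z ≠ x`; `z ≠ w` (`no3`), `z ≠ u`.
`off_two` gives `B`; `hull_pair` gives `p, q` (`B p`, `¬ B q`, `B w`, `¬ B u`, so `p ≠ u`, `q ≠ w`). `T0 := del T x ⊔ edge p q` is plane: `p q` crosses no edge between points other than `x` (all on one side). `IH x T0` gives `G`. `red2b` or, if `p = w` and `q = u`, `red2c`. -/

open Classical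

namespace CT

variable {V : Type}

/-- a leaf on a hull edge -/
theorem Red_leaf [Finite V] (C : Cfg V) (T : SimpleGraph V) (hT : T.IsTree) (hp : Plane C T)
    (h3 : 3 ≤ Nat.card V) (IH : ∀ x, IHx C x) {x y : V} (hxy : T.Adj x y)
    (hl : ∀ w, T.Adj x w → w = y) (hE : HE C x y ∨ HE C y x) : Good C T := by
  rcases hE with hE | hE
  · exact red1 C T hT hp hxy hl hE h3 (IH x)
  · exact good_mir (red1 C.mir T hT (plane_mir.mpr hp) hxy hl (he_mir.mpr hE) h3 (ihx_mir (IH x)))

/-- two hull darts out of `x` have the same head -/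
theorem Red_uniq (C : Cfg V) {x a b : V} (hxa : x ≠ a) (hxb : x ≠ b)
    (ha : HE C x a) (hb : HE C x b) : a = b := by
  by_contra hab
  rcases C.o_pos_or_neg hxa hxb hab with h | h
  · exact ha b h
  · apply hb a
    rw [C.o_swap' x b a]; linarith

/-- two hull darts into `x` have the same tail -/
theorem Red_uniq' (C : Cfg V) {x a b : V} (hxa : x ≠ a) (hxb : x ≠ b)
    (ha : HE C a x) (hb : HE C b x) : a = b := by
  by_contra hab
  rcases C.o_pos_or_neg hxa hxb hab with h | h
  · apply hb a
    rw [C.o_cyc b x a]; exact h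
  · apply ha b
    rw [C.o_swap a x b]; linarith

theorem red [Finite V] (C : Cfg V) (T : SimpleGraph V) (hT : T.IsTree) (hp : Plane C T)
    (h3 : 3 ≤ Nat.card V) (IH : ∀ x, IHx C x) (hR : ¬ Reduced C T) : Good C T := by
  by_cases hA : ∃ x y, T.Adj x y ∧ (∀ w, T.Adj x w → w = y) ∧ (HE C x y ∨ HE C y x)
  · obtain ⟨x, y, hxy, hl, hE⟩ := hA
    exact Red_leaf C T hT hp h3 IH hxy hl hE
  · have hA' : ∀ x y, T.Adj x y → (HE C x y ∨ HE C y x) → ∃ w, T.Adj x w ∧ w ≠ y := by
      intro x y hxy hE
      by_contra hcon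
      refine hA ⟨x, y, hxy, ?_, hE⟩
      intro w hw
      by_contra hwy
      exact hcon ⟨w, hw, hwy⟩
    unfold Reduced at hR
    push Not at hR
    obtain ⟨x, y, hxy, hE, hall⟩ := hR
    have hall' : ∀ w, T.Adj x w → HE C x w ∨ HE C w x := by
      intro w hw
      by_cases h : HE C x w
      · exact Or.inl h
      · exact Or.inr (hall w hw h)
    -- the two neighbours
    obtain ⟨u, w, hu, hw, h1, h2⟩ : ∃ u w, T.Adj x u ∧ T.Adj x w ∧ u ≠ w ∧ HE C x u ∧ HE C w x := by
      obtain ⟨y', hy', hne⟩ := hA' x y hxy hE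
      rcases hE with hE | hE
      · rcases hall' y' hy' with h | h
        · exact absurd (Red_uniq C hy'.ne hxy.ne h hE) hne
        · exact ⟨y, y', hxy, hy', hne.symm, hE, h⟩
      · rcases hall' y' hy' with h | h
        · exact ⟨y', y, hy', hxy, hne, h, hE⟩
        · exact absurd (Red_uniq' C hy'.ne hxy.ne h hE) hne
    obtain ⟨huw, h1', h2'⟩ : u ≠ w ∧ HE C x u ∧ HE C w x := ⟨h1, h2.1, h2.2⟩
    clear h1 h2
    have hx : ∀ z, T.Adj x z → z = u ∨ z = w := by
      intro z hz
      rcases hall' z hz with h | h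
      · exact Or.inl (Red_uniq C hz.ne hu.ne h h1')
      · exact Or.inr (Red_uniq' C hz.ne hw.ne h h2')
    have h4 : ∃ z, z ≠ x ∧ z ≠ u ∧ z ≠ w := by
      obtain ⟨z, hz, hzx⟩ := hA' u x hu.symm (Or.inr h1')
      refine ⟨z, hzx, hz.ne', ?_⟩
      rintro rfl
      exact no3 T hT hu hz hw.symm
    obtain ⟨B, hBw, hBu, hB⟩ := off_two hT hu hw huw hx
    obtain ⟨p, q, hpx, hqx, hBp, hBq, hv, hH⟩ :=
      hull_pair C hu.ne' hw.ne' h1' h2' B hBw hBu
    obtain ⟨hpq, hoff, hcard⟩ := hB p q hpx hqx hBp hBq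
    have hpu : p ≠ u := by rintro rfl; exact hBu hBp
    have hqw : q ≠ w := by rintro rfl; exact hBq hBw
    have hplane : Plane C (del T x ⊔ SimpleGraph.edge p q) := by
      have hdel : Plane C (del T x) := fun a b c d hab hcd => hp a b c d hab.1 hcd.1
      have hnc : ∀ c d, (del T x).Adj c d → ¬ C.Cross p q c d := by
        intro c d hcd hx'
        rcases C.cross_pattern hx' with h | h
        · exact hH c hcd.2.1 h.1
        · exact hH d hcd.2.2 h.2.1
      exact Ext_sup_edge C hdel hnc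
    obtain ⟨G, hG, hGp, hc⟩ := IH x _ hoff hcard hplane
    by_cases hcase : p = w ∧ q = u
    · obtain ⟨rfl, rfl⟩ := hcase
      exact red2c C T hp hu hw huw hx h1' h2' h4 hpq hv hH hG hGp hc
    · exact red2b C T hp hu hw hx h1' h2' hpx hqx hpu hqw hcase hpq hv hH hG hGp hc

end CT
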