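import Pool.Agent.H7.CT.Count
import Pool.Agent.H7.CT.Red
import Pool.Agent.H7.CT.Conn

/-! # CT module Main

Strong induction on `Nat.card V` over all types `V : Type`. If `Nat.card V ≤ 2`: `G := T` (`tree_card`: at most one edge). Otherwise: if `¬ Reduced C T`: `red`, with `ihx_of` and the induction hypothesis for `{v // v ≠ x}`. If `Reduced C T`: `exists_min`, `count`, `conn_main`: `G ≤ D`, `T ≤ D`, so `T ⊔ G ≤ D` is plane. -/

open Classical

namespace CT

theorem main (V : Type) [Finite V] (C : Cfg V) (T : SimpleGraph V) (hT : T.IsTree)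
    (hp : Plane C T) : Good C T := by
  have key : ∀ n : ℕ, ∀ (V : Type) [Finite V] (C : Cfg V) (T : SimpleGraph V),
      Nat.card V = n → T.IsTree → Plane C T → Good C T := by
    intro n
    induction n using Nat.strong_induction_on with
    | _ n ih =>
      intro V _ C T hn hT hp
      by_cases h2 : n ≤ 2
      · refine ⟨T, hT.connected, by rw [sup_idem]; exact hp, Or.inl ?_⟩
        rw [inf_idem]
        have := tree_card hT
        omega
      · have h3 : 3 ≤ Nat.card V := by omega
        by_cases hR : Reduced C T
        · have : Fintype V := Fintype.ofFinite V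
          have hthree : ∃ a b c : V, a ≠ b ∧ a ≠ c ∧ b ≠ c := by
            rw [← Fintype.two_lt_card_iff, ← Nat.card_eq_fintype_card]
            omega
          obtain ⟨D, hm⟩ := exists_min C T hT hp hthree
          have hc := count hm hR
          rw [← Nat.card_eq_fintype_card] at hc
          obtain ⟨G, hG1, hG2, hG3⟩ := conn_main hm.1
          have hle : T ⊔ G ≤ D := sup_le hm.1.le hG2
          refine ⟨G, hG1, fun a b c d h4 h5 => hm.1.mp.1 a b c d (hle h4) (hle h5), ?_⟩
          rcases hc with hc | hc
          · left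
            omega
          · right
            omega
        · apply red C T hT hp h3 _ hR
          intro x
          apply ihx_of C x
          intro T' hT' hp'
          have hlt : Nat.card {v : V // v ≠ x} < Nat.card V :=
            Finite.card_subtype_lt (x := x) (by simp)
          exact ih (Nat.card {v : V // v ≠ x}) (by omega) _ _ _ rfl hT' hp'
  exact key (Nat.card V) V C T rfl hT hp

/-- with a spanning tree of the connected graph -/
theorem main_tree (V : Type) [Finite V] (C : Cfg V) (T : SimpleGraph V) (hT : T.IsTree)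
    (hp : Plane C T) :
    ∃ T' : SimpleGraph V, T'.IsTree ∧ Plane C (T ⊔ T') ∧
      ((T ⊓ T').edgeSet.ncard ≤ 1 ∨ 5 * (T ⊓ T').edgeSet.ncard + 2 ≤ Nat.card V) := by
  obtain ⟨G, hG1, hG2, hG3⟩ := main V C T hT hp
  obtain ⟨T', hT'G, hT'⟩ := hG1.exists_isTree_le
  have hle : T ⊔ T' ≤ T ⊔ G := sup_le_sup_left hT'G T
  refine ⟨T', hT', fun a b c d h1 h2 => hG2 a b c d (hle h1) (hle h2), ?_⟩
  have hsub : (T ⊓ T').edgeSet ⊆ (T ⊓ G).edgeSet :=
    SimpleGraph.edgeSet_subset_edgeSet.2 (inf_le_inf_left T hT'G)
  have hcard : (T ⊓ T').edgeSet.ncard ≤ (T ⊓ G).edgeSet.ncard :=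
    Set.ncard_le_ncard hsub (Set.toFinite _)
  rcases hG3 with h | h
  · left
    omega
  · right
    omega

end CT
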