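import Pool.Agent.H7.CT.LemX

/-! # CT module Nbr: a maximal plane graph has neighbours in every nonempty half-plane

`nbr_left`: if some point `q` is to the left of `a → b` (`b ≠ a` any vertex) then some
`D`-neighbour of `a` is to the left of `a → b`.
Proof. Choose `q` with `0 < o a b q` minimising the number (`Set.ncard`) of pairs `(c,d)` with
`D.Adj c d ∧ C.Cross a q c d`. If `D.Adj a q` fails, maximality gives an edge `rs` crossing `aq`
(`q ≠ a`), `r` left, `s` right of `a → q`. One of `r`, `s` is to the left of `a → b`: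
(if `o a b r ≤ 0` and `o a b s ≤ 0`: `r` left of `aq`, `s` right of `aq`, `0 < o a s r`, contradiction by
`C.gpi a b q r s` etc.; note `r` or `s` may be equal to `b`.) Apply `lemX` resp. `lemX'` on that
side: the point `p` is between `q` and `r` (resp. `s`), hence also left of `a → b`
(`half_cone`), with fewer crossings: contradiction. -/

open Classical

namespace CT

variable {V : Type}

/-- crossing edges of the segment from `a` to `q` -/
def Nbr_cr (C : Cfg V) (D : SimpleGraph V) (a q : V) : Set (V × V) :=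
  {e | D.Adj e.1 e.2 ∧ C.Cross a q e.1 e.2}

theorem Nbr_lt [Finite V] (C : Cfg V) (D : SimpleGraph V) {a p q r s : V}
    (hrs : D.Adj r s) (hcr : C.Cross a q r s)
    (h1 : ∀ c d, D.Adj c d → C.Cross a p c d → C.Cross a q c d)
    (h2 : ¬ C.Cross a p r s) : (Nbr_cr C D a p).ncard < (Nbr_cr C D a q).ncard := by
  apply Set.ncard_lt_ncard _ (Set.toFinite _)
  refine ⟨fun e he => ⟨he.1, h1 _ _ he.1 he.2⟩, fun h => ?_⟩
  have h3 : (r, s) ∈ Nbr_cr C D a q := ⟨hrs, hcr⟩
  exact h2 (h h3).2

theorem nbr_left [Finite V] (C : Cfg V) (D : SimpleGraph V) (hD : MaxPlane C D) {a b q : V}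
    (hq : 0 < C.o a b q) : ∃ p, D.Adj a p ∧ 0 < C.o a b p := by
  induction h : (Nbr_cr C D a q).ncard using Nat.strong_induction_on generalizing q with
  | _ n ih =>
    by_cases hadj : D.Adj a q
    · exact ⟨q, hadj, hq⟩
    have haq : a ≠ q := (C.ne_of_o_pos hq).2.1
    obtain ⟨c, d, hcd, hcr⟩ := hD.2 a q haq hadj
    -- name the left endpoint `r`
    obtain ⟨r, s, hrs, hcr, hr, hs, hsr⟩ : ∃ r s, D.Adj r s ∧ C.Cross a q r s ∧
        0 < C.o a q r ∧ C.o a q s < 0 ∧ C.o a r s < 0 := by
      rcases C.cross_pattern hcr with ⟨h1, h2, h3, _⟩ | ⟨h1, h2, h3, _⟩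
      · refine ⟨c, d, hcd, hcr, h1, h2, ?_⟩
        rw [C.o_cyc a c d]; exact h3
      · refine ⟨d, c, hcd.symm, C.cross_symm34 hcr, h2, h1, ?_⟩
        rw [C.o_swap' a d c, C.o_cyc a c d]; linarith
    have key : 0 < C.o a b r ∨ 0 < C.o a b s := by
      by_contra hcon
      push Not at hcon
      obtain ⟨h1, h2⟩ := hcon
      have h3 := C.gpi a b q r s
      nlinarith [mul_neg_of_pos_of_neg hq hsr, mul_nonneg_of_nonpos_of_nonpos h1 hs.le,
        mul_nonpos_of_nonpos_of_nonneg h2 hr.le]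
    rcases key with hbr | hbs
    · obtain ⟨p, hp1, hp2, hp3, hp4⟩ := lemX C D hD.1 hrs hcr hr
      have hbp : 0 < C.o a b p := by
        rcases hp2 with rfl | hp2
        · exact hbr
        · exact C.half_cone hq hbr hp1 hp2 hr
      exact ih _ (h ▸ Nbr_lt C D hrs hcr hp3 hp4) hbp rfl
    · obtain ⟨p, hp1, hp2, hp3, hp4⟩ := lemX' C D hD.1 hrs.symm (C.cross_symm34 hcr) hs
      have hbp : 0 < C.o a b p := by
        rcases hp2 with rfl | hp2
        · exact hbs
        · refine C.half_cone hbs hq (y := s) (m := q) ?_ ?_ ?_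
          · rw [C.o_swap' a s p]; linarith
          · rw [C.o_swap' a p q]; linarith
          · rw [C.o_swap' a s q]; linarith
      exact ih _ (h ▸ Nbr_lt C D hrs.symm (C.cross_symm34 hcr) hp3 hp4) hbp rfl

theorem nbr_right [Finite V] (C : Cfg V) (D : SimpleGraph V) (hD : MaxPlane C D) {a b q : V}
    (hq : C.o a b q < 0) : ∃ p, D.Adj a p ∧ C.o a b p < 0 := by
  have hq' : 0 < C.mir.o a b q := by rw [C.mir_o]; linarith
  obtain ⟨p, hp1, hp2⟩ := nbr_left C.mir D (maxPlane_mir.mpr hD) hq'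
  refine ⟨p, hp1, ?_⟩
  rw [C.mir_o] at hp2
  linarith

end CT
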