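import Pool.Agent.H7.CT.HP

/-! # CT module Pocket

Proof. Suppose `Ins v q r x`, `¬ T.Adj v x`. `Ω := {p | T.Adj v p ∧ (p = r ∨ C.Ins v q r p) ∧ ∃ z, Zn v p z ∧ C.Ins v q r z}`.
`Ω ≠ ∅`: `X₀ = {z | Ins v q r z ∧ ¬ T.Adj v z}` contains `x` and not `v`; `T` connected: there is a `T`-edge (so `D`-edge) from `z ∈ X₀`
to `z' ∉ X₀`. By `tri_closed` `z' ∈ {v,q,r}` or inside. `z' = v` contradicts `¬ T.Adj v z`. `z' = q` contradicts type N
(`0 < o v q z`). So `z' = r` or (`z'` inside and `T.Adj v z'`): `z' ∈ Ω`.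
`q'` := first element of `Ω` from `q`. Apply `lemK` in `C.mir` at `q'` (type N: `0 < C.mir.o v q' z`): get `z`, `q''`, with `Zn v q' z`,
(first) `0 < o q' z z'` for other `Zn v q' z'`, `T.Adj v q''`, `C.Ins v z q' q''`, and some `Zn v q'' z''`.
`Ins v q r z`: let `x₀` be the witness for `q' ∈ Ω`. If `z = x₀` fine. If `q'` is inside: `tri_closed`. If `q' = r`: at `r`:
`0 < o r v z`, `0 < o r z x₀`, `0 < o r x₀ q`, `0 < o r v x₀`, `0 < o r v q` so `0 < o r z q` (`trans_half`), `cone_dich` at `r`: inside or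
`rz` crosses `vq` (no, plane).
`Ins v q r q''`: `ins_left` three times. So `z''` is inside (`tri_closed`; `z'' ∉ N[v]`), `q'' ∈ Ω`, but `o v q' q'' < 0`
(from `Ins v z q' q''`): contradiction with the choice of the first. -/

open Classical

namespace CT

variable {V : Type}

theorem pocket [Finite V] {C : Cfg V} {T D : SimpleGraph V} (hs : Setup C T D) {v q r x : V}
    (hv : Iso C T D v) (hU : UProp C T D v) (hN : TypeN C T D v) (hq : T.Adj v q)
    (hr : T.Adj v r) (hqr : D.Adj q r) (ho : 0 < C.o v q r) (hx : C.Ins v q r x) :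
    T.Adj v x := by
  by_contra hxT
  have hD : Plane C D := hs.mp.1
  have hvq : D.Adj v q := hs.le hq
  have hrv : D.Adj r v := (hs.le hr).symm
  -- edges from the inside stay in the closed triangle
  have htri : ∀ y z : V, C.Ins v q r y → D.Adj y z → z ≠ v → ¬ T.Adj v z → C.Ins v q r z := by
    intro y z hy hyz hzv hzT
    rcases tri_closed C D hD hvq hqr hrv hy hyz with h | h | h | h
    · exact absurd h hzv
    · rw [h] at hzT
      exact absurd hq hzT
    · rw [h] at hzT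
      exact absurd hr hzT
    · exact h
  let Ω : Set V := {p | T.Adj v p ∧ (p = r ∨ C.Ins v q r p) ∧ ∃ z, Zn T D v p z ∧ C.Ins v q r z}
  have hne : Ω.Nonempty := by
    let X : Set V := {z | C.Ins v q r z ∧ ¬ T.Adj v z}
    have hxX : x ∈ X := ⟨hx, hxT⟩
    have hvX : v ∉ X := by
      rintro ⟨⟨h1, _, _⟩, _⟩
      simp at h1
    obtain ⟨p⟩ := hs.tree.1.preconnected x v
    obtain ⟨d, _, hd1, hd2⟩ := p.exists_boundary_dart X hxX hvX
    obtain ⟨⟨z, z'⟩, hzz⟩ := d
    simp only at hd1 hd2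
    obtain ⟨h1, h2⟩ := hd1
    have hzz' : T.Adj z z' := hzz
    have hzv : z ≠ v := by
      rintro rfl
      exact hvX ⟨h1, h2⟩
    rcases tri_closed C D hD hvq hqr hrv h1 (hs.le hzz') with h | h | h | h
    · rw [h] at hzz'
      exact absurd hzz'.symm h2
    · rw [h] at hzz'
      have h3 := hN q z hq ⟨(hs.le hzz').symm, hzv, h2⟩
      have h4 := h1.1
      exact absurd h4 (not_lt.2 h3.le)
    · rw [h] at hzz'
      exact ⟨r, hr, Or.inl rfl, z, ⟨(hs.le hzz').symm, hzv, h2⟩, h1⟩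
    · have h3 : T.Adj v z' := by
        by_contra h4
        exact hd2 ⟨h, h4⟩
      exact ⟨z', h3, Or.inr h, z, ⟨(hs.le hzz').symm, hzv, h2⟩, h1⟩
  have hΩ : ∀ p ∈ Ω, 0 < C.o v q p := by
    rintro p ⟨_, h2 | h2, _⟩
    · rw [h2]
      exact ho
    · exact h2.1
  obtain ⟨q', ⟨h1, h2, x0, h3, h4⟩, hfirst⟩ := exists_first C v q Ω hne hΩ
  have h5 : 0 < C.mir.o v q' x0 := by
    rw [Cfg.mir_o]
    have := hN q' x0 h1 h3
    linarith
  obtain ⟨z, q'', hz1, hz2, hz3, hq1, hq2, ⟨z'', hz''⟩, _, _⟩ :=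
    lemK (setup_mir.mpr hs) (iso_mir.mpr hv) (uProp_mir.mpr hU) h1 h3 h5
  have hIns2 : C.Ins v z q' q'' := (C.mir_ins v q' z q'').1 hq2
  -- the point `z` is inside
  have hzI : C.Ins v q r z := by
    rcases h2 with h2 | h2
    · subst h2
      rcases hz3 x0 h3 h5 with h6 | h6
      · rw [← h6]
        exact h4
      · rw [Cfg.mir_o] at h6
        have k1 : 0 < C.o q' v z := by
          rw [Cfg.mir_o] at hz2
          rw [C.o_swap q' v z]
          exact hz2
        have k2 : 0 < C.o q' z x0 := by linarith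
        have k3 : 0 < C.o q' x0 q := by
          rw [← C.o_cyc q q' x0]
          exact h4.2.1
        have k4 : 0 < C.o q' v x0 := h4.2.2
        have k5 : 0 < C.o q' v q := by
          rw [← C.o_cyc' v q q']
          exact ho
        have k6 : 0 < C.o q' z q := C.trans_half k1 k4 k5 k2 k3
        rcases C.cone_dich k1 k6 k5 with h7 | h7
        · exact ⟨h7.2.1, h7.2.2, h7.1⟩
        · exact absurd h7 (hD _ _ _ _ hz1.1 hvq)
    · exact htri q' z h2 hz1.1 hz1.2.1 hz1.2.2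
  have hq'1 : 0 < C.o v q q' := hΩ q' ⟨h1, h2, x0, h3, h4⟩
  have hIns3 : C.Ins v q r q'' := by
    refine ⟨?_, ?_, ?_⟩
    · refine C.ins_left hIns2 ?_ hzI.1.le hq'1.le (Or.inr (Or.inl hzI.1))
      simp
    · refine C.ins_left hIns2 ?_ hzI.2.1.le ?_ (Or.inr (Or.inl hzI.2.1))
      · rw [← C.o_cyc v q r]
        exact ho.le
      · rcases h2 with h2 | h2
        · rw [h2]
          simp
        · exact h2.2.1.le
    · refine C.ins_left hIns2 ?_ hzI.2.2.le ?_ (Or.inr (Or.inl hzI.2.2))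
      · simp
      · rcases h2 with h2 | h2
        · rw [h2]
          simp
        · exact h2.2.2.le
  have hq''Ω : q'' ∈ Ω :=
    ⟨hq1, Or.inr hIns3, z'', hz'', htri q'' z'' hIns3 hz''.1 hz''.2.1 hz''.2.2⟩
  have hne2 : q'' ≠ q' := ((C.ne_of_o_pos hIns2.2.1).2.2).symm
  have h6 := hfirst q'' hq''Ω hne2
  have h7 := hIns2.2.2
  rw [C.o_swap q' v q''] at h7
  linarith

end CT
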