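import Pool.Agent.H7.CT.Res
import Pool.Agent.H7.CT.HullPair

/-! # CT module Red1: a leaf `x` of `T` whose `T`-edge `x y` is a hull edge

Proof. `T0 := del T x`. `Off x T0`: a predicate `g` invariant on `T0`: change its value at `x` to `g y`: invariant on `T`, so constant (`conn_iff`). `T.edgeSet = insert s(x,y) T0.edgeSet`, so `T0.edgeSet.ncard + 2 = Nat.card V` (`tree_card`). `IH` gives `G0`. `hull_other` gives `z` with `HE C z x`, `z ≠ y`.
`G := G0 ⊔ SimpleGraph.edge x z`. Connected: `conn_iff`. `T ⊓ G = T0 ⊓ G0` (`z ≠ y`). Plane: all edges of `T ⊔ G` are edges of `T0 ⊔ G0` or `x y` or `x z`, and these cross nothing (`he_not_cross`, `cross_symm`, `cross_symm12`). -/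

open Classical

namespace CT

variable {V : Type}

theorem Red1_off (T : SimpleGraph V) (hT : T.IsTree) {x y : V} (hxy : T.Adj x y)
    (hl : ∀ w, T.Adj x w → w = y) : Off x (del T x) := by
  refine ⟨fun a h => h.2.1 rfl, fun g hg a b ha hb => ?_⟩
  have hc := ((conn_iff T).1 hT.1).2 (fun v => if v = x then g y else g v) (by
    intro a b hab
    by_cases h1 : a = x
    · subst h1
      have h2 : b = y := hl b hab
      subst h2
      simp [hab.ne.symm]
    · by_cases h2 : b = x
      · subst h2
        have h3 : a = y := hl a hab.symm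
        subst h3
        simp [hab.ne]
      · simp only [h1, h2, if_false]
        exact hg a b ⟨hab, h1, h2⟩) a b
  simpa [ha, hb] using hc

theorem Red1_card [Finite V] (T : SimpleGraph V) (hT : T.IsTree) {x y : V} (hxy : T.Adj x y)
    (hl : ∀ w, T.Adj x w → w = y) : (del T x).edgeSet.ncard + 2 = Nat.card V := by
  have h := tree_card hT
  have hset : T.edgeSet = insert s(x, y) (del T x).edgeSet := by
    ext e
    induction e with
    | _ a b =>
      simp only [SimpleGraph.mem_edgeSet, Set.mem_insert_iff, Sym2.eq_iff]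
      constructor
      · intro hab
        by_cases h1 : a = x
        · subst h1
          left; left; exact ⟨rfl, hl b hab⟩
        · by_cases h2 : b = x
          · subst h2
            left; right; exact ⟨hl a hab.symm, rfl⟩
          · right; exact ⟨hab, h1, h2⟩
      · rintro ((⟨rfl, rfl⟩ | ⟨rfl, rfl⟩) | h1)
        · exact hxy
        · exact hxy.symm
        · exact h1.1
  have hnot : s(x, y) ∉ (del T x).edgeSet := by
    intro h1
    rw [SimpleGraph.mem_edgeSet] at h1
    exact h1.2.1 rfl
  rw [hset, Set.ncard_insert_of_notMem hnot (Set.toFinite _)] at h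
  omega

theorem red1 [Finite V] (C : Cfg V) (T : SimpleGraph V) (hT : T.IsTree) (hp : Plane C T)
    {x y : V} (hxy : T.Adj x y) (hl : ∀ w, T.Adj x w → w = y) (hE : HE C x y)
    (h3 : 3 ≤ Nat.card V) (IH : IHx C x) : Good C T := by
  have hp0 : Plane C (del T x) := fun a b c d h1 h2 => hp a b c d h1.1 h2.1
  obtain ⟨G0, hoff, hpl, hcnt⟩ := IH (del T x) (Red1_off T hT hxy hl) (Red1_card T hT hxy hl) hp0
  have hq : ∃ q, q ≠ x ∧ q ≠ y := by
    by_contra hcon
    push Not at hcon
    have hle : Nat.card V ≤ ({x, y} : Set V).ncard := by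
      rw [← Set.ncard_univ]
      refine Set.ncard_le_ncard (fun q _ => ?_) (Set.toFinite _)
      by_cases h1 : q = x
      · exact Or.inl h1
      · exact Or.inr (hcon q h1)
    have h2 : ({x, y} : Set V).ncard ≤ 2 := by
      refine (Set.ncard_insert_le _ _).trans ?_
      rw [Set.ncard_singleton]
    omega
  obtain ⟨z, hzx, hzy, hEz⟩ := hull_other C hxy.ne hE hq
  have hedge : ∀ a b, (T ⊔ (G0 ⊔ SimpleGraph.edge x z)).Adj a b →
      (del T x ⊔ G0).Adj a b ∨ ∀ c d, ¬ C.Cross a b c d := by
    intro a b hab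
    rcases hab with hab | hab | hab
    · by_cases h1 : a = x
      · subst h1
        have h2 : b = y := hl b hab
        subst h2
        exact Or.inr fun c d => he_not_cross C (Or.inl hE)
      · by_cases h2 : b = x
        · subst h2
          have h3 : a = y := hl a hab.symm
          subst h3
          exact Or.inr fun c d => he_not_cross C (Or.inr hE)
        · exact Or.inl (Or.inl ⟨hab, h1, h2⟩)
    · exact Or.inl (Or.inr hab)
    · rw [edge_adj' hzx.symm] at hab
      rcases hab with ⟨rfl, rfl⟩ | ⟨rfl, rfl⟩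
      · exact Or.inr fun c d => he_not_cross C (Or.inr hEz)
      · exact Or.inr fun c d => he_not_cross C (Or.inl hEz)
  have hinf : T ⊓ (G0 ⊔ SimpleGraph.edge x z) = del T x ⊓ G0 := by
    ext a b
    simp only [SimpleGraph.inf_adj, SimpleGraph.sup_adj]
    constructor
    · rintro ⟨h1, h2 | h2⟩
      · refine ⟨⟨h1, ?_, ?_⟩, h2⟩
        · rintro rfl; exact hoff.1 b h2
        · rintro rfl; exact hoff.1 a h2.symm
      · rw [edge_adj' hzx.symm] at h2
        rcases h2 with ⟨rfl, rfl⟩ | ⟨rfl, rfl⟩
        · exact absurd (hl _ h1) hzy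
        · exact absurd (hl _ h1.symm) hzy
    · rintro ⟨h1, h2⟩
      exact ⟨h1.1, Or.inl h2⟩
  refine ⟨G0 ⊔ SimpleGraph.edge x z, ?_, ?_, ?_⟩
  · rw [conn_iff]
    refine ⟨⟨x⟩, fun g hg a b => ?_⟩
    have h1 := hoff.2 g (fun a b hab => hg a b (Or.inl hab))
    have h2 : g x ↔ g z := hg x z (Or.inr ((edge_adj' hzx.symm).2 (Or.inl ⟨rfl, rfl⟩)))
    have h4 : ∀ a, g a ↔ g z := by
      intro a
      by_cases ha : a = x
      · rw [ha]; exact h2
      · exact h1 a z ha hzx
    exact (h4 a).trans (h4 b).symm
  · intro a b c d hab hcd hcr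
    rcases hedge a b hab with h1 | h1
    · rcases hedge c d hcd with h2 | h2
      · exact hpl a b c d h1 h2 hcr
      · exact h2 a b (C.cross_symm hcr)
    · exact h1 c d hcr
  · rw [hinf]
    rcases hcnt with h | h
    · exact Or.inl h
    · right; omega

end CT
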