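import Pool.Agent.H7.CT.Ext

/-! # CT module RepFacts: facts P1, P2, P3 about a replacement graph `D'`

`Rep C T D D' x y`: `D'` is maximal plane, contains `xy` and all edges of `D` not crossing `xy`.
P1: a face of `D` none of whose sides crosses `xy` is a face of `D'`.
P2: an edge `z z'` of `D'` not in `D`: `z = x ∨ z = y ∨` some `D`-edge at `z` crosses `xy`.
  Proof. If `{z,z'} = {x,y}` fine. By maximality of `D` some edge `bc` of `D` crosses `z z'`; take one with
  `C.tau z z' b c` minimal; orient it so that `z` is left of `b → c`; `face_exists` gives the near face with apex `w`;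
  `near_face` and minimality: `w = z`. `bc` is not an edge of `D'` (plane, `z z'` in `D'`), so `bc` crosses `xy`. One of
  `x`, `y`, say `x`, is on the side of `z` w.r.t. `bc` (left of `b → c`). `near_face` for `xy`, the face `b c z`: `x = z`
  or `bz` or `cz` crosses `xy`.
P3: a face `u c c'` of `D'` with `uc`, `uc'` in `D` that is not a face of `D`: there is a `D`-edge `u x'` strictly in the
  sector, crossing `xy`, and `cc'` is not an edge of `D`.
  Proof. Let `w` be the apex of the face of `D` left of `u → c` (`face_exists`, `c'` is left). If `w = c'` the `D'`-face would be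
  a `D`-face. `c'` is not strictly in the sector `(c,w)` (`sector`), so `w` is strictly in the sector `(c,c')`; `uw` is
  not in `D'` (sector in `D'`), so it crosses `xy`. As `w` is not inside the triangle `u c c'` (empty), `uw` crosses `cc'`
  (`cone_dich`), so `cc'` is not in `D`. Take `x' = w`. -/

open Classical

namespace CT

variable {V : Type}

theorem rep_face [Finite V] (C : Cfg V) (T D D' : SimpleGraph V) {x y : V} (h : Setup C T D)
    (hr : Rep C T D D' x y) {a b c : V} (hf : Face C D a b c) (h1 : ¬ C.Cross x y a b)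
    (h2 : ¬ C.Cross x y b c) (h3 : ¬ C.Cross x y c a) : Face C D' a b c := by
  obtain ⟨f1, f2, f3, f4, f5⟩ := hf
  exact ⟨hr.2.2 a b f1 h1, hr.2.2 b c f2 h2, hr.2.2 c a f3 h3, f4, f5⟩

private theorem RepFacts_min [Finite V] (C : Cfg V) (D : SimpleGraph V) {z z' : V}
    (hex : ∃ c d, D.Adj c d ∧ C.Cross z z' c d) :
    ∃ b c, D.Adj b c ∧ C.Cross z z' b c ∧ 0 < C.o b c z ∧
      ∀ c' d', D.Adj c' d' → C.Cross z z' c' d' → C.tau z z' b c ≤ C.tau z z' c' d' := by
  have hne : {p : V × V | D.Adj p.1 p.2 ∧ C.Cross z z' p.1 p.2}.Nonempty := by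
    obtain ⟨c, d, h1, h2⟩ := hex
    exact ⟨(c, d), h1, h2⟩
  obtain ⟨⟨b, c⟩, ⟨hb1, hb2⟩, hmin⟩ := Set.exists_min_image
    {p : V × V | D.Adj p.1 p.2 ∧ C.Cross z z' p.1 p.2} (fun p => C.tau z z' p.1 p.2)
    (Set.toFinite _) hne
  simp only at hb1 hb2
  have hmin' : ∀ c' d', D.Adj c' d' → C.Cross z z' c' d' → C.tau z z' b c ≤ C.tau z z' c' d' :=
    fun c' d' h1 h2 => hmin (c', d') ⟨h1, h2⟩
  have hnes := C.cross_ne hb2
  rcases C.o_pos_or_neg hnes.2.2.2.2.2 hnes.2.1.symm hnes.2.2.1.symm with hp | hp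
  · exact ⟨b, c, hb1, hb2, hp, hmin'⟩
  · refine ⟨c, b, hb1.symm, C.cross_symm34 hb2, ?_, ?_⟩
    · rw [C.o_swap c b z]
      linarith
    · intro c' d' h1 h2
      rw [← tau_symm]
      exact hmin' c' d' h1 h2

theorem rep_new_edge [Finite V] (C : Cfg V) (T D D' : SimpleGraph V) {x y : V}
    (h : Setup C T D) (hr : Rep C T D D' x y) {z z' : V} (hz : D'.Adj z z')
    (hn : ¬ D.Adj z z') : z = x ∨ z = y ∨ ∃ b, D.Adj z b ∧ C.Cross x y z b := by
  obtain ⟨b, c, hbc, hcr, hpos, hmin⟩ := RepFacts_min C D (h.mp.2 z z' hz.ne hn)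
  obtain ⟨w, hw⟩ := face_exists C D h.mp hbc hpos
  have hzw : z = w := by
    rcases near_face C D hw hpos hcr with h1 | ⟨h1, h2⟩ | ⟨h1, h2⟩
    · exact h1
    · exact absurd (hmin b w hw.2.2.1.symm h1) (not_le.mpr h2)
    · exact absurd (hmin c w hw.2.1 h1) (not_le.mpr h2)
  subst hzw
  have hnD' : ¬ D'.Adj b c := fun hb => hr.1.mp.1 z z' b c hz hb hcr
  have hxy : C.Cross x y b c := by
    by_contra hc
    exact hnD' (hr.2.2 b c hbc hc)
  have hzb : D.Adj z b := hw.2.2.1
  have hzc : D.Adj z c := hw.2.1.symm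
  rcases C.cross_pattern hxy with ⟨_, _, h3, h4⟩ | ⟨_, _, h3, h4⟩
  · -- y is on the left side
    rcases near_face C D hw h4 (C.cross_symm12 hxy) with h5 | ⟨h5, _⟩ | ⟨h5, _⟩
    · exact Or.inr (Or.inl h5.symm)
    · exact Or.inr (Or.inr ⟨b, hzb, C.cross_symm34 (C.cross_symm12 h5)⟩)
    · exact Or.inr (Or.inr ⟨c, hzc, C.cross_symm34 (C.cross_symm12 h5)⟩)
  · rcases near_face C D hw h3 hxy with h5 | ⟨h5, _⟩ | ⟨h5, _⟩
    · exact Or.inl h5.symm
    · exact Or.inr (Or.inr ⟨b, hzb, C.cross_symm34 h5⟩)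
    · exact Or.inr (Or.inr ⟨c, hzc, C.cross_symm34 h5⟩)

theorem rep_new_face [Finite V] (C : Cfg V) (T D D' : SimpleGraph V) {x y : V}
    (h : Setup C T D) (hr : Rep C T D D' x y) {u c c' : V} (hf : Face C D' u c c')
    (h1 : D.Adj u c) (h2 : D.Adj u c') (hn : ¬ Face C D u c c') :
    (∃ x', D.Adj u x' ∧ C.Cross x y u x' ∧ 0 < C.o u c x' ∧ 0 < C.o u x' c') ∧
      ¬ D.Adj c c' := by
  have hpos : 0 < C.o u c c' := hf.2.2.2.1
  obtain ⟨w, hw⟩ := face_exists C D h.mp h1 hpos
  have hwc : w ≠ c' := by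
    rintro rfl
    exact hn hw
  have huw : D.Adj u w := hw.2.2.1.symm
  have hcw : 0 < C.o u c w := hw.2.2.2.1
  have hwc' : 0 < C.o u w c' := by
    have hs := sector C D h.mp.1 hw h2
    rcases C.o_pos_or_neg huw.ne h2.ne hwc with h3 | h3
    · exact h3
    · exfalso
      apply hs
      refine ⟨hpos, ?_⟩
      rw [C.o_swap' u c' w]
      linarith
  have hnD' : ¬ D'.Adj u w := fun hb => sector C D' hr.1.mp.1 hf hb ⟨hcw, hwc'⟩
  have hxy : C.Cross x y u w := by
    by_contra hc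
    exact hnD' (hr.2.2 u w huw hc)
  refine ⟨⟨w, huw, hxy, hcw, hwc'⟩, ?_⟩
  intro hcc
  rcases C.cone_dich hcw hwc' hpos with h3 | h3
  · exact hf.2.2.2.2 w h3
  · exact h.mp.1 u w c c' huw hcc h3

end CT
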