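import Pool.Agent.H7.CT.Hot
import Pool.Agent.H7.CT.IsoWalk
import Pool.Agent.H7.CT.RepFacts

/-! # CT module RepWalk: comparing the walks in `D` and in a replacement graph `D'`

`persist`: trivial induction. `hot_gain`: `e` hot in `D'`, not hot in `D`, and all `D`-steps of its walk are
`D'`-steps. Then `e` is dead in `D` (`hot_or_dead`), its dead dart `δ` is on the `D'`-walk, and the `D'`-walk goes on from `δ`
(`δ` has a face on its left, so it is not the hull end), with a step that is not a `D`-step.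
`n2_drop`, `hot_two`: counting. -/

open Classical

namespace CT

variable {V : Type}

theorem persist {C : Cfg V} {T D D' : SimpleGraph V} {e d : V × V}
    (h : ∀ d1 d2, Relation.ReflTransGen (Step C T D) e d1 → Step C T D d1 d2 →
      Step C T D' d1 d2)
    (hr : Relation.ReflTransGen (Step C T D) e d) :
    Relation.ReflTransGen (Step C T D') e d := by
  induction hr with
  | refl => exact Relation.ReflTransGen.refl
  | tail h1 h2 ih => exact ih.tail (h _ _ h1 h2)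

theorem hot_gain [Finite V] {C : Cfg V} {T D D' : SimpleGraph V} (hs : Setup C T D)
    (hs' : Setup C T D') {e : V × V} (h1 : Hot C T D' e) (h2 : ¬ Hot C T D e)
    (h : ∀ d1 d2, Relation.ReflTransGen (Step C T D) e d1 → Step C T D d1 d2 →
      Step C T D' d1 d2) :
    ∃ δ c δ1 δ2, DeadAt C T D e δ c ∧ Step C T D' δ δ1 ∧ ¬ Step C T D δ δ1 ∧
      Relation.ReflTransGen (Step C T D') δ1 δ2 ∧ HE C δ2.1 δ2.2 := by
  rcases hot_or_dead hs h1.1 with h3 | ⟨δ, c, h3⟩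
  · exact absurd h3 h2
  obtain ⟨h4, d', h5, h6⟩ := h1
  have h7 : Relation.ReflTransGen (Step C T D') e δ := persist h h3.2.1
  have hface := h3.2.2.1
  have hnhe : ¬ HE C δ.1 δ.2 := fun hh => hh c hface.2.2.2.1
  have hfun : Relator.RightUnique (Step C T D') := fun a b c hab hac => step_func hs' hab hac
  have key : Relation.ReflTransGen (Step C T D') δ d' := by
    rcases Relation.ReflTransGen.total_of_right_unique hfun h7 h5 with h8 | h8
    · exact h8
    · rcases Relation.ReflTransGen.cases_head h8 with h9 | ⟨d1, h9, _⟩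
      · rw [h9]
      · exact absurd h9 (no_step_of_he h6)
  rcases Relation.ReflTransGen.cases_head key with h9 | ⟨δ1, h9, h10⟩
  · rw [← h9] at h6
    exact absurd h6 hnhe
  · exact ⟨δ, c, δ1, d', h3, h9, no_step_of_dead hs hface h3.2.2.2.1 h3.2.2.2.2, h10, h6⟩

theorem n2_drop [Finite V] {C : Cfg V} {T D D' : SimpleGraph V}
    (h1 : ∀ u, Iso C T D' u → Iso C T D u) (h2 : ∀ e, Hot C T D' e → Hot C T D e)
    (h3 : (∃ u, Iso C T D u ∧ ¬ Iso C T D' u) ∨ (∃ e, Hot C T D e ∧ ¬ Hot C T D' e)) :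
    N2 C T D' < N2 C T D := by
  have hI : {v | Iso C T D' v} ⊆ {v | Iso C T D v} := fun u hu => h1 u hu
  have hH : {d : V × V | Hot C T D' d} ⊆ {d : V × V | Hot C T D d} := fun e he => h2 e he
  have hIc := Set.ncard_le_ncard hI (Set.toFinite _)
  have hHc := Set.ncard_le_ncard hH (Set.toFinite _)
  unfold N2
  rcases h3 with ⟨u, hu, hu'⟩ | ⟨e, he, he'⟩
  · have hss : {v | Iso C T D' v} ⊂ {v | Iso C T D v} :=
      ⟨hI, fun hh => hu' (hh hu)⟩
    have := Set.ncard_lt_ncard hss (Set.toFinite _)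
    omega
  · have hss : {d : V × V | Hot C T D' d} ⊂ {d : V × V | Hot C T D d} :=
      ⟨hH, fun hh => he' (hh he)⟩
    have := Set.ncard_lt_ncard hss (Set.toFinite _)
    omega

theorem hot_two [Finite V] {C : Cfg V} {T D D' : SimpleGraph V}
    (h1 : ∀ u, Iso C T D' u → Iso C T D u) (h3 : ∃ u, Iso C T D u ∧ ¬ Iso C T D' u)
    (h4 : N2 C T D ≤ N2 C T D') :
    ∃ e1 e2, e1 ≠ e2 ∧ Hot C T D' e1 ∧ ¬ Hot C T D e1 ∧ Hot C T D' e2 ∧ ¬ Hot C T D e2 := by
  have hI : {v | Iso C T D' v} ⊆ {v | Iso C T D v} := fun u hu => h1 u hu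
  obtain ⟨u, hu, hu'⟩ := h3
  have hss : {v | Iso C T D' v} ⊂ {v | Iso C T D v} := ⟨hI, fun hh => hu' (hh hu)⟩
  have hlt := Set.ncard_lt_ncard hss (Set.toFinite _)
  unfold N2 at h4
  have hd : ({d : V × V | Hot C T D' d}).ncard ≤
      ({d : V × V | Hot C T D' d} \ {d : V × V | Hot C T D d}).ncard +
        ({d : V × V | Hot C T D d}).ncard :=
    Set.ncard_le_ncard_sdiff_add_ncard _ _ (Set.toFinite _)
  have h2 : 1 < ({d : V × V | Hot C T D' d} \ {d : V × V | Hot C T D d}).ncard := by omega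
  obtain ⟨a, b, ha, hb, hab⟩ := (Set.one_lt_ncard_iff (Set.toFinite _)).mp h2
  exact ⟨a, b, hab, ha.1, ha.2, hb.1, hb.2⟩

/-- a step of `D` whose base does not cross `xy` is a step of `D'` -/
theorem step_persist [Finite V] {C : Cfg V} {T D D' : SimpleGraph V} {x y : V}
    (hs : Setup C T D) (hr : Rep C T D D' x y) (hT : ∀ a b, T.Adj a b → ¬ C.Cross x y a b)
    {d d' : V × V} (h : Step C T D d d') (h1 : ¬ C.Cross x y d.2 d'.2)
    (h2 : ¬ C.Cross x y d.1 d'.1) : Step C T D' d d' := by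
  obtain ⟨h3, c, h4, h5⟩ := h
  rcases h5 with ⟨h6, h7⟩ | ⟨h6, h7⟩
  · refine ⟨h3, c, ?_, Or.inl ⟨h6, h7⟩⟩
    rw [h7] at h1
    exact rep_face C T D D' hs hr h4 (hT _ _ h3) h1 (hT _ _ h6.symm)
  · refine ⟨h3, c, ?_, Or.inr ⟨h6, h7⟩⟩
    rw [h7] at h2
    exact rep_face C T D D' hs hr h4 (hT _ _ h3) (hT _ _ h6.symm)
      (fun hh => h2 (C.cross_symm34 hh))

/-- a step of `D'` that is not a step of `D`: its face is a new face with two `T`-sides. `a` is
the kept vertex, `b`, `c` the other two; some `D`-edge `a x'` in the sector crosses `xy`, and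
`b`, `c` are `x`, `y` or ends of `D`-edges crossing `xy`. -/
theorem new_step [Finite V] {C : Cfg V} {T D D' : SimpleGraph V} {x y : V}
    (hs : Setup C T D) (hr : Rep C T D D' x y) {d d' : V × V}
    (h : Step C T D' d d') (hn : ¬ Step C T D d d') :
    ∃ a b c, T.Adj a b ∧ T.Adj a c ∧ b ≠ c ∧ D'.Adj b c ∧ ¬ D.Adj b c ∧
      (∃ x', D.Adj a x' ∧ C.Cross x y a x') ∧
      (b = x ∨ b = y ∨ ∃ w, D.Adj b w ∧ C.Cross x y b w) ∧
      (c = x ∨ c = y ∨ ∃ w, D.Adj c w ∧ C.Cross x y c w) ∧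
      ((d = (a, b) ∧ d' = (a, c) ∧ Face C D' a b c ∧ ¬ Face C D a b c) ∨
       (d = (b, a) ∧ d' = (c, a) ∧ Face C D' b a c ∧ ¬ Face C D b a c)) := by
  obtain ⟨h3, c, h4, h5⟩ := h
  rcases h5 with ⟨h6, h7⟩ | ⟨h6, h7⟩
  · have hnf : ¬ Face C D d.1 d.2 c := fun hh => hn ⟨h3, c, hh, Or.inl ⟨h6, h7⟩⟩
    obtain ⟨⟨x', k1, k2, _, _⟩, k3⟩ := rep_new_face C T D D' hs hr h4 (hs.le h3) (hs.le h6) hnf
    refine ⟨d.1, d.2, c, h3, h6, h4.ne.2.2, h4.2.1, k3, ⟨x', k1, k2⟩,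
      rep_new_edge C T D D' hs hr h4.2.1 k3,
      rep_new_edge C T D D' hs hr h4.2.1.symm (fun hh => k3 hh.symm), Or.inl ⟨rfl, h7, h4, hnf⟩⟩
  · have hnf : ¬ Face C D d.1 d.2 c := fun hh => hn ⟨h3, c, hh, Or.inr ⟨h6, h7⟩⟩
    have hnf' : ¬ Face C D d.2 c d.1 := fun hh => hnf hh.rot.rot
    obtain ⟨⟨x', k1, k2, _, _⟩, k3⟩ :=
      rep_new_face C T D D' hs hr h4.rot (hs.le h6.symm) (hs.le h3.symm) hnf'
    have hbc : D'.Adj d.1 c := h4.2.2.1.symm
    have hnbc : ¬ D.Adj d.1 c := fun hh => k3 hh.symm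
    refine ⟨d.2, d.1, c, h3.symm, h6.symm, h4.ne.2.1, hbc, hnbc, ⟨x', k1, k2⟩,
      rep_new_edge C T D D' hs hr hbc hnbc,
      rep_new_edge C T D D' hs hr hbc.symm k3, Or.inr ⟨rfl, h7, h4, hnf⟩⟩

end CT
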