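import Pool.Agent.H7.CT.TreeF

/-! # CT module Res: definitions for the induction, deleting a point, connectedness by cut functions

* `conn_iff`: a graph is connected iff it is nonempty and every edge-invariant predicate is constant (walk induction; conversely use `g z := G.Reachable a z`).
* `ihx_of`: `T' := T0.comap Subtype.val`. Connected: `conn_iff` (given `g` on the subtype, extend it to `V` by anything at `x`; edges of `T0` do not meet `x`). The edge set of `T0` is the image of the edge set of `T'` under `Sym2.map Subtype.val` (injective), so `ncard` is the same;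
  `SimpleGraph.isTree_iff_connected_and_card`. `Plane`: `res_cross`. From `Good (C.res x) T'` with graph `G'` take `G := G'.map (Function.Embedding.subtype _)`. `Nat.card {v // v ≠ x} + 1 = Nat.card V`. -/

open Classical

namespace CT

variable {V : Type}

/-- the same configuration without the point `x` -/
def Cfg.res (C : Cfg V) (x : V) : Cfg {v : V // v ≠ x} where
  x := fun v => C.x v
  y := fun v => C.y v
  gp := fun a b c h1 h2 h3 => C.gp a b c (fun h => h1 (Subtype.ext h))
    (fun h => h2 (Subtype.ext h)) (fun h => h3 (Subtype.ext h))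

/-- the statement of the main theorem for `T` -/
def Good (C : Cfg V) (T : SimpleGraph V) : Prop :=
  ∃ G : SimpleGraph V, G.Connected ∧ Plane C (T ⊔ G) ∧
    ((T ⊓ G).edgeSet.ncard ≤ 1 ∨ 5 * (T ⊓ G).edgeSet.ncard + 2 ≤ Nat.card V)

/-- `K` has no edge at `x` and connects all other vertices -/
def Off (x : V) (K : SimpleGraph V) : Prop :=
  (∀ a, ¬ K.Adj x a) ∧ ∀ g : V → Prop, (∀ a b, K.Adj a b → (g a ↔ g b)) →
    ∀ a b, a ≠ x → b ≠ x → (g a ↔ g b)

/-- the statement of the main theorem for the points other than `x` -/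
def IHx (C : Cfg V) (x : V) : Prop :=
  ∀ T0 : SimpleGraph V, Off x T0 → T0.edgeSet.ncard + 2 = Nat.card V → Plane C T0 →
    ∃ G, Off x G ∧ Plane C (T0 ⊔ G) ∧
      ((T0 ⊓ G).edgeSet.ncard ≤ 1 ∨ 5 * (T0 ⊓ G).edgeSet.ncard + 3 ≤ Nat.card V)

/-- every vertex on a hull `T`-edge has also a `T`-edge that is not a hull edge -/
def Reduced (C : Cfg V) (T : SimpleGraph V) : Prop :=
  ∀ x y, T.Adj x y → (HE C x y ∨ HE C y x) → ∃ w, T.Adj x w ∧ ¬ HE C x w ∧ ¬ HE C w x

theorem res_cross (C : Cfg V) (x : V) (a b c d : {v : V // v ≠ x}) :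
    (C.res x).Cross a b c d ↔ C.Cross a b c d := Iff.rfl

theorem Res_walk {G : SimpleGraph V} {g : V → Prop} (hg : ∀ a b, G.Adj a b → (g a ↔ g b))
    {a b : V} (p : G.Walk a b) : g a ↔ g b := by
  induction p with
  | nil => exact Iff.rfl
  | cons h _ ih => exact (hg _ _ h).trans ih

theorem conn_iff (G : SimpleGraph V) : G.Connected ↔ Nonempty V ∧
    ∀ g : V → Prop, (∀ a b, G.Adj a b → (g a ↔ g b)) → ∀ a b, (g a ↔ g b) := by
  constructor
  · intro h
    refine ⟨h.nonempty, fun g hg a b => ?_⟩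
    obtain ⟨p⟩ := h.preconnected a b
    exact Res_walk hg p
  · rintro ⟨h1, h2⟩
    refine (SimpleGraph.connected_iff G).mpr ⟨fun a b => ?_, h1⟩
    have h3 := h2 (fun z => G.Reachable a z)
      (fun c d hcd => ⟨fun h => h.trans hcd.reachable, fun h => h.trans hcd.symm.reachable⟩) a b
    exact h3.mp (SimpleGraph.Reachable.refl a)

/-- restricting to the points other than `x` does not change the number of edges -/
theorem Res_ncard (K : SimpleGraph V) (x : V) (hK : ∀ a, ¬ K.Adj x a) :
    (K.comap (Subtype.val : {v : V // v ≠ x} → V)).edgeSet.ncard = K.edgeSet.ncard := by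
  rw [← Set.ncard_image_of_injective _ (Sym2.map.injective
    (Subtype.val_injective : Function.Injective (Subtype.val : {v : V // v ≠ x} → V)))]
  congr 1
  ext e
  constructor
  · rintro ⟨e', he', rfl⟩
    induction e' using Sym2.ind with
    | _ a b => exact he'
  · induction e using Sym2.ind with
    | _ a b =>
      intro h
      have hab : K.Adj a b := h
      have ha : a ≠ x := fun h1 => hK b (h1 ▸ hab)
      have hb : b ≠ x := fun h1 => hK a (h1 ▸ hab.symm)
      exact ⟨s(⟨a, ha⟩, ⟨b, hb⟩), hab, rfl⟩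

theorem ihx_of [Finite V] (C : Cfg V) (x : V)
    (h : ∀ T' : SimpleGraph {v : V // v ≠ x}, T'.IsTree → Plane (C.res x) T' →
      Good (C.res x) T') : IHx C x := by
  intro T0 hoff hcard hpl
  have hsub : Nat.card {v : V // v ≠ x} + 1 = Nat.card V := by
    have h1 : Nat.card {v : V // v ≠ x} = ({v | v ≠ x} : Set V).ncard := by
      rw [← Nat.card_coe_set_eq]; rfl
    have h2 : ({v | v ≠ x} : Set V) = ({x} : Set V)ᶜ := by ext v; simp
    have h3 := Set.ncard_add_ncard_compl ({x} : Set V)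
    rw [Set.ncard_singleton] at h3
    rw [h1, h2]
    omega
  obtain ⟨y0, hy0⟩ : ∃ y : V, y ≠ x := by
    by_contra hcon
    push Not at hcon
    have : Nat.card {v : V // v ≠ x} = 0 := by
      rw [Nat.card_eq_zero]; left
      exact ⟨fun v => v.2 (hcon v.1)⟩
    omega
  have hconn : (T0.comap (Subtype.val : {v : V // v ≠ x} → V)).Connected := by
    rw [conn_iff]
    refine ⟨⟨⟨y0, hy0⟩⟩, fun g hg a b => ?_⟩
    have h1 := hoff.2 (fun z => if hz : z ≠ x then g ⟨z, hz⟩ else True) ?_ a b a.2 b.2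
    · simpa [a.2, b.2] using h1
    · intro c d hcd
      have hc : c ≠ x := fun h1 => hoff.1 d (h1 ▸ hcd)
      have hd : d ≠ x := fun h1 => hoff.1 c (h1 ▸ hcd.symm)
      have h2 := hg ⟨c, hc⟩ ⟨d, hd⟩ hcd
      simpa [hc, hd] using h2
  have hn0 := Res_ncard T0 x hoff.1
  have htree : (T0.comap (Subtype.val : {v : V // v ≠ x} → V)).IsTree := by
    rw [SimpleGraph.isTree_iff_connected_and_card]
    refine ⟨hconn, ?_⟩
    rw [Nat.card_coe_set_eq, hn0]
    omega
  obtain ⟨G', hG1, hG2, hG3⟩ := h _ htree (fun a b c d h1 h2 h3 => hpl a b c d h1 h2 h3)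
  have hcm := SimpleGraph.comap_map_eq (Function.Embedding.subtype (fun v : V => v ≠ x)) G'
  have hoffG : ∀ a, ¬ (G'.map (Function.Embedding.subtype (fun v : V => v ≠ x))).Adj x a := by
    intro a ha
    rw [SimpleGraph.map_adj] at ha
    obtain ⟨u, v, -, hu, -⟩ := ha
    exact u.2 hu
  refine ⟨G'.map (Function.Embedding.subtype _), ⟨hoffG, ?_⟩, ?_, ?_⟩
  · intro g hg a b ha hb
    have h1 := ((conn_iff G').mp hG1).2 (fun z => g z.1) ?_ ⟨a, ha⟩ ⟨b, hb⟩
    · exact h1
    · intro c d hcd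
      refine hg c d ?_
      rw [SimpleGraph.map_adj]
      exact ⟨c, d, hcd, rfl, rfl⟩
  · have hlift : ∀ a b, (T0 ⊔ G'.map (Function.Embedding.subtype (fun v : V => v ≠ x))).Adj a b →
        ∃ a' b' : {v : V // v ≠ x}, a'.1 = a ∧ b'.1 = b ∧
          (T0.comap (Subtype.val : {v : V // v ≠ x} → V) ⊔ G').Adj a' b' := by
      intro a b hab
      rcases hab with hab | hab
      · have ha : a ≠ x := fun h1 => hoff.1 b (h1 ▸ hab)
        have hb : b ≠ x := fun h1 => hoff.1 a (h1 ▸ hab.symm)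
        exact ⟨⟨a, ha⟩, ⟨b, hb⟩, rfl, rfl, Or.inl hab⟩
      · rw [SimpleGraph.map_adj] at hab
        obtain ⟨u, v, huv, hu, hv⟩ := hab
        exact ⟨u, v, hu, hv, Or.inr huv⟩
    intro a b c d hab hcd hcr
    obtain ⟨a', b', rfl, rfl, h1⟩ := hlift a b hab
    obtain ⟨c', d', rfl, rfl, h2⟩ := hlift c d hcd
    exact hG2 a' b' c' d' h1 h2 hcr
  · have h1 := Res_ncard (T0 ⊓ G'.map (Function.Embedding.subtype (fun v : V => v ≠ x))) x
      (fun a ha => hoff.1 a ha.1)
    have h2 : (T0 ⊓ G'.map (Function.Embedding.subtype (fun v : V => v ≠ x))).comap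
        (Subtype.val : {v : V // v ≠ x} → V) =
        T0.comap (Subtype.val : {v : V // v ≠ x} → V) ⊓ G' := by
      ext a b
      constructor
      · rintro ⟨h3, h4⟩
        refine ⟨h3, ?_⟩
        rw [SimpleGraph.map_adj] at h4
        obtain ⟨u, v, huv, hu, hv⟩ := h4
        have hu' : u = a := Subtype.ext hu
        have hv' : v = b := Subtype.ext hv
        rw [← hu', ← hv']
        exact huv
      · rintro ⟨h3, h4⟩
        refine ⟨h3, ?_⟩
        rw [SimpleGraph.map_adj]
        exact ⟨a, b, h4, rfl, rfl⟩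
    rw [h2] at h1
    rw [h1] at hG3
    rcases hG3 with hG3 | hG3
    · exact Or.inl hG3
    · right; omega

theorem ihx_mir {C : Cfg V} {x : V} (h : IHx C x) : IHx C.mir x := by
  intro T0 h1 h2 h3
  obtain ⟨G, hG1, hG2, hG3⟩ := h T0 h1 h2 (plane_mir.mp h3)
  exact ⟨G, hG1, plane_mir.mpr hG2, hG3⟩

theorem good_mir {C : Cfg V} {T : SimpleGraph V} (h : Good C.mir T) : Good C T := by
  obtain ⟨G, hG1, hG2, hG3⟩ := h
  exact ⟨G, hG1, plane_mir.mp hG2, hG3⟩

theorem reduced_mir {C : Cfg V} {T : SimpleGraph V} : Reduced C.mir T ↔ Reduced C T := by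
  unfold Reduced
  simp only [he_mir]
  constructor
  · intro h x y h1 h2
    obtain ⟨w, h3, h4, h5⟩ := h x y h1 h2.symm
    exact ⟨w, h3, h5, h4⟩
  · intro h x y h1 h2
    obtain ⟨w, h3, h4, h5⟩ := h x y h1 h2.symm
    exact ⟨w, h3, h5, h4⟩

/-- `T` without the edges at `x` -/
def del (T : SimpleGraph V) (x : V) : SimpleGraph V where
  Adj a b := T.Adj a b ∧ a ≠ x ∧ b ≠ x
  symm := ⟨fun _ _ h => ⟨h.1.symm, h.2.2, h.2.1⟩⟩
  loopless := ⟨fun _ h => h.1.ne rfl⟩

/-- the graph with the single edge `a b` (empty if `a = b`) is `SimpleGraph.edge a b` -/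
theorem edge_adj' {a b c d : V} (hab : a ≠ b) :
    (SimpleGraph.edge a b).Adj c d ↔ (c = a ∧ d = b) ∨ (c = b ∧ d = a) := by
  rw [SimpleGraph.edge_adj]
  constructor
  · exact fun h => h.1
  · intro h
    refine ⟨h, ?_⟩
    rcases h with ⟨rfl, rfl⟩ | ⟨rfl, rfl⟩
    · exact hab
    · exact hab.symm

theorem tree_card [Finite V] {T : SimpleGraph V} (hT : T.IsTree) :
    T.edgeSet.ncard + 1 = Nat.card V := by
  have h := (SimpleGraph.isTree_iff_connected_and_card.mp hT).2
  rw [Nat.card_coe_set_eq] at h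
  exact h

end CT
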