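import Pool.Agent.H7.CT.Win

/-! # CT module Scan

`q` is the first time of `y = y_q`, `0 < q` (step `q-1` keeps `x_{q-1} = x_q`). `z` a `D`-neighbour of `y` with `o x_q y z < 0`. Then `z = y_p` for some window `Win p q`.
Proof. At `y` write `[a,b] = o y a b`; `[x_q,z] > 0`. Claim by strong induction (downwards) on `p`: if `Win p q`, `[x_q, y_p] > 0` and (`z = y_p` or `[y_p,z] > 0`), then the conclusion holds. Start: `p = q-1`, `Win.base`: `Face x_q y_{q-1} y`: `Face y x_q y_{q-1}`: `[x_q,y_{q-1}] > 0`, `sector`: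
`z = y_{q-1}` or `[y_{q-1},z] > 0`. Step: `z ≠ y_p`, `[y_p,z] > 0`, i.e. `z` is left of `y → y_p`, so `Face y y_p w` exists (`face_exists`), i.e. `Face y_q y_p w`. `sector`: `w = z` or `[w,z] > 0`. `hG`: (1) `0 < o x_q y w`, i.e. `[x_q,w] < 0`: contradiction: if `w = z` directly; else `gp_contra` at `y` for `x_q y_p w z`:
`[x_q,y_p] > 0, [w,z] > 0, [x_q,w] < 0, [y_p,z] > 0, [x_q,z] > 0, [y_p,w] > 0`. (2) `w = y_{p'}`, `Win p' q`, `p' < p`; if `[x_q,y_{p'}] > 0` continue with `p'`; otherwise (`[x_q,w] < 0`; nonzero since an `x` is no `y`) the contradiction of (1). -/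

open Classical

namespace CT

variable {V : Type}

theorem Scan_step [Finite V] {C : Cfg V} {T D : SimpleGraph V} (hs : Setup C T D)
    {d : ℕ → V × V} {r q : ℕ} (h : Strip C T D d r) (hq : q ≤ r)
    (hG : ∀ p w, Win C D d r p q → Face C D (d q).2 (d p).2 w →
      0 < C.o (d q).1 (d q).2 w ∨ ∃ p', p' < p ∧ Win C D d r p' q ∧ w = (d p').2)
    {z : V} (hz : D.Adj (d q).2 z) (ho : C.o (d q).1 (d q).2 z < 0) :
    ∀ p, Win C D d r p q → 0 < C.o (d q).2 (d q).1 (d p).2 →
      (z = (d p).2 ∨ 0 < C.o (d q).2 (d p).2 z) →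
      ∃ p, Win C D d r p q ∧ z = (d p).2 := by
  have hoz : 0 < C.o (d q).2 (d q).1 z := by
    rw [C.o_swap]; linarith
  intro p
  induction p using Nat.strong_induction_on with
  | _ p ih =>
    intro hW hxp hzp
    rcases hzp with hzp | hzp
    · exact ⟨p, hW, hzp⟩
    have hadj : D.Adj (d q).2 (d p).2 := (hW.adj hs h).symm
    obtain ⟨w, hf⟩ := face_exists C D hs.mp hadj hzp
    have hyw : 0 < C.o (d q).2 (d p).2 w := hf.2.2.2.1
    have hsec := sector C D hs.mp.1 hf hz
    have hwz : w = z ∨ 0 < C.o (d q).2 w z := by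
      by_cases hwz : w = z
      · exact Or.inl hwz
      · right
        have h1 : ¬ 0 < C.o (d q).2 z w := fun h2 => hsec ⟨hzp, h2⟩
        have h3 := (C.ne_of_o_pos hzp).2.1
        have h4 := (C.ne_of_o_pos hyw).2.1
        rcases C.o_pos_or_neg h4 h3 hwz with h5 | h5
        · exact h5
        · exfalso
          apply h1
          rw [C.o_swap']; linarith
    have hcon : C.o (d q).2 (d q).1 w < 0 → False := by
      intro hneg
      rcases hwz with hwz | hwz
      · subst hwz; linarith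
      · exact C.gp_contra hxp hwz hneg hzp hoz hyw
    rcases hG p w hW hf with h1 | ⟨p', hp', hW', hw⟩
    · exact (hcon (by rw [C.o_swap]; linarith)).elim
    · subst hw
      have hlt := hW'.lt
      have hne1 : (d q).1 ≠ (d p').2 := strip_xy_ne hs h hq (by omega)
      have hne2 : (d q).1 ≠ (d q).2 := strip_xy_ne hs h hq hq
      have hne3 := (C.ne_of_o_pos hyw).2.1
      rcases C.o_pos_or_neg hne2.symm hne3 hne1 with h5 | h5
      · refine ih p' hp' hW' h5 ?_
        rcases hwz with hwz | hwz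
        · exact Or.inl hwz.symm
        · exact Or.inr hwz
      · exact (hcon h5).elim

theorem scan [Finite V] {C : Cfg V} {T D : SimpleGraph V} (hs : Setup C T D)
    {d : ℕ → V × V} {r q : ℕ} (h : Strip C T D d r) (hq : q ≤ r) (hq0 : 0 < q)
    (hx : (d q).1 = (d (q - 1)).1)
    (hG : ∀ p w, Win C D d r p q → Face C D (d q).2 (d p).2 w →
      0 < C.o (d q).1 (d q).2 w ∨ ∃ p', p' < p ∧ Win C D d r p' q ∧ w = (d p').2)
    {z : V} (hz : D.Adj (d q).2 z) (ho : C.o (d q).1 (d q).2 z < 0) :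
    ∃ p, Win C D d r p q ∧ z = (d p).2 := by
  obtain ⟨j, rfl⟩ : ∃ j, q = j + 1 := ⟨q - 1, by omega⟩
  simp only [Nat.add_sub_cancel] at hx
  have hjr : j < r := by omega
  have hW : Win C D d r j (j + 1) := Win.base hjr hx
  have hf0 := (Win_ne hs h hjr hx).2
  rw [← hx] at hf0
  have hf : Face C D (d (j + 1)).2 (d (j + 1)).1 (d j).2 := hf0.rot.rot
  have hxp : 0 < C.o (d (j + 1)).2 (d (j + 1)).1 (d j).2 := hf.2.2.2.1
  have hoz : 0 < C.o (d (j + 1)).2 (d (j + 1)).1 z := by
    rw [C.o_swap]; linarith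
  refine Scan_step hs h hq hG hz ho j hW hxp ?_
  by_cases hzj : z = (d j).2
  · exact Or.inl hzj
  · right
    have hsec := sector C D hs.mp.1 hf hz
    have h1 : ¬ 0 < C.o (d (j + 1)).2 z (d j).2 := fun h2 => hsec ⟨hoz, h2⟩
    have h3 := (C.ne_of_o_pos hoz).2.1
    have h4 := (C.ne_of_o_pos hxp).2.1
    rcases C.o_pos_or_neg h4 h3 (fun h => hzj h.symm) with h5 | h5
    · exact h5
    · exfalso
      apply h1
      rw [C.o_swap']; linarith

end CT
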