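import Pool.Agent.H7.CT.RepWalk
import Pool.Agent.H7.CT.HP

/-! # CT module Share: a common neighbour of two isolated vertices, part 1

`share_type`: two different isolated vertices of type N have no common neighbour: `v' ∈ Zn v p` (`v'` is not adjacent to `v`:
`iso_nbr_not_iso`), so `o v p v' < 0`, and symmetrically `o v' p v < 0`; but `o v' p v = - o v p v'`.
`share_bb`: `v` type N, `v'` type P, `p` a common neighbour (inner). Let `b'` be the element of `{z | Zn v p z}` (∋ `v'`; all have `o v p z < 0`) with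
`o p b' z < 0` for all the others (`exists_first`/`exists_last` at `p`), `Face p b' b` (`p` inner: `face_exists`). Then:
`b' ≠ v'`: otherwise `b` is a `D`-neighbour of `v'`, so `T.Adj v' b`, and (`b` is not in `Zn v p` because `0 < o p b' b`; `b ≠ v` since `b' ∉ N(v)` and `Iso v`) `T.Adj v b`: `no4` contradiction with `p` (`b ≠ p`).
 `b ∈ N(v)` as just shown. `o p b' v' < 0`. `T.Adj v' b'`: otherwise `Zn v' p b'` and type P: `0 < o v' p b' = o p b' v'`, contradiction.
 `¬ T.Adj v b'` (Zn), `¬ T.Adj v' b` (`no4`). -/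

open Classical

namespace CT

variable {V : Type}

theorem share_type [Finite V] {C : Cfg V} {T D : SimpleGraph V} (hs : Setup C T D)
    {v v' p : V} (hv : Iso C T D v) (hv' : Iso C T D v') (hne : v ≠ v')
    (hN : TypeN C T D v) (hN' : TypeN C T D v') (hp : T.Adj v p) (hp' : T.Adj v' p) :
    False := by
  have h1 : ¬ T.Adj v v' := fun h => iso_nbr_not_iso hs hv h hv'
  have z1 : Zn T D v p v' := ⟨hs.le hp'.symm, hne.symm, h1⟩
  have z2 : Zn T D v' p v := ⟨hs.le hp.symm, hne, fun h => h1 h.symm⟩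
  have e1 := hN p v' hp z1
  have e2 := hN' p v hp' z2
  have e3 := C.o_swap13 v' p v
  linarith

theorem share_bb [Finite V] {C : Cfg V} {T D : SimpleGraph V} (hs : Setup C T D)
    {v v' p : V} (hv : Iso C T D v) (hv' : Iso C T D v') (hne : v ≠ v')
    (hN : TypeN C T D v) (hP : TypeP C T D v') (hI : Inner C p) (hp : T.Adj v p)
    (hp' : T.Adj v' p) :
    ∃ b b', Face C D p b' b ∧ T.Adj v b ∧ T.Adj v' b' ∧ ¬ T.Adj v b' ∧ ¬ T.Adj v' b ∧
      b' ≠ v' ∧ C.o p b' v' < 0 ∧ C.o v p v' < 0 ∧ C.o v p b' < 0 := by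
  have h1 : ¬ T.Adj v v' := fun h => iso_nbr_not_iso hs hv h hv'
  have z1 : Zn T D v p v' := ⟨hs.le hp'.symm, hne.symm, h1⟩
  have hsw : ∀ z, C.o p v z = - C.o v p z := fun z => C.o_swap p v z
  obtain ⟨b', hb'Z, hb'⟩ := exists_last C p v {z | Zn T D v p z} ⟨v', z1⟩
    (fun z hz => by rw [hsw]; linarith [hN p z hp hz])
  have hb'Z' : Zn T D v p b' := hb'Z
  obtain ⟨hpb', hb'v, hvb'⟩ := hb'Z'
  -- the face to the left of `p → b'`
  obtain ⟨⟨z, hz⟩, _⟩ := hI b' hpb'.ne'
  obtain ⟨b, hf⟩ := face_exists C D hs.mp hpb' hz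
  have hfne := hf.ne
  obtain ⟨f1, f2, f3, f4, f5⟩ := id hf
  have hbZ : ¬ Zn T D v p b := by
    intro hb
    have h := hb' b hb hfne.2.2.symm
    have e := C.o_swap' p b b'
    linarith
  have hbv : b ≠ v := by
    rintro rfl
    exact hvb' (hv.2 b' f2.symm)
  have hvb : T.Adj v b := by
    by_contra h
    exact hbZ ⟨f3.symm, hbv, h⟩
  have hbp : b ≠ p := hfne.2.1.symm
  have hv'b : ¬ T.Adj v' b := by
    intro h
    exact hbp (no4 T hs.tree hne hvb h hp hp')
  have hb'v' : b' ≠ v' := by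
    rintro rfl
    exact hv'b (hv'.2 b f2)
  have e1 : C.o p b' v' < 0 := by
    have h := hb' v' z1 hb'v'.symm
    have e := C.o_swap' p b' v'
    linarith
  have hv'b' : T.Adj v' b' := by
    by_contra h
    have h2 := hP p b' hp' ⟨hpb', hb'v', h⟩
    have e := C.o_cyc v' p b'
    linarith
  exact ⟨b, b', hf, hvb, hv'b', hvb', hv'b, hb'v', e1, hN p v' hp z1, hN p b' hp hb'Z⟩

end CT
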