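import Pool.Agent.H7.CT.Share
import Pool.Agent.H7.CT.Flip
import Pool.Agent.H7.CT.Pocket
import Pool.Agent.H7.CT.LemU

/-! # CT module ShareY: the vertex beyond `bb'` belongs to one of the two stars

`v` type N, `v'` type P (isolated, in a minimal `D`), common neighbour `p`, `b, b'` from `share_bb`, `Face b b' y` exists (`b` inner). Claim: `T.Adj v y ∨ T.Adj v' y`.
Suppose not. `y ≠ v` (`b'` would be in `N(v)`), `y ≠ v'`. So `Zn v b y`, `Zn v b b'`, `Zn v' b' y`, `Zn v' b' b`; type N at `b`: `o v b y < 0`, `o v b b' < 0`; type P at `b'`: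
`0 < o v' b' y`, `0 < o v' b' b`.
Convexity: `0 < o b p y`: at `b` write `[x,y] = o b x y`: `[v,b'] > 0`, `[v,y] > 0`, `[p,b'] > 0`, `[b',y] > 0` (faces), `[v,p] > 0` (`v` is not in the sector `(p,b')` at `b`: `sector`, and `[v,b'] > 0`), and
`gpi b v p b' y` gives `[p,y] > 0`. Mirror at `b'`: `0 < o b' y p`. Hence `py` crosses `bb'`.
`bb' ∉ T` (`no5 v b b' v' p`), `pb, pb' ∉ T` (`link_not_T`), not both `yb, yb' ∈ T` (`no6 v b y b' v' p`). `neutral_flip`: `D1`, which is again a minimiser (`Min C T D1`), `v, v'` isolated in `D1`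
(`v, v' ∉ {p,y}`). In `D1`: `lemU`, `hp` for `v` and `v'` (not the star case: `v'` is not in `N[v]`; `v ∉ N[v']`). `o v p v' < 0` with `Zn T D1 v p v'`: `v` is of type N in `D1`; `v'`: `0 < o v' p v`: type P in `D1`.
`Zn T D1 v p y`: `o v p y < 0`; `Zn T D1 v' p y`: `0 < o v' p y`, i.e. `0 < o p y v'`. At `p` (`[x,y] = o p x y`): `[v,v'] > 0`, `[b',y] > 0` (`py` crosses `bb'`, `Face p b' b`), `[v,b'] > 0`, `[v',y] < 0`, `[v,y] > 0`, `[v',b'] > 0` (`o p b' v' < 0`):
`gpi p v v' b' y` is positive: contradiction. -/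

open Classical

namespace CT

variable {V : Type}

theorem ShareY_hp [Finite V] {C : Cfg V} {T D : SimpleGraph V} (hm : Min C T D) {v : V}
    (hv : Iso C T D v) :
    (∀ z, z = v ∨ T.Adj v z) ∨ TypeN C T D v ∨ TypeP C T D v := by
  rcases hp hm.1 hv (lemU hm hv) with h | ⟨h, _, _⟩
  · exact Or.inl h
  · exact Or.inr h

theorem share_y [Finite V] {C : Cfg V} {T D : SimpleGraph V} (hm : Min C T D)
    {v v' p b b' y : V} (hv : Iso C T D v) (hv' : Iso C T D v') (hne : v ≠ v')
    (hN : TypeN C T D v) (hP : TypeP C T D v') (hp : T.Adj v p) (hp' : T.Adj v' p)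
    (hf : Face C D p b' b) (hb : T.Adj v b) (hb' : T.Adj v' b') (hvb' : ¬ T.Adj v b')
    (hv'b : ¬ T.Adj v' b) (h1 : C.o p b' v' < 0) (h2 : C.o v p v' < 0)
    (h3 : C.o v p b' < 0) (hy : Face C D b b' y) : T.Adj v y ∨ T.Adj v' y := by
  by_contra hcon
  push Not at hcon
  obtain ⟨hvy, hv'y⟩ := hcon
  have hs : Setup C T D := hm.1
  have hyv : y ≠ v := by
    rintro rfl
    exact hvb' (hv.2 _ hy.2.1.symm)
  have hyv' : y ≠ v' := by
    rintro rfl
    exact hv'b (hv'.2 _ hy.2.2.1)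
  have hvv' : ¬ T.Adj v v' := fun h => iso_nbr_not_iso hs hv h hv'
  have hv'v : ¬ T.Adj v' v := fun h => iso_nbr_not_iso hs hv' h hv
  have hbv' : b ≠ v' := by
    rintro rfl
    exact hvv' hb
  have hb'v : b' ≠ v := by
    rintro rfl
    exact hv'v hb'
  have hbb' : D.Adj b b' := hy.1
  -- types at `b` and `b'`
  have n1 : C.o v b y < 0 := hN b y hb ⟨hy.2.2.1.symm, hyv, hvy⟩
  have n2 : C.o v b b' < 0 := hN b b' hb ⟨hbb', hb'v, hvb'⟩
  have q1 : 0 < C.o v' b' y := hP b' y hb' ⟨hy.2.1, hyv', hv'y⟩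
  have q2 : 0 < C.o v' b' b := hP b' b hb' ⟨hbb'.symm, hbv', hv'b⟩
  have hfo : 0 < C.o p b' b := hf.2.2.2.1
  have hyo : 0 < C.o b b' y := hy.2.2.2.1
  have hpb' : p ≠ b' := hf.ne.1
  have hpb : p ≠ b := hf.ne.2.1
  have hb'b : b' ≠ b := hf.ne.2.2
  -- convexity at `b`
  have c1 : 0 < C.o b p y := by
    have e1 : 0 < C.o b v b' := by rw [C.o_swap b v b']; linarith
    have e2 : 0 < C.o b v y := by rw [C.o_swap b v y]; linarith
    have e3 : 0 < C.o b p b' := by rw [C.o_cyc b p b']; exact hfo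
    have e4 : 0 < C.o b v p := by
      have hsec := sector C D hs.mp.1 (hf.rot.rot) (hs.le hb).symm
      have e5 : ¬ 0 < C.o b p v := fun h => hsec ⟨h, e1⟩
      rcases C.o_pos_or_neg hpb.symm (hb.ne.symm) (hp.ne.symm) with h | h
      · exact absurd h e5
      · rw [C.o_swap' b v p]; linarith
    have hg := C.gpi b v p b' y
    have e6 : 0 < C.o b v b' * C.o b p y := by
      nlinarith [mul_pos e4 hyo, mul_pos e2 e3]
    exact (pos_iff_pos_of_mul_pos e6).mp e1
  -- convexity at `b'`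
  have c2 : 0 < C.o b' y p := by
    have e1 : C.o b' v' b < 0 := by rw [C.o_swap b' v' b]; linarith
    have e2 : C.o b' v' y < 0 := by rw [C.o_swap b' v' y]; linarith
    have e3 : 0 < C.o b' b p := by rw [← C.o_cyc p b' b]; exact hfo
    have e3' : 0 < C.o b' y b := by rw [← C.o_cyc b b' y]; exact hyo
    have e4 : C.o b' v' p < 0 := by
      have hsec := sector C D hs.mp.1 hf.rot (hs.le hb').symm
      have e5 : ¬ 0 < C.o b' v' p := fun h => hsec ⟨by rw [C.o_swap' b' b v']; linarith, h⟩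
      rcases C.o_pos_or_neg (hb'.ne.symm) hpb'.symm (hp'.ne) with h | h
      · exact absurd h e5
      · exact h
    have hg := C.gpi b' v' y b p
    have e6 : C.o b' v' b * C.o b' y p < 0 := by
      nlinarith [mul_neg_of_neg_of_pos e2 e3, mul_neg_of_neg_of_pos e4 e3']
    by_contra h
    push Not at h
    nlinarith [mul_nonneg_of_nonpos_of_nonpos e1.le h]
  have hcr : C.Cross p y b b' := by
    constructor
    · have e1 : C.o p y b = C.o b p y := (C.o_cyc b p y).symm
      have e2 : C.o p y b' = - C.o b' y p := by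
        rw [C.o_swap' p y b', C.o_cyc p b' y]
      rw [e1, e2]
      nlinarith [mul_pos c1 c2]
    · have e1 : C.o b b' p = - C.o p b' b := by
        rw [C.o_swap b b' p, C.o_cyc p b' b]
      rw [e1]
      nlinarith [mul_pos hfo hyo]
  have t1 : ¬ T.Adj b b' := fun h => no5 T hs.tree hb h hb'.symm hp' hp.symm
  have t2 : ¬ T.Adj p b := link_not_T hs hp hb
  have t3 : ¬ T.Adj p b' := link_not_T hs hp' hb'
  have t4 : ¬ (T.Adj y b ∧ T.Adj y b') := by
    rintro ⟨h5, h6⟩
    exact no6 T hs.tree hb h5.symm h6 hb'.symm hp' hp.symm hyv.symm hpb.symm hb'b.symm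
  obtain ⟨D1, hs1, hpy, hn, _, hi, _⟩ := neutral_flip hs hf hy hcr t1 t2 t3 t4
  have hm1 : Min C T D1 := ⟨hs1, fun D' h' => le_trans hn (hm.2 D' h')⟩
  have hv1 : Iso C T D1 v := hi v hv hp.ne hyv.symm
  have hv1' : Iso C T D1 v' := hi v' hv' hp'.ne hyv'.symm
  have hN1 : TypeN C T D1 v := by
    rcases ShareY_hp hm1 hv1 with h | h | h
    · rcases h v' with h | h
      · exact absurd h.symm hne
      · exact absurd h hvv'
    · exact h
    · have := h p v' hp ⟨hs1.le hp'.symm, hne.symm, hvv'⟩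
      linarith
  have hP1 : TypeP C T D1 v' := by
    rcases ShareY_hp hm1 hv1' with h | h | h
    · rcases h v with h | h
      · exact absurd h hne
      · exact absurd h hv'v
    · have h5 := h p v hp' ⟨hs1.le hp.symm, hne, hv'v⟩
      rw [C.o_swap13 v' p v] at h5
      linarith
    · exact h
  have m1 : C.o v p y < 0 := hN1 p y hp ⟨hpy, hyv, hvy⟩
  have m2 : 0 < C.o v' p y := hP1 p y hp' ⟨hpy, hyv', hv'y⟩
  have g1 : 0 < C.o p v v' := by rw [C.o_swap p v v']; linarith
  have g2 : 0 < C.o p b' y := by rw [C.o_cyc p b' y]; exact c2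
  have g3 : 0 < C.o p v b' := by rw [C.o_swap p v b']; linarith
  have g4 : C.o p v' y < 0 := by rw [C.o_swap p v' y]; linarith
  have g5 : 0 < C.o p v y := by rw [C.o_swap p v y]; linarith
  have g6 : 0 < C.o p v' b' := by rw [C.o_swap' p v' b']; linarith
  have hg := C.gpi p v v' b' y
  nlinarith [mul_pos g1 g2, mul_neg_of_pos_of_neg g3 g4, mul_pos g5 g6]

end CT
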