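import Pool.Agent.H7.CT.Hot
import Pool.Agent.H7.CT.IsoWalk

/-! # CT module Strip1: hull-hull walks (strips), basic facts

`Strip C T D d r`: darts `d j = (x_j, y_j)`, `j = 0..r`, steps `d j → d (j+1)`, `d 0` a hull dart, nothing left of `d r`.
* colours (`tree_color`, `step_color`): no `x_i` is a `y_j`; no `T`-edge between two `x`'s or two `y`'s.
* `strip_edge`: a `T`-edge `x_i y_j` is one of the darts of the strip. Proof: let `f` be its cut function (`tree_cut`). If no strip edge is equal to it, `f` is constant on the vertices of the strip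
  (consecutive darts share a vertex): contradiction. The dart has the right orientation by colours.
* `strip_interval_y`: the times with `y_j = v` form an interval. Proof: it is enough: `j < k ≤ r`, `y_{j+1} ≠ y_j` (step `j` keeps `x_j`) ⇒ `y_k ≠ y_j`. Let `f` be the cut function of the edge `x_j y_j`,
  `f x_j`, `¬ f y_j`. For `k ≥ j+1`: `f x_k` and `f y_k` by induction (`f y_{j+1}` since the edge `x_j y_{j+1}` is not `x_j y_j`; the darts are pairwise different (`HWalk.inj`) and never reversed (colours), so the edge of `d k` is not `x_j y_j`, and `d (k+1)` shares a vertex with `d k`).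
  Same for `x`.
* `strip_left`, `strip_right`: the faces on the two sides of a strip edge (`face_unique`).
* `strip_mir`: mirror image with swapped darts; `strip_rev`: time reversal in the mirror image (`step_mir`, `step_swap`, `he_mir`). -/

open Classical

namespace CT

variable {V : Type}

structure Strip (C : Cfg V) (T D : SimpleGraph V) (d : ℕ → V × V) (r : ℕ) : Prop where
  hd : IsHD C T (d 0)
  step : ∀ j, j < r → Step C T D (d j) (d (j + 1))
  fin : HE C (d r).1 (d r).2

theorem Strip1_adj {C : Cfg V} {T D : SimpleGraph V} {d : ℕ → V × V} {r : ℕ}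
    (h : Strip C T D d r) {j : ℕ} (hj : j ≤ r) : T.Adj (d j).1 (d j).2 := by
  cases j with
  | zero => exact h.hd.1
  | succ m => exact step_adj (h.step m (by omega))

theorem Strip1_reach {C : Cfg V} {T D : SimpleGraph V} {d : ℕ → V × V} {r : ℕ}
    (h : Strip C T D d r) {j : ℕ} (hj : j ≤ r) :
    Relation.ReflTransGen (Step C T D) (d 0) (d j) := by
  induction j with
  | zero => exact Relation.ReflTransGen.refl
  | succ m ih => exact (ih (by omega)).tail (h.step m (by omega))

/-- a step keeps one of the two components -/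
theorem Strip1_share {C : Cfg V} {T D : SimpleGraph V} {d d' : V × V}
    (h : Step C T D d d') : d'.1 = d.1 ∨ d'.2 = d.2 := by
  obtain ⟨_, c, _, h | h⟩ := h
  · left; rw [h.2]
  · right; rw [h.2]

theorem Strip1_color {C : Cfg V} {T D : SimpleGraph V} {χ : V → Bool}
    (hχ : ∀ a b, T.Adj a b → χ a ≠ χ b) {d : ℕ → V × V} {r : ℕ}
    (h : Strip C T D d r) {j : ℕ} (hj : j ≤ r) :
    χ (d j).1 = χ (d 0).1 ∧ χ (d j).2 = χ (d 0).2 :=
  reach_color hχ (Strip1_reach h hj)

theorem Strip.hwalk {C : Cfg V} {T D : SimpleGraph V} {d : ℕ → V × V} {r : ℕ}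
    (h : Strip C T D d r) : HWalk C T D d r := by
  exact ⟨h.hd, h.step, fun d' => no_step_of_he h.fin⟩

theorem Strip.hot {C : Cfg V} {T D : SimpleGraph V} {d : ℕ → V × V} {r : ℕ}
    (h : Strip C T D d r) : Hot C T D (d 0) := by
  exact ⟨h.hd, d r, Strip1_reach h le_rfl, h.fin⟩

theorem exists_strip [Finite V] {C : Cfg V} {T D : SimpleGraph V} (hs : Setup C T D)
    {e : V × V} (he : Hot C T D e) : ∃ d r, Strip C T D d r ∧ d 0 = e := by
  obtain ⟨d, r, h1, h2, h3, _⟩ := hot_hwalk hs he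
  exact ⟨d, r, ⟨h1.hd, h1.step, h3⟩, h2⟩

theorem Strip.pos {C : Cfg V} {T D : SimpleGraph V} (hs : Setup C T D) {d : ℕ → V × V} {r : ℕ}
    (h : Strip C T D d r) : 0 < r := by
  rcases Nat.eq_zero_or_pos r with hr | hr
  · exfalso
    subst hr
    obtain ⟨a, b, c, hab, hac, hbc⟩ := hs.three
    have key : ∃ z, z ≠ (d 0).1 ∧ z ≠ (d 0).2 := by
      by_cases ha1 : a = (d 0).1
      · by_cases hb2 : b = (d 0).2
        · exact ⟨c, fun h => hac (by rw [ha1, h]), fun h => hbc (by rw [hb2, h])⟩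
        · exact ⟨b, fun h => hab (by rw [ha1, h]), hb2⟩
      · by_cases ha2 : a = (d 0).2
        · by_cases hb1 : b = (d 0).1
          · exact ⟨c, fun h => hbc (by rw [hb1, h]), fun h => hac (by rw [ha2, h])⟩
          · exact ⟨b, hb1, fun h => hab (by rw [ha2, h])⟩
        · exact ⟨a, ha1, ha2⟩
    obtain ⟨z, hz1, hz2⟩ := key
    exact h.fin z (hd_left h.hd hz1 hz2)
  · exact hr

theorem strip_xy_ne {C : Cfg V} {T D : SimpleGraph V} (hs : Setup C T D) {d : ℕ → V × V}
    {r : ℕ} (h : Strip C T D d r) {i j : ℕ} (hi : i ≤ r) (hj : j ≤ r) :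
    (d i).1 ≠ (d j).2 := by
  obtain ⟨χ, hχ⟩ := tree_color T hs.tree
  intro he
  have h1 := (Strip1_color hχ h hi).1
  have h2 := (Strip1_color hχ h hj).2
  apply hχ _ _ h.hd.1
  rw [← h1, ← h2, he]

theorem strip_xx_not_T {C : Cfg V} {T D : SimpleGraph V} (hs : Setup C T D) {d : ℕ → V × V}
    {r : ℕ} (h : Strip C T D d r) {i j : ℕ} (hi : i ≤ r) (hj : j ≤ r) :
    ¬ T.Adj (d i).1 (d j).1 := by
  obtain ⟨χ, hχ⟩ := tree_color T hs.tree
  intro he
  have h1 := (Strip1_color hχ h hi).1
  have h2 := (Strip1_color hχ h hj).1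
  apply hχ _ _ he
  rw [h1, h2]

theorem strip_yy_not_T {C : Cfg V} {T D : SimpleGraph V} (hs : Setup C T D) {d : ℕ → V × V}
    {r : ℕ} (h : Strip C T D d r) {i j : ℕ} (hi : i ≤ r) (hj : j ≤ r) :
    ¬ T.Adj (d i).2 (d j).2 := by
  obtain ⟨χ, hχ⟩ := tree_color T hs.tree
  intro he
  have h1 := (Strip1_color hχ h hi).2
  have h2 := (Strip1_color hχ h hj).2
  apply hχ _ _ he
  rw [h1, h2]

theorem Strip1_conn0 {C : Cfg V} {T D : SimpleGraph V} {d : ℕ → V × V} {r : ℕ}
    (h : Strip C T D d r) (f : V → Prop)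
    (hf : ∀ j, j ≤ r → (f (d j).1 ↔ f (d j).2)) {j : ℕ} (hj : j ≤ r) :
    (f (d j).1 ↔ f (d 0).1) ∧ (f (d j).2 ↔ f (d 0).1) := by
  induction j with
  | zero => exact ⟨Iff.rfl, (hf 0 hj).symm⟩
  | succ m ih =>
    have ih' := ih (by omega)
    have h1 := hf (m + 1) hj
    rcases Strip1_share (h.step m (by omega)) with h2 | h2
    · rw [h2] at h1 ⊢
      exact ⟨ih'.1, h1.symm.trans ih'.1⟩
    · rw [h2] at h1 ⊢
      exact ⟨h1.trans ih'.2, ih'.2⟩

theorem strip_edge {C : Cfg V} {T D : SimpleGraph V} (hs : Setup C T D) {d : ℕ → V × V}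
    {r : ℕ} (h : Strip C T D d r) {i j : ℕ} (hi : i ≤ r) (hj : j ≤ r)
    (hT : T.Adj (d i).1 (d j).2) : ∃ k, k ≤ r ∧ d k = ((d i).1, (d j).2) := by
  by_contra hno
  push Not at hno
  obtain ⟨f, hf1, hf2, hf3⟩ := tree_cut T hs.tree hT
  have hf : ∀ k, k ≤ r → (f (d k).1 ↔ f (d k).2) := by
    intro k hk
    apply hf3 _ _ (Strip1_adj h hk)
    · rintro ⟨e1, e2⟩
      exact hno k hk (Prod.ext e1 e2)
    · rintro ⟨e1, _⟩
      exact strip_xy_ne hs h hk hj e1
  have h1 := (Strip1_conn0 h f hf hi).1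
  have h2 := (Strip1_conn0 h f hf hj).2
  exact hf2 (h2.mpr (h1.mp hf1))

/-- a cut function of a `T`-edge `a b` with `b` not on the strip is constant on the strip -/
theorem strip_conn {C : Cfg V} {T D : SimpleGraph V} {d : ℕ → V × V} {r : ℕ}
    (h : Strip C T D d r) (f : V → Prop)
    (hf : ∀ j, j ≤ r → (f (d j).1 ↔ f (d j).2)) {i j : ℕ} (hi : i ≤ r) (hj : j ≤ r) :
    (f (d i).1 ↔ f (d j).1) ∧ (f (d i).2 ↔ f (d j).2) ∧ (f (d i).1 ↔ f (d j).2) := by
  have h1 := Strip1_conn0 h f hf hi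
  have h2 := Strip1_conn0 h f hf hj
  exact ⟨h1.1.trans h2.1.symm, h1.2.trans h2.2.symm, h1.1.trans h2.2.symm⟩

/-- after the strip leaves `y_j` it never comes back -/
theorem Strip1_leave_y {C : Cfg V} {T D : SimpleGraph V} (hs : Setup C T D)
    {d : ℕ → V × V} {r : ℕ} (h : Strip C T D d r) {j k : ℕ} (hjk : j < k) (hk : k ≤ r)
    (hne : (d (j + 1)).2 ≠ (d j).2) : (d k).2 ≠ (d j).2 := by
  obtain ⟨f, hf1, hf2, hf3⟩ := tree_cut T hs.tree (Strip1_adj h (j := j) (by omega))
  have hf : ∀ k, k ≤ r → k ≠ j → (f (d k).1 ↔ f (d k).2) := by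
    intro k hk hkj
    apply hf3 _ _ (Strip1_adj h hk)
    · rintro ⟨e1, e2⟩
      exact hkj (h.hwalk.inj hs hk (by omega) (Prod.ext e1 e2))
    · rintro ⟨e1, _⟩
      exact strip_xy_ne hs h hk (j := j) (by omega) e1
  have key : ∀ n, j + 1 + n ≤ r → f (d (j + 1 + n)).1 ∧ f (d (j + 1 + n)).2 := by
    intro n
    induction n with
    | zero =>
      intro hn
      have h1 : (d (j + 1)).1 = (d j).1 := by
        rcases Strip1_share (h.step j (by omega)) with h2 | h2
        · exact h2
        · exact absurd h2 hne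
      have h3 : f (d (j + 1)).1 := by rw [h1]; exact hf1
      exact ⟨h3, (hf (j + 1) (by omega) (by omega)).mp h3⟩
    | succ n ih =>
      intro hn
      have ih' := ih (by omega)
      have h1 := hf (j + 1 + (n + 1)) hn (by omega)
      have h4 := Strip1_share (h.step (j + 1 + n) (by omega))
      have e : j + 1 + n + 1 = j + 1 + (n + 1) := by omega
      rw [e] at h4
      rcases h4 with h2 | h2
      · have h3 : f (d (j + 1 + (n + 1))).1 := by rw [h2]; exact ih'.1
        exact ⟨h3, h1.mp h3⟩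
      · have h3 : f (d (j + 1 + (n + 1))).2 := by rw [h2]; exact ih'.2
        exact ⟨h1.mpr h3, h3⟩
  obtain ⟨n, rfl⟩ : ∃ n, k = j + 1 + n := ⟨k - (j + 1), by omega⟩
  intro he
  apply hf2
  rw [← he]
  exact (key n hk).2

/-- after the strip leaves `x_j` it never comes back -/
theorem Strip1_leave_x {C : Cfg V} {T D : SimpleGraph V} (hs : Setup C T D)
    {d : ℕ → V × V} {r : ℕ} (h : Strip C T D d r) {j k : ℕ} (hjk : j < k) (hk : k ≤ r)
    (hne : (d (j + 1)).1 ≠ (d j).1) : (d k).1 ≠ (d j).1 := by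
  obtain ⟨f, hf1, hf2, hf3⟩ := tree_cut T hs.tree (Strip1_adj h (j := j) (by omega)).symm
  have hf : ∀ k, k ≤ r → k ≠ j → (f (d k).1 ↔ f (d k).2) := by
    intro k hk hkj
    apply hf3 _ _ (Strip1_adj h hk)
    · rintro ⟨e1, _⟩
      exact strip_xy_ne hs h hk (j := j) (by omega) e1
    · rintro ⟨e1, e2⟩
      exact hkj (h.hwalk.inj hs hk (by omega) (Prod.ext e1 e2))
  have key : ∀ n, j + 1 + n ≤ r → f (d (j + 1 + n)).1 ∧ f (d (j + 1 + n)).2 := by
    intro n
    induction n with
    | zero =>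
      intro hn
      have h1 : (d (j + 1)).2 = (d j).2 := by
        rcases Strip1_share (h.step j (by omega)) with h2 | h2
        · exact absurd h2 hne
        · exact h2
      have h3 : f (d (j + 1)).2 := by rw [h1]; exact hf1
      exact ⟨(hf (j + 1) (by omega) (by omega)).mpr h3, h3⟩
    | succ n ih =>
      intro hn
      have ih' := ih (by omega)
      have h1 := hf (j + 1 + (n + 1)) hn (by omega)
      have h4 := Strip1_share (h.step (j + 1 + n) (by omega))
      have e : j + 1 + n + 1 = j + 1 + (n + 1) := by omega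
      rw [e] at h4
      rcases h4 with h2 | h2
      · have h3 : f (d (j + 1 + (n + 1))).1 := by rw [h2]; exact ih'.1
        exact ⟨h3, h1.mp h3⟩
      · have h3 : f (d (j + 1 + (n + 1))).2 := by rw [h2]; exact ih'.2
        exact ⟨h1.mpr h3, h3⟩
  obtain ⟨n, rfl⟩ : ∃ n, k = j + 1 + n := ⟨k - (j + 1), by omega⟩
  intro he
  apply hf2
  rw [← he]
  exact (key n hk).1

theorem strip_interval_y {C : Cfg V} {T D : SimpleGraph V} (hs : Setup C T D)
    {d : ℕ → V × V} {r : ℕ} (h : Strip C T D d r) {i j k : ℕ} (hij : i ≤ j) (hjk : j ≤ k)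
    (hk : k ≤ r) (he : (d i).2 = (d k).2) : (d j).2 = (d i).2 := by
  have key : ∀ n, i + n ≤ k → (d (i + n)).2 = (d i).2 := by
    intro n
    induction n with
    | zero => intro _; rfl
    | succ n ih =>
      intro hn
      have ih' := ih (by omega)
      by_contra hc
      have hc' : (d (i + n + 1)).2 ≠ (d (i + n)).2 := by
        intro h5
        apply hc
        have e : i + (n + 1) = i + n + 1 := by omega
        rw [e, h5, ih']
      apply Strip1_leave_y hs h (j := i + n) (k := k) (by omega) hk hc'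
      rw [ih', he]
  have := key (j - i) (by omega)
  have e : i + (j - i) = j := by omega
  rwa [e] at this

theorem strip_interval_x {C : Cfg V} {T D : SimpleGraph V} (hs : Setup C T D)
    {d : ℕ → V × V} {r : ℕ} (h : Strip C T D d r) {i j k : ℕ} (hij : i ≤ j) (hjk : j ≤ k)
    (hk : k ≤ r) (he : (d i).1 = (d k).1) : (d j).1 = (d i).1 := by
  have key : ∀ n, i + n ≤ k → (d (i + n)).1 = (d i).1 := by
    intro n
    induction n with
    | zero => intro _; rfl
    | succ n ih =>
      intro hn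
      have ih' := ih (by omega)
      by_contra hc
      have hc' : (d (i + n + 1)).1 ≠ (d (i + n)).1 := by
        intro h5
        apply hc
        have e : i + (n + 1) = i + n + 1 := by omega
        rw [e, h5, ih']
      apply Strip1_leave_x hs h (j := i + n) (k := k) (by omega) hk hc'
      rw [ih', he]
  have := key (j - i) (by omega)
  have e : i + (j - i) = j := by omega
  rwa [e] at this

/-- step `j` keeps exactly one component -/
theorem strip_step {C : Cfg V} {T D : SimpleGraph V} (hs : Setup C T D)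
    {d : ℕ → V × V} {r : ℕ} (h : Strip C T D d r) {j : ℕ} (hj : j < r) :
    ((d (j + 1)).1 = (d j).1 ∧ (d (j + 1)).2 ≠ (d j).2 ∧
      Face C D (d j).1 (d j).2 (d (j + 1)).2) ∨
    ((d (j + 1)).2 = (d j).2 ∧ (d (j + 1)).1 ≠ (d j).1 ∧
      Face C D (d j).1 (d j).2 (d (j + 1)).1) := by
  rcases step_cases hs (h.step j hj) with h1 | h1
  · left; exact ⟨h1.1, h1.2.2.2.2.2, h1.2.1⟩
  · right; exact ⟨h1.1, h1.2.2.2.2.2, h1.2.1⟩

theorem strip_left {C : Cfg V} {T D : SimpleGraph V} (hs : Setup C T D) {d : ℕ → V × V}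
    {r : ℕ} (h : Strip C T D d r) {k : ℕ} (hk : k ≤ r) {c : V}
    (hf : Face C D (d k).1 (d k).2 c) :
    k < r ∧ ((c = (d (k + 1)).2 ∧ (d (k + 1)).1 = (d k).1) ∨
      (c = (d (k + 1)).1 ∧ (d (k + 1)).2 = (d k).2)) := by
  have hkr : k < r := by
    rcases Nat.lt_or_ge k r with h1 | h1
    · exact h1
    · exfalso
      have e : k = r := by omega
      subst e
      exact h.fin c hf.2.2.2.1
  refine ⟨hkr, ?_⟩
  rcases strip_step hs h hkr with h1 | h1
  · left; exact ⟨face_unique C D hs.mp.1 hf h1.2.2, h1.1⟩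
  · right; exact ⟨face_unique C D hs.mp.1 hf h1.2.2, h1.1⟩

theorem strip_right {C : Cfg V} {T D : SimpleGraph V} (hs : Setup C T D) {d : ℕ → V × V}
    {r : ℕ} (h : Strip C T D d r) {k : ℕ} (hk : k ≤ r) {c : V}
    (hf : Face C D (d k).2 (d k).1 c) :
    0 < k ∧ ((c = (d (k - 1)).2 ∧ (d (k - 1)).1 = (d k).1) ∨
      (c = (d (k - 1)).1 ∧ (d (k - 1)).2 = (d k).2)) := by
  rcases Nat.eq_zero_or_pos k with hk0 | hk0
  · exfalso
    subst hk0
    exact h.hd.2 c hf.2.2.2.1
  · refine ⟨hk0, ?_⟩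
    obtain ⟨m, rfl⟩ : ∃ m, k = m + 1 := ⟨k - 1, by omega⟩
    have h1 := step_cases hs (step_swap (h.step m (by omega)))
    simp only [Prod.fst_swap, Prod.snd_swap] at h1
    simp only [Nat.add_sub_cancel]
    rcases h1 with h1 | h1
    · right; exact ⟨face_unique C D hs.mp.1 hf h1.2.1, h1.1⟩
    · left; exact ⟨face_unique C D hs.mp.1 hf h1.2.1, h1.1⟩

theorem strip_mir {C : Cfg V} {T D : SimpleGraph V} {d : ℕ → V × V} {r : ℕ}
    (h : Strip C T D d r) : Strip C.mir T D (fun j => (d j).swap) r := by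
  refine ⟨isHD_mir.mpr h.hd, fun j hj => step_mir.mpr (h.step j hj), ?_⟩
  show HE C.mir (d r).2 (d r).1
  exact he_mir.mpr h.fin

theorem strip_rev {C : Cfg V} {T D : SimpleGraph V} {d : ℕ → V × V} {r : ℕ}
    (h : Strip C T D d r) : Strip C.mir T D (fun j => d (r - j)) r := by
  refine ⟨?_, ?_, ?_⟩
  · show IsHD C.mir T (d (r - 0))
    rw [Nat.sub_zero]
    exact ⟨Strip1_adj h le_rfl, he_mir.mpr h.fin⟩
  · intro j hj
    show Step C.mir T D (d (r - j)) (d (r - (j + 1)))
    have h1 := step_swap (h.step (r - (j + 1)) (by omega))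
    have e : r - (j + 1) + 1 = r - j := by omega
    rw [e] at h1
    have h2 := (step_mir (C := C)).mpr h1
    simpa using h2
  · show HE C.mir (d (r - r)).1 (d (r - r)).2
    rw [Nat.sub_self]
    exact he_mir.mpr h.hd.2

end CT
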