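import Pool.Agent.H7.CT.HP

/-! # CT module Turn

`v` of type N with inner neighbours, `p ∈ N(v)`: some `q ∈ N(v)` left of `v → p` has an outside neighbour left of `v → p`.
Proof. `E = {(q,r) | T.Adj v q, T.Adj v r, D.Adj q r, 0 < o v p q, o v p r < 0, 0 < o v q r}`.
Nonempty: `{q ∈ N(v) | 0 < o v p q}` is nonempty (`iso_faces` at `p`), `q` its last element, `Face v q r` (`iso_faces`): `r` is not left of `v → p` (it would be
later than `q`), `r ≠ p` (`o v q p < 0`).
Take `(q,r) ∈ E` with `o v q r` maximal (finite). `q` inner: `Face r q w` exists (far side; `face_exists`, `0 < o r q ·` for some point since `q` is inner: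
`Inner q` with `b := r`). `w ≠ v` (v is on the other side), `w ≠ p`: `o q r p = o v q r + o v r p + o v p q > 0`.
If `T.Adj v w` and `0 < o v p w`: `vw` does not cross `qr`, so `0 < o v w q`; `0 < o v w r` (GP); `q` is strictly inside `v w r`, so `(w,r) ∈ E` has larger `o`:
contradiction. Similarly if `T.Adj v w` and `o v p w < 0`: `(q,w)`. So `Zn v q w`. If `0 < o v p w` done. Otherwise
`o v p w < 0`, type N: `o v q w < 0`, and `o q r w < 0`: contradiction: `o q r w = o v q r + o v r w + o v w q` gives `o v r w < 0`, and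
`gpi v p q r w`: `[p,q][r,w] - [p,r][q,w] + [p,w][q,r] < 0`. -/

open Classical

namespace CT

variable {V : Type}

theorem turn [Finite V] {C : Cfg V} {T D : SimpleGraph V} (hs : Setup C T D) {v p : V}
    (hv : Iso C T D v) (hN : TypeN C T D v) (hI : ∀ q, T.Adj v q → Inner C q)
    (hp : T.Adj v p) :
    ∃ q z, T.Adj v q ∧ 0 < C.o v p q ∧ Zn T D v q z ∧ 0 < C.o v p z := by
  -- a starting pair
  obtain ⟨c, hcF, hcT, _, _⟩ := (iso_faces hs hv hp).1
  obtain ⟨q0, ⟨hq0T, hq0p⟩, hq0last⟩ := exists_last C v p {q | T.Adj v q ∧ 0 < C.o v p q}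
    ⟨c, hcT, hcF.2.2.2.1⟩ (fun x hx => hx.2)
  obtain ⟨r0, hr0F, hr0T, hr0D, _⟩ := (iso_faces hs hv hq0T).1
  have hqr0 : 0 < C.o v q0 r0 := hr0F.2.2.2.1
  have hr0p : C.o v p r0 < 0 := by
    have hne : p ≠ r0 := by
      rintro rfl
      have := C.o_swap' v p q0
      linarith
    rcases C.o_pos_or_neg hp.ne hr0T.ne hne with h | h
    · exfalso
      have hne2 : r0 ≠ q0 := (C.ne_of_o_pos hqr0).2.2.symm
      have h1 := hq0last r0 ⟨hr0T, h⟩ hne2
      have := C.o_swap' v r0 q0
      linarith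
    · exact h
  obtain ⟨⟨q, r⟩, ⟨hqT, hrT, hqrD, hpq, hpr, hqr⟩, hmax⟩ := Set.exists_max_image
    {x : V × V | T.Adj v x.1 ∧ T.Adj v x.2 ∧ D.Adj x.1 x.2 ∧ 0 < C.o v p x.1 ∧ C.o v p x.2 < 0 ∧
      0 < C.o v x.1 x.2} (fun x => C.o v x.1 x.2) (Set.toFinite _)
    ⟨(q0, r0), hq0T, hr0T, hr0D, hq0p, hr0p, hqr0⟩
  simp only at hqT hrT hqrD hpq hpr hqr hmax
  obtain ⟨_, z, hz⟩ := hI q hqT r hqrD.ne.symm
  obtain ⟨w, hwF⟩ := face_exists C D hs.mp (a := r) (b := q) (z := z) hqrD.symm
    (by rw [C.o_swap r q z]; linarith)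
  obtain ⟨_, hqw, hwr, how, _⟩ := hwF
  have hqrw : C.o q r w < 0 := by rw [C.o_swap q r w]; linarith
  have hsum := C.o_sum q r w v
  have hgp := C.gpi v p q r w
  have s1 := C.o_swap' v w q
  have s2 := C.o_swap' v w r
  have hwv : w ≠ v := by
    rintro rfl
    have h1 := C.o_cyc w q r
    linarith
  have hwp : w ≠ p := by
    rintro rfl
    have h1 := C.o_swap' v r w
    nlinarith
  by_cases hwT : T.Adj v w
  · exfalso
    have hncr : ¬ C.Cross v w q r := hs.mp.1 v w q r (hs.le hwT) hqrD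
    have hv1 : C.o q r v * C.o q r w < 0 := by
      have h1 := C.o_cyc v q r
      rw [← h1]
      exact mul_neg_of_pos_of_neg hqr hqrw
    have hsame : ¬ C.o v w q * C.o v w r < 0 := fun h => hncr ⟨h, hv1⟩
    have hwq : C.o v w q ≠ 0 := C.o_ne hwT.ne hqT.ne hqw.ne.symm
    have hwr' : C.o v w r ≠ 0 := C.o_ne hwT.ne hrT.ne hwr.ne
    rcases C.o_pos_or_neg hp.ne hwv.symm hwp.symm with hpw | hpw
    · -- the pair `(w, r)`
      rcases lt_or_gt_of_ne hwq with h1 | h1
      · rcases lt_or_gt_of_ne hwr' with h2 | h2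
        · have e1 : 0 < C.o v p q * C.o v r w := mul_pos hpq (by linarith)
          have e2 : C.o v p r * C.o v q w < 0 := mul_neg_of_neg_of_pos hpr (by linarith)
          have e3 : 0 < C.o v p w * C.o v q r := mul_pos hpw hqr
          linarith
        · exact hsame (mul_neg_of_neg_of_pos h1 h2)
      · rcases lt_or_gt_of_ne hwr' with h2 | h2
        · exact hsame (mul_neg_of_pos_of_neg h1 h2)
        · have h3 := hmax (w, r) ⟨hwT, hrT, hwr, hpw, hpr, h2⟩
          simp only at h3
          linarith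
    · -- the pair `(q, w)`
      rcases lt_or_gt_of_ne hwq with h1 | h1
      · rcases lt_or_gt_of_ne hwr' with h2 | h2
        · have h3 := hmax (q, w) ⟨hqT, hwT, hqw, hpq, hpw, by linarith⟩
          simp only at h3
          linarith
        · exact hsame (mul_neg_of_neg_of_pos h1 h2)
      · rcases lt_or_gt_of_ne hwr' with h2 | h2
        · exact hsame (mul_neg_of_pos_of_neg h1 h2)
        · have e1 : C.o v p q * C.o v r w < 0 := mul_neg_of_pos_of_neg hpq (by linarith)
          have e2 : 0 < C.o v p r * C.o v q w := mul_pos_of_neg_of_neg hpr (by linarith)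
          have e3 : C.o v p w * C.o v q r < 0 := mul_neg_of_neg_of_pos hpw hqr
          linarith
  · have hZ : Zn T D v q w := ⟨hqw, hwv, hwT⟩
    rcases C.o_pos_or_neg hp.ne hwv.symm hwp.symm with hpw | hpw
    · exact ⟨q, w, hqT, hpq, hZ, hpw⟩
    · exfalso
      have hNw : C.o v q w < 0 := hN q w hqT hZ
      have e1 : C.o v p q * C.o v r w < 0 := mul_neg_of_pos_of_neg hpq (by linarith)
      have e2 : 0 < C.o v p r * C.o v q w := mul_pos_of_neg_of_neg hpr hNw
      have e3 : C.o v p w * C.o v q r < 0 := mul_neg_of_neg_of_pos hpw hqr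
      linarith

end CT
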