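import Pool.Agent.H7.CT.Giver
import Pool.Agent.H7.CT.Bonus

/-! # CT module Units: five units for every isolated vertex

`Gv v q`: `v` gives the unit of its neighbour `q` away. `Recv v q`: non-leaf neighbour whose unit `v` keeps.
`units5N`: with `nl = #NL`, `μ = #{p | GiveN v p}`, `L = #leaves`, `d = dg T v = nl + L` (`N(v)` is the disjoint union of `LeafAt` and `NL`), `μ ≤ L`, `μ ≤ nl` (`GiveN v p → NL T v p`, since `T.Adj v' p`),
`d ≥ 4` if `μ ≥ 1`, `d ≥ 3` (`iso_deg`), bonus: `#Recv = nl - μ`.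
`nl ≥ 3`: `(d-1) + (nl-μ) ≥ nl + μ - 1 + nl - μ ≥ 5`. `nl = 2`: `d ≥ 2 + μ`, sum `≥ 1 + μ + 2 - μ + 2`. `nl = 1`: `μ = 0`: `2 + 1 + 2`; `μ = 1`: `3 + 0 + 2`. `nl = 0`: `2 + 3`. All by `omega`.
`units5`: the same for both types (mirror; `dg`, `NL`, `LeafAt` do not depend on `C`; `Crit`, `DD` by `crit_mir`, `dd_mir_ncard`). -/

open Classical

namespace CT

variable {V : Type}

def Gv (C : Cfg V) (T D : SimpleGraph V) (v q : V) : Prop :=
  (TypeN C T D v ∧ GiveN C T D v q) ∨ (TypeP C T D v ∧ GiveN C.mir T D v q)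

def Recv (C : Cfg V) (T D : SimpleGraph V) (v q : V) : Prop := NL T v q ∧ ¬ Gv C T D v q

theorem Units_give_nl {C : Cfg V} {T D : SimpleGraph V} {v p : V} (h : GiveN C T D v p) :
    NL T v p := by
  obtain ⟨v', b, b', y, hv', hne, hp, hp', hf, hb, hb', hy, hvy⟩ := h
  refine ⟨hp, ?_⟩
  intro hl
  exact hne (hl.2 v' hp'.symm)

theorem Units_deg [Finite V] (T : SimpleGraph V) (v : V) :
    dg T v = {q | NL T v q}.ncard + {b | LeafAt T v b}.ncard := by
  unfold dg
  rw [← Set.ncard_union_eq _ (Set.toFinite _) (Set.toFinite _)]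
  · congr 1
    ext w
    simp only [Set.mem_ofPred_eq, Set.mem_union, NL]
    constructor
    · intro h
      by_cases hl : LeafAt T v w
      · exact Or.inr hl
      · exact Or.inl ⟨h, hl⟩
    · rintro (h | h)
      · exact h.1
      · exact h.1
  · rw [Set.disjoint_left]
    intro w hw hw'
    exact hw.2 hw'

theorem Units_split [Finite V] {T : SimpleGraph V} {v : V} (P : V → Prop)
    (hP : ∀ q, P q → NL T v q) :
    {q | NL T v q}.ncard = {q | NL T v q ∧ ¬ P q}.ncard + {q | P q}.ncard := by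
  rw [← Set.ncard_union_eq _ (Set.toFinite _) (Set.toFinite _)]
  · congr 1
    ext w
    simp only [Set.mem_ofPred_eq, Set.mem_union]
    constructor
    · intro h
      by_cases hl : P w
      · exact Or.inr hl
      · exact Or.inl ⟨h, hl⟩
    · rintro (h | h)
      · exact h.1
      · exact hP w h
  · rw [Set.disjoint_left]
    intro w hw hw'
    exact hw.2 hw'

theorem units5N [Finite V] {C : Cfg V} {T D : SimpleGraph V} (hm : Min C T D) {v : V}
    (hv : Iso C T D v) (hN : TypeN C T D v) (hI : ∀ q, T.Adj v q → Inner C q) :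
    5 + 1 ≤ dg T v + {q | NL T v q ∧ ¬ GiveN C T D v q}.ncard +
      2 * {u | Crit C T D v u}.ncard + {e | DD C T D v e}.ncard := by
  have hs := hm.1
  have hU := lemU hm hv
  obtain ⟨b1, b2⟩ := bonus hm hv (Or.inl hN) hI
  obtain ⟨g1, g2⟩ := giver_inj hs hv hU hN
  have hd := iso_deg hs hv
  have e1 := Units_deg T v
  have e2 := Units_split (T := T) (v := v) (GiveN C T D v) (fun q h => Units_give_nl h)
  have g3 : {p | GiveN C T D v p}.ncard = 0 ∨ 4 ≤ dg T v := by
    by_cases h : ∃ p, GiveN C T D v p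
    · exact Or.inr (g2 h)
    · left
      have : {p | GiveN C T D v p} = ∅ := by
        ext p
        simp only [Set.mem_ofPred_eq, Set.mem_empty_iff_false, iff_false]
        intro hp
        exact h ⟨p, hp⟩
      rw [this, Set.ncard_empty]
  omega

/-- not star case, both types -/
theorem units5 [Finite V] {C : Cfg V} {T D : SimpleGraph V} (hm : Min C T D) {v : V}
    (hv : Iso C T D v) (hn : ∃ q z, T.Adj v q ∧ Zn T D v q z) :
    5 + 1 ≤ dg T v + {q | Recv C T D v q}.ncard +
      2 * {u | Crit C T D v u}.ncard + {e | DD C T D v e}.ncard := by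
  have hs := hm.1
  have hU := lemU hm hv
  obtain ⟨q₀, z₀, hq₀, hz₀⟩ := hn
  rcases hp hs hv hU with h | ⟨hNP, _, hI⟩
  · rcases h z₀ with h1 | h1
    · exact absurd h1 hz₀.2.1
    · exact absurd h1 hz₀.2.2
  · rcases hNP with hN | hP
    · have h := units5N hm hv hN hI
      have e : {q | Recv C T D v q} = {q | NL T v q ∧ ¬ GiveN C T D v q} := by
        ext q
        simp only [Set.mem_ofPred_eq, Recv, Gv]
        constructor
        · rintro ⟨h1, h2⟩
          exact ⟨h1, fun h3 => h2 (Or.inl ⟨hN, h3⟩)⟩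
        · rintro ⟨h1, h2⟩
          refine ⟨h1, ?_⟩
          rintro (⟨_, h3⟩ | ⟨hP, _⟩)
          · exact h2 h3
          · have a1 := hN q₀ z₀ hq₀ hz₀
            have a2 := hP q₀ z₀ hq₀ hz₀
            exact absurd a1 (not_lt.mpr a2.le)
      rw [e]
      exact h
    · have hm' := min_mir.mpr hm
      have hv' := iso_mir.mpr hv
      have hN' := typeN_mir.mpr hP
      have h := units5N hm' hv' hN' (fun q hq => inner_mir.mpr (hI q hq))
      have e : {q | Recv C T D v q} = {q | NL T v q ∧ ¬ GiveN C.mir T D v q} := by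
        ext q
        simp only [Set.mem_ofPred_eq, Recv, Gv]
        constructor
        · rintro ⟨h1, h2⟩
          exact ⟨h1, fun h3 => h2 (Or.inr ⟨hP, h3⟩)⟩
        · rintro ⟨h1, h2⟩
          refine ⟨h1, ?_⟩
          rintro (⟨hN, _⟩ | ⟨_, h3⟩)
          · have a1 := hN q₀ z₀ hq₀ hz₀
            have a2 := hP q₀ z₀ hq₀ hz₀
            exact absurd a1 (not_lt.mpr a2.le)
          · exact h2 h3
      rw [dd_mir_ncard] at h
      simp only [crit_mir] at h
      rw [e]
      exact h

/-- the classification of an isolated vertex when it is not the star case -/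
theorem Units_type [Finite V] {C : Cfg V} {T D : SimpleGraph V} (hm : Min C T D) {v v' : V}
    (hv : Iso C T D v) (hv' : Iso C T D v') (hne : v ≠ v') :
    (TypeN C T D v ∨ TypeP C T D v) ∧ ∀ p, T.Adj v p → Inner C p := by
  have hU := lemU hm hv
  rcases hp hm.1 hv hU with h | ⟨hNP, _, hI⟩
  · rcases h v' with h1 | h1
    · exact absurd h1.symm hne
    · exact absurd hv' (iso_nbr_not_iso hm.1 hv h1)
  · exact ⟨hNP, hI⟩

/-- a common neighbour is kept by at most one of two isolated vertices -/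
theorem recv_disj [Finite V] {C : Cfg V} {T D : SimpleGraph V} (hm : Min C T D) {v v' p : V}
    (hv : Iso C T D v) (hv' : Iso C T D v') (hne : v ≠ v') (h : Recv C T D v p)
    (h' : Recv C T D v' p) : False := by
  obtain ⟨hNP, hI⟩ := Units_type hm hv hv' hne
  obtain ⟨hNP', hI'⟩ := Units_type hm hv' hv hne.symm
  have hs := hm.1
  have hp := h.1.1
  have hp' := h'.1.1
  rcases hNP with hN | hP
  · rcases hNP' with hN' | hP'
    · exact share_type hs hv hv' hne hN hN' hp hp'
    · rcases give_total hm hv hv' hne hN hP' hI hI' hp hp' with g | g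
      · exact h.2 (Or.inl ⟨hN, g⟩)
      · exact h'.2 (Or.inr ⟨hP', g⟩)
  · rcases hNP' with hN' | hP'
    · rcases give_total hm hv' hv hne.symm hN' hP hI' hI hp' hp with g | g
      · exact h'.2 (Or.inl ⟨hN', g⟩)
      · exact h.2 (Or.inr ⟨hP, g⟩)
    · exact share_type (setup_mir.mpr hs) (iso_mir.mpr hv) (iso_mir.mpr hv') hne
        (typeN_mir.mpr hP) (typeN_mir.mpr hP') hp hp'

end CT
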