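import Pool.Agent.H7.CT.VNew

/-! # CT module VLem (V-Lemma)

Proof. `a := (d t).1`. `D'` := replacement graph for `a`, `w` (`exists_rep`; `T`-edges do not cross: the crossed edges join `y`'s).
(1) For `j < r`, `j ≠ t`: `Step D' (d j) (d (j+1))` (`step_persist`, `strip_step`; the base is `y_j y_{j+1}`, not crossed by `hcut`, or `x_j x_{j+1}`, not crossed since an `x` is no `y`).
(2) `Iso D' u → Iso D u`: otherwise some `D`-edge `uz ∉ T` is not in `D'`, crosses `aw`, so `u = y_s`. If `s ≤ t`: `d 0 →* d s` in `D'`, contradiction to `iso_avoid` (in `D'`). If `s > t`: `(d r).swap` is a hull dart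
 (`hd_of_he`) and `(d r).swap →* (d s).swap` in `D'` (`step_swap`): contradiction.
(3) Suppose no blocker. Claim: if `Hot D' e` then all steps on its `D'`-walk are `D`-steps. Write the `D'`-walk as a strip (`exists_strip` for `D'`): `δ_0 = e, …, δ_m`. By `vnew` every step `δ_j → δ_{j+1}` that is not a `D`-step is between the two darts on `a₀a` and `a₀w`
 with the same orientation (`a₀` is unique by `no4`, orientation by colours); the darts `δ_j` are pairwise different (`HWalk.inj`), so there is at most one such `j`. If `δ_j` is on `a₀w`: `e →* δ_j` in `D`, `DeadAt D e δ_j c`: blocker (`c`, `a₀` on the strip). If `δ_{j+1}` is on `a₀w`: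
 `δ_{j+1} →* δ_m` in `D`, so `δ_m.swap →* δ_{j+1}.swap` in `D` (`reach_swap`), `δ_m.swap` is a hull dart: `DeadAt D δ_m.swap δ_{j+1}.swap c`: blocker.
(4) So `Hot D' e → Hot D e`. `Hot D (d 0)` but not `Hot D' (d 0)`: else its `D'`-walk consists of `D`-steps, so it is `d 0, …, d r` (`step_func`), in particular `Step D' (d t) (d (t+1))`, so `D'` contains the edge `y_t y_{t+1}` crossing `aw ∈ D'`.
 `n2_drop` contradicts minimality. -/

open Classical

namespace CT

variable {V : Type}

theorem VLem_reach {C : Cfg V} {T D : SimpleGraph V} {δ : ℕ → V × V} {i j : ℕ} (hij : i ≤ j)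
    (h : ∀ k, i ≤ k → k < j → Step C T D (δ k) (δ (k + 1))) :
    Relation.ReflTransGen (Step C T D) (δ i) (δ j) := by
  induction j, hij using Nat.le_induction with
  | base => exact Relation.ReflTransGen.refl
  | succ j hij ih =>
    exact (ih (fun k hk hk' => h k hk (by omega))).tail (h j hij (by omega))

theorem vlem [Finite V] {C : Cfg V} {T D : SimpleGraph V} (hm : Min C T D)
    {d : ℕ → V × V} {r t : ℕ} (h : Strip C T D d r) (ht : t < r)
    (hX : (d (t + 1)).1 = (d t).1) {w : V}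
    (hcr : C.Cross (d t).1 w (d t).2 (d (t + 1)).2)
    (hC : ∀ b c, D.Adj b c → C.Cross (d t).1 w b c →
      (∃ i, i ≤ r ∧ (d i).2 = b) ∧ (∃ i, i ≤ r ∧ (d i).2 = c))
    (hcut : ∀ j, j < r → (d (j + 1)).1 = (d j).1 →
      C.Cross (d t).1 w (d j).2 (d (j + 1)).2 → j = t)
    (hw : (∃ i, i ≤ r ∧ (d i).1 = w) → ∀ b c, Face C D w b c → 0 < C.o w b (d t).1 →
      0 < C.o w (d t).1 c → ¬ T.Adj w b ∧ ¬ T.Adj w c) :
    ∃ e', BlkBy C T D (d 0) e' := by
  obtain ⟨hs, hmin⟩ := hm
  have haw : (d t).1 ≠ w := (C.cross_ne hcr).1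
  have hT : ∀ a b, T.Adj a b → ¬ C.Cross (d t).1 w a b := by
    intro a b hab hc
    obtain ⟨⟨i, hi, hi'⟩, ⟨j, hj, hj'⟩⟩ := hC a b (hs.le hab) hc
    subst hi'
    subst hj'
    exact strip_yy_not_T hs h hi hj hab
  obtain ⟨D', hr⟩ := exists_rep C T D hs haw hT
  have hs' := hr.1
  -- steps other than t persist
  have hA : ∀ j, j < r → j ≠ t → Step C T D' (d j) (d (j + 1)) := by
    intro j hj hjt
    refine step_persist hs hr hT (h.step j hj) ?_ ?_
    · intro hc
      rcases strip_step hs h hj with ⟨h1, -, -⟩ | ⟨h1, -, -⟩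
      · exact hjt (hcut j hj h1 hc)
      · exact (C.cross_ne hc).2.2.2.2.2 h1.symm
    · intro hc
      rcases strip_step hs h hj with ⟨h1, -, -⟩ | ⟨-, -, h3⟩
      · exact (C.cross_ne hc).2.2.2.2.2 h1.symm
      · obtain ⟨⟨i, hi, hi'⟩, -⟩ := hC _ _ h3.2.2.1.symm hc
        exact strip_xy_ne hs h hj.le hi hi'.symm
  have hTd : ∀ j, j ≤ r → T.Adj (d j).1 (d j).2 := fun j hj => h.hwalk.adj hj
  -- isolated vertices
  have hIso : ∀ u, Iso C T D' u → Iso C T D u := by
    intro u hu
    refine ⟨hu.1, ?_⟩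
    intro z hz
    by_contra hTz
    have h1 : ¬ D'.Adj u z := fun hc => hTz (hu.2 z hc)
    have h2 : C.Cross (d t).1 w u z := by
      by_contra hc
      exact h1 (hr.2.2 u z hz hc)
    obtain ⟨⟨s, hsr, hsu⟩, -⟩ := hC u z hz h2
    rcases le_or_gt s t with hst | hst
    · have h3 : Relation.ReflTransGen (Step C T D') (d 0) (d s) :=
        VLem_reach (Nat.zero_le s) (fun k _ hk => hA k (by omega) (by omega))
      exact (iso_avoid hs' hu h.hd h3).2 hsu
    · have h3 : Relation.ReflTransGen (Step C T D') (d s) (d r) :=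
        VLem_reach hsr (fun k hk hk' => hA k hk' (by omega))
      have h4 : IsHD C T (d r).swap := hd_of_he (hTd r le_rfl) h.fin
      exact (iso_avoid hs' hu h4 (reach_swap h3)).1 hsu
  by_contra hnb
  obtain ⟨χ, hχ⟩ := tree_color T hs.tree
  -- all steps of a hull-hull walk of D' are steps of D
  have hall : ∀ (δ : ℕ → V × V) (m : ℕ), Strip C T D' δ m →
      ∀ j, j < m → Step C T D (δ j) (δ (j + 1)) := by
    intro δ m hδ
    have hcol : ∀ i, i ≤ m → χ (δ i).1 = χ (δ 0).1 := fun i hi =>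
      (reach_color hχ (VLem_reach (C := C) (T := T) (D := D') (Nat.zero_le i)
        (fun k _ hk => hδ.step k (by omega)))).1
    have huniq : ∀ j k, j < m → k < m → ¬ Step C T D (δ j) (δ (j + 1)) →
        ¬ Step C T D (δ k) (δ (k + 1)) → j = k := by
      intro j k hj hk hnj hnk
      obtain ⟨a0, -, ha1, ha2, -, hca⟩ := vnew hs h ht hX hcr hC hw hr (hδ.step j hj) hnj
      obtain ⟨b0, -, hb1, hb2, -, hcb⟩ := vnew hs h ht hX hcr hC hw hr (hδ.step k hk) hnk
      have hab : a0 = b0 := no4 T hs.tree haw ha1.symm ha2.symm hb1.symm hb2.symm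
      subst hab
      have n1 := hχ _ _ ha1
      have n2 := hχ _ _ ha2
      have c1 := hcol j hj.le
      have c2 := hcol (j + 1) hj
      have c3 := hcol k hk.le
      have c4 := hcol (k + 1) hk
      have inj := fun p q (hp : p ≤ m) (hq : q ≤ m) (hpq : δ p = δ q) =>
        hδ.hwalk.inj hs' hp hq hpq
      have qa : ((δ j = (a0, w) ∧ δ (j + 1) = (a0, (d t).1)) ∨
          (δ j = (w, a0) ∧ δ (j + 1) = ((d t).1, a0))) ∨
          ((δ j = (a0, (d t).1) ∧ δ (j + 1) = (a0, w)) ∨
          (δ j = ((d t).1, a0) ∧ δ (j + 1) = (w, a0))) := by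
        rcases hca with ⟨h1, -⟩ | ⟨h1, -⟩
        · exact Or.inl h1
        · exact Or.inr h1
      have qb : ((δ k = (a0, w) ∧ δ (k + 1) = (a0, (d t).1)) ∨
          (δ k = (w, a0) ∧ δ (k + 1) = ((d t).1, a0))) ∨
          ((δ k = (a0, (d t).1) ∧ δ (k + 1) = (a0, w)) ∨
          (δ k = ((d t).1, a0) ∧ δ (k + 1) = (w, a0))) := by
        rcases hcb with ⟨h1, -⟩ | ⟨h1, -⟩
        · exact Or.inl h1
        · exact Or.inr h1
      rcases qa with (⟨e1, e2⟩ | ⟨e1, e2⟩) | (⟨e1, e2⟩ | ⟨e1, e2⟩) <;>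
        rcases qb with (⟨e3, e4⟩ | ⟨e3, e4⟩) | (⟨e3, e4⟩ | ⟨e3, e4⟩) <;>
        first
        | exact inj j k hj.le hk.le (e1.trans e3.symm)
        | (exfalso
           have i1 := inj j (k + 1) hj.le hk (e1.trans e4.symm)
           have i2 := inj (j + 1) k hj hk.le (e2.trans e3.symm)
           omega)
        | (exfalso
           rw [e1] at c1
           rw [e3] at c3
           exact n1 (c1.trans c3.symm))
        | (exfalso
           rw [e1] at c1
           rw [e3] at c3
           exact n2 (c1.trans c3.symm))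
        | (exfalso
           rw [e1] at c1
           rw [e3] at c3
           exact n1 (c3.trans c1.symm))
        | (exfalso
           rw [e1] at c1
           rw [e3] at c3
           exact n2 (c3.trans c1.symm))
    intro j hj
    by_contra hnj
    have hoth : ∀ k, k < m → k ≠ j → Step C T D (δ k) (δ (k + 1)) := by
      intro k hk hkj
      by_contra hnk
      exact hkj (huniq k j hk hj hnk hnj)
    obtain ⟨a0, ⟨i0, hi0, hi0'⟩, -, -, -, hca⟩ := vnew hs h ht hX hcr hC hw hr (hδ.step j hj) hnj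
    have hon : ∀ v, (∃ i, i ≤ r ∧ (d i).2 = v) → On C T D (d 0) v := by
      rintro v ⟨i, hi, hi'⟩
      exact (on_strip hs h v).mpr ⟨i, hi, Or.inr hi'⟩
    rcases hca with ⟨h1, c, hc, hf, hn1, hn2⟩ | ⟨h1, c, hc, hf, hn1, hn2⟩
    · refine hnb ⟨δ 0, δ j, c, ⟨hδ.hd, VLem_reach (Nat.zero_le j)
        (fun k _ hk => hoth k (by omega) (by omega)), hf, hn1, hn2⟩, hon c hc, ?_⟩
      rcases h1 with ⟨e1, -⟩ | ⟨e1, -⟩
      · left; rw [e1]; exact hon a0 ⟨i0, hi0, hi0'⟩
      · right; rw [e1]; exact hon a0 ⟨i0, hi0, hi0'⟩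
    · have hre : Relation.ReflTransGen (Step C T D) (δ (j + 1)) (δ m) :=
        VLem_reach hj (fun k hk hk' => hoth k hk' (by omega))
      have hhd : IsHD C T (δ m).swap := hd_of_he (hδ.hwalk.adj le_rfl) hδ.fin
      refine hnb ⟨(δ m).swap, (δ (j + 1)).swap, c, ⟨hhd, reach_swap hre, hf, hn1, hn2⟩,
        hon c hc, ?_⟩
      rcases h1 with ⟨-, e1⟩ | ⟨-, e1⟩
      · right; rw [e1]; exact hon a0 ⟨i0, hi0, hi0'⟩
      · left; rw [e1]; exact hon a0 ⟨i0, hi0, hi0'⟩
  have hHot : ∀ e, Hot C T D' e → Hot C T D e := by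
    intro e he
    obtain ⟨δ, m, hδ, h0⟩ := exists_strip hs' he
    refine ⟨he.1, δ m, ?_, hδ.fin⟩
    rw [← h0]
    exact VLem_reach (Nat.zero_le m) (fun k _ hk => hall δ m hδ k hk)
  have hnot : ¬ Hot C T D' (d 0) := by
    intro he
    obtain ⟨δ, m, hδ, h0⟩ := exists_strip hs' he
    have heq : ∀ i, i ≤ m → i ≤ r → δ i = d i := by
      intro i
      induction i with
      | zero => intro _ _; exact h0
      | succ i ih =>
        intro h1 h2
        have h3 := ih (by omega) (by omega)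
        have h4 := hall δ m hδ i (by omega)
        rw [h3] at h4
        exact step_func hs h4 (h.step i (by omega))
    have hmt : t < m := by
      by_contra hc
      have hm' : m ≤ t := not_lt.mp hc
      have h1 := heq m le_rfl (by omega)
      have h2 := hδ.fin
      rw [h1] at h2
      exact no_step_of_he (d' := d (m + 1)) h2 (h.step m (by omega))
    have h1 := hδ.step t hmt
    rw [heq t (by omega) (by omega), heq (t + 1) (by omega) (by omega)] at h1
    rcases step_cases hs' h1 with ⟨-, -, -, h2, -, -⟩ | ⟨h2, -, -, -, -, -⟩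
    · exact hs'.mp.1 _ _ _ _ hr.2.1 h2 hcr
    · exact (C.cross_ne hcr).2.2.2.2.2 h2.symm
  have hdrop := n2_drop hIso hHot (Or.inr ⟨d 0, h.hot, hnot⟩)
  exact absurd (hmin D' hs') (not_le.mpr hdrop)

end CT
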