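import Pool.Agent.H7.CT.Blk
import Pool.Agent.H7.CT.RepWalk

/-! # CT module VNew: new `T`-`T` faces after adding `a w`, `a = x_t`

`a := (d t).1`; the `D`-edges crossing `aw` join two `y`'s (`hC`), so they are not in `T`, and `aw ∉ D` (it is crossed). Let `δ → δ'` be a `D'`-step that is not a
`D`-step. `new_step`: kept vertex `a₀` with a `D`-edge crossing `aw`: `a₀` is some `y`. The other two vertices `b, c` of the face are `T`-neighbours of `a₀`, each is `a`, `w` or some `y`; not a `y` (`strip_yy_not_T`);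
so `{b,c} = {a,w}`. `T.Adj a₀ w`; `w` is not a `y`.
`w` is not an `x`: suppose `w = x_i`. `strip_edge`: `(w,a₀) = d k`. The new face lies left of `(w,a₀)` or of `(a₀,w)`; `D` has a face there (`face_exists`, `a` is on that side), apex `c`; it is not a face of `D'` (otherwise
`c = a` by `face_unique` and `aw ∈ D`), so by `rep_face` one of its sides crosses `aw`: it is `a₀ c` (both ends `y`'s; `w` is no `y`). Then `a` is strictly in the sector of this face at `w` (crossing pattern), and `hw` gives `¬ T.Adj w a₀`: contradiction.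
So `w` is not on the strip. Consider the dart `η` on the edge `a₀w` that has the new face on its left (`η = δ` if `δ` is on `a₀w`, otherwise `η = δ'.swap`): the `D`-face left of `η` has apex `c`, as before `c` is some `y`, `a₀ c` crosses `aw`, `¬ T.Adj a₀ c`; `¬ T.Adj w c`: otherwise
let `f` be the cut function of `a₀w`: constant on the strip (`strip_conn`), so `f a₀ ↔ f c ↔ f w`, contradiction. -/

open Classical

namespace CT

variable {V : Type}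

/-- the face of `D` on the side of `a` of the `T`-edge `a0 w`: its apex is a `y`. -/
theorem VNew_apex [Finite V] {C : Cfg V} {T D D' : SimpleGraph V} (hs : Setup C T D)
    {d : ℕ → V × V} {r : ℕ} (h : Strip C T D d r) {a w a0 p q : V}
    (hnaw : ¬ D.Adj a w)
    (hC : ∀ b c, D.Adj b c → C.Cross a w b c →
      (∃ i, i ≤ r ∧ (d i).2 = b) ∧ (∃ i, i ≤ r ∧ (d i).2 = c))
    (hr : Rep C T D D' a w)
    (hpq : (p = a0 ∧ q = w) ∨ (p = w ∧ q = a0)) (hT : T.Adj p q)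
    (hf : Face C D' p q a) :
    ∃ c, (∃ i, i ≤ r ∧ (d i).2 = c) ∧ Face C D p q c ∧ ¬ T.Adj a0 c ∧ C.Cross a w a0 c ∧
      (∃ i, i ≤ r ∧ (d i).2 = a0) := by
  have hsame : ∀ x y z, ¬ C.Cross x y y z := fun x y z hc => (C.cross_ne hc).2.2.2.1 rfl
  have hsame' : ∀ x y z, ¬ C.Cross x y z y := fun x y z hc => (C.cross_ne hc).2.2.2.2.1 rfl
  obtain ⟨c, hc⟩ := face_exists C D hs.mp (hs.le hT) hf.2.2.2.1
  have hcr : C.Cross a w a0 c := by
    by_contra hncr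
    have hF : Face C D' p q c := by
      rcases hpq with ⟨rfl, rfl⟩ | ⟨rfl, rfl⟩
      · refine rep_face C T D D' hs hr hc (hsame' _ _ _) (hsame _ _ _) ?_
        exact fun hx => hncr (C.cross_symm34 hx)
      · refine rep_face C T D D' hs hr hc (hsame _ _ _) hncr (hsame' _ _ _)
    have hca : c = a := face_unique C D' hr.1.mp.1 hF hf
    subst hca
    rcases hpq with ⟨rfl, rfl⟩ | ⟨rfl, rfl⟩
    · exact hnaw hc.2.1.symm
    · exact hnaw hc.2.2.1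
  have hadj : D.Adj a0 c := by
    rcases hpq with ⟨rfl, rfl⟩ | ⟨rfl, rfl⟩
    · exact hc.2.2.1.symm
    · exact hc.2.1
  obtain ⟨⟨i, hi, rfl⟩, ⟨j, hj, rfl⟩⟩ := hC a0 c hadj hcr
  exact ⟨_, ⟨j, hj, rfl⟩, hc, strip_yy_not_T hs h hi hj, hcr, ⟨i, hi, rfl⟩⟩

/-- if `w` is not on the strip, the far side is not in `T` -/
theorem VNew_notT {C : Cfg V} {T D : SimpleGraph V} (hs : Setup C T D)
    {d : ℕ → V × V} {r : ℕ} (h : Strip C T D d r) {w a0 c : V}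
    (hw : ∀ i, i ≤ r → (d i).1 ≠ w ∧ (d i).2 ≠ w)
    (ha0 : ∃ i, i ≤ r ∧ (d i).2 = a0) (hc : ∃ i, i ≤ r ∧ (d i).2 = c)
    (hT : T.Adj a0 w) (hne : c ≠ a0) : ¬ T.Adj c w := by
  intro hcw
  obtain ⟨f, f1, f2, f3⟩ := tree_cut T hs.tree hT
  obtain ⟨i, hi, rfl⟩ := ha0
  obtain ⟨j, hj, rfl⟩ := hc
  have hf : ∀ k, k ≤ r → (f (d k).1 ↔ f (d k).2) := by
    intro k hk
    refine f3 _ _ (h.hwalk.adj hk) ?_ ?_
    · rintro ⟨-, h2⟩; exact (hw k hk).2 h2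
    · rintro ⟨h1, -⟩; exact (hw k hk).1 h1
  have h1 := (strip_conn h f hf hi hj).2.1
  have h2 : f (d j).2 ↔ f w := by
    refine f3 _ _ hcw ?_ ?_
    · rintro ⟨h1, -⟩; exact hne h1
    · rintro ⟨h1, -⟩; exact (hw j hj).2 h1
  exact f2 (h2.mp (h1.mp f1))

theorem VNew_notx {C : Cfg V} {T D : SimpleGraph V} {a w a0 p q c : V} {P : Prop}
    (hP : P)
    (hw : P → ∀ b c, Face C D w b c → 0 < C.o w b a →
      0 < C.o w a c → ¬ T.Adj w b ∧ ¬ T.Adj w c)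
    (hpq : (p = a0 ∧ q = w) ∨ (p = w ∧ q = a0)) (hT : T.Adj p q)
    (ha : 0 < C.o p q a) (hf : Face C D p q c) (hcr : C.Cross a w a0 c) : False := by
  rcases hpq with ⟨rfl, rfl⟩ | ⟨rfl, rfl⟩
  · -- face `p q c`, `q = w`, `p = a0`: face `w c a0`
    have h1 : 0 < C.o q a p := by rw [← C.o_cyc]; exact ha
    have h2 : 0 < C.o q c a := by
      rcases C.cross_pattern hcr with ⟨k1, k2, -, -⟩ | ⟨k1, k2, -, -⟩
      · exfalso
        rw [C.o_swap a q p] at k1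
        linarith
      · rw [C.o_cyc' q c a]; exact k2
    exact (hw hP c p hf.rot h2 h1).2 hT.symm
  · have h1 : 0 < C.o p q a := ha
    have h2 : 0 < C.o p a c := by
      rcases C.cross_pattern hcr with ⟨k1, k2, -, -⟩ | ⟨k1, k2, -, -⟩
      · rw [C.o_swap p a c]; linarith
      · exfalso
        rw [C.o_cyc a p q] at k1
        linarith
    exact (hw hP q c hf h1 h2).1 hT

theorem vnew [Finite V] {C : Cfg V} {T D D' : SimpleGraph V} (hs : Setup C T D)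
    {d : ℕ → V × V} {r t : ℕ} (h : Strip C T D d r) (ht : t < r)
    (hX : (d (t + 1)).1 = (d t).1) {w : V}
    (hcr : C.Cross (d t).1 w (d t).2 (d (t + 1)).2)
    (hC : ∀ b c, D.Adj b c → C.Cross (d t).1 w b c →
      (∃ i, i ≤ r ∧ (d i).2 = b) ∧ (∃ i, i ≤ r ∧ (d i).2 = c))
    (hw : (∃ i, i ≤ r ∧ (d i).1 = w) → ∀ b c, Face C D w b c → 0 < C.o w b (d t).1 →
      0 < C.o w (d t).1 c → ¬ T.Adj w b ∧ ¬ T.Adj w c)
    (hr : Rep C T D D' (d t).1 w) {δ δ' : V × V} (h1 : Step C T D' δ δ')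
    (h2 : ¬ Step C T D δ δ') :
    ∃ a0, (∃ i, i ≤ r ∧ (d i).2 = a0) ∧ T.Adj a0 (d t).1 ∧ T.Adj a0 w ∧
      (∀ i, i ≤ r → (d i).1 ≠ w ∧ (d i).2 ≠ w) ∧
      ((((δ = (a0, w) ∧ δ' = (a0, (d t).1)) ∨ (δ = (w, a0) ∧ δ' = ((d t).1, a0))) ∧
          ∃ c, (∃ i, i ≤ r ∧ (d i).2 = c) ∧ Face C D δ.1 δ.2 c ∧ ¬ T.Adj δ.1 c ∧
            ¬ T.Adj c δ.2) ∨
       (((δ = (a0, (d t).1) ∧ δ' = (a0, w)) ∨ (δ = ((d t).1, a0) ∧ δ' = (w, a0))) ∧
          ∃ c, (∃ i, i ≤ r ∧ (d i).2 = c) ∧ Face C D δ'.2 δ'.1 c ∧ ¬ T.Adj δ'.2 c ∧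
            ¬ T.Adj c δ'.1)) := by
  obtain ⟨a, ha⟩ : ∃ a, a = (d t).1 := ⟨_, rfl⟩
  rw [← ha] at hcr hC hw hr ⊢
  -- `a w` is not an edge of `D`
  have hbase : D.Adj (d t).2 (d (t + 1)).2 := by
    rcases strip_step hs h ht with ⟨-, -, h3⟩ | ⟨-, h4, -⟩
    · exact h3.2.1
    · exact absurd hX h4
  have hnaw : ¬ D.Adj a w := fun haw => hs.mp.1 _ _ _ _ haw hbase hcr
  obtain ⟨a0, b, c, hab, hac, hbc, -, -, ⟨x', hx1, hx2⟩, hb, hc, hd⟩ := new_step hs hr h1 h2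
  obtain ⟨ha0, -⟩ := hC a0 x' hx1 hx2
  have hny : ∀ z, T.Adj a0 z → ¬ ∃ i, i ≤ r ∧ (d i).2 = z := by
    rintro z hz ⟨j, hj, rfl⟩
    obtain ⟨i, hi, hi2⟩ := ha0
    rw [← hi2] at hz
    exact strip_yy_not_T hs h hi hj hz
  have hb' : b = a ∨ b = w := by
    rcases hb with hb | hb | ⟨w', hw1, hw2⟩
    · exact Or.inl hb
    · exact Or.inr hb
    · exact absurd (hC b w' hw1 hw2).1 (hny b hab)
  have hc' : c = a ∨ c = w := by
    rcases hc with hc | hc | ⟨w', hw1, hw2⟩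
    · exact Or.inl hc
    · exact Or.inr hc
    · exact absurd (hC c w' hw1 hw2).1 (hny c hac)
  have haw : T.Adj a0 a ∧ T.Adj a0 w := by
    rcases hb' with rfl | rfl <;> rcases hc' with rfl | rfl
    · exact absurd rfl hbc
    · exact ⟨hab, hac⟩
    · exact ⟨hac, hab⟩
    · exact absurd rfl hbc
  -- the key for a dart on `a0 w` with `a` on its left
  have key : ∀ p q, ((p = a0 ∧ q = w) ∨ (p = w ∧ q = a0)) → Face C D' p q a →
      (∀ i, i ≤ r → (d i).1 ≠ w ∧ (d i).2 ≠ w) ∧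
      ∃ c, (∃ i, i ≤ r ∧ (d i).2 = c) ∧ Face C D p q c ∧ ¬ T.Adj p c ∧ ¬ T.Adj c q := by
    intro p q hpq hf
    have hTpq : T.Adj p q := by
      rcases hpq with ⟨rfl, rfl⟩ | ⟨rfl, rfl⟩
      · exact haw.2
      · exact haw.2.symm
    obtain ⟨c, hc1, hc2, hc3, hc4, -⟩ := VNew_apex hs h hnaw hC hr hpq hTpq hf
    have hwn : ∀ i, i ≤ r → (d i).1 ≠ w ∧ (d i).2 ≠ w := by
      intro i hi
      refine ⟨fun hx => ?_, fun hx => ?_⟩
      · exact VNew_notx (P := ∃ i, i ≤ r ∧ (d i).1 = w) ⟨i, hi, hx⟩ hw hpq hTpq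
          hf.2.2.2.1 hc2 hc4
      · exact hny w haw.2 ⟨i, hi, hx⟩
    have hca : c ≠ a0 := fun hx => (C.cross_ne hc4).2.2.2.2.2 hx.symm
    have hcw := VNew_notT hs h hwn ha0 hc1 haw.2 hca
    refine ⟨hwn, c, hc1, hc2, ?_⟩
    rcases hpq with ⟨rfl, rfl⟩ | ⟨rfl, rfl⟩
    · exact ⟨hc3, hcw⟩
    · exact ⟨fun hx => hcw hx.symm, fun hx => hc3 hx.symm⟩
  refine ⟨a0, ha0, haw.1, haw.2, ?_⟩
  rcases hb' with rfl | rfl <;> rcases hc' with rfl | rfl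
  · exact absurd rfl hbc
  · -- `b = a`, `c = w`
    rcases hd with ⟨hd1, hd2, hd3, -⟩ | ⟨hd1, hd2, hd3, -⟩
    · obtain ⟨k1, k2⟩ := key _ _ (Or.inr ⟨rfl, rfl⟩) hd3.rot.rot
      refine ⟨k1, Or.inr ⟨Or.inl ⟨hd1, hd2⟩, ?_⟩⟩
      rw [hd2]; exact k2
    · obtain ⟨k1, k2⟩ := key _ _ (Or.inl ⟨rfl, rfl⟩) hd3.rot
      refine ⟨k1, Or.inr ⟨Or.inr ⟨hd1, hd2⟩, ?_⟩⟩
      rw [hd2]; exact k2
  · -- `b = w`, `c = a`
    rcases hd with ⟨hd1, hd2, hd3, -⟩ | ⟨hd1, hd2, hd3, -⟩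
    · obtain ⟨k1, k2⟩ := key _ _ (Or.inl ⟨rfl, rfl⟩) hd3
      refine ⟨k1, Or.inl ⟨Or.inl ⟨hd1, hd2⟩, ?_⟩⟩
      rw [hd1]; exact k2
    · obtain ⟨k1, k2⟩ := key _ _ (Or.inr ⟨rfl, rfl⟩) hd3
      refine ⟨k1, Or.inl ⟨Or.inr ⟨hd1, hd2⟩, ?_⟩⟩
      rw [hd1]; exact k2
  · exact absurd rfl hbc

end CT
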