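import Pool.Agent.H7.CT.Descent
import Pool.Agent.H7.CT.Chain
import Pool.Agent.H7.CT.VLem

/-! # CT module Visible: no window of an unblocked strip is visible from its far apex

Proof. `w` := far apex, `Face y_q y_p w`, C1 and C2 given, C3 from the face. I1: at `y_p`, `Face y_p w y_q`: `x_p` is not in the sector (`sector`), `0 < o y_p w x_p` (C1), so `o y_p x_p y_q < 0`. I2 similarly at `y_q`, `Face y_q y_p w`.
`descent` gives `t`, `W0`. `chain` with `a = x_t`, `b0 = y_p, c0 = y_q`, `b1 = y_t, c1 = y_{t+1}` (`Face y_t y_{t+1} x_t`, `strip_step`): all edges crossing `x_t w` (oriented with `x_t` left) are in `W0`. Apply `vlem`: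
`hC`: clear. `hcut`: `j < r`, `x_{j+1} = x_j`, `x_t w` crosses `y_j y_{j+1}`; `Face y_j y_{j+1} x_j`. If `x_t` is left of `y_j → y_{j+1}`: `W0 y_j y_{j+1}`; near face: `y_j = y_t`, `y_{j+1} = y_{t+1}`, then `x_j = x_t` by `face_unique` and `j = t` (`HWalk.inj`), or
`Face y_j y_{j+1} z`, `z` a `y`, but `z = x_j` (`strip_xy_ne`). If right: `W0 y_{j+1} y_j`, far face `Face y_j y_{j+1} z`, `z` a `y`: same contradiction; or `y_{j+1} = y_p`, `y_j = y_q`: `Face y_j y_{j+1} w`, `w = x_j`, contradiction with `Win.far_x` (`T.Adj x_j y_j`).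
`hw`: `w = x_i`: a face `w b c` whose sector contains `x_t` is `w y_q y_p` (`face_eq_of_sector`; `x_t w` crosses `y_p y_q`, `W0 y_p y_q`); `Win.far_x`. -/

open Classical

namespace CT

variable {V : Type}

theorem visible [Finite V] {C : Cfg V} {T D : SimpleGraph V} (hm : Min C T D)
    {d : ℕ → V × V} {r p q : ℕ} (h : Strip C T D d r) (hnb : ¬ ∃ e', BlkBy C T D (d 0) e')
    (hW : Win C D d r p q) {w : V} (hf : Face C D (d q).2 (d p).2 w)
    (C1 : 0 < C.o (d p).1 (d p).2 w) (C2 : C.o (d q).1 (d q).2 w < 0) : False := by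
  have hs := hm.1
  obtain ⟨hpq, hqr⟩ := hW.lt
  have hpr : p ≤ r := by omega
  have hTp : T.Adj (d p).1 (d p).2 := h.hwalk.adj hpr
  have hTq : T.Adj (d q).1 (d q).2 := h.hwalk.adj hqr
  have hypq : (d q).2 ≠ (d p).2 := hf.ne.1
  have C3 : C.o (d p).2 (d q).2 w < 0 := by
    have h1 := hf.2.2.2.1
    rw [C.o_swap] at h1
    linarith
  have I1 : 0 < C.o (d p).1 (d p).2 (d q).2 := by
    have h1 := sector C D hs.mp.1 hf.rot (hs.le hTp.symm)
    rw [C.o_cyc (d p).1 (d p).2 w] at C1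
    have h2 : ¬ 0 < C.o (d p).2 (d p).1 (d q).2 := fun h3 => h1 ⟨C1, h3⟩
    rcases C.o_pos_or_neg hTp.ne' hypq.symm (strip_xy_ne hs h hpr hqr) with h3 | h3
    · exact absurd h3 h2
    · rw [C.o_swap]; linarith
  have I2 : C.o (d q).1 (d q).2 (d p).2 < 0 := by
    have h1 := sector C D hs.mp.1 hf (hs.le hTq.symm)
    rw [C.o_swap] at C2
    have h2 : ¬ 0 < C.o (d q).2 (d p).2 (d q).1 := fun h3 => h1 ⟨h3, by linarith⟩
    rcases C.o_pos_or_neg hypq hTq.ne' (strip_xy_ne hs h hqr hpr).symm with h3 | h3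
    · exact absurd h3 h2
    · rw [C.o_cyc]; exact h3
  obtain ⟨t, hpt, htq, hX, W0, hW1, hW2, hA, hB, hCC⟩ := descent hs h hW C1 C2 C3 I1 I2
  have htr : t < r := by omega
  have hstep : ∀ j, j < r → (d (j + 1)).1 = (d j).1 → Face C D (d j).1 (d j).2 (d (j + 1)).2 := by
    intro j hj hjx
    rcases strip_step hs h hj with ⟨-, -, h3⟩ | ⟨-, h4, -⟩
    · exact h3
    · exact absurd hjx h4
  have hFt := (hstep t htr hX).rot
  have hch := chain hs.mp (a := (d t).1) (w := w) W0 hf hFt hW1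
    (fun b c hbc => ⟨(hA b c hbc).1, (hA b c hbc).2.2.2⟩)
    (fun b c hbc => by
      rcases hCC b c hbc with h1 | ⟨z, -, h2, h3⟩
      · exact Or.inl h1
      · exact Or.inr ⟨z, h2, h3⟩)
  have hfull : ∀ b c, D.Adj b c → C.Cross (d t).1 w b c → W0 b c ∨ W0 c b := by
    intro b c hbc hcr
    have hne := C.cross_ne hcr
    rcases C.o_pos_or_neg hne.2.2.2.2.2 hne.2.1.symm hne.2.2.1.symm with h1 | h1
    · exact Or.inl (hch b c hbc hcr h1)
    · refine Or.inr (hch c b hbc.symm (C.cross_symm34 hcr) ?_)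
      rw [C.o_swap]; linarith
  refine hnb (vlem hm h htr hX (hA _ _ hW1).2.2.2.1 ?_ ?_ ?_)
  · intro b c hbc hcr
    rcases hfull b c hbc hcr with h1 | h1
    · exact ⟨(hA _ _ h1).2.1, (hA _ _ h1).2.2.1⟩
    · exact ⟨(hA _ _ h1).2.2.1, (hA _ _ h1).2.1⟩
  · intro j hj hjx hcr
    have hFj := (hstep j hj hjx).rot
    rcases hfull _ _ hFj.1 hcr with h1 | h1
    · rcases hB _ _ h1 with ⟨h2, h3⟩ | ⟨z, ⟨i, hi, rfl⟩, h2⟩
      · rw [h2, h3] at hFj
        have h4 : (d j).1 = (d t).1 := face_unique C D hs.mp.1 hFj hFt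
        exact HWalk.inj hs h.hwalk hj.le htr.le (Prod.ext h4 h2)
      · exact absurd (face_unique C D hs.mp.1 hFj h2) (strip_xy_ne hs h hj.le hi)
    · rcases hCC _ _ h1 with ⟨h2, h3⟩ | ⟨z, ⟨i, hi, rfl⟩, h2, -⟩
      · rw [h2, h3] at hFj
        exfalso
        have h5 := (Win.far_x hs h hW hj.le hFj).2
        have h6 := h.hwalk.adj hj.le
        rw [h3] at h6
        exact h5 h6
      · exact absurd (face_unique C D hs.mp.1 hFj h2) (strip_xy_ne hs h hj.le hi)
  · rintro ⟨i, hi, rfl⟩ b c hbc h1 h2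
    have hpat := (hA _ _ hW2).2.2.2
    have h3 : 0 < C.o (d i).1 (d q).2 (d t).1 ∧ 0 < C.o (d i).1 (d t).1 (d p).2 := by
      rcases C.cross_pattern hpat.1 with ⟨-, -, k, -⟩ | ⟨k1, k2, -, -⟩
      · exfalso; linarith [hpat.2]
      · refine ⟨?_, ?_⟩
        · rw [← C.o_cyc]; exact k2
        · rw [C.o_swap]; linarith
    obtain ⟨rfl, rfl⟩ := face_eq_of_sector C D hs.mp.1 hbc hf.rot.rot h1 h2 h3.1 h3.2
    exact (Win.far_x hs h hW hi hf).symm

end CT
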