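import Pool.Agent.H7.CT.Strip1

/-! # CT module Win: windows on the right side of a strip

`Win p q`: `p < q`, the edge `y_p y_q` of `D` is on the right of the strip and the region between it and the chain `y_p … y_q` contains only faces with vertices `y_i`.
`Win` facts by induction (`p` is the last time of its `y`, `q` the first time of its `y`; `strip_interval_y`, `strip_step`). -/

open Classical

namespace CT

variable {V : Type}

inductive Win (C : Cfg V) (D : SimpleGraph V) (d : ℕ → V × V) (r : ℕ) : ℕ → ℕ → Prop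
  | base {j : ℕ} : j < r → (d (j + 1)).1 = (d j).1 → Win C D d r j (j + 1)
  | merge {p q q' s : ℕ} : Win C D d r p q → q ≤ q' → (d q').2 = (d q).2 →
      Win C D d r q' s → Face C D (d p).2 (d s).2 (d q).2 → Win C D d r p s

theorem Win.lt {C : Cfg V} {D : SimpleGraph V} {d : ℕ → V × V} {r p q : ℕ}
    (h : Win C D d r p q) : p < q ∧ q ≤ r := by
  induction h with
  | base hj _ => exact ⟨Nat.lt_succ_self _, hj⟩
  | merge _ h2 _ _ _ ih1 ih2 => exact ⟨by omega, ih2.2⟩

theorem Win.stepX {C : Cfg V} {D : SimpleGraph V} {d : ℕ → V × V} {r p q : ℕ}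
    (h : Win C D d r p q) : (d (p + 1)).1 = (d p).1 ∧ (d q).1 = (d (q - 1)).1 := by
  induction h with
  | base _ h2 => exact ⟨h2, by simpa using h2⟩
  | merge _ _ _ _ _ ih1 ih2 => exact ⟨ih1.1, ih2.2⟩

/-- a step which keeps `x` changes `y` -/
theorem Win_ne {C : Cfg V} {T D : SimpleGraph V} (hs : Setup C T D) {d : ℕ → V × V}
    {r j : ℕ} (hS : Strip C T D d r) (hj : j < r) (hx : (d (j + 1)).1 = (d j).1) :
    (d (j + 1)).2 ≠ (d j).2 ∧ Face C D (d j).1 (d j).2 (d (j + 1)).2 := by
  rcases strip_step hs hS hj with h | h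
  · exact ⟨h.2.1, h.2.2⟩
  · exact absurd hx h.2.1

theorem Win.adj {C : Cfg V} {T D : SimpleGraph V} (hs : Setup C T D) {d : ℕ → V × V}
    {r p q : ℕ} (hS : Strip C T D d r) (h : Win C D d r p q) : D.Adj (d p).2 (d q).2 := by
  cases h with
  | base hj hx => exact (Win_ne hs hS hj hx).2.2.1
  | merge _ _ _ _ hf => exact hf.1

/-- `q` is the first time of `y_q` -/
theorem Win.first {C : Cfg V} {T D : SimpleGraph V} (hs : Setup C T D) {d : ℕ → V × V}
    {r p q i : ℕ} (hS : Strip C T D d r) (h : Win C D d r p q) (hi : i ≤ r)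
    (he : (d i).2 = (d q).2) : q ≤ i := by
  induction h with
  | base hj hx =>
    rename_i j
    by_contra hlt
    have h1 := strip_interval_y hs hS (i := i) (j := j) (k := j + 1) (by omega) (by omega)
      (by omega) he
    exact (Win_ne hs hS hj hx).1 (he.symm.trans h1.symm)
  | merge _ _ _ _ _ _ ih2 => exact ih2 he

/-- `p` is the last time of `y_p` -/
theorem Win.last {C : Cfg V} {T D : SimpleGraph V} (hs : Setup C T D) {d : ℕ → V × V}
    {r p q i : ℕ} (hS : Strip C T D d r) (h : Win C D d r p q) (hi : i ≤ r)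
    (he : (d i).2 = (d p).2) : i ≤ p := by
  induction h with
  | base hj hx =>
    rename_i j
    by_contra hlt
    have h1 := strip_interval_y hs hS (i := j) (j := j + 1) (k := i) (by omega) (by omega)
      hi he.symm
    exact (Win_ne hs hS hj hx).1 h1
  | merge _ _ _ _ _ ih1 _ => exact ih1 he

/-- `x_q` is not the far apex of a window, `x_p` neither; more generally no far apex of a window `y_p y_q` that is an `x` is `T`-adjacent to `y_p` or `y_q`.
Proof: let `w = x_i` be `T`-adjacent to `y_q`: `(w, y_q) = d k` (`strip_edge`), `k ≥ q` (`Win.first`); `Face w y_q y_p` is the face left of `d k`: `strip_left`: `y_p = y_{k+1}` (then `k+1 ≤ p`, contradiction) or `y_p = x_{k+1}` (no).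
`T`-adjacent to `y_p`: `(w,y_p) = d k`, `k ≤ p`, `Face y_p w y_q` is right of `d k`: `strip_right`: `y_q = y_{k-1}` (`q ≤ k-1 < p`, contradiction) or an `x` (no). -/
theorem Win.far_x {C : Cfg V} {T D : SimpleGraph V} (hs : Setup C T D) {d : ℕ → V × V}
    {r p q i : ℕ} (hS : Strip C T D d r) (h : Win C D d r p q) (hi : i ≤ r)
    (hf : Face C D (d q).2 (d p).2 (d i).1) :
    ¬ T.Adj (d i).1 (d p).2 ∧ ¬ T.Adj (d i).1 (d q).2 := by
  have hlt := h.lt
  constructor
  · intro hT
    obtain ⟨k, hk, hdk⟩ := strip_edge hs hS hi (by omega) hT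
    have hk2 : (d k).2 = (d p).2 := by rw [hdk]
    have hk1 : (d k).1 = (d i).1 := by rw [hdk]
    have hkp := h.last hs hS hk hk2
    have hf2 : Face C D (d k).2 (d k).1 (d q).2 := by
      rw [hk1, hk2]; exact hf.rot
    obtain ⟨h0, h1 | h1⟩ := strip_right hs hS hk hf2
    · have := h.first hs hS (i := k - 1) (by omega) h1.1.symm
      omega
    · exact strip_xy_ne hs hS (i := k - 1) (j := q) (by omega) hlt.2 h1.1.symm
  · intro hT
    obtain ⟨k, hk, hdk⟩ := strip_edge hs hS hi hlt.2 hT
    have hk2 : (d k).2 = (d q).2 := by rw [hdk]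
    have hk1 : (d k).1 = (d i).1 := by rw [hdk]
    have hkq := h.first hs hS hk hk2
    have hf2 : Face C D (d k).1 (d k).2 (d p).2 := by
      rw [hk1, hk2]; exact hf.rot.rot
    obtain ⟨h0, h1 | h1⟩ := strip_left hs hS hk hf2
    · have := h.last hs hS (i := k + 1) (by omega) h1.1.symm
      omega
    · exact strip_xy_ne hs hS (i := k + 1) (j := p) (by omega) (by omega) h1.1.symm

end CT
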