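import Pool.Agent.H7.CT.Visible
import Pool.Agent.H7.CT.Scan

/-! # CT module WinG (G)

Strong induction on `q`. Let `Win p q`, `Face y_q y_p w`, and suppose not `0 < o x_q y_q w`. `w ≠ x_q` (`Win.far_x`: `x_q` is `T`-adjacent to `y_q`), so `o x_q y_q w < 0`. `w ≠ x_p` (same). By `visible` not `0 < o x_p y_p w`, so `o x_p y_p w < 0`.
Let `p1 ≤ p` be the first time of `y_p` (`Nat.find`; `strip_interval_y`: `y` is constant on `[p1,p]`). For `j` from `p` down to `p1`: `o x_j y_p w < 0`: step `j-1` keeps `y` (`strip_step`), `Face x_{j-1} y x_j`, i.e. `Face y x_j x_{j-1}`; `w ≠ x_{j-1}` (`Win.far_x`: `x_{j-1}` is `T`-adjacent to `y_p`), and `o x_{j-1} y w > 0` would put `w` in the sector (`sector`).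
`p1 ≠ 0` (`hd_left`: `w` would be left of `d 0`). Step `p1-1` keeps `x` (otherwise `y_{p1-1} = y_{p1}`). `scan` at `p1` (`p1 ≤ p < q`; `hG` is the induction hypothesis) with `z = w`: `Win p' p1`, `w = y_{p'}`. `Win.merge`: `Face y_{p'} y_q y_{p1}` is a rotation of `Face y_q y_p w`. `p' < p1 ≤ p`. -/

open Classical

namespace CT

variable {V : Type}

theorem winG [Finite V] {C : Cfg V} {T D : SimpleGraph V} (hm : Min C T D)
    {d : ℕ → V × V} {r : ℕ} (h : Strip C T D d r) (hnb : ¬ ∃ e', BlkBy C T D (d 0) e') :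
    ∀ q p w, Win C D d r p q → Face C D (d q).2 (d p).2 w →
      0 < C.o (d q).1 (d q).2 w ∨ ∃ p', p' < p ∧ Win C D d r p' q ∧ w = (d p').2 := by
  have hs := hm.1
  intro q
  induction q using Nat.strong_induction_on with
  | _ q ih =>
  intro p w hW hf
  by_contra hcon
  push Not at hcon
  obtain ⟨h1, h2⟩ := hcon
  obtain ⟨hpq, hqr⟩ := hW.lt
  have hpr : p ≤ r := by omega
  have hadj : ∀ j, j ≤ r → T.Adj (d j).1 (d j).2 := fun j hj => h.hwalk.adj hj
  have hwx : ∀ j, j ≤ r → (d j).2 = (d p).2 → w ≠ (d j).1 := by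
    intro j hj hy hw
    rw [hw] at hf
    have := (Win.far_x hs h hW hj hf).1
    apply this
    rw [← hy]
    exact hadj j hj
  have hwxq : w ≠ (d q).1 := by
    intro hw
    rw [hw] at hf
    exact (Win.far_x hs h hW hqr hf).2 (hadj q hqr)
  have hwyq : w ≠ (d q).2 := hf.ne.2.1.symm
  have hwyp : w ≠ (d p).2 := hf.ne.2.2.symm
  have hC2 : C.o (d q).1 (d q).2 w < 0 := by
    rcases C.o_pos_or_neg (hadj q hqr).ne hwxq.symm hwyq.symm with h3 | h3
    · exact absurd h3 (not_lt.2 h1)
    · exact h3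
  have hC1 : C.o (d p).1 (d p).2 w < 0 := by
    rcases C.o_pos_or_neg (hadj p hpr).ne (hwx p hpr rfl).symm hwyp.symm with h3 | h3
    · exact (visible hm h hnb hW hf h3 hC2).elim
    · exact h3
  have hex : ∃ i, (d i).2 = (d p).2 := ⟨p, rfl⟩
  obtain ⟨p1, hp1, hmin⟩ : ∃ p1, (d p1).2 = (d p).2 ∧ ∀ i, i < p1 → (d i).2 ≠ (d p).2 :=
    ⟨Nat.find hex, Nat.find_spec hex, fun i hi => Nat.find_min hex hi⟩
  have hp1p : p1 ≤ p := by
    by_contra hlt
    push Not at hlt
    exact hmin p hlt rfl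
  have hconst : ∀ j, p1 ≤ j → j ≤ p → (d j).2 = (d p).2 := by
    intro j hj1 hj2
    rw [strip_interval_y hs h hj1 hj2 hpr hp1, hp1]
  have hneg : ∀ t, t ≤ p - p1 → C.o (d (p - t)).1 (d p).2 w < 0 := by
    intro t
    induction t with
    | zero => intro _; exact hC1
    | succ t iht =>
      intro ht
      have h3 := iht (by omega)
      have hj : p - t = (p - (t + 1)) + 1 := by omega
      have hjr : p - (t + 1) < r := by omega
      have hy1 : (d (p - (t + 1))).2 = (d p).2 := hconst _ (by omega) (by omega)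
      have hy2 : (d (p - t)).2 = (d p).2 := hconst _ (by omega) (by omega)
      rw [hj] at h3 hy2
      have hst := strip_step hs h hjr
      generalize p - (t + 1) = j at h3 hy1 hy2 hst hjr ⊢
      rcases hst with ⟨_, h5, _⟩ | ⟨_, _, h6⟩
      · exact absurd (hy2.trans hy1.symm) h5
      · have h7 := sector C D hs.mp.1 h6.rot (z := w) (by rw [hy1]; exact hf.2.1)
        rw [hy1] at h7
        have h8 : 0 < C.o (d p).2 (d (j + 1)).1 w := by
          rw [C.o_swap]; linarith
        have h9 : ¬ 0 < C.o (d j).1 (d p).2 w := by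
          intro h10
          apply h7
          refine ⟨h8, ?_⟩
          rw [← C.o_cyc]; exact h10
        have hne : (d j).1 ≠ (d p).2 := by
          rw [← hy1]; exact (hadj j hjr.le).ne
        rcases C.o_pos_or_neg hne (hwx j hjr.le hy1).symm hwyp.symm with h10 | h10
        · exact absurd h10 h9
        · exact h10
  have hnp1 : C.o (d p1).1 (d p1).2 w < 0 := by
    have h3 := hneg (p - p1) le_rfl
    rw [Nat.sub_sub_self hp1p] at h3
    rw [hp1]
    exact h3
  have hp10 : 0 < p1 := by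
    by_contra h0
    have h0' : p1 = 0 := by omega
    subst h0'
    have hne := C.ne_of_o_neg hnp1
    have := hd_left h.hd hne.2.1.symm hne.2.2.symm
    linarith
  have hxk : (d p1).1 = (d (p1 - 1)).1 := by
    have hst := strip_step hs h (j := p1 - 1) (by omega)
    rw [Nat.sub_add_cancel hp10] at hst
    rcases hst with ⟨h4, _, _⟩ | ⟨h4, _, _⟩
    · exact h4
    · exact absurd (h4.symm.trans hp1) (hmin (p1 - 1) (by omega))
  obtain ⟨p', hW', hwp'⟩ := scan hs h (q := p1) (by omega) hp10 hxk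
    (fun p2 w2 hW2 hf2 => ih p1 (by omega) p2 w2 hW2 hf2)
    (z := w) (by rw [hp1]; exact hf.2.1) hnp1
  have hmerge : Win C D d r p' q := by
    refine Win.merge hW' hp1p hp1.symm hW ?_
    rw [hp1, ← hwp']
    exact hf.rot.rot
  exact h2 p' (lt_of_lt_of_le hW'.lt.1 hp1p) hmerge hwp'

end CT
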